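import Pool.Agent.U631.TD.T3
set_option autoImplicit false
set_option maxSynthPendingDepth 6
open Topology Filter
namespace Pool.Agent.U631.TD
open H506R3.Lau

abbrev W := V × V

/-- the vertical vectors -/
noncomputable def io : V →L[ℝ] W := ContinuousLinearMap.inr ℝ V V

lemma io_apply (v : V) : io v = (0, v) := rfl

lemma pair_eq (a b : V) : ((a, b) : W) = (a, 0) + io b := by
  simp [io_apply]

noncomputable def T1 (q : W → ℝ) : W → (W →L[ℝ] ℝ) := fderiv ℝ q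
noncomputable def T2 (q : W → ℝ) : W → (W →L[ℝ] W →L[ℝ] ℝ) := fderiv ℝ (T1 q)
noncomputable def T3 (q : W → ℝ) : W → (W →L[ℝ] W →L[ℝ] W →L[ℝ] ℝ) := fderiv ℝ (T2 q)
noncomputable def T4 (q : W → ℝ) : W → (W →L[ℝ] W →L[ℝ] W →L[ℝ] W →L[ℝ] ℝ) := fderiv ℝ (T3 q)

section gen
variable {Z : Type} [NormedAddCommGroup Z] [NormedSpace ℝ Z]

/-- smooth at all points of `Ω` -/
def SmO (Ω : Set W) (f : W → Z) : Prop := ∀ p ∈ Ω, ContDiffAt ℝ ((⊤ : ℕ∞) : WithTop ℕ∞) f p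

variable {Ω : Set W} {f : W → Z}

lemma SmO.fd (h : SmO Ω f) : SmO Ω (fderiv ℝ f) := fun p hp => (h p hp).fderiv_right top_add_one

lemma SmO.hd (h : SmO Ω f) {p : W} (hp : p ∈ Ω) : HasFDerivAt f (fderiv ℝ f p) p :=
  ((h p hp).differentiableAt top_ne_zero').hasFDerivAt

lemma symW {p : W} (hf : ContDiffAt ℝ ((⊤ : ℕ∞) : WithTop ℕ∞) f p) (u v : W) :
    fderiv ℝ (fderiv ℝ f) p u v = fderiv ℝ (fderiv ℝ f) p v u := by
  have := hf.isSymmSndFDerivAt (by simp; exact WithTop.coe_le_coe.2 (le_top : (2:ℕ∞) ≤ ⊤))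
  exact this u v

lemma SmO.s2 (h : SmO Ω f) {p : W} (hp : p ∈ Ω) (u v : W) :
    fderiv ℝ (fderiv ℝ f) p u v = fderiv ℝ (fderiv ℝ f) p v u := symW (h p hp) u v

lemma SmO.app (h : SmO Ω f) (u : W) : SmO Ω (fun p => fderiv ℝ f p u) := fun p hp =>
  (h.fd p hp).clm_apply contDiffAt_const

lemma fd_zero (hΩ : IsOpen Ω) {p : W} (hp : p ∈ Ω) {L : W →L[ℝ] Z} (hL : HasFDerivAt f L p)
    (h0 : ∀ r ∈ Ω, f r = 0) : L = 0 := by
  have h1 : f =ᶠ[𝓝 p] fun _ => 0 := by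
    filter_upwards [hΩ.mem_nhds hp] with r hr using h0 r hr
  exact ((hasFDerivAt_const (0:Z) p).congr_of_eventuallyEq h1).unique hL |>.symm

lemma fd_congr (hΩ : IsOpen Ω) {p : W} (hp : p ∈ Ω) {g : W → Z} {L L' : W →L[ℝ] Z} (hL : HasFDerivAt f L p)
    (hL' : HasFDerivAt g L' p) (h0 : ∀ r ∈ Ω, f r = g r) : L = L' := by
  have h1 : f =ᶠ[𝓝 p] g := by
    filter_upwards [hΩ.mem_nhds hp] with r hr using h0 r hr
  exact (hL'.congr_of_eventuallyEq h1).unique hL |>.symm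

/-- third derivatives of a smooth map -/
lemma SmO.s3a (h : SmO Ω f) {p : W} (hp : p ∈ Ω) (u v w : W) :
    fderiv ℝ (fderiv ℝ (fderiv ℝ f)) p u v w = fderiv ℝ (fderiv ℝ (fderiv ℝ f)) p v u w :=
  congrArg (fun L : W →L[ℝ] Z => L w) (h.fd.s2 hp u v)

lemma SmO.s3b (hΩ : IsOpen Ω) (h : SmO Ω f) {p : W} (hp : p ∈ Ω) (u v w : W) :
    fderiv ℝ (fderiv ℝ (fderiv ℝ f)) p u v w = fderiv ℝ (fderiv ℝ (fderiv ℝ f)) p u w v := by
  have h1 := ((h.fd.fd.hd hp).clm_apply (hasFDerivAt_const v p)).clm_apply (hasFDerivAt_const w p)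
  have h2 := ((h.fd.fd.hd hp).clm_apply (hasFDerivAt_const w p)).clm_apply (hasFDerivAt_const v p)
  have h3 := congrArg (fun L : W →L[ℝ] Z => L u) (fd_congr hΩ hp h1 h2 (fun r hr => h.s2 hr v w))
  simpa using h3

lemma SmO.s4a (h : SmO Ω f) {p : W} (hp : p ∈ Ω) (u v w z : W) :
    fderiv ℝ (fderiv ℝ (fderiv ℝ (fderiv ℝ f))) p u v w z = fderiv ℝ (fderiv ℝ (fderiv ℝ (fderiv ℝ f))) p v u w z :=
  congrArg (fun L : W →L[ℝ] Z => L z) (h.fd.s3a hp u v w)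

lemma SmO.s4b (hΩ : IsOpen Ω) (h : SmO Ω f) {p : W} (hp : p ∈ Ω) (u v w z : W) :
    fderiv ℝ (fderiv ℝ (fderiv ℝ (fderiv ℝ f))) p u v w z = fderiv ℝ (fderiv ℝ (fderiv ℝ (fderiv ℝ f))) p u w v z :=
  congrArg (fun L : W →L[ℝ] Z => L z) (h.fd.s3b hΩ hp u v w)

lemma SmO.s4c (hΩ : IsOpen Ω) (h : SmO Ω f) {p : W} (hp : p ∈ Ω) (u v w z : W) :
    fderiv ℝ (fderiv ℝ (fderiv ℝ (fderiv ℝ f))) p u v w z = fderiv ℝ (fderiv ℝ (fderiv ℝ (fderiv ℝ f))) p u v z w := by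
  have h1 := (((h.fd.fd.fd.hd hp).clm_apply (hasFDerivAt_const v p)).clm_apply (hasFDerivAt_const w p)).clm_apply
    (hasFDerivAt_const z p)
  have h2 := (((h.fd.fd.fd.hd hp).clm_apply (hasFDerivAt_const v p)).clm_apply (hasFDerivAt_const z p)).clm_apply
    (hasFDerivAt_const w p)
  have h3 := congrArg (fun L : W →L[ℝ] Z => L u) (fd_congr hΩ hp h1 h2 (fun r hr => h.s3b hΩ hr v w z))
  simpa using h3

end gen

variable {Ω : Set W} {q : W → ℝ}

lemma hT1 (hq : SmO Ω q) {p : W} (hp : p ∈ Ω) {a : W → W} {a' : W →L[ℝ] W} (ha : HasFDerivAt a a' p) :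
    ∃ L : W →L[ℝ] ℝ, HasFDerivAt (fun r => T1 q r (a r)) L p ∧
      ∀ z, L z = T2 q p z (a p) + T1 q p (a' z) := by
  refine ⟨_, (hq.fd.hd hp).clm_apply ha, fun z => ?_⟩
  simp [T2, T1]; ring

lemma hT2 (hq : SmO Ω q) {p : W} (hp : p ∈ Ω) {a b : W → W} {a' b' : W →L[ℝ] W} (ha : HasFDerivAt a a' p)
    (hb : HasFDerivAt b b' p) :
    ∃ L : W →L[ℝ] ℝ, HasFDerivAt (fun r => T2 q r (a r) (b r)) L p ∧
      ∀ z, L z = T3 q p z (a p) (b p) + T2 q p (a' z) (b p) + T2 q p (a p) (b' z) := by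
  refine ⟨_, ((hq.fd.fd.hd hp).clm_apply ha).clm_apply hb, fun z => ?_⟩
  simp [T3, T2, T1]; ring

lemma hT3 (hq : SmO Ω q) {p : W} (hp : p ∈ Ω) {a b c : W → W} {a' b' c' : W →L[ℝ] W} (ha : HasFDerivAt a a' p)
    (hb : HasFDerivAt b b' p) (hc : HasFDerivAt c c' p) :
    ∃ L : W →L[ℝ] ℝ, HasFDerivAt (fun r => T3 q r (a r) (b r) (c r)) L p ∧
      ∀ z, L z = T4 q p z (a p) (b p) (c p) + T3 q p (a' z) (b p) (c p) + T3 q p (a p) (b' z) (c p)
        + T3 q p (a p) (b p) (c' z) := by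
  refine ⟨_, (((hq.fd.fd.fd.hd hp).clm_apply ha).clm_apply hb).clm_apply hc, fun z => ?_⟩
  simp [T4, T3, T2, T1]; ring

/-- A vector field `(a, A)` with constant horizontal part which preserves the fibre metric. -/
structure PF (Ω : Set W) (q : W → ℝ) (a : V) (A : W → V) : Prop where
  sm : SmO Ω A
  hom : ∀ p ∈ Ω, ∀ t : ℝ, 0 < t → A (p.1, t • p.2) = t • A p
  pf : ∀ p ∈ Ω, ∀ u v : V, T3 q p (a, A p) (io u) (io v) + T2 q p (io (fderiv ℝ A p (io u))) (io v)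
    + T2 q p (io u) (io (fderiv ℝ A p (io v))) = 0

/-- the vertical part of the commutator -/
noncomputable def cm (a : V) (A : W → V) (b : V) (B : W → V) : W → V := fun p =>
  fderiv ℝ B p (a, A p) - fderiv ℝ A p (b, B p)

variable {a b : V} {A B : W → V}

lemma hpair {p : W} (a : V) {A : W → V} {A' : W →L[ℝ] V} (h : HasFDerivAt A A' p) :
    HasFDerivAt (fun r => ((a, A r) : W)) (io.comp A') p := by
  have h1 : HasFDerivAt (fun r => ((a, A r) : W)) ((0 : W →L[ℝ] V).prod A') p :=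
    (hasFDerivAt_const a p).prodMk h
  have h2 : (0 : W →L[ℝ] V).prod A' = io.comp A' := by
    ext z <;> simp [io_apply]
  rwa [h2] at h1

lemma hd_cm (hA : SmO Ω A) (hB : SmO Ω B) {p : W} (hp : p ∈ Ω) :
    ∃ L : W →L[ℝ] V, HasFDerivAt (cm a A b B) L p ∧ ∀ z, L z =
      fderiv ℝ (fderiv ℝ B) p z (a, A p) + fderiv ℝ B p (io (fderiv ℝ A p z))
      - fderiv ℝ (fderiv ℝ A) p z (b, B p) - fderiv ℝ A p (io (fderiv ℝ B p z)) := by
  refine ⟨_, ((hB.fd.hd hp).clm_apply (hpair a (hA.hd hp))).sub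
    ((hA.fd.hd hp).clm_apply (hpair b (hB.hd hp))), fun z => ?_⟩
  simp; abel

lemma sm_pair (a : V) (hA : SmO Ω A) : SmO Ω (fun r => ((a, A r) : W)) := fun p hp =>
  contDiffAt_const.prodMk (hA p hp)

lemma sm_cm (hA : SmO Ω A) (hB : SmO Ω B) : SmO Ω (cm a A b B) := fun p hp =>
  ((hB.fd p hp).clm_apply (sm_pair a hA p hp)).sub ((hA.fd p hp).clm_apply (sm_pair b hB p hp))

lemma fd_cm (hA : SmO Ω A) (hB : SmO Ω B) {p : W} (hp : p ∈ Ω) (z : W) :
    fderiv ℝ (cm a A b B) p z =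
      fderiv ℝ (fderiv ℝ B) p z (a, A p) + fderiv ℝ B p (io (fderiv ℝ A p z))
      - fderiv ℝ (fderiv ℝ A) p z (b, B p) - fderiv ℝ A p (io (fderiv ℝ B p z)) := by
  obtain ⟨L, h1, h2⟩ := hd_cm (a := a) (b := b) hA hB hp
  rw [h1.fderiv, h2]

/-- derivative of the condition `pf` -/
lemma PF.dpf (hΩ : IsOpen Ω) (hq : SmO Ω q) (hA : PF Ω q a A) {p : W} (hp : p ∈ Ω) (u v : V) (z : W) :
    T4 q p z (a, A p) (io u) (io v) + T3 q p (io (fderiv ℝ A p z)) (io u) (io v)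
    + (T3 q p z (io (fderiv ℝ A p (io u))) (io v) + T2 q p (io (fderiv ℝ (fderiv ℝ A) p z (io u))) (io v))
    + (T3 q p z (io u) (io (fderiv ℝ A p (io v))) + T2 q p (io u) (io (fderiv ℝ (fderiv ℝ A) p z (io v)))) = 0 := by
  have hc : ∀ w : V, HasFDerivAt (fun r : W => io (fderiv ℝ A r (io w)))
      (io.comp ((ContinuousLinearMap.apply ℝ V (io w)).comp (fderiv ℝ (fderiv ℝ A) p))) p := by
    intro w
    have h1 : HasFDerivAt (fun r : W => fderiv ℝ A r (io w))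
        ((ContinuousLinearMap.apply ℝ V (io w)).comp (fderiv ℝ (fderiv ℝ A) p)) p :=
      (ContinuousLinearMap.apply ℝ V (io w)).hasFDerivAt.comp p (hA.sm.fd.hd hp)
    exact io.hasFDerivAt.comp p h1
  obtain ⟨L1, a1, a2⟩ := hT3 hq hp (hpair a (hA.sm.hd hp)) (hasFDerivAt_const (io u) p) (hasFDerivAt_const (io v) p)
  obtain ⟨L2, b1, b2⟩ := hT2 hq hp (hc u) (hasFDerivAt_const (io v) p)
  obtain ⟨L3, c1, c2⟩ := hT2 hq hp (hasFDerivAt_const (io u) p) (hc v)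
  have h0 := fd_zero hΩ hp ((a1.add b1).add c1) (fun r hr => hA.pf r hr u v)
  have h1 := congrArg (fun L : W →L[ℝ] ℝ => L z) h0
  simp only [add_apply, a2, b2, c2, ContinuousLinearMap.comp_apply, ContinuousLinearMap.apply_apply,
    zero_apply, map_zero, add_zero] at h1
  linear_combination h1

/-- **commutators of fields which preserve the fibre metric preserve the fibre metric** -/
lemma PF.bracket (hΩ : IsOpen Ω) (hdil : ∀ p ∈ Ω, ∀ t : ℝ, 0 < t → ((p.1, t • p.2) : W) ∈ Ω)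
    (hq : SmO Ω q) (hA : PF Ω q a A) (hB : PF Ω q b B) : PF Ω q 0 (cm a A b B) := by
  refine ⟨sm_cm hA.sm hB.sm, fun p hp t ht => ?_, fun p hp u v => ?_⟩
  · -- homogeneity
    have key : ∀ (A : W → V), SmO Ω A → (∀ p ∈ Ω, ∀ t : ℝ, 0 < t → A (p.1, t • p.2) = t • A p) →
        ∀ z : W, fderiv ℝ A (p.1, t • p.2) (z.1, t • z.2) = t • fderiv ℝ A p z := by
      intro A hAs hAh z
      have hdl : HasFDerivAt (fun r : W => ((r.1, t • r.2) : W))
          ((ContinuousLinearMap.fst ℝ V V).prod (t • ContinuousLinearMap.snd ℝ V V)) p :=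
        (hasFDerivAt_fst).prodMk (hasFDerivAt_snd.const_smul t)
      have h1 : HasFDerivAt A (fderiv ℝ A (p.1, t • p.2)) (p.1, t • p.2) := hAs.hd (hdil p hp t ht)
      have h2 := HasFDerivAt.comp (g := A) (f := fun r : W => ((r.1, t • r.2) : W)) p h1 hdl
      have h3 := (hAs.hd hp).const_smul t
      have h4 := fd_congr hΩ hp h2 h3 (fun r hr => hAh r hr t ht)
      have h5 := congrArg (fun L : W →L[ℝ] V => L z) h4
      simpa using h5
    have k1 := key B hB.sm hB.hom (a, A p)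
    have k2 := key A hA.sm hA.hom (b, B p)
    simp only at k1 k2
    show fderiv ℝ B (p.1, t • p.2) (a, A (p.1, t • p.2)) - fderiv ℝ A (p.1, t • p.2) (b, B (p.1, t • p.2)) =
      t • (fderiv ℝ B p (a, A p) - fderiv ℝ A p (b, B p))
    rw [hA.hom p hp t ht, hB.hom p hp t ht, k1, k2, smul_sub]
  · have dA := hA.dpf hΩ hq hp u v (b, B p)
    have dB := hB.dpf hΩ hq hp u v (a, A p)
    have s4 : T4 q p (b, B p) (a, A p) (io u) (io v) = T4 q p (a, A p) (b, B p) (io u) (io v) :=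
      hq.s4a hp _ _ _ _
    have pA1 := hA.pf p hp (fderiv ℝ B p (io u)) v
    have pA2 := hA.pf p hp u (fderiv ℝ B p (io v))
    have pB1 := hB.pf p hp (fderiv ℝ A p (io u)) v
    have pB2 := hB.pf p hp u (fderiv ℝ A p (io v))
    have e : (((0 : V), cm a A b B p) : W) = io (fderiv ℝ B p (a, A p) - fderiv ℝ A p (b, B p)) := rfl
    rw [e, fd_cm hA.sm hB.sm hp, fd_cm hA.sm hB.sm hp]
    have sA := fun w : V => hA.sm.s2 hp (b, B p) (io w)
    have sB := fun w : V => hB.sm.s2 hp (a, A p) (io w)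
    simp only [sA, sB] at dA dB
    simp only [map_add, map_sub, add_apply, sub_apply]
    linear_combination dB - dA + s4 + pB1 + pB2 - pA1 - pA2

end Pool.Agent.U631.TD
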