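import Pool.Agent.U631.TD.C1
set_option autoImplicit false
set_option maxSynthPendingDepth 6
open Topology Filter
namespace Pool.Agent.U631.TD
open H506R3.Lau

section dil
variable {Z : Type} [NormedAddCommGroup Z] [NormedSpace ℝ Z] {Ω : Set W} {f : W → Z}

lemma fd_dil (hΩ : IsOpen Ω) (hf : SmO Ω f) {t c : ℝ} (hd : ∀ p ∈ Ω, ((p.1, t • p.2) : W) ∈ Ω)
    (h : ∀ p ∈ Ω, f (p.1, t • p.2) = c • f p) {p : W} (hp : p ∈ Ω) (z : W) :
    fderiv ℝ f (p.1, t • p.2) (z.1, t • z.2) = c • fderiv ℝ f p z := by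
  have hdl : HasFDerivAt (fun r : W => ((r.1, t • r.2) : W))
      ((ContinuousLinearMap.fst ℝ V V).prod (t • ContinuousLinearMap.snd ℝ V V)) p :=
    (hasFDerivAt_fst).prodMk (hasFDerivAt_snd.const_smul t)
  have h1 : HasFDerivAt f (fderiv ℝ f (p.1, t • p.2)) (p.1, t • p.2) := hf.hd (hd p hp)
  have h2 := HasFDerivAt.comp (g := f) (f := fun r : W => ((r.1, t • r.2) : W)) p h1 hdl
  have h3 := (hf.hd hp).const_smul c
  have h4 := fd_congr hΩ hp h2 h3 (fun r hr => h r hr)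
  have h5 := congrArg (fun L : W →L[ℝ] Z => L z) h4
  simpa using h5

lemma euler_gen (hf : SmO Ω f) (k : ℕ) {p : W} (hp : p ∈ Ω)
    (h : ∀ t : ℝ, 0 < t → f (p.1, t • p.2) = t ^ k • f p) : fderiv ℝ f p (io p.2) = (k : ℝ) • f p := by
  have hdl : HasDerivAt (fun t : ℝ => ((p.1, t • p.2) : W)) (io p.2) 1 := by
    have h1 : HasDerivAt (fun t : ℝ => ((p.1, t • p.2) : W)) ((0 : V), (1:ℝ) • p.2) 1 :=
      (hasDerivAt_const (1:ℝ) p.1).prodMk ((hasDerivAt_id (1:ℝ)).smul_const p.2)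
    simpa [io_apply] using h1
  have h1 : HasFDerivAt f (fderiv ℝ f p) ((fun t : ℝ => ((p.1, t • p.2) : W)) 1) := by
    simpa using hf.hd hp
  have h2 := h1.comp_hasDerivAt 1 hdl
  have h3 : HasDerivAt (fun t : ℝ => t ^ k • f p) ((k : ℝ) • f p) 1 := by
    have := (hasDerivAt_pow k (1:ℝ)).smul_const (f p)
    simpa using this
  have h4 : (f ∘ fun t : ℝ => ((p.1, t • p.2) : W)) =ᶠ[𝓝 1] fun t : ℝ => t ^ k • f p := by
    filter_upwards [lt_mem_nhds (show (0:ℝ) < 1 by norm_num)] with t ht using h t ht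
  exact (h2.congr_of_eventuallyEq h4.symm).unique h3

end dil

/-- a Finsler energy and its spray coefficients on `Ω` -/
structure SP (Ω : Set W) (q : W → ℝ) (G : W → V) : Prop where
  op : IsOpen Ω
  ne : ∀ p ∈ Ω, p.2 ≠ 0
  fib : ∀ p ∈ Ω, ∀ y : V, y ≠ 0 → ((p.1, y) : W) ∈ Ω
  sq : SmO Ω q
  hq : ∀ p ∈ Ω, ∀ t : ℝ, 0 < t → q (p.1, t • p.2) = t ^ 2 • q p
  pos : ∀ p ∈ Ω, ∀ v : V, v ≠ 0 → 0 < T2 q p (io v) (io v)
  spray : ∀ p ∈ Ω, ∀ u : V, T2 q p (io u) (io (G p)) = 1/2 * (T2 q p (p.2, 0) (io u) - T1 q p (u, 0))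

variable {Ω : Set W} {q : W → ℝ} {G : W → V}

lemma SP.dil (S : SP Ω q G) : ∀ p ∈ Ω, ∀ t : ℝ, 0 < t → ((p.1, t • p.2) : W) ∈ Ω := fun p hp t ht =>
  S.fib p hp _ (smul_ne_zero ht.ne' (S.ne p hp))

lemma SP.e1 (S : SP Ω q G) {p : W} (hp : p ∈ Ω) : T1 q p (io p.2) = 2 * q p := by
  have := euler_gen S.sq 2 hp (fun t ht => S.hq p hp t ht)
  simpa [T1] using this

lemma SP.e2 (S : SP Ω q G) {p : W} (hp : p ∈ Ω) (w : W) :
    T2 q p w (io p.2) + T1 q p (io w.2) = 2 * T1 q p w := by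
  have hb : HasFDerivAt (fun r : W => io r.2) (io.comp (ContinuousLinearMap.snd ℝ V V)) p :=
    io.hasFDerivAt.comp p hasFDerivAt_snd
  obtain ⟨L, h1, h2⟩ := hT1 S.sq hp hb
  have h3 := fd_congr S.op hp h1 ((S.sq.hd hp).const_mul 2) (fun r hr => S.e1 hr)
  have h4 := congrArg (fun L : W →L[ℝ] ℝ => L w) h3
  simp only [h2, ContinuousLinearMap.comp_apply, ContinuousLinearMap.coe_snd', smul_apply, smul_eq_mul] at h4
  exact h4

lemma SP.sy2 (S : SP Ω q G) {p : W} (hp : p ∈ Ω) (u v : W) : T2 q p u v = T2 q p v u := S.sq.s2 hp u v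
lemma SP.sy3a (S : SP Ω q G) {p : W} (hp : p ∈ Ω) (u v w : W) : T3 q p u v w = T3 q p v u w := S.sq.s3a hp u v w
lemma SP.sy3b (S : SP Ω q G) {p : W} (hp : p ∈ Ω) (u v w : W) : T3 q p u v w = T3 q p u w v :=
  S.sq.s3b S.op hp u v w

lemma io_split (u : V) (p : W) : ((p.2, u) : W) = (p.2, 0) + io u := by simp [io_apply]

lemma SP.s1 (S : SP Ω q G) {p : W} (hp : p ∈ Ω) : T1 q p (p.2, (-2 : ℝ) • G p) = 0 := by
  have h1 := S.e2 hp (io (G p))
  have h2 := S.e2 hp ((p.2, 0) : W)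
  have h3 := S.spray p hp p.2
  have h4 : (io (G p)).2 = G p := rfl
  rw [h4] at h1
  simp only [map_zero, add_zero] at h2
  rw [S.sy2 hp (io p.2)] at h3
  rw [io_split, map_add, map_smul, map_smul, smul_eq_mul]
  linarith

/-- smooth dependence of the spray coefficients -/
noncomputable def ev : (W →L[ℝ] ℝ) →L[ℝ] V :=
  ContinuousLinearMap.pi (fun i => ContinuousLinearMap.apply ℝ ℝ (io (ee i)))

noncomputable def MM (q : W → ℝ) (p : W) : V →L[ℝ] V := ev.comp ((T2 q p).comp io)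

lemma MM_apply (p : W) (u : V) (i : Fin 3) : MM q p u i = T2 q p (io u) (io (ee i)) := rfl

lemma SP.smG (S : SP Ω q G) : SmO Ω G := by
  intro p hp
  have hinj : ∀ r ∈ Ω, Function.Injective (MM q r) := by
    intro r hr u v huv
    by_contra hne
    have h1 := S.pos r hr (u - v) (sub_ne_zero.2 hne)
    have h2 : ∀ i, T2 q r (io (u - v)) (io (ee i)) = 0 := by
      intro i
      have := congrFun huv i
      rw [MM_apply, MM_apply] at this
      rw [map_sub, map_sub, sub_apply, this, sub_self]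
    have h3 := lin0 ((T2 q r (io (u - v))).comp io).toLinearMap (fun i => h2 i) (u - v)
    have h4 : T2 q r (io (u - v)) (io (u - v)) = 0 := h3
    linarith
  have heq : ∀ r (hr : r ∈ Ω), ∃ e : V ≃L[ℝ] V, (e : V →L[ℝ] V) = MM q r := by
    intro r hr
    refine ⟨(LinearEquiv.ofInjectiveEndo (MM q r).toLinearMap (hinj r hr)).toContinuousLinearEquiv, ?_⟩
    ext1 u
    rfl
  set rh : W → V := fun r i => 1/2 * (T2 q r (r.2, 0) (io (ee i)) - T1 q r (ee i, 0)) with hrh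
  have hG : ∀ r ∈ Ω, G r = ContinuousLinearMap.inverse (MM q r) (rh r) := by
    intro r hr
    obtain ⟨e, he⟩ := heq r hr
    have h1 : MM q r (G r) = rh r := by
      ext i
      rw [MM_apply, S.sy2 hr, S.spray r hr]
    rw [← h1, ← he, ContinuousLinearMap.inverse_equiv]
    simp
  have hMs : ContDiffAt ℝ ((⊤ : ℕ∞) : WithTop ℕ∞) (MM q) p := by
    have h1 : ContDiffAt ℝ ((⊤ : ℕ∞) : WithTop ℕ∞) (T2 q) p := S.sq.fd.fd p hp
    exact contDiffAt_const.clm_comp (h1.clm_comp contDiffAt_const)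
  have hIs : ContDiffAt ℝ ((⊤ : ℕ∞) : WithTop ℕ∞) (fun r => ContinuousLinearMap.inverse (MM q r)) p := by
    obtain ⟨e, he⟩ := heq p hp
    have h1 : ContDiffAt ℝ ((⊤ : ℕ∞) : WithTop ℕ∞) (ContinuousLinearMap.inverse : (V →L[ℝ] V) → (V →L[ℝ] V)) (MM q p) := by
      rw [← he]; exact contDiffAt_map_inverse e
    exact ContDiffAt.comp p h1 hMs
  have hrs : ContDiffAt ℝ ((⊤ : ℕ∞) : WithTop ℕ∞) rh p := by
    rw [contDiffAt_pi]
    intro i
    have h2 : ContDiffAt ℝ ((⊤ : ℕ∞) : WithTop ℕ∞) (fun r : W => T2 q r (r.2, 0) (io (ee i))) p :=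
      ((S.sq.fd.fd p hp).clm_apply (contDiffAt_snd.prodMk contDiffAt_const)).clm_apply contDiffAt_const
    have h3 : ContDiffAt ℝ ((⊤ : ℕ∞) : WithTop ℕ∞) (fun r : W => T1 q r (ee i, 0)) p :=
      (S.sq.fd p hp).clm_apply contDiffAt_const
    exact contDiffAt_const.mul (h2.sub h3)
  refine (hIs.clm_apply hrs).congr_of_eventuallyEq ?_
  filter_upwards [S.op.mem_nhds hp] with r hr using hG r hr

lemma SP.inj (S : SP Ω q G) {p : W} (hp : p ∈ Ω) {u v : V}
    (h : ∀ w : V, T2 q p (io w) (io u) = T2 q p (io w) (io v)) : u = v := by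
  by_contra hne
  have h1 := S.pos p hp (u - v) (sub_ne_zero.2 hne)
  have h2 := h (u - v)
  have h3 : T2 q p (io (u - v)) (io (u - v)) = 0 := by
    rw [map_sub io u v, map_sub (T2 q p (io u - io v)), ← map_sub io u v, h2, sub_self]
  linarith

/-- homogeneity of the spray coefficients -/
lemma SP.hG (S : SP Ω q G) {p : W} (hp : p ∈ Ω) {t : ℝ} (ht : 0 < t) : G (p.1, t • p.2) = t ^ 2 • G p := by
  have hd := S.dil p hp t ht
  have d1 : ∀ r ∈ Ω, ∀ z : W, T1 q (r.1, t • r.2) (z.1, t • z.2) = t ^ 2 • T1 q r z := fun r hr z =>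
    fd_dil S.op S.sq (fun r hr => S.dil r hr t ht) (fun r hr => S.hq r hr t ht) hr z
  have d2 : ∀ z z' : W, T2 q (p.1, t • p.2) (z.1, t • z.2) (z'.1, t • z'.2) = t ^ 2 • T2 q p z z' := by
    intro z z'
    have hdl : HasFDerivAt (fun r : W => ((r.1, t • r.2) : W))
        ((ContinuousLinearMap.fst ℝ V V).prod (t • ContinuousLinearMap.snd ℝ V V)) p :=
      (hasFDerivAt_fst).prodMk (hasFDerivAt_snd.const_smul t)
    have h1 : HasFDerivAt (T1 q) (T2 q (p.1, t • p.2)) (p.1, t • p.2) := S.sq.fd.hd hd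
    have h2 := HasFDerivAt.comp (g := T1 q) (f := fun r : W => ((r.1, t • r.2) : W)) p h1 hdl
    have h3 := h2.clm_apply (hasFDerivAt_const ((z'.1, t • z'.2) : W) p)
    have h4 := ((S.sq.fd.hd hp).clm_apply (hasFDerivAt_const z' p)).const_smul (t ^ 2)
    have h5 := fd_congr S.op hp h3 h4 (fun r hr => d1 r hr z')
    have h6 := congrArg (fun L : W →L[ℝ] ℝ => L z) h5
    simpa [T2, T1] using h6
  have ht' : t ≠ 0 := ht.ne'
  refine S.inj hp (fun w => ?_)
  have a1 : T2 q (p.1, t • p.2) (io w) (io (G (p.1, t • p.2))) = T2 q p (io w) (io (G (p.1, t • p.2))) := by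
    have := d2 (io (t⁻¹ • w)) (io (t⁻¹ • G (p.1, t • p.2)))
    have e1 : ∀ v : V, (((io (t⁻¹ • v)).1, t • (io (t⁻¹ • v)).2) : W) = io v := by
      intro v
      rw [io_apply, io_apply]
      simp [smul_smul, mul_inv_cancel₀ ht']
    rw [e1, e1] at this
    rw [this]
    simp only [map_smul, smul_apply, smul_eq_mul]
    field_simp
  have a2 : T2 q (p.1, t • p.2) (t • p.2, 0) (io w) = t ^ 2 * T2 q p (p.2, 0) (io w) := by
    have := d2 (t • (p.2, 0)) (io (t⁻¹ • w))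
    have e1 : (((io (t⁻¹ • w)).1, t • (io (t⁻¹ • w)).2) : W) = io w := by
      rw [io_apply, io_apply]
      simp [smul_smul, mul_inv_cancel₀ ht']
    rw [e1] at this
    have e2 : (((t • ((p.2, 0) : W)).1, t • (t • ((p.2, 0) : W)).2) : W) = (t • p.2, 0) := by simp
    rw [e2] at this
    rw [this]
    simp only [map_smul, smul_apply, smul_eq_mul]
    field_simp
  have a3 : T1 q (p.1, t • p.2) (w, 0) = t ^ 2 * T1 q p (w, 0) := by
    have := d1 p hp (w, 0)
    simpa using this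
  have b1 := S.spray _ hd w
  have b2 := S.spray p hp w
  simp only at b1
  rw [a1, a2, a3] at b1
  rw [b1, map_smul, map_smul, smul_eq_mul, b2]
  ring

lemma SP.s2 (S : SP Ω q G) {p : W} (hp : p ∈ Ω) (v : V) : T1 q p (v, - fderiv ℝ G p (io v)) = 0 := by
  have hGd := S.smG.hd hp
  have hb : HasFDerivAt (fun r : W => ((r.2, (-2 : ℝ) • G r) : W))
      ((ContinuousLinearMap.snd ℝ V V).prod ((-2 : ℝ) • fderiv ℝ G p)) p :=
    hasFDerivAt_snd.prodMk (hGd.const_smul (-2 : ℝ))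
  obtain ⟨L, h1, h2⟩ := hT1 S.sq hp hb
  have h3 := fd_zero S.op hp h1 (fun r hr => S.s1 hr)
  have h4 := congrArg (fun L : W →L[ℝ] ℝ => L (io v)) h3
  rw [h2] at h4
  simp only [ContinuousLinearMap.prod_apply, ContinuousLinearMap.coe_snd', smul_apply, zero_apply] at h4
  have e1 : (io v).2 = v := rfl
  rw [e1, io_split, map_add, map_smul, map_smul, smul_eq_mul, S.sy2 hp (io v) (p.2, 0), S.spray p hp v] at h4
  have e2 : ((v, (-2 : ℝ) • fderiv ℝ G p (io v)) : W) = (v, 0) + (-2 : ℝ) • io (fderiv ℝ G p (io v)) := by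
    simp [io_apply]
  have e3 : ((v, - fderiv ℝ G p (io v)) : W) = (v, 0) - io (fderiv ℝ G p (io v)) := by
    simp [io_apply]
  rw [e2, map_add, map_smul, smul_eq_mul] at h4
  rw [e3, map_sub]
  linarith

/-- the horizontal fields -/
noncomputable def Nf (G : W → V) (v : V) : W → V := fun p => - fderiv ℝ G p (io v)

lemma SP.smN (S : SP Ω q G) (v : V) : SmO Ω (Nf G v) := fun p hp => (S.smG.app (io v) p hp).neg

lemma hdNf (hG : SmO Ω G) {p : W} (hp : p ∈ Ω) (v : V) : HasFDerivAt (Nf G v)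
    (-((ContinuousLinearMap.apply ℝ V (io v)).comp (fderiv ℝ (fderiv ℝ G) p))) p :=
  ((ContinuousLinearMap.apply ℝ V (io v)).hasFDerivAt.comp p (hG.fd.hd hp)).neg

lemma fdN (hG : SmO Ω G) {p : W} (hp : p ∈ Ω) (v : V) (z : W) :
    fderiv ℝ (Nf G v) p z = - fderiv ℝ (fderiv ℝ G) p z (io v) := by
  rw [(hdNf hG hp v).fderiv]; simp

lemma fdN2 (hΩ : IsOpen Ω) (hG : SmO Ω G) {p : W} (hp : p ∈ Ω) (v : V) (z z' : W) :
    fderiv ℝ (fderiv ℝ (Nf G v)) p z z' = - fderiv ℝ (fderiv ℝ (fderiv ℝ G)) p z z' (io v) := by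
  have hN : SmO Ω (Nf G v) := fun p hp => (hG.app (io v) p hp).neg
  have h1 := (hN.fd.hd hp).clm_apply (hasFDerivAt_const z' p)
  have h2 := (((hG.fd.fd.hd hp).clm_apply (hasFDerivAt_const z' p)).clm_apply (hasFDerivAt_const (io v) p)).neg
  have h3 := fd_congr hΩ hp h1 h2 (fun r hr => fdN hG hr v z')
  have h4 := congrArg (fun L : W →L[ℝ] V => L z) h3
  simpa using h4

lemma fdN3 (hΩ : IsOpen Ω) (hG : SmO Ω G) {p : W} (hp : p ∈ Ω) (v : V) (z z' z'' : W) :
    fderiv ℝ (fderiv ℝ (fderiv ℝ (Nf G v))) p z z' z'' =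
      - fderiv ℝ (fderiv ℝ (fderiv ℝ (fderiv ℝ G))) p z z' z'' (io v) := by
  have hN : SmO Ω (Nf G v) := fun p hp => (hG.app (io v) p hp).neg
  have h1 := ((hN.fd.fd.hd hp).clm_apply (hasFDerivAt_const z' p)).clm_apply (hasFDerivAt_const z'' p)
  have h2 := ((((hG.fd.fd.fd.hd hp).clm_apply (hasFDerivAt_const z' p)).clm_apply (hasFDerivAt_const z'' p)).clm_apply
    (hasFDerivAt_const (io v) p)).neg
  have h3 := fd_congr hΩ hp h1 h2 (fun r hr => fdN2 hΩ hG hr v z' z'')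
  have h4 := congrArg (fun L : W →L[ℝ] V => L z) h3
  simpa using h4

/-- the horizontal fields preserve the fibre metric of a Landsberg metric -/
lemma SP.pfN (S : SP Ω q G)
    (hL : ∀ p ∈ Ω, ∀ u v w : V, T1 q p (io (fderiv ℝ (fderiv ℝ (fderiv ℝ G)) p (io u) (io v) (io w))) = 0)
    (v : V) : PF Ω q v (Nf G v) := by
  refine ⟨S.smN v, fun p hp t ht => ?_, fun p hp u w => ?_⟩
  · have h := fd_dil S.op S.smG (t := t) (c := t ^ 2) (fun r hr => S.dil r hr t ht)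
      (fun r hr => S.hG hr ht) hp (io (t⁻¹ • v))
    have e1 : (((io (t⁻¹ • v)).1, t • (io (t⁻¹ • v)).2) : W) = io v := by
      rw [io_apply, io_apply]
      simp [smul_smul, mul_inv_cancel₀ ht.ne']
    rw [e1, map_smul, map_smul] at h
    simp only [Nf]
    rw [h, smul_smul, smul_neg]
    congr 2
    field_simp
  · -- first derivative of `s2`
    have hN := (S.smN v).hd hp
    have k1 : ∀ r ∈ Ω, T2 q r (io w) (v, Nf G v r) + T1 q r (io (fderiv ℝ (Nf G v) r (io w))) = 0 := by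
      intro r hr
      obtain ⟨L, h1, h2⟩ := hT1 S.sq hr (hpair v ((S.smN v).hd hr))
      have h3 := fd_zero S.op hr h1 (fun r hr => S.s2 hr v)
      have h4 := congrArg (fun L : W →L[ℝ] ℝ => L (io w)) h3
      rw [h2] at h4
      simpa using h4
    have hc : HasFDerivAt (fun r : W => io (fderiv ℝ (Nf G v) r (io w)))
        (io.comp ((ContinuousLinearMap.apply ℝ V (io w)).comp (fderiv ℝ (fderiv ℝ (Nf G v)) p))) p := by
      have h1 : HasFDerivAt (fun r : W => fderiv ℝ (Nf G v) r (io w))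
          ((ContinuousLinearMap.apply ℝ V (io w)).comp (fderiv ℝ (fderiv ℝ (Nf G v)) p)) p :=
        (ContinuousLinearMap.apply ℝ V (io w)).hasFDerivAt.comp p ((S.smN v).fd.hd hp)
      exact io.hasFDerivAt.comp p h1
    obtain ⟨L1, a1, a2⟩ := hT2 S.sq hp (hasFDerivAt_const (io w) p) (hpair v hN)
    obtain ⟨L2, b1, b2⟩ := hT1 S.sq hp hc
    have h0 := fd_zero S.op hp (a1.add b1) k1
    have h1 := congrArg (fun L : W →L[ℝ] ℝ => L (io u)) h0
    simp only [add_apply, a2, b2, ContinuousLinearMap.comp_apply, ContinuousLinearMap.apply_apply,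
      zero_apply, map_zero, add_zero] at h1
    have h2 : T1 q p (io (fderiv ℝ (fderiv ℝ (Nf G v)) p (io u) (io w))) = 0 := by
      rw [fdN2 S.op S.smG hp, map_neg, map_neg, hL p hp, neg_zero]
    rw [h2, add_zero, S.sy3b hp (io u) (io w), S.sy3a hp (io u)] at h1
    rw [S.sy2 hp (io (fderiv ℝ (Nf G v) p (io u))) (io w)]
    linarith

end Pool.Agent.U631.TD
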