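import Pool.Agent.U631.TD.C2
set_option autoImplicit false
set_option maxSynthPendingDepth 6
open Topology Filter
namespace Pool.Agent.U631.TD
open H506R3.Lau Pool.Agent.R774.BW

section fib
variable {Z : Type} [NormedAddCommGroup Z] [NormedSpace ℝ Z] {Ω : Set W} {f : W → Z} {x y : V}

lemma hfib (hf : SmO Ω f) (hp : ((x, y) : W) ∈ Ω) :
    HasFDerivAt (fun z => f (x, z)) ((fderiv ℝ f (x, y)).comp io) y := by
  have h1 : HasFDerivAt (fun z : V => ((x, z) : W)) io y := by
    exact (hasFDerivAt_const (𝕜 := ℝ) x y).prodMk (hasFDerivAt_id (𝕜 := ℝ) y)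
  exact HasFDerivAt.comp (g := f) (f := fun z : V => ((x, z) : W)) y (hf.hd hp) h1

lemma hhor (hf : SmO Ω f) (hp : ((x, y) : W) ∈ Ω) :
    HasFDerivAt (fun z => f (z, y)) ((fderiv ℝ f (x, y)).comp (ContinuousLinearMap.inl ℝ V V)) x := by
  have h1 : HasFDerivAt (fun z : V => ((z, y) : W)) (ContinuousLinearMap.inl ℝ V V) x := by
    exact (hasFDerivAt_id (𝕜 := ℝ) x).prodMk (hasFDerivAt_const (𝕜 := ℝ) y x)
  exact HasFDerivAt.comp (g := f) (f := fun z : V => ((z, y) : W)) x (hf.hd hp) h1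

lemma fib_fd (hf : SmO Ω f) (hp : ((x, y) : W) ∈ Ω) (v : V) :
    fderiv ℝ (fun z => f (x, z)) y v = fderiv ℝ f (x, y) (io v) := by
  rw [(hfib hf hp).fderiv]; rfl

lemma hor_fd (hf : SmO Ω f) (hp : ((x, y) : W) ∈ Ω) (v : V) :
    fderiv ℝ (fun z => f (z, y)) x v = fderiv ℝ f (x, y) (v, 0) := by
  rw [(hhor hf hp).fderiv]; rfl

lemma fib_sm (hf : SmO Ω f) (hp : ((x, y) : W) ∈ Ω) :
    ContDiffAt ℝ ((⊤ : ℕ∞) : WithTop ℕ∞) (fun z => f (x, z)) y :=
  ContDiffAt.comp (g := f) (f := fun z : V => ((x, z) : W)) y (hf _ hp) (contDiffAt_const.prodMk contDiffAt_id)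

lemma fib_fd2 (hf : SmO Ω f) (hx : ∀ y : V, y ≠ 0 → ((x, y) : W) ∈ Ω) (hy : y ≠ 0) (u v : V) :
    fderiv ℝ (fderiv ℝ (fun z => f (x, z))) y u v = fderiv ℝ (fderiv ℝ f) (x, y) (io u) (io v) := by
  have h1 : HasFDerivAt (fun z => fderiv ℝ (fun z => f (x, z)) z v) _ y :=
    (((fib_sm hf (hx y hy)).fderiv_right top_add_one).differentiableAt top_ne_zero').hasFDerivAt.clm_apply
      (hasFDerivAt_const v y)
  have h2 := hfib (hf.app (io v)) (hx y hy)
  have h3 : (fun z => fderiv ℝ (fun z => f (x, z)) z v) =ᶠ[𝓝 y] fun z => fderiv ℝ f (x, z) (io v) := by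
    filter_upwards [ne_ev hy] with z hz using fib_fd hf (hx z hz) v
  have h4 := (h2.congr_of_eventuallyEq h3).unique h1
  have h5 := congrArg (fun L : V →L[ℝ] Z => L u) h4
  have h6 : fderiv ℝ (fun p => fderiv ℝ f p (io v)) (x, y) (io u) = fderiv ℝ (fderiv ℝ f) (x, y) (io u) (io v) := by
    have := (hf.fd.hd (hx y hy)).clm_apply (hasFDerivAt_const (io v) (x, y))
    rw [this.fderiv]; simp
  simp only [ContinuousLinearMap.comp_apply, h6] at h5
  rw [h5]; simp

lemma fib_fd3 (hf : SmO Ω f) (hx : ∀ y : V, y ≠ 0 → ((x, y) : W) ∈ Ω) (hy : y ≠ 0) (u v w : V) :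
    fderiv ℝ (fderiv ℝ (fderiv ℝ (fun z => f (x, z)))) y u v w =
      fderiv ℝ (fderiv ℝ (fderiv ℝ f)) (x, y) (io u) (io v) (io w) := by
  have h1 : HasFDerivAt (fun z => fderiv ℝ (fderiv ℝ (fun z => f (x, z))) z v w) _ y :=
    (((((fib_sm hf (hx y hy)).fderiv_right top_add_one).fderiv_right top_add_one).differentiableAt
      top_ne_zero').hasFDerivAt.clm_apply (hasFDerivAt_const v y)).clm_apply (hasFDerivAt_const w y)
  have hs : SmO Ω (fun p => fderiv ℝ (fderiv ℝ f) p (io v) (io w)) := fun p hp =>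
    ((hf.fd.fd p hp).clm_apply contDiffAt_const).clm_apply contDiffAt_const
  have h2 := hfib hs (hx y hy)
  have h3 : (fun z => fderiv ℝ (fderiv ℝ (fun z => f (x, z))) z v w) =ᶠ[𝓝 y]
      fun z => fderiv ℝ (fderiv ℝ f) (x, z) (io v) (io w) := by
    filter_upwards [ne_ev hy] with z hz using fib_fd2 hf hx hz v w
  have h4 := (h2.congr_of_eventuallyEq h3).unique h1
  have h5 := congrArg (fun L : V →L[ℝ] Z => L u) h4
  have h6 : fderiv ℝ (fun p => fderiv ℝ (fderiv ℝ f) p (io v) (io w)) (x, y) (io u) =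
      fderiv ℝ (fderiv ℝ (fderiv ℝ f)) (x, y) (io u) (io v) (io w) := by
    have := ((hf.fd.fd.hd (hx y hy)).clm_apply (hasFDerivAt_const (io v) (x, y))).clm_apply
      (hasFDerivAt_const (io w) (x, y))
    rw [this.fderiv]; simp
  simp only [ContinuousLinearMap.comp_apply, h6] at h5
  rw [h5]; simp

end fib

variable {Ω : Set W} {q : W → ℝ} {A : W → V} {x y : V}

lemma gE (hq : SmO Ω q) (hx : ∀ y : V, y ≠ 0 → ((x, y) : W) ∈ Ω) (hy : y ≠ 0) (u v : V) :
    g (fun z => q (x, z)) y u v = T2 q (x, y) (io u) (io v) := fib_fd2 hq hx hy u v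

lemma CE (hq : SmO Ω q) (hx : ∀ y : V, y ≠ 0 → ((x, y) : W) ∈ Ω) (hy : y ≠ 0) (u v w : V) :
    C (fun z => q (x, z)) y u v w = T3 q (x, y) (io u) (io v) (io w) := fib_fd3 hq hx hy u v w

/-- vertical fields which preserve the fibre metric are infinitesimal isometries of all fibres -/
lemma PF.kil (hq : SmO Ω q) (h : PF Ω q 0 A) (hx : ∀ y : V, y ≠ 0 → ((x, y) : W) ∈ Ω) :
    Kil (fun z => q (x, z)) (fun z => A (x, z)) := by
  refine ⟨fun y hy => fib_sm h.sm (hx y hy), fun y hy t ht => h.hom (x, y) (hx y hy) t ht, fun y hy u v => ?_⟩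
  rw [CE hq hx hy, gE hq hx hy, gE hq hx hy, fib_fd h.sm (hx y hy), fib_fd h.sm (hx y hy)]
  exact h.pf (x, y) (hx y hy) u v

section fins
variable {U : Set V} {F : V → V → ℝ} {G : V → V → V}

def Om (U : Set V) : Set W := U ×ˢ {y | y ≠ 0}

noncomputable def qF (F : V → V → ℝ) : W → ℝ := fun p => F p.1 p.2 ^ 2 / 2

lemma Om_fib {x : V} (hx : x ∈ U) : ∀ y : V, y ≠ 0 → ((x, y) : W) ∈ Om U := fun _ hy => ⟨hx, hy⟩

lemma qF_sm (hF : IsFinsler U F) : SmO (Om U) (qF F) := by
  intro p hp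
  have h := (hF.cd hp.1 hp.2).div_const 2
  exact h

lemma vexp2 (L : V →L[ℝ] ℝ) (v : V) : L v = ∑ m, v m * L (ee m) := by
  have := congrArg (fun w => L w) (vexp v)
  simpa [Fin.sum_univ_three] using this

lemma sp_of_finsler (hF : IsFinsler U F) (hG : IsSpray U F G) : SP (Om U) (qF F) (fun p => G p.1 p.2) := by
  have hs := qF_sm hF
  have hsF : ∀ x ∈ U, Sm (fun u => F x u ^ 2) := fun x hx => (hF.mn hx).sm
  refine ⟨hF.isOpen.prod isOpen_ne, fun p hp => hp.2, fun p hp y hy => ⟨hp.1, hy⟩, hs, ?_, ?_, ?_⟩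
  · intro p hp t ht
    simp only [qF, hF.hom p.1 hp.1 p.2 t ht, smul_eq_mul]
    ring
  · intro p hp v hv
    have h1 := (dat_of_finsler hF hp.1).pos p.2 hp.2 v hv
    have h2 := gE (x := p.1) hs (Om_fib hp.1) hp.2 v v
    rw [← h2]; exact h1
  · intro p hp u
    obtain ⟨x, y⟩ := p
    have hx : x ∈ U := hp.1
    have hy : y ≠ 0 := hp.2
    have hb : ∀ l : Fin 3, T2 (qF F) (x, y) (io (ee l)) (io (G x y)) =
        1/2 * (T2 (qF F) (x, y) (y, 0) (io (ee l)) - T1 (qF F) (x, y) (ee l, 0)) := by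
      intro l
      have h := hG x hx y hy l
      have a1 : ∀ i : Fin 3, fderiv ℝ (fun w => fderiv ℝ (fun u => F x u ^ 2) w
          (Pi.single i (1 : ℝ) : Fin 3 → ℝ)) y (Pi.single l (1 : ℝ) : Fin 3 → ℝ) =
          2 * T2 (qF F) (x, y) (io (ee l)) (io (ee i)) := by
        intro i
        have e1 : (fun u => F x u ^ 2) = fun u => 2 * qF F (x, u) := by
          funext u; simp only [qF]; ring
        have hsE : Sm (fun u => qF F (x, u)) := fun u hu => fib_sm hs (Om_fib hx u hu)
        show pd l (pd i (fun u => F x u ^ 2)) y = _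
        rw [e1, pd_congr (fun z hz => pd_const_mul hsE 2 i hz) l hy, pd_const_mul (hsE.pd i) 2 l hy,
          pd2_eq hsE l i hy, fib_fd2 hs (Om_fib hx) hy]
        rfl
      have a2 : ∀ k : Fin 3, fderiv ℝ (fun z => fderiv ℝ (fun u => F z u ^ 2) y
            (Pi.single l (1 : ℝ) : Fin 3 → ℝ)) x (Pi.single k (1 : ℝ) : Fin 3 → ℝ) =
          2 * T2 (qF F) (x, y) (ee k, 0) (io (ee l)) := by
        intro k
        have e1 : (fun z => fderiv ℝ (fun u => F z u ^ 2) y (Pi.single l (1 : ℝ) : Fin 3 → ℝ)) =ᶠ[𝓝 x]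
            fun z => 2 * T1 (qF F) (z, y) (io (ee l)) := by
          filter_upwards [hF.isOpen.mem_nhds hx] with z hz
          have e2 : (fun u => F z u ^ 2) = fun u => 2 * qF F (z, u) := by
            funext u; simp only [qF]; ring
          have hsE : Sm (fun u => qF F (z, u)) := fun u hu => fib_sm hs (Om_fib hz u hu)
          show pd l (fun u => F z u ^ 2) y = _
          rw [e2, pd_const_mul hsE 2 l hy, pd_eq, fib_fd hs (Om_fib hz y hy)]
          rfl
        have hs1 : SmO (Om U) (fun p => 2 * T1 (qF F) p (io (ee l))) := fun p hp =>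
          contDiffAt_const.mul (hs.app (io (ee l)) p hp)
        rw [e1.fderiv_eq]
        have e3 := hor_fd (x := x) (y := y) hs1 (Om_fib hx y hy) (ee k)
        refine e3.trans ?_
        have e4 := ((hs.fd.hd (Om_fib hx y hy)).clm_apply (hasFDerivAt_const (io (ee l)) ((x, y) : W))).const_mul (2:ℝ)
        have e5 : HasFDerivAt (fun p => 2 * T1 (qF F) p (io (ee l))) _ ((x, y) : W) := e4
        rw [e5.fderiv]
        simp [T2, T1]
      have a3 : fderiv ℝ (fun z => F z y ^ 2) x (Pi.single l (1 : ℝ) : Fin 3 → ℝ) =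
          2 * T1 (qF F) (x, y) (ee l, 0) := by
        have e1 : (fun z => F z y ^ 2) = fun z => 2 * qF F (z, y) := by
          funext u; simp only [qF]; ring
        have hs1 : SmO (Om U) (fun p => 2 * qF F p) := fun p hp => contDiffAt_const.mul (hs p hp)
        rw [e1]
        have e3 := hor_fd (x := x) (y := y) hs1 (Om_fib hx y hy) (ee l)
        refine e3.trans ?_
        rw [((hs.hd (Om_fib hx y hy)).const_mul 2).fderiv]
        simp [T1]
      simp only [a1, a2, a3] at h
      have b1 : T2 (qF F) (x, y) (io (ee l)) (io (G x y)) =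
          ∑ i, (G x y) i * T2 (qF F) (x, y) (io (ee l)) (io (ee i)) :=
        vexp2 ((T2 (qF F) (x, y) (io (ee l))).comp io) (G x y)
      have b2 : T2 (qF F) (x, y) (y, 0) (io (ee l)) = ∑ k, y k * T2 (qF F) (x, y) (ee k, 0) (io (ee l)) :=
        vexp2 (((T2 (qF F) (x, y)).flip (io (ee l))).comp (ContinuousLinearMap.inl ℝ V V)) y
      rw [b1, b2]
      simp only [Fin.sum_univ_three] at h ⊢
      linarith
    have h0 := lin0 { toFun := fun u => T2 (qF F) (x, y) (io u) (io (G x y)) -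
                        1/2 * (T2 (qF F) (x, y) (y, 0) (io u) - T1 (qF F) (x, y) (u, 0))
                      map_add' := by
                        intro a b
                        have e : ((a + b, (0:V)) : W) = (a, 0) + (b, 0) := by simp
                        rw [e]
                        simp only [map_add, add_apply]; ring
                      map_smul' := by
                        intro t a
                        have e : ((t • a, (0:V)) : W) = t • (a, 0) := by simp
                        rw [e]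
                        simp only [map_smul, smul_apply, smul_eq_mul, RingHom.id_apply]; ring }
      (fun i => by
        have := hb i
        show T2 (qF F) (x, y) (io (ee i)) (io (G x y)) -
                        1/2 * (T2 (qF F) (x, y) (y, 0) (io (ee i)) - T1 (qF F) (x, y) (ee i, 0)) = 0
        rw [this, sub_self]) u
    have h1 : T2 (qF F) (x, y) (io u) (io (G x y)) -
                        1/2 * (T2 (qF F) (x, y) (y, 0) (io u) - T1 (qF F) (x, y) (u, 0)) = 0 := h0
    linarith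

/-- the Berwald curvature as a third derivative on `W` -/
lemma berwald_eq (hF : IsFinsler U F) (hG : IsSpray U F G) {x y : V} (hx : x ∈ U) (hy : y ≠ 0) (i j k l : Fin 3) :
    berwald G x y i j k l =
      fderiv ℝ (fderiv ℝ (fderiv ℝ (fun p : W => G p.1 p.2))) (x, y) (io (ee j)) (io (ee k)) (io (ee l)) i := by
  have hGs := (sp_of_finsler hF hG).smG
  have hs : ∀ y : V, y ≠ 0 → ContDiffAt ℝ ((⊤ : ℕ∞) : WithTop ℕ∞) (fun z => G x z) y := fun y hy =>
    fib_sm hGs (Om_fib hx y hy)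
  have hsi : Sm (fun z => G x z i) := fun y hy => (contDiffAt_pi.1 (hs y hy)) i
  have h1 : berwald G x y i j k l = pd j (pd k (pd l (fun z => G x z i))) y := rfl
  have h2 : pd j (pd k (pd l (fun z => G x z i))) y =
      pd j (fun z => fderiv ℝ (fderiv ℝ (fun z => G x z)) z (ee k) (ee l) i) y :=
    pd_congr (fun z hz => pd2_comp hs i k l hz) j hy
  have h3 : HasFDerivAt (fun z => fderiv ℝ (fderiv ℝ (fun z => G x z)) z (ee k) (ee l)) _ y :=
    (((((hs y hy).fderiv_right top_add_one).fderiv_right top_add_one).differentiableAt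
      top_ne_zero').hasFDerivAt.clm_apply (hasFDerivAt_const (ee k) y)).clm_apply (hasFDerivAt_const (ee l) y)
  have h4 := (hasFDerivAt_pi'.1 h3) i
  rw [h1, h2, pd_eq, h4.fderiv, ← fib_fd3 hGs (Om_fib hx) hy]
  simp

/-- the Landsberg condition on `W` -/
lemma lands_eq (hF : IsFinsler U F) (hG : IsSpray U F G)
    (hL : ∀ x ∈ U, ∀ y : V, y ≠ 0 → ∀ j k l, landsberg F G x y j k l = 0) :
    ∀ p ∈ Om U, ∀ u v w : V, T1 (qF F) p
      (io (fderiv ℝ (fderiv ℝ (fderiv ℝ (fun p : W => G p.1 p.2))) p (io u) (io v) (io w))) = 0 := by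
  rintro ⟨x, y⟩ ⟨hx, hy⟩
  have hx : x ∈ U := hx
  have hy : y ≠ 0 := hy
  have hs := qF_sm hF
  set D3 := fderiv ℝ (fderiv ℝ (fderiv ℝ (fun p : W => G p.1 p.2))) (x, y) with hD3
  have hb : ∀ j k l : Fin 3, T1 (qF F) (x, y) (io (D3 (io (ee j)) (io (ee k)) (io (ee l)))) = 0 := by
    intro j k l
    have h := hL x hx y hy j k l
    unfold landsberg at h
    have a1 : ∀ i : Fin 3, fderiv ℝ (fun u => F x u ^ 2) y (Pi.single i (1 : ℝ) : Fin 3 → ℝ) =
        2 * T1 (qF F) (x, y) (io (ee i)) := by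
      intro i
      have e2 : (fun u => F x u ^ 2) = fun u => 2 * qF F (x, u) := by
        funext u; simp only [qF]; ring
      have hsE : Sm (fun u => qF F (x, u)) := fun u hu => fib_sm hs (Om_fib hx u hu)
      show pd i (fun u => F x u ^ 2) y = _
      rw [e2, pd_const_mul hsE 2 i hy, pd_eq, fib_fd hs (Om_fib hx y hy)]
      rfl
    simp only [a1, berwald_eq hF hG hx hy] at h
    have b1 : T1 (qF F) (x, y) (io (D3 (io (ee j)) (io (ee k)) (io (ee l)))) =
        ∑ i, (D3 (io (ee j)) (io (ee k)) (io (ee l))) i * T1 (qF F) (x, y) (io (ee i)) :=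
      vexp2 ((T1 (qF F) (x, y)).comp io) _
    rw [b1]
    simp only [Fin.sum_univ_three] at h ⊢
    linarith
  intro u v w
  have h1 : ∀ j k : Fin 3, T1 (qF F) (x, y) (io (D3 (io (ee j)) (io (ee k)) (io w))) = 0 := fun j k =>
    lin0 (((T1 (qF F) (x, y)).comp (io.comp ((D3 (io (ee j)) (io (ee k))).comp io))).toLinearMap) (fun l => hb j k l) w
  have h2 : ∀ j : Fin 3, T1 (qF F) (x, y) (io (D3 (io (ee j)) (io v) (io w))) = 0 := fun j =>
    lin0 (((T1 (qF F) (x, y)).comp (io.comp (((D3 (io (ee j))).flip (io w)).comp io))).toLinearMap) (fun k => h1 j k) v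
  exact lin0 { toFun := fun u => T1 (qF F) (x, y) (io (D3 (io u) (io v) (io w)))
               map_add' := by intro a b; simp only [map_add, add_apply]
               map_smul' := by intro t a; simp only [map_smul, smul_apply, smul_eq_mul, RingHom.id_apply] }
    (fun j => h2 j) u

end fins

end Pool.Agent.U631.TD
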