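import Pool.Agent.U631.TD.C3
set_option autoImplicit false
set_option maxSynthPendingDepth 6
open Topology Filter
namespace Pool.Agent.U631.TD
open H506R3.Lau Pool.Agent.R774.BW

section fibre
variable {E : V → ℝ} {K K' : V → V}

/-- on a norm which is not Euclidean all infinitesimal isometries are proportional -/
lemma prop_of (D : Dat E) (hC : ∃ y : V, y ≠ 0 ∧ C E y ≠ 0) (hK : Kil E K) (hK0 : ∃ y : V, y ≠ 0 ∧ K y ≠ 0)
    (hK' : Kil E K') : ∃ c : ℝ, ∀ y : V, y ≠ 0 → K' y = c • K y := by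
  by_contra hne
  push Not at hne
  obtain ⟨y0, hy0, hC0⟩ := hC
  apply hC0
  refine two_killing D hK hK' (fun α β h => ?_) hy0
  have hβ : β = 0 := by
    by_contra hb
    obtain ⟨y, hy, h1⟩ := hne (-(β⁻¹ * α))
    apply h1
    have h2 := h y hy
    have h3 : β • K' y = -(α • K y) := eq_neg_of_add_eq_zero_right h2
    have h4 : K' y = β⁻¹ • (β • K' y) := by rw [smul_smul, inv_mul_cancel₀ hb, one_smul]
    rw [h4, h3, smul_neg, smul_smul, neg_smul]
  subst hβ
  refine ⟨?_, rfl⟩
  obtain ⟨y, hy, h1⟩ := hK0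
  have h2 := h y hy
  rw [zero_smul, add_zero] at h2
  exact (smul_eq_zero.1 h2).resolve_right h1

lemma lin0V (L : V →ₗ[ℝ] V) (h : ∀ i : Fin 3, L (ee i) = 0) (v : V) : L v = 0 := by
  ext m
  exact lin0 ((LinearMap.proj m : V →ₗ[ℝ] ℝ).comp L) (fun i => by
    show (L (ee i)) m = 0
    rw [h i]; rfl) v

/-- an infinitesimal isometry of degree one which is constant in a fixed direction is linear -/
lemma lin_of_dir (hK : Kil E K) {w : V} (hw : w ≠ 0) (h : ∀ y : V, y ≠ 0 → fderiv ℝ K y w = 0)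
    {y : V} (hy : y ≠ 0) (u v : V) : fderiv ℝ (fderiv ℝ K) y u v = 0 := by
  have hb : ∀ i j : Fin 3, fderiv ℝ (fderiv ℝ K) y (ee i) (ee j) = 0 := by
    intro i j
    ext m
    rw [← pd2_comp hK.sm m i j hy]
    set f : V → ℝ := fun y => K y m with hf
    have hs : Sm f := fun y hy => (contDiffAt_pi.1 (hK.sm y hy)) m
    have hh : Hom 1 f := by
      intro z hz t ht
      simp only [hf, hK.hom z hz t ht, Pi.smul_apply, smul_eq_mul, zpow_one]
    have hbh : Hom (-1) (pd i (pd j f)) := by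
      have h1 := (hh.pd hs j).pd (hs.pd j) i
      norm_num at h1
      exact h1
    have d1 : ∀ z : V, z ≠ 0 → ∑ a, w a * pd a f z = 0 := by
      intro z hz
      have h1 : HasFDerivAt K (fderiv ℝ K z) z := hK.hd hz
      have h2 := (hasFDerivAt_pi'.1 h1) m
      have h3 : ∀ a, pd a f z = (fderiv ℝ K z (ee a)) m := by
        intro a
        rw [pd_eq, h2.fderiv]; rfl
      simp only [h3]
      have h4 : (fderiv ℝ K z w) m = ∑ a, w a * (fderiv ℝ K z (ee a)) m := by
        have := vexp2 ((ContinuousLinearMap.proj m).comp (fderiv ℝ K z)) w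
        simpa using this
      rw [← h4, h z hz]; rfl
    have d2 : ∀ z : V, z ≠ 0 → ∑ a, w a * pd j (pd a f) z = 0 := by
      intro z hz
      have e := pd_congr (g := fun _ => (0:ℝ)) d1 j hz
      rw [pd_const, pd_sum (fun a _ => (sm_const (w a)).mul (hs.pd a)) j hz] at e
      rw [← e]
      exact Finset.sum_congr rfl fun a _ => (pd_const_mul (hs.pd a) (w a) j hz).symm
    have d3 : ∀ z : V, z ≠ 0 → ∑ a, w a * pd i (pd j (pd a f)) z = 0 := by
      intro z hz
      have e := pd_congr (g := fun _ => (0:ℝ)) d2 i hz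
      rw [pd_const, pd_sum (fun a _ => (sm_const (w a)).mul ((hs.pd a).pd j)) i hz] at e
      rw [← e]
      exact Finset.sum_congr rfl fun a _ => (pd_const_mul ((hs.pd a).pd j) (w a) i hz).symm
    refine null_dir (by norm_num) ((hs.pd j).pd i) hbh hw (fun z hz => ?_) hy
    rw [← d3 z hz]
    refine Finset.sum_congr rfl fun a _ => ?_
    congr 1
    rw [pd_comm (hs.pd j) a i hz, pd_congr (fun u hu => pd_comm hs a j hu) i hz]
  have h1 : ∀ i : Fin 3, fderiv ℝ (fderiv ℝ K) y (ee i) v = 0 := fun i =>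
    lin0V (fderiv ℝ (fderiv ℝ K) y (ee i)).toLinearMap (fun j => hb i j) v
  exact lin0V ((fderiv ℝ (fderiv ℝ K) y).flip v).toLinearMap (fun i => h1 i) u

/-- ... and then it is a linear map -/
lemma lin_of_dd (hK : Kil E K) (h : ∀ y : V, y ≠ 0 → ∀ u v, fderiv ℝ (fderiv ℝ K) y u v = 0) :
    ∃ Λ : V →L[ℝ] V, ∀ y : V, y ≠ 0 → fderiv ℝ K y = Λ ∧ K y = Λ y := by
  have hne : (ee 0 : V) ≠ 0 := by
    intro h
    have := congrFun h 0
    simp [ee] at this
  refine ⟨fderiv ℝ K (ee 0), fun y hy => ?_⟩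
  have hconn : IsPreconnected ({0}ᶜ : Set V) := by
    have hrk : 1 < Module.rank ℝ V := by
      rw [rank_fun']
      simp
    exact (isConnected_compl_singleton_of_one_lt_rank hrk 0).isPreconnected
  have h1 : fderiv ℝ K y = fderiv ℝ K (ee 0) := by
    refine isOpen_compl_singleton.is_const_of_fderiv_eq_zero (𝕜 := ℝ) hconn (f := fderiv ℝ K) ?_ ?_ hy hne
    · intro z hz
      exact (hK.hdd hz).differentiableAt.differentiableWithinAt
    · intro z hz
      ext1 u; ext1 v
      exact h z hz u v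
  refine ⟨h1, ?_⟩
  rw [← h1, hK.euler hy]

end fibre

section alg

/-- the algebraic part of the argument -/
lemma alg (B : V → (V →L[ℝ] V →L[ℝ] V →L[ℝ] V)) (Λ : V →L[ℝ] V)
    (h12 : ∀ y : V, y ≠ 0 → ∀ u v w, B y u v w = B y v u w)
    (h23 : ∀ y : V, y ≠ 0 → ∀ u v w, B y u v w = B y u w v)
    (h0 : ∀ y : V, y ≠ 0 → ∀ u v, B y y u v = 0)
    (hc : ∀ y : V, y ≠ 0 → ∀ u v e, B y u (Λ v) e = B y u (Λ e) v)
    (hcont : ∀ y : V, y ≠ 0 → ContinuousAt B y)
    (h : V →L[ℝ] V →L[ℝ] ℝ) (hsym : ∀ u v, h u v = h v u) (hpos : ∀ v, v ≠ 0 → 0 < h v v)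
    (hskew : ∀ u v, h (Λ u) v + h u (Λ v) = 0) {ω : V} (hω : ω ≠ 0) (hΛω : Λ ω = 0)
    (hΛ : ∃ z, Λ z ≠ 0) {y : V} (hy : y ≠ 0) : B y = 0 := by
  have hωΛ : ∀ z, h ω (Λ z) = 0 := by
    intro z
    have := hskew ω z
    rw [hΛω] at this
    simpa using this
  have hself : ∀ z, h z (Λ z) = 0 := by
    intro z
    have := hskew z z
    rw [hsym (Λ z) z] at this
    linarith
  -- generic points
  have hgen : ∀ z : V, z ≠ 0 → Λ z ≠ 0 → h ω z ≠ 0 → B z = 0 := by
    intro z hz h1 h2
    have hli : LinearIndependent ℝ ![z, Λ z, Λ (Λ z)] := by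
      rw [Fintype.linearIndependent_iff]
      intro c hcs
      simp only [Fin.sum_univ_three, Matrix.cons_val_zero, Matrix.cons_val_one, Matrix.cons_val] at hcs
      have e0 : c 0 = 0 := by
        have := congrArg (fun v => h ω v) hcs
        simp only [map_add, map_smul, smul_eq_mul, hωΛ, mul_zero, add_zero, map_zero] at this
        exact (mul_eq_zero.1 this).resolve_right h2
      have e1 : c 1 = 0 := by
        have := congrArg (fun v => h (Λ z) v) hcs
        simp only [map_add, map_smul, smul_eq_mul, hself, mul_zero, add_zero, map_zero, e0, zero_mul, zero_add] at this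
        exact (mul_eq_zero.1 this).resolve_right (hpos _ h1).ne'
      have e2 : c 2 = 0 := by
        have := congrArg (fun v => h z v) hcs
        simp only [map_add, map_smul, smul_eq_mul, mul_zero, map_zero, e0, e1, zero_mul, zero_add] at this
        have h3 : h z (Λ (Λ z)) = - h (Λ z) (Λ z) := by
          have := hskew z (Λ z)
          linarith
        rw [h3] at this
        exact (mul_eq_zero.1 this).resolve_right (neg_ne_zero.2 (hpos _ h1).ne')
      intro i
      fin_cases i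
      · exact e0
      · exact e1
      · exact e2
    have b1 : ∀ u e, B z (Λ z) u e = 0 := by
      intro u e
      rw [h12 z hz, hc z hz, h23 z hz, h12 z hz, h0 z hz]
    have b2 : ∀ u e, B z (Λ (Λ z)) u e = 0 := by
      intro u e
      rw [h12 z hz, hc z hz, h23 z hz, h12 z hz, b1]
    ext1 u
    ext1 v
    ext1 w
    have h3 : (((B z).flip v).flip w).toLinearMap = (0 : V →ₗ[ℝ] V) := by
      refine (basisOfLinearIndependentOfCardEqFinrank hli (by simp)).ext fun i => ?_
      rw [coe_basisOfLinearIndependentOfCardEqFinrank]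
      fin_cases i
      · exact h0 z hz v w
      · exact b1 v w
      · exact b2 v w
    exact congrArg (fun L : V →ₗ[ℝ] V => L u) h3
  -- a good direction
  obtain ⟨z0, hz0⟩ := hΛ
  obtain ⟨z, hz1, hz2⟩ : ∃ z, Λ z ≠ 0 ∧ h ω z ≠ 0 := by
    by_cases h1 : h ω z0 = 0
    · refine ⟨z0 + ω, ?_, ?_⟩
      · rw [map_add, hΛω, add_zero]; exact hz0
      · rw [map_add, h1, zero_add]; exact (hpos ω hω).ne'
    · exact ⟨z0, hz0, h1⟩
  have hlim : Tendsto (fun ε : ℝ => y + ε • z) (𝓝[≠] 0) (𝓝 y) := by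
    have h7 : Tendsto (fun e : ℝ => y + e • z) (𝓝 0) (𝓝 (y + (0:ℝ) • z)) :=
      (tendsto_id.smul_const z).const_add y
    rw [zero_smul, add_zero] at h7
    exact h7.mono_left nhdsWithin_le_nhds
  have hB : Tendsto (fun ε : ℝ => B (y + ε • z)) (𝓝[≠] 0) (𝓝 (B y)) := (hcont y hy).tendsto.comp hlim
  have hne : ∀ᶠ ε : ℝ in 𝓝[≠] 0, y + ε • z ≠ 0 := hlim.eventually (ne_ev hy)
  -- at most one bad parameter for each condition
  have hb1 : ∀ᶠ ε : ℝ in 𝓝[≠] 0, Λ (y + ε • z) ≠ 0 := by
    by_cases h1 : Λ y = 0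
    · filter_upwards [self_mem_nhdsWithin] with ε hε
      rw [map_add, h1, zero_add, map_smul]
      exact smul_ne_zero hε hz1
    · have : Tendsto (fun ε : ℝ => Λ (y + ε • z)) (𝓝[≠] 0) (𝓝 (Λ y)) := (Λ.continuous.tendsto y).comp hlim
      exact this.eventually (ne_ev h1)
  have hb2 : ∀ᶠ ε : ℝ in 𝓝[≠] 0, h ω (y + ε • z) ≠ 0 := by
    by_cases h1 : h ω y = 0
    · filter_upwards [self_mem_nhdsWithin] with ε hε
      rw [map_add, h1, zero_add, map_smul]
      exact smul_ne_zero hε hz2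
    · have : Tendsto (fun ε : ℝ => h ω (y + ε • z)) (𝓝[≠] 0) (𝓝 (h ω y)) := ((h ω).continuous.tendsto y).comp hlim
      exact this.eventually_ne h1
  have hz : Tendsto (fun ε : ℝ => B (y + ε • z)) (𝓝[≠] 0) (𝓝 0) := by
    refine tendsto_const_nhds.congr' ?_
    filter_upwards [hne, hb1, hb2] with ε h1 h2 h3 using (hgen _ h1 h2 h3).symm
  exact tendsto_nhds_unique hB hz

/-- Levi-Civita type argument -/
lemma alg2 (h : V →L[ℝ] V →L[ℝ] ℝ) (hsym : ∀ u v, h u v = h v u) (hpos : ∀ v, v ≠ 0 → 0 < h v v)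
    (B : V → V → V → V) (h12 : ∀ u v w, B u v w = B v u w)
    (hs : ∀ u v w e, h (B w u e) v + h u (B w v e) = 0) (u v w : V) : B u v w = 0 := by
  by_contra hne
  set a := B u v w with ha
  have e1 := hs a u v w
  have e2 := hs a v u w
  have e3 := hs u v a w
  have s1 : h (B a v w) u = h u (B a v w) := hsym _ _
  have s2 : h (B a u w) v = h v (B a u w) := hsym _ _
  have s3 : B v u w = a := by rw [h12]
  have s4 : B u v w = a := rfl
  have s5 : B v a w = B a v w := h12 _ _ _
  have s6 : B u a w = B a u w := h12 _ _ _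
  rw [s3, s5] at e1
  rw [s4, s6] at e2
  have h1 := hpos a hne
  linarith

end alg

end Pool.Agent.U631.TD
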