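import Pool.Agent.U631.TD.C4
set_option autoImplicit false
set_option maxSynthPendingDepth 6
open Topology Filter
namespace Pool.Agent.U631.TD
open H506R3.Lau Pool.Agent.R774.BW

variable {Ω : Set W} {q : W → ℝ} {G : W → V} {x y : V}

/-- the curvature of the nonlinear connection, `[δ_a, δ_b]` -/
noncomputable def Rf (G : W → V) (a b : V) : W → V := cm a (Nf G a) b (Nf G b)

/-- the Landsberg condition -/
def Lan (Ω : Set W) (q : W → ℝ) (G : W → V) : Prop := ∀ p ∈ Ω, ∀ u v w : V,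
  T1 q p (io (fderiv ℝ (fderiv ℝ (fderiv ℝ G)) p (io u) (io v) (io w))) = 0

lemma SP.pfR (S : SP Ω q G) (hL : Lan Ω q G) (a b : V) : PF Ω q 0 (Rf G a b) :=
  PF.bracket S.op S.dil S.sq (S.pfN hL a) (S.pfN hL b)

/-- the cyclic identity -/
lemma SP.cyc (S : SP Ω q G) {p : W} (hp : p ∈ Ω) (a b c : V) :
    fderiv ℝ (Rf G a b) p (io c) + fderiv ℝ (Rf G b c) p (io a) + fderiv ℝ (Rf G c a) p (io b) = 0 := by
  have key : ∀ a b c : V, fderiv ℝ (Rf G a b) p (io c) =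
      - fderiv ℝ (fderiv ℝ (fderiv ℝ G)) p (io c) (a, Nf G a p) (io b)
      + fderiv ℝ (fderiv ℝ G) p (io (fderiv ℝ (fderiv ℝ G) p (io c) (io a))) (io b)
      + fderiv ℝ (fderiv ℝ (fderiv ℝ G)) p (io c) (b, Nf G b p) (io a)
      - fderiv ℝ (fderiv ℝ G) p (io (fderiv ℝ (fderiv ℝ G) p (io c) (io b))) (io a) := by
    intro a b c
    rw [Rf, fd_cm (S.smN a) (S.smN b) hp, fdN2 S.op S.smG hp, fdN2 S.op S.smG hp, fdN S.smG hp, fdN S.smG hp,
      fdN S.smG hp, fdN S.smG hp]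
    simp only [map_neg, neg_apply]
    abel
  have s3 : ∀ (u v : V) (z : W), fderiv ℝ (fderiv ℝ (fderiv ℝ G)) p (io u) z (io v) =
      fderiv ℝ (fderiv ℝ (fderiv ℝ G)) p (io v) z (io u) := by
    intro u v z
    rw [S.smG.s3a hp, S.smG.s3b S.op hp, S.smG.s3a hp]
  have s2 : ∀ u v : V, fderiv ℝ (fderiv ℝ G) p (io u) (io v) = fderiv ℝ (fderiv ℝ G) p (io v) (io u) :=
    fun u v => S.smG.s2 hp _ _
  rw [key a b c, key b c a, key c a b, s3 c b, s3 a c, s3 b a, s2 c a, s2 c b, s2 a b]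
  abel

/-- the three components of the curvature -/
noncomputable def RR (G : W → V) (c : Fin 3) : W → V := Rf G (ee (c + 1)) (ee (c + 2))

lemma SP.cyc3 (S : SP Ω q G) {p : W} (hp : p ∈ Ω) :
    fderiv ℝ (RR G 0) p (io (ee 0)) + fderiv ℝ (RR G 1) p (io (ee 1)) + fderiv ℝ (RR G 2) p (io (ee 2)) = 0 := by
  have h := S.cyc hp (ee 1) (ee 2) (ee 0)
  have e0 : RR G 0 = Rf G (ee 1) (ee 2) := rfl
  have e1 : RR G 1 = Rf G (ee 2) (ee 0) := rfl
  have e2 : RR G 2 = Rf G (ee 0) (ee 1) := rfl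
  rw [e0, e1, e2]
  exact h

lemma SP.datx (S : SP Ω q G) (hx : ∀ y : V, y ≠ 0 → ((x, y) : W) ∈ Ω) (hq0 : q (x, 0) = 0) :
    Dat (fun z => q (x, z)) := by
  refine ⟨fun y hy => fib_sm S.sq (hx y hy), fun t z ht => ?_, fun y hy v hv => ?_⟩
  · by_cases hz : z = 0
    · subst hz
      simp [hq0]
    · have := S.hq (x, z) (hx z hz) t ht
      simpa using this
  · rw [gE S.sq hx hy]
    exact S.pos _ (hx y hy) v hv

/-- data of one fibre with nonzero Cartan tensor and nonzero curvature -/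
lemma key1 (S : SP Ω q G) (hL : Lan Ω q G) (hx : ∀ y : V, y ≠ 0 → ((x, y) : W) ∈ Ω)
    (D : Dat (fun z => q (x, z)))
    (hC : ∃ y : V, y ≠ 0 ∧ C (fun z => q (x, z)) y ≠ 0) {c0 : Fin 3} (hR : ∃ y : V, y ≠ 0 ∧ RR G c0 (x, y) ≠ 0) :
    ∃ (ω : V) (Λ : V →L[ℝ] V), ω ≠ 0 ∧ Λ ω = 0 ∧ (∃ z, Λ z ≠ 0) ∧
      (∀ c, ∀ y : V, y ≠ 0 → RR G c (x, y) = ω c • RR G c0 (x, y)) ∧
      (∀ y : V, y ≠ 0 → RR G c0 (x, y) = Λ y) ∧
      (∀ y : V, y ≠ 0 → ∀ u, fderiv ℝ (RR G c0) (x, y) (io u) = Λ u) ∧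
      (∀ y : V, y ≠ 0 → ∀ u v, fderiv ℝ (fderiv ℝ (RR G c0)) (x, y) (io u) (io v) = 0) := by
  have hpf : ∀ c, PF Ω q 0 (RR G c) := fun c => S.pfR hL _ _
  have hK : ∀ c, Kil (fun z => q (x, z)) (fun z => RR G c (x, z)) := fun c => (hpf c).kil S.sq hx
  choose ω hω using fun c => prop_of D hC (hK c0) hR (hK c)
  obtain ⟨y1, hy1, hR1⟩ := hR
  have hω0 : (ω : V) ≠ 0 := by
    intro h
    have h1 := hω c0 y1 hy1
    have h2 : ω c0 = 0 := congrFun h c0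
    rw [h2, zero_smul] at h1
    exact hR1 h1
  have hfd : ∀ c, ∀ y : V, y ≠ 0 → ∀ u, fderiv ℝ (RR G c) (x, y) (io u) =
      ω c • fderiv ℝ (fun z => RR G c0 (x, z)) y u := by
    intro c y hy u
    rw [← fib_fd (hpf c).sm (hx y hy)]
    have h1 : HasFDerivAt (fun z => ω c • RR G c0 (x, z)) (ω c • fderiv ℝ (fun z => RR G c0 (x, z)) y) y :=
      ((hK c0).hd hy).const_smul (ω c)
    have h2 : (fun z => RR G c (x, z)) =ᶠ[𝓝 y] fun z => ω c • RR G c0 (x, z) := by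
      filter_upwards [ne_ev hy] with z hz using hω c z hz
    rw [h2.fderiv_eq, h1.fderiv]; rfl
  have hdir : ∀ y : V, y ≠ 0 → fderiv ℝ (fun z => RR G c0 (x, z)) y ω = 0 := by
    intro y hy
    have h1 := S.cyc3 (hx y hy)
    rw [hfd 0 y hy, hfd 1 y hy, hfd 2 y hy] at h1
    have h2 : (ω : V) = ω 0 • ee 0 + ω 1 • ee 1 + ω 2 • ee 2 := by
      have := vexp (ω : V)
      simpa [Fin.sum_univ_three] using this
    rw [h2, map_add, map_add, map_smul, map_smul, map_smul]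
    exact h1
  have hdd : ∀ y : V, y ≠ 0 → ∀ u v, fderiv ℝ (fderiv ℝ (fun z => RR G c0 (x, z))) y u v = 0 := fun y hy u v =>
    lin_of_dir (hK c0) hω0 hdir hy u v
  obtain ⟨Λ, hΛ⟩ := lin_of_dd (hK c0) hdd
  refine ⟨ω, Λ, hω0, ?_, ⟨y1, ?_⟩, hω, fun y hy => (hΛ y hy).2, fun y hy u => ?_, fun y hy u v => ?_⟩
  · rw [← (hΛ y1 hy1).1]; exact hdir y1 hy1
  · rw [← (hΛ y1 hy1).2]; exact hR1
  · rw [← fib_fd (hpf c0).sm (hx y hy), (hΛ y hy).1]
  · rw [← fib_fd2 (hpf c0).sm hx hy]; exact hdd y hy u v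

/-- on a fibre with nonzero Cartan tensor the curvature is linear -/
lemma key2 (S : SP Ω q G) (hL : Lan Ω q G) (hx : ∀ y : V, y ≠ 0 → ((x, y) : W) ∈ Ω)
    (D : Dat (fun z => q (x, z)))
    (hC : ∃ y : V, y ≠ 0 ∧ C (fun z => q (x, z)) y ≠ 0) (c : Fin 3) (hy : y ≠ 0) (u v : V) :
    fderiv ℝ (fderiv ℝ (RR G c)) (x, y) (io u) (io v) = 0 := by
  have hpf : PF Ω q 0 (RR G c) := S.pfR hL _ _
  by_cases hR : ∃ y : V, y ≠ 0 ∧ RR G c (x, y) ≠ 0
  · obtain ⟨ω, Λ, _, _, _, _, _, _, h⟩ := key1 S hL hx D hC hR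
    exact h y hy u v
  · push Not at hR
    rw [← fib_fd2 hpf.sm hx hy]
    have h1 : fderiv ℝ (fun z => RR G c (x, z)) =ᶠ[𝓝 y] fun _ => 0 := by
      filter_upwards [ne_ev hy] with z hz
      have h2 : (fun z => RR G c (x, z)) =ᶠ[𝓝 z] fun _ => 0 := by
        filter_upwards [ne_ev hz] with w hw using hR w hw
      rw [h2.fderiv_eq]; simp
    rw [h1.fderiv_eq]; simp

/-- second derivatives of a commutator -/
lemma fd2_cm {a b : V} {A B : W → V} (hΩ : IsOpen Ω) (hA : SmO Ω A) (hB : SmO Ω B) {p : W} (hp : p ∈ Ω) (z z' : W) :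
    fderiv ℝ (fderiv ℝ (cm a A b B)) p z z' =
      (fderiv ℝ (fderiv ℝ (fderiv ℝ B)) p z z' (a, A p) + fderiv ℝ (fderiv ℝ B) p z' (io (fderiv ℝ A p z)))
      + (fderiv ℝ (fderiv ℝ B) p z (io (fderiv ℝ A p z')) + fderiv ℝ B p (io (fderiv ℝ (fderiv ℝ A) p z z')))
      - (fderiv ℝ (fderiv ℝ (fderiv ℝ A)) p z z' (b, B p) + fderiv ℝ (fderiv ℝ A) p z' (io (fderiv ℝ B p z)))
      - (fderiv ℝ (fderiv ℝ A) p z (io (fderiv ℝ B p z')) + fderiv ℝ A p (io (fderiv ℝ (fderiv ℝ B) p z z'))) := by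
  have hC : SmO Ω (cm a A b B) := sm_cm hA hB
  have hio : ∀ {A : W → V}, SmO Ω A → HasFDerivAt (fun r : W => io (fderiv ℝ A r z'))
      (io.comp ((ContinuousLinearMap.apply ℝ V z').comp (fderiv ℝ (fderiv ℝ A) p))) p := by
    intro A hA
    have h1 : HasFDerivAt (fun r : W => fderiv ℝ A r z')
        ((ContinuousLinearMap.apply ℝ V z').comp (fderiv ℝ (fderiv ℝ A) p)) p :=
      (ContinuousLinearMap.apply ℝ V z').hasFDerivAt.comp p (hA.fd.hd hp)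
    exact io.hasFDerivAt.comp p h1
  have t1 := ((hB.fd.fd.hd hp).clm_apply (hasFDerivAt_const z' p)).clm_apply (hpair a (hA.hd hp))
  have t2 := (hB.fd.hd hp).clm_apply (hio hA)
  have t3 := ((hA.fd.fd.hd hp).clm_apply (hasFDerivAt_const z' p)).clm_apply (hpair b (hB.hd hp))
  have t4 := (hA.fd.hd hp).clm_apply (hio hB)
  have h1 := (hC.fd.hd hp).clm_apply (hasFDerivAt_const z' p)
  have h2 := ((t1.add t2).sub t3).sub t4
  have h3 := fd_congr hΩ hp h1 h2 (fun r hr => fd_cm hA hB hr z')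
  have h4 := congrArg (fun L : W →L[ℝ] V => L z) h3
  simp only [add_apply, sub_apply, ContinuousLinearMap.comp_apply, ContinuousLinearMap.flip_apply,
    ContinuousLinearMap.apply_apply, zero_apply, map_zero, zero_add, add_zero] at h4
  rw [h4]
  abel

end Pool.Agent.U631.TD
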