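import Pool.Agent.U631.TD.C5
set_option autoImplicit false
set_option maxSynthPendingDepth 6
open Topology Filter
namespace Pool.Agent.U631.TD
open H506R3.Lau Pool.Agent.R774.BW

variable {Ω : Set W} {q : W → ℝ} {G : W → V} {x y : V}

/-- `∂³G` is annihilated by `y` -/
lemma SP.B0 (S : SP Ω q G) {p : W} (hp : p ∈ Ω) (u v : V) :
    fderiv ℝ (fderiv ℝ (fderiv ℝ G)) p (io u) (io v) (io p.2) = 0 := by
  have hy : ∀ p : W, HasFDerivAt (fun r : W => io r.2) (io.comp (ContinuousLinearMap.snd ℝ V V)) p := fun p =>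
    io.hasFDerivAt.comp p hasFDerivAt_snd
  have e1 : ∀ r ∈ Ω, fderiv ℝ G r (io r.2) = (2:ℝ) • G r := by
    intro r hr
    have := euler_gen S.smG 2 hr (fun t ht => S.hG hr ht)
    simpa using this
  have e2 : ∀ r ∈ Ω, fderiv ℝ (fderiv ℝ G) r (io v) (io r.2) = fderiv ℝ G r (io v) := by
    intro r hr
    have h1 := (S.smG.fd.hd hr).clm_apply (hy r)
    have h2 := (S.smG.hd hr).const_smul (2:ℝ)
    have h3 := congrArg (fun L : W →L[ℝ] V => L (io v)) (fd_congr S.op hr h1 h2 e1)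
    simp only [add_apply, ContinuousLinearMap.comp_apply, ContinuousLinearMap.flip_apply, smul_apply,
      ContinuousLinearMap.coe_snd'] at h3
    have e3 : (io v).2 = v := rfl
    rw [e3, two_smul] at h3
    have h4 := add_left_cancel h3
    exact h4
  have h1 := ((S.smG.fd.fd.hd hp).clm_apply (hasFDerivAt_const (io v) p)).clm_apply (hy p)
  have h2 := (S.smG.fd.hd hp).clm_apply (hasFDerivAt_const (io v) p)
  have h3 := congrArg (fun L : W →L[ℝ] V => L (io u)) (fd_congr S.op hp h1 h2 e2)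
  simp only [add_apply, ContinuousLinearMap.comp_apply, ContinuousLinearMap.flip_apply, 
    ContinuousLinearMap.coe_snd', zero_apply, map_zero, zero_add] at h3
  have e3 : (io u).2 = u := rfl
  rw [e3, S.smG.s2 hp (io v) (io u)] at h3
  have h4 : fderiv ℝ (fderiv ℝ (fderiv ℝ G)) p (io u) (io v) (io p.2) =
      (fderiv ℝ (fderiv ℝ G) p (io u) (io v) + fderiv ℝ (fderiv ℝ (fderiv ℝ G)) p (io u) (io v) (io p.2))
       - fderiv ℝ (fderiv ℝ G) p (io u) (io v) := by abel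
  rw [h4, h3, sub_self]

lemma fib_all (S : SP Ω q G) {x y : V} (h : ((x, y) : W) ∈ Ω) : ∀ z : V, z ≠ 0 → ((x, z) : W) ∈ Ω :=
  fun z hz => S.fib (x, y) h z hz

lemma near_C (S : SP Ω q G) (hx : ∀ y : V, y ≠ 0 → ((x, y) : W) ∈ Ω)
    (hC : ∃ y : V, y ≠ 0 ∧ C (fun z => q (x, z)) y ≠ 0) :
    ∀ᶠ x' in 𝓝 x, (∀ y : V, y ≠ 0 → ((x', y) : W) ∈ Ω) ∧ ∃ y : V, y ≠ 0 ∧ C (fun z => q (x', z)) y ≠ 0 := by
  obtain ⟨y0, hy0, hC0⟩ := hC
  obtain ⟨u0, v0, w0, h0⟩ : ∃ u v w, C (fun z => q (x, z)) y0 u v w ≠ 0 := by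
    by_contra h
    push Not at h
    apply hC0
    ext1 u; ext1 v; ext1 w
    exact h u v w
  rw [CE S.sq hx hy0] at h0
  have hc : ContinuousAt (fun r : W => T3 q r (io u0) (io v0) (io w0)) (x, y0) := by
    have h1 : ContDiffAt ℝ ((⊤ : ℕ∞) : WithTop ℕ∞) (fun r : W => T3 q r (io u0) (io v0) (io w0)) (x, y0) :=
      (((S.sq.fd.fd.fd _ (hx y0 hy0)).clm_apply contDiffAt_const).clm_apply contDiffAt_const).clm_apply
        contDiffAt_const
    exact h1.continuousAt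
  have ht : Tendsto (fun x' : V => ((x', y0) : W)) (𝓝 x) (𝓝 (x, y0)) :=
    (Continuous.prodMk_left y0).tendsto x
  have e1 := ht.eventually (hc.eventually_ne h0)
  have e2 := ht.eventually (S.op.mem_nhds (hx y0 hy0))
  filter_upwards [e1, e2] with x' h1 h2
  have hx' := fib_all S h2
  refine ⟨hx', y0, hy0, fun h => h1 ?_⟩
  rw [← CE S.sq hx' hy0, h]; rfl

/-- the generic case -/
lemma case1 (S : SP Ω q G) (hL : Lan Ω q G) (hx : ∀ y : V, y ≠ 0 → ((x, y) : W) ∈ Ω)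
    (hD : ∀ x' : V, (∀ y : V, y ≠ 0 → ((x', y) : W) ∈ Ω) → Dat (fun z => q (x', z)))
    (hC : ∃ y : V, y ≠ 0 ∧ C (fun z => q (x, z)) y ≠ 0) {c0 : Fin 3} (hR : ∃ y : V, y ≠ 0 ∧ RR G c0 (x, y) ≠ 0)
    (hy : y ≠ 0) (u v w : V) :
    fderiv ℝ (fderiv ℝ (fderiv ℝ G)) (x, y) (io u) (io v) (io w) = 0 := by
  obtain ⟨ω, Λ, hω, hΛω, hΛ, _, hval, hfd, hdd⟩ := key1 S hL hx (hD x hx) hC hR
  set K : W → V := RR G c0 with hK
  have hpK : PF Ω q 0 K := S.pfR hL _ _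
  have hnear := near_C S hx hC
  have hdd' : ∀ y : V, y ≠ 0 → ∀ᶠ p in 𝓝 ((x, y) : W), ∀ u v, fderiv ℝ (fderiv ℝ K) p (io u) (io v) = 0 := by
    intro y hy
    have h1 : Tendsto (fun p : W => p.1) (𝓝 (x, y)) (𝓝 x) := continuous_fst.tendsto (x, y)
    have h2 : Tendsto (fun p : W => p.2) (𝓝 (x, y)) (𝓝 y) := continuous_snd.tendsto (x, y)
    filter_upwards [h1.eventually hnear, h2.eventually (ne_ev hy)] with p hp1 hp2 u v
    exact key2 S hL hp1.1 (hD _ hp1.1) hp1.2 c0 hp2 u v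
  have hd3 : ∀ y : V, y ≠ 0 → ∀ (z : W) (u v : V),
      fderiv ℝ (fderiv ℝ (fderiv ℝ K)) (x, y) z (io u) (io v) = 0 := by
    intro y hy z u v
    have h1 := ((hpK.sm.fd.fd.hd (hx y hy)).clm_apply (hasFDerivAt_const (io u) (x, y))).clm_apply
      (hasFDerivAt_const (io v) (x, y))
    have h2 : (fun r => fderiv ℝ (fderiv ℝ K) r (io u) (io v)) =ᶠ[𝓝 ((x, y) : W)] fun _ => 0 := by
      filter_upwards [hdd' y hy] with p hp using hp u v
    have h3 := h1.unique ((hasFDerivAt_const (0 : V) ((x, y) : W)).congr_of_eventuallyEq h2)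
    have h4 := congrArg (fun L : W →L[ℝ] V => L z) h3
    simpa using h4
  -- the derivative of the curvature
  have hZ : ∀ e : V, ∀ y : V, y ≠ 0 → ∀ u v : V,
      fderiv ℝ (fderiv ℝ (cm e (Nf G e) 0 K)) (x, y) (io u) (io v) = 0 := by
    intro e y hy u v
    have hpZ : PF Ω q 0 (cm e (Nf G e) 0 K) := PF.bracket S.op S.dil S.sq (S.pfN hL e) hpK
    obtain ⟨c, hc⟩ := prop_of (hD x hx) hC (hpK.kil S.sq hx) hR (hpZ.kil S.sq hx)
    rw [← fib_fd2 hpZ.sm hx hy]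
    have h1 : fderiv ℝ (fun z => cm e (Nf G e) 0 K (x, z)) =ᶠ[𝓝 y] fun _ => c • Λ := by
      filter_upwards [ne_ev hy] with z hz
      have h2 : (fun z => cm e (Nf G e) 0 K (x, z)) =ᶠ[𝓝 z] fun w => (c • Λ) w := by
        filter_upwards [ne_ev hz] with w hw
        rw [hc w hw, hval w hw]; rfl
      rw [h2.fderiv_eq]
      exact (c • Λ).fderiv
    rw [h1.fderiv_eq]; simp
  have hT : ∀ y : V, y ≠ 0 → ∀ u v e : V,
      - Λ (fderiv ℝ (fderiv ℝ (fderiv ℝ G)) (x, y) (io u) (io v) (io e))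
      + fderiv ℝ (fderiv ℝ (fderiv ℝ (fderiv ℝ G))) (x, y) (io u) (io v) (io (Λ y)) (io e)
      + fderiv ℝ (fderiv ℝ (fderiv ℝ G)) (x, y) (io v) (io (Λ u)) (io e)
      + fderiv ℝ (fderiv ℝ (fderiv ℝ G)) (x, y) (io u) (io (Λ v)) (io e) = 0 := by
    intro y hy u v e
    have hp := hx y hy
    have h1 := hZ e y hy u v
    rw [fd2_cm S.op (S.smN e) hpK.sm hp, hpK.sm.s3b S.op hp (io u) (io v), hpK.sm.s3a hp (io u), hd3 y hy,
      hdd y hy, hdd y hy, hdd y hy, hfd y hy, hfd y hy, hfd y hy,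
      fdN2 S.op S.smG hp, fdN2 S.op S.smG hp, fdN2 S.op S.smG hp, fdN3 S.op S.smG hp] at h1
    have e0 : (((0 : V), K (x, y)) : W) = io (Λ y) := by rw [hval y hy]; rfl
    rw [e0] at h1
    rw [← h1]
    simp only [map_neg, map_zero]
    abel
  have hE : ∀ (y : V) (hy : y ≠ 0) (u v w : V), fderiv ℝ (fderiv ℝ (fderiv ℝ (fun z => G (x, z)))) y u v w =
      fderiv ℝ (fderiv ℝ (fderiv ℝ G)) (x, y) (io u) (io v) (io w) := fun y hy u v w => fib_fd3 S.smG hx hy u v w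
  have hfin : fderiv ℝ (fderiv ℝ (fderiv ℝ (fun z => G (x, z)))) y = 0 := by
    refine alg (fderiv ℝ (fderiv ℝ (fderiv ℝ (fun z => G (x, z))))) Λ ?_ ?_ ?_ ?_ ?_
      (g (fun z => q (x, z)) ω) (g_symm (hD x hx) hω) ((hD x hx).pos ω hω) ?_ hω hΛω hΛ hy
    · intro y hy u v w
      rw [hE y hy, hE y hy]
      exact S.smG.s3a (hx y hy) _ _ _
    · intro y hy u v w
      rw [hE y hy, hE y hy]
      exact S.smG.s3b S.op (hx y hy) _ _ _
    · intro y hy u v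
      rw [hE y hy, S.smG.s3a (hx y hy), S.smG.s3b S.op (hx y hy)]
      exact S.B0 (hx y hy) u v
    · intro y hy u v e
      rw [hE y hy, hE y hy]
      have hp := hx y hy
      have h1 := hT y hy u v e
      have h2 := hT y hy u e v
      have s1 : fderiv ℝ (fderiv ℝ (fderiv ℝ G)) (x, y) (io u) (io e) (io v) =
          fderiv ℝ (fderiv ℝ (fderiv ℝ G)) (x, y) (io u) (io v) (io e) := S.smG.s3b S.op hp _ _ _
      have s2 : fderiv ℝ (fderiv ℝ (fderiv ℝ (fderiv ℝ G))) (x, y) (io u) (io e) (io (Λ y)) (io v) =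
          fderiv ℝ (fderiv ℝ (fderiv ℝ (fderiv ℝ G))) (x, y) (io u) (io v) (io (Λ y)) (io e) := by
        rw [S.smG.s4c S.op hp, S.smG.s4b S.op hp, S.smG.s4c S.op hp]
      have s3 : fderiv ℝ (fderiv ℝ (fderiv ℝ G)) (x, y) (io e) (io (Λ u)) (io v) =
          fderiv ℝ (fderiv ℝ (fderiv ℝ G)) (x, y) (io v) (io (Λ u)) (io e) := by
        rw [S.smG.s3a hp, S.smG.s3b S.op hp, S.smG.s3a hp]
      rw [s1, s2, s3] at h2
      have h3 := h1.trans h2.symm
      exact add_left_cancel h3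
    · intro y hy
      have h1 : ContDiffAt ℝ ((⊤ : ℕ∞) : WithTop ℕ∞) (fderiv ℝ (fderiv ℝ (fderiv ℝ (fun z => G (x, z))))) y :=
        (((fib_sm S.smG (hx y hy)).fderiv_right top_add_one).fderiv_right top_add_one).fderiv_right top_add_one
      exact h1.continuousAt
    · intro u v
      have h1 := (hpK.kil S.sq hx).kil ω hω u v
      rw [fib_fd hpK.sm (hx ω hω), fib_fd hpK.sm (hx ω hω), hfd ω hω, hfd ω hω, hval ω hω, hΛω] at h1
      simpa using h1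
  rw [← hE y hy, hfin]; rfl

/-- the case of a neighbourhood of Euclidean fibres -/
lemma case2 (S : SP Ω q G) (hL : Lan Ω q G) (hx : ∀ y : V, y ≠ 0 → ((x, y) : W) ∈ Ω)
    (D : Dat (fun z => q (x, z)))
    (hC : ∀ᶠ x' in 𝓝 x, ∀ y : V, y ≠ 0 → C (fun z => q (x', z)) y = 0) (hy : y ≠ 0) (u v w : V) :
    fderiv ℝ (fderiv ℝ (fderiv ℝ G)) (x, y) (io u) (io v) (io w) = 0 := by
  have hp := hx y hy
  have hT3 : ∀ᶠ p in 𝓝 ((x, y) : W), ∀ a b c, T3 q p (io a) (io b) (io c) = 0 := by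
    have h1 : Tendsto (fun p : W => p.1) (𝓝 (x, y)) (𝓝 x) := continuous_fst.tendsto (x, y)
    have h2 : Tendsto (fun p : W => p.2) (𝓝 (x, y)) (𝓝 y) := continuous_snd.tendsto (x, y)
    filter_upwards [h1.eventually hC, h2.eventually (ne_ev hy), S.op.mem_nhds hp] with p hp1 hp2 hp3 a b c
    obtain ⟨x', y'⟩ := p
    have h3 := CE S.sq (fib_all S hp3) hp2 a b c
    rw [← h3, hp1 y' hp2]; rfl
  have h3 := hT3.self_of_nhds
  have hT4 : ∀ z a b c, T4 q (x, y) z (io a) (io b) (io c) = 0 := by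
    intro z a b c
    have h1 := (((S.sq.fd.fd.fd.hd hp).clm_apply (hasFDerivAt_const (io a) (x, y))).clm_apply
      (hasFDerivAt_const (io b) (x, y))).clm_apply (hasFDerivAt_const (io c) (x, y))
    have h2 : (fun r => T3 q r (io a) (io b) (io c)) =ᶠ[𝓝 ((x, y) : W)] fun _ => 0 := by
      filter_upwards [hT3] with p hp using hp a b c
    have h3 := h1.unique ((hasFDerivAt_const (0 : ℝ) ((x, y) : W)).congr_of_eventuallyEq h2)
    have h4 := congrArg (fun L : W →L[ℝ] ℝ => L z) h3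
    simpa [T4, T3, T2, T1] using h4
  refine alg2 (g (fun z => q (x, z)) y) (g_symm D hy) (D.pos y hy)
    (fun u v w => fderiv ℝ (fderiv ℝ (fderiv ℝ G)) (x, y) (io u) (io v) (io w))
    (fun u v w => S.smG.s3a hp _ _ _) (fun u v w e => ?_) u v w
  have h1 := (S.pfN hL e).dpf S.op S.sq hp u v (io w)
  have s4 : T4 q (x, y) (io w) (e, Nf G e (x, y)) (io u) (io v) = 0 := by
    have : T4 q (x, y) (io w) (e, Nf G e (x, y)) (io u) (io v) = T4 q (x, y) (e, Nf G e (x, y)) (io w) (io u) (io v) :=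
      S.sq.s4a hp _ _ _ _
    rw [this, hT4]
  rw [s4, h3, h3, h3, fdN2 S.op S.smG hp, fdN2 S.op S.smG hp] at h1
  show g (fun z => q (x, z)) y _ v + g (fun z => q (x, z)) y u _ = 0
  rw [gE S.sq hx hy, gE S.sq hx hy]
  simp only [map_neg, neg_apply] at h1
  linarith

/-- **main theorem on `W`** -/
theorem mainW (S : SP Ω q G) (hL : Lan Ω q G) (hx : ∀ y : V, y ≠ 0 → ((x, y) : W) ∈ Ω)
    (hD : ∀ x' : V, (∀ y : V, y ≠ 0 → ((x', y) : W) ∈ Ω) → Dat (fun z => q (x', z)))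
    {c0 : Fin 3} (hR : ∃ y : V, y ≠ 0 ∧ RR G c0 (x, y) ≠ 0) (hy : y ≠ 0) (u v w : V) :
    fderiv ℝ (fderiv ℝ (fderiv ℝ G)) (x, y) (io u) (io v) (io w) = 0 := by
  by_cases hC : ∃ y : V, y ≠ 0 ∧ C (fun z => q (x, z)) y ≠ 0
  · exact case1 S hL hx hD hC hR hy u v w
  by_cases h2 : ∀ᶠ x' in 𝓝 x, ∀ y : V, y ≠ 0 → C (fun z => q (x', z)) y = 0
  · exact case2 S hL hx (hD x hx) h2 hy u v w
  by_contra hB
  have hfr : ∃ᶠ x' in 𝓝 x, ¬ ∀ y : V, y ≠ 0 → C (fun z => q (x', z)) y = 0 := by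
    rwa [Filter.not_eventually] at h2
  obtain ⟨y1, hy1, hR1⟩ := hR
  have ht : ∀ y1 : V, Tendsto (fun x' : V => ((x', y1) : W)) (𝓝 x) (𝓝 (x, y1)) := fun y1 =>
    (Continuous.prodMk_left y1).tendsto x
  have hRc : ContinuousAt (RR G c0) (x, y1) := ((S.pfR hL _ _).sm _ (hx y1 hy1)).continuousAt
  have hBc : ContinuousAt (fun r : W => fderiv ℝ (fderiv ℝ (fderiv ℝ G)) r (io u) (io v) (io w)) (x, y) := by
    have h1 : ContDiffAt ℝ ((⊤ : ℕ∞) : WithTop ℕ∞)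
        (fun r : W => fderiv ℝ (fderiv ℝ (fderiv ℝ G)) r (io u) (io v) (io w)) (x, y) :=
      (((S.smG.fd.fd.fd _ (hx y hy)).clm_apply contDiffAt_const).clm_apply contDiffAt_const).clm_apply
        contDiffAt_const
    exact h1.continuousAt
  have e1 := (ht y1).eventually (hRc.eventually_ne hR1)
  have e2 := (ht y).eventually (hBc.eventually_ne hB)
  have e3 := (ht y1).eventually (S.op.mem_nhds (hx y1 hy1))
  obtain ⟨x', h1, h2, h3, h4⟩ := (hfr.and_eventually (e1.and (e2.and e3))).exists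
  push Not at h1
  have hx' := fib_all S h4
  exact h3 (case1 S hL hx' hD h1 ⟨y1, hy1, h2⟩ hy u v w)

end Pool.Agent.U631.TD
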