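import Pool.Agent.U631.TD.C6
set_option autoImplicit false
set_option maxSynthPendingDepth 6
open Topology Filter
namespace Pool.Agent.U631.TD
open H506R3.Lau Pool.Agent.R774.BW

/-- the coefficients `N^i_k(x,y) = ∂G^i/∂y^k` of the nonlinear connection -/
noncomputable def nonlin {n : ℕ} (G : (Fin n → ℝ) → (Fin n → ℝ) → (Fin n → ℝ))
    (x y : Fin n → ℝ) (i k : Fin n) : ℝ :=
  fderiv ℝ (fun u => G x u i) y (Pi.single k (1 : ℝ) : Fin n → ℝ)

/-- the horizontal derivative `δ_k f = ∂f/∂x^k - Σ_m N^m_k ∂f/∂y^m` -/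
noncomputable def hder {n : ℕ} (G : (Fin n → ℝ) → (Fin n → ℝ) → (Fin n → ℝ))
    (f : (Fin n → ℝ) → (Fin n → ℝ) → ℝ) (x y : Fin n → ℝ) (k : Fin n) : ℝ :=
  fderiv ℝ (fun z => f z y) x (Pi.single k (1 : ℝ) : Fin n → ℝ) -
    ∑ m, nonlin G x y m k * fderiv ℝ (fun u => f x u) y (Pi.single m (1 : ℝ) : Fin n → ℝ)

/-- the curvature `R^i_jk = δ_k N^i_j - δ_j N^i_k` of the nonlinear connection -/
noncomputable def curv {n : ℕ} (G : (Fin n → ℝ) → (Fin n → ℝ) → (Fin n → ℝ))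
    (x y : Fin n → ℝ) (i j k : Fin n) : ℝ :=
  hder G (fun x y => nonlin G x y i j) x y k - hder G (fun x y => nonlin G x y i k) x y j

variable {U : Set V} {F : V → V → ℝ} {G : V → V → V}

noncomputable def GW (G : V → V → V) : W → V := fun p => G p.1 p.2

lemma nonlin_eq (hs : SmO (Om U) (GW G)) {x y : V} (hx : x ∈ U) (hy : y ≠ 0) (i k : Fin 3) :
    nonlin G x y i k = fderiv ℝ (GW G) (x, y) (io (ee k)) i := by
  have h1 := hfib hs (Om_fib hx y hy)
  have h2 := (hasFDerivAt_pi'.1 h1) i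
  have h3 : nonlin G x y i k = fderiv ℝ (fun z => GW G (x, z) i) y (ee k) := rfl
  rw [h3, h2.fderiv]; rfl

lemma hder_eq (hU : IsOpen U) (hs : SmO (Om U) (GW G)) {x y : V} (hx : x ∈ U) (hy : y ≠ 0) {f : V → V → ℝ} {fW : W → ℝ}
    (hf : SmO (Om U) fW) (he : ∀ x ∈ U, ∀ y : V, y ≠ 0 → f x y = fW (x, y)) (k : Fin 3) :
    hder G f x y k = fderiv ℝ fW (x, y) (ee k, Nf (GW G) (ee k) (x, y)) := by
  have a1 : fderiv ℝ (fun z => f z y) x = fderiv ℝ (fun z => fW (z, y)) x := by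
    have : (fun z => f z y) =ᶠ[𝓝 x] fun z => fW (z, y) := by
      filter_upwards [hU.mem_nhds hx] with z hz using he z hz y hy
    exact this.fderiv_eq
  have a2 : fderiv ℝ (fun u => f x u) y = fderiv ℝ (fun u => fW (x, u)) y := by
    have : (fun u => f x u) =ᶠ[𝓝 y] fun u => fW (x, u) := by
      filter_upwards [ne_ev hy] with z hz using he x hx z hz
    exact this.fderiv_eq
  have a3 : fderiv ℝ (fun z => fW (z, y)) x (ee k) = fderiv ℝ fW (x, y) (ee k, 0) := hor_fd hf (Om_fib hx y hy) _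
  have a4 : ∀ m, fderiv ℝ (fun u => fW (x, u)) y (ee m) = fderiv ℝ fW (x, y) (io (ee m)) := fun m =>
    fib_fd hf (Om_fib hx y hy) _
  have b1 : hder G f x y k = fderiv ℝ (fun z => f z y) x (ee k) -
    ∑ m, nonlin G x y m k * fderiv ℝ (fun u => f x u) y (ee m) := rfl
  have b2 : fderiv ℝ fW (x, y) (io (Nf (GW G) (ee k) (x, y))) =
      ∑ m, (Nf (GW G) (ee k) (x, y)) m * fderiv ℝ fW (x, y) (io (ee m)) :=
    vexp2 ((fderiv ℝ fW (x, y)).comp io) _
  rw [b1, a1, a2, a3, pair_eq (ee k) (Nf (GW G) (ee k) (x, y)), map_add, b2]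
  simp only [a4, nonlin_eq hs hx hy, Nf, Pi.neg_apply, neg_mul, Finset.sum_neg_distrib]
  ring

lemma curv_eq (hU : IsOpen U) (hs : SmO (Om U) (GW G)) {x y : V} (hx : x ∈ U) (hy : y ≠ 0) (i j k : Fin 3) :
    curv G x y i j k = Rf (GW G) (ee j) (ee k) (x, y) i := by
  have hp := Om_fib hx y hy
  have hsN : ∀ v : V, SmO (Om U) (Nf (GW G) v) := fun v p hp => (hs.app (io v) p hp).neg
  have hf : ∀ j, SmO (Om U) (fun p => fderiv ℝ (GW G) p (io (ee j)) i) := fun j p hp =>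
    (contDiffAt_pi.1 (hs.app (io (ee j)) p hp)) i
  have h1 : ∀ j k, hder G (fun x y => nonlin G x y i j) x y k =
      fderiv ℝ (fun p => fderiv ℝ (GW G) p (io (ee j)) i) (x, y) (ee k, Nf (GW G) (ee k) (x, y)) := fun j k =>
    hder_eq hU hs hx hy (hf j) (fun x hx y hy => nonlin_eq hs hx hy i j) k
  have h2 : ∀ j, ∀ z : W, fderiv ℝ (fun p => fderiv ℝ (GW G) p (io (ee j)) i) (x, y) z =
      - (fderiv ℝ (Nf (GW G) (ee j)) (x, y) z) i := by
    intro j z
    have e1 := (hs.fd.hd hp).clm_apply (hasFDerivAt_const (io (ee j)) ((x, y) : W))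
    have e2 := (hasFDerivAt_pi'.1 e1) i
    rw [e2.fderiv, fdN hs hp]
    simp
  unfold curv
  rw [h1, h1, h2, h2]
  simp only [Rf, cm, Pi.sub_apply]
  ring

lemma exists_RR {a : W → V} {p : W} {j k : Fin 3} (h : Rf a (ee j) (ee k) p ≠ 0) : ∃ c, RR a c p ≠ 0 := by
  have hself : ∀ v : V, Rf a v v p = 0 := fun v => sub_self _
  have hanti : ∀ u v : V, Rf a u v p = - Rf a v u p := by
    intro u v
    simp only [Rf, cm]
    abel
  fin_cases j <;> fin_cases k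
  · exact absurd (hself _) h
  · exact ⟨2, h⟩
  · refine ⟨1, fun h0 => h ?_⟩
    have h1 : Rf a (ee 2) (ee 0) p = 0 := h0
    exact (hanti (ee 0) (ee 2)).trans (by rw [h1, neg_zero])
  · refine ⟨2, fun h0 => h ?_⟩
    have h1 : Rf a (ee 0) (ee 1) p = 0 := h0
    exact (hanti (ee 1) (ee 0)).trans (by rw [h1, neg_zero])
  · exact absurd (hself _) h
  · exact ⟨0, h⟩
  · exact ⟨1, h⟩
  · refine ⟨0, fun h0 => h ?_⟩
    have h1 : Rf a (ee 1) (ee 2) p = 0 := h0
    exact (hanti (ee 2) (ee 1)).trans (by rw [h1, neg_zero])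
  · exact absurd (hself _) h

/-- **curvature of three-dimensional Landsberg metrics** -/
theorem main3C (hF : IsFinsler U F) (hG : IsSpray U F G)
    (hL : ∀ x ∈ U, ∀ y : V, y ≠ 0 → ∀ j k l, landsberg F G x y j k l = 0)
    {x : V} (hx : x ∈ U) {y1 : V} (hy1 : y1 ≠ 0) {i1 j1 k1 : Fin 3} (hR : curv G x y1 i1 j1 k1 ≠ 0)
    {y : V} (hy : y ≠ 0) (i j k l : Fin 3) : berwald G x y i j k l = 0 := by
  have S := sp_of_finsler hF hG
  have hLan : Lan (Om U) (qF F) (GW G) := lands_eq hF hG hL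
  have hD : ∀ x' : V, (∀ y : V, y ≠ 0 → ((x', y) : W) ∈ Om U) → Dat (fun z => qF F (x', z)) := by
    intro x' hx'
    have hne : (ee 0 : V) ≠ 0 := by
      intro h
      have := congrFun h 0
      simp [ee] at this
    exact dat_of_finsler hF (hx' (ee 0) hne).1
  rw [curv_eq hF.isOpen S.smG hx hy1] at hR
  have hR' : Rf (GW G) (ee j1) (ee k1) (x, y1) ≠ 0 := fun h => hR (by rw [h]; rfl)
  obtain ⟨c, hc⟩ := exists_RR hR'
  rw [berwald_eq hF hG hx hy]
  have := mainW S hLan (Om_fib hx) hD ⟨y1, hy1, hc⟩ hy (ee j) (ee k) (ee l)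
  exact congrFun this i

/-- near a point with nonvanishing Berwald curvature the curvature vanishes -/
theorem main3C' (hF : IsFinsler U F) (hG : IsSpray U F G)
    (hL : ∀ x ∈ U, ∀ y : V, y ≠ 0 → ∀ j k l, landsberg F G x y j k l = 0)
    {x : V} (hx : x ∈ U) {y1 : V} (hy1 : y1 ≠ 0) {i1 j1 k1 l1 : Fin 3} (hB : berwald G x y1 i1 j1 k1 l1 ≠ 0) :
    ∀ᶠ x' in 𝓝 x, ∀ y : V, y ≠ 0 → ∀ i j k : Fin 3, curv G x' y i j k = 0 := by
  have S := sp_of_finsler hF hG
  have hx1 := Om_fib hx y1 hy1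
  have hBc : ContinuousAt (fun r : W => fderiv ℝ (fderiv ℝ (fderiv ℝ (GW G))) r (io (ee j1)) (io (ee k1))
      (io (ee l1)) i1) (x, y1) := by
    have h1 : ContDiffAt ℝ ((⊤ : ℕ∞) : WithTop ℕ∞)
        (fun r : W => fderiv ℝ (fderiv ℝ (fderiv ℝ (GW G))) r (io (ee j1)) (io (ee k1)) (io (ee l1))) (x, y1) :=
      (((S.smG.fd.fd.fd _ hx1).clm_apply contDiffAt_const).clm_apply contDiffAt_const).clm_apply
        contDiffAt_const
    exact (continuousAt_pi.1 h1.continuousAt) i1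
  have ht : Tendsto (fun x' : V => ((x', y1) : W)) (𝓝 x) (𝓝 (x, y1)) :=
    (Continuous.prodMk_left y1).tendsto x
  rw [berwald_eq hF hG hx hy1] at hB
  have e1 := ht.eventually (hBc.eventually_ne hB)
  filter_upwards [e1, hF.isOpen.mem_nhds hx] with x' h1 hx' y hy i j k
  by_contra hR
  apply h1
  have h2 := main3C hF hG hL hx' hy hR hy1 i1 j1 k1 l1
  rw [berwald_eq hF hG hx' hy1] at h2
  exact h2

end Pool.Agent.U631.TD
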