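import Mathlib
set_option autoImplicit false
open Topology Filter Set
open scoped NNReal
namespace Pool.Agent.U631.TD

/-- clamp all coordinates to `[-R, R]` -/
noncomputable def clamp {n : ℕ} (R : ℝ) (e : Fin n → ℝ) : Fin n → ℝ := fun i => max (min (e i) R) (-R)

lemma clamp_lip {n : ℕ} (R : ℝ) (e e' : Fin n → ℝ) : ‖clamp R e - clamp R e'‖ ≤ ‖e - e'‖ := by
  refine (pi_norm_le_iff_of_nonneg (norm_nonneg _)).2 fun i => ?_
  have h1 : |max (min (e i) R) (-R) - max (min (e' i) R) (-R)| ≤ |min (e i) R - min (e' i) R| :=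
    abs_max_sub_max_le_abs _ _ _
  have h2 : |min (e i) R - min (e' i) R| ≤ max |e i - e' i| |R - R| := abs_min_sub_min_le_max _ _ _ _
  have h3 : max |e i - e' i| |R - R| = |e i - e' i| := by simp
  rw [h3] at h2
  have h4 := norm_le_pi_norm (e - e') i
  simp only [Pi.sub_apply, Real.norm_eq_abs, clamp] at h4 ⊢
  linarith

lemma clamp_norm {n : ℕ} {R : ℝ} (hR : 0 ≤ R) (e : Fin n → ℝ) : ‖clamp R e‖ ≤ R := by
  refine (pi_norm_le_iff_of_nonneg hR).2 fun i => ?_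
  simp only [clamp, Real.norm_eq_abs]
  rw [abs_le]
  exact ⟨le_max_right _ _, max_le (min_le_right _ _) (by linarith)⟩

lemma clamp_self {n : ℕ} {R : ℝ} {e : Fin n → ℝ} (h : ‖e‖ ≤ R) : clamp R e = e := by
  ext i
  have h1 := norm_le_pi_norm e i
  rw [Real.norm_eq_abs] at h1
  have h2 := abs_le.1 (h1.trans h)
  simp only [clamp]
  rw [min_eq_left h2.2, max_eq_left h2.1]

lemma clamp_le {n : ℕ} {R : ℝ} (hR : 0 ≤ R) (e : Fin n → ℝ) : ‖clamp R e‖ ≤ ‖e‖ := by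
  have h0 : clamp R (0 : Fin n → ℝ) = 0 := clamp_self (by simpa using hR)
  have := clamp_lip R e 0
  rwa [h0, sub_zero, sub_zero] at this

/-- linear differential equations on a compact interval -/
lemma lin_ode {n : ℕ} {T : ℝ} (hT : 0 ≤ T) {A : ℝ → ((Fin n → ℝ) →L[ℝ] (Fin n → ℝ))}
    (hA : ContinuousOn A (Icc 0 T)) (e0 : Fin n → ℝ) :
    ∃ e : ℝ → (Fin n → ℝ), e 0 = e0 ∧ ∀ t ∈ Icc (0:ℝ) T, HasDerivWithinAt e (A t (e t)) (Icc 0 T) t := by
  obtain ⟨α, hα⟩ := isCompact_Icc.exists_bound_of_continuousOn hA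
  have hα0 : 0 ≤ α := (norm_nonneg _).trans (hα 0 ⟨le_rfl, hT⟩)
  set R : ℝ := ‖e0‖ * Real.exp (α * T) + 1 with hRdef
  have hR : 0 < R := by positivity
  let αn : ℝ≥0 := ⟨α, hα0⟩
  let Rn : ℝ≥0 := ⟨R, hR.le⟩
  let Tn : ℝ≥0 := ⟨T, hT⟩
  have hpl : IsPicardLindelof (fun t e => A t (clamp R e)) (⟨0, le_rfl, hT⟩ : Icc (0:ℝ) T) e0
      (αn * Rn * Tn) 0 (αn * Rn) αn := by
    refine ⟨fun t ht => ?_, fun e _ => ?_, fun t ht e _ => ?_, ?_⟩
    · refine LipschitzWith.lipschitzOnWith (LipschitzWith.of_dist_le_mul fun e e' => ?_)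
      rw [dist_eq_norm, dist_eq_norm, ← map_sub]
      refine ((A t).le_opNorm _).trans ?_
      exact mul_le_mul (hα t ht) (clamp_lip R e e') (norm_nonneg _) hα0
    · exact hA.clm_apply continuousOn_const
    · refine ((A t).le_opNorm _).trans ?_
      exact mul_le_mul (hα t ht) (clamp_norm hR.le e) (norm_nonneg _) hα0
    · simp only [sub_zero, sub_self, NNReal.coe_mul, NNReal.coe_zero]
      rw [max_eq_left hT]
      exact le_rfl
  obtain ⟨e, he0, he⟩ := hpl.exists_eq_forall_mem_Icc_hasDerivWithinAt₀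
  refine ⟨e, he0, fun t ht => ?_⟩
  have hcont : ContinuousOn e (Icc 0 T) := fun t ht => (he t ht).continuousWithinAt
  have hb : ∀ t ∈ Icc (0:ℝ) T, ‖e t‖ ≤ gronwallBound ‖e0‖ α 0 (t - 0) := by
    refine norm_le_gronwallBound_of_norm_deriv_right_le hcont (f' := fun t => A t (clamp R (e t)))
      (fun t ht => ?_) (by rw [← he0]) (fun t ht => ?_)
    · exact ((he t ⟨ht.1, ht.2.le⟩).mono_of_mem_nhdsWithin (Icc_mem_nhdsGE_of_mem ht))
    · rw [add_zero]
      refine ((A t).le_opNorm _).trans ?_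
      exact mul_le_mul (hα t ⟨ht.1, ht.2.le⟩) (clamp_le hR.le _) (norm_nonneg _) hα0
  have h1 : ‖e t‖ ≤ R := by
    have h2 := hb t ht
    rw [gronwallBound_ε0, sub_zero] at h2
    have h3 : Real.exp (α * t) ≤ Real.exp (α * T) := Real.exp_le_exp.2 (mul_le_mul_of_nonneg_left ht.2 hα0)
    have h4 : ‖e0‖ * Real.exp (α * t) ≤ ‖e0‖ * Real.exp (α * T) := mul_le_mul_of_nonneg_left h3 (norm_nonneg _)
    linarith
  have h2 := he t ht
  simp only [clamp_self h1] at h2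
  exact h2

end Pool.Agent.U631.TD
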