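import Pool.Agent.U631.TD.C7
import Pool.Agent.U631.TD.D1
set_option autoImplicit false
set_option maxSynthPendingDepth 6
open Topology Filter
namespace Pool.Agent.U631.TD
open H506R3.Lau Pool.Agent.R774.BW

variable {Ω : Set W} {q : W → ℝ} {G : W → V} {x y : V}

noncomputable def T5 (q : W → ℝ) : W → (W →L[ℝ] W →L[ℝ] W →L[ℝ] W →L[ℝ] W →L[ℝ] ℝ) := fderiv ℝ (T4 q)

lemma hT4 (hq : SmO Ω q) {p : W} (hp : p ∈ Ω) {a b c d : W → W} {a' b' c' d' : W →L[ℝ] W} (ha : HasFDerivAt a a' p)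
    (hb : HasFDerivAt b b' p) (hc : HasFDerivAt c c' p) (hd : HasFDerivAt d d' p) :
    ∃ L : W →L[ℝ] ℝ, HasFDerivAt (fun r => T4 q r (a r) (b r) (c r) (d r)) L p ∧
      ∀ z, L z = T5 q p z (a p) (b p) (c p) (d p) + T4 q p (a' z) (b p) (c p) (d p) + T4 q p (a p) (b' z) (c p) (d p)
        + T4 q p (a p) (b p) (c' z) (d p) + T4 q p (a p) (b p) (c p) (d' z) := by
  refine ⟨_, ((((hq.fd.fd.fd.fd.hd hp).clm_apply ha).clm_apply hb).clm_apply hc).clm_apply hd, fun z => ?_⟩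
  simp [T5, T4, T3, T2, T1]; ring

lemma hcst (u : V) (p : W) : HasFDerivAt (fun _ : W => io u) (0 : W →L[ℝ] W) p := hasFDerivAt_const _ _

lemma hioA {A : W → V} (hA : SmO Ω A) {p : W} (hp : p ∈ Ω) (z' : W) :
    HasFDerivAt (fun r : W => io (fderiv ℝ A r z'))
      (io.comp ((ContinuousLinearMap.apply ℝ V z').comp (fderiv ℝ (fderiv ℝ A) p))) p := by
  have h1 : HasFDerivAt (fun r : W => fderiv ℝ A r z')
      ((ContinuousLinearMap.apply ℝ V z').comp (fderiv ℝ (fderiv ℝ A) p)) p :=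
    (ContinuousLinearMap.apply ℝ V z').hasFDerivAt.comp p (hA.fd.hd hp)
  exact io.hasFDerivAt.comp p h1

lemma hioA2 {A : W → V} (hA : SmO Ω A) {p : W} (hp : p ∈ Ω) (z' z'' : W) :
    HasFDerivAt (fun r : W => io (fderiv ℝ (fderiv ℝ A) r z' z''))
      (io.comp (((ContinuousLinearMap.apply ℝ V z'').comp (ContinuousLinearMap.apply ℝ (W →L[ℝ] V) z')).comp
        (fderiv ℝ (fderiv ℝ (fderiv ℝ A)) p))) p := by
  have h1 : HasFDerivAt (fun r : W => fderiv ℝ (fderiv ℝ A) r z' z'')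
      (((ContinuousLinearMap.apply ℝ V z'').comp (ContinuousLinearMap.apply ℝ (W →L[ℝ] V) z')).comp
        (fderiv ℝ (fderiv ℝ (fderiv ℝ A)) p)) p :=
    ((ContinuousLinearMap.apply ℝ V z'').comp (ContinuousLinearMap.apply ℝ (W →L[ℝ] V) z')).hasFDerivAt.comp p
      (hA.fd.fd.hd hp)
  exact io.hasFDerivAt.comp p h1

/-- second derivative of the condition `pf` -/
lemma PF.ddpf {a : V} {A : W → V} (hΩ : IsOpen Ω) (hq : SmO Ω q) (hA : PF Ω q a A) {p : W} (hp : p ∈ Ω) (u v w z : V) :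
    T5 q p (io z) (io w) (a, A p) (io u) (io v)
    + T4 q p (io w) (io (fderiv ℝ A p (io z))) (io u) (io v)
    + (T4 q p (io z) (io (fderiv ℝ A p (io w))) (io u) (io v)
      + T3 q p (io (fderiv ℝ (fderiv ℝ A) p (io z) (io w))) (io u) (io v))
    + (T4 q p (io z) (io w) (io (fderiv ℝ A p (io u))) (io v)
      + T3 q p (io w) (io (fderiv ℝ (fderiv ℝ A) p (io z) (io u))) (io v)
      + T3 q p (io z) (io (fderiv ℝ (fderiv ℝ A) p (io w) (io u))) (io v)
      + T2 q p (io (fderiv ℝ (fderiv ℝ (fderiv ℝ A)) p (io z) (io w) (io u))) (io v))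
    + (T4 q p (io z) (io w) (io u) (io (fderiv ℝ A p (io v)))
      + T3 q p (io w) (io u) (io (fderiv ℝ (fderiv ℝ A) p (io z) (io v)))
      + T3 q p (io z) (io u) (io (fderiv ℝ (fderiv ℝ A) p (io w) (io v)))
      + T2 q p (io u) (io (fderiv ℝ (fderiv ℝ (fderiv ℝ A)) p (io z) (io w) (io v)))) = 0 := by
  obtain ⟨L1, a1, a2⟩ := hT4 hq hp (hcst w p) (hpair a (hA.sm.hd hp)) (hcst u p) (hcst v p)
  obtain ⟨L2, b1, b2⟩ := hT3 hq hp (hioA hA.sm hp (io w)) (hcst u p) (hcst v p)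
  obtain ⟨L3, c1, c2⟩ := hT3 hq hp (hcst w p) (hioA hA.sm hp (io u)) (hcst v p)
  obtain ⟨L4, d1, d2⟩ := hT2 hq hp (hioA2 hA.sm hp (io w) (io u)) (hcst v p)
  obtain ⟨L5, e1, e2⟩ := hT3 hq hp (hcst w p) (hcst u p) (hioA hA.sm hp (io v))
  obtain ⟨L6, f1, f2⟩ := hT2 hq hp (hcst u p) (hioA2 hA.sm hp (io w) (io v))
  have h0 := fd_zero hΩ hp (((a1.add b1).add (c1.add d1)).add (e1.add f1)) (fun r hr => hA.dpf hΩ hq hr u v (io w))
  have h1 := congrArg (fun L : W →L[ℝ] ℝ => L (io z)) h0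
  simp only [add_apply, a2, b2, c2, d2, e2, f2, ContinuousLinearMap.comp_apply, ContinuousLinearMap.apply_apply,
    zero_apply, map_zero, add_zero] at h1
  linear_combination h1

/-- the operator `N` -/
noncomputable def NN (G : W → V) (p : W) (u : V) : V := fderiv ℝ G p (io u)
/-- the Berwald curvature -/
noncomputable def BB (G : W → V) (p : W) (u v w : V) : V := fderiv ℝ (fderiv ℝ (fderiv ℝ G)) p (io u) (io v) (io w)
/-- the spray field -/
noncomputable def Xs (G : W → V) (p : W) : W := (p.2, (-2 : ℝ) • G p)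

lemma SP.N1 (S : SP Ω q G) {p : W} (hp : p ∈ Ω) : fderiv ℝ G p (io p.2) = (2:ℝ) • G p := by
  have := euler_gen S.smG 2 hp (fun t ht => S.hG hp ht)
  simpa using this

lemma hy2 (p : W) : HasFDerivAt (fun r : W => io r.2) (io.comp (ContinuousLinearMap.snd ℝ V V)) p :=
  io.hasFDerivAt.comp p hasFDerivAt_snd

lemma SP.N2 (S : SP Ω q G) {p : W} (hp : p ∈ Ω) (v : V) :
    fderiv ℝ (fderiv ℝ G) p (io v) (io p.2) = NN G p v := by
  have h1 := (S.smG.fd.hd hp).clm_apply (hy2 p)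
  have h2 := (S.smG.hd hp).const_smul (2:ℝ)
  have h3 := congrArg (fun L : W →L[ℝ] V => L (io v)) (fd_congr S.op hp h1 h2 (fun r hr => S.N1 hr))
  simp only [add_apply, ContinuousLinearMap.comp_apply, ContinuousLinearMap.flip_apply, smul_apply,
    ContinuousLinearMap.coe_snd'] at h3
  have e3 : (io v).2 = v := rfl
  rw [e3, two_smul] at h3
  exact add_left_cancel h3

/-- derivative of `B(u,v,y) = 0` -/
lemma SP.B1 (S : SP Ω q G) {p : W} (hp : p ∈ Ω) (z : W) (u v : V) :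
    fderiv ℝ (fderiv ℝ (fderiv ℝ (fderiv ℝ G))) p z (io u) (io v) (io p.2) = - BB G p u v z.2 := by
  have h1 := (((S.smG.fd.fd.fd.hd hp).clm_apply (hcst u p)).clm_apply (hcst v p)).clm_apply (hy2 p)
  have h2 := fd_zero S.op hp h1 (fun r hr => S.B0 hr u v)
  have h3 := congrArg (fun L : W →L[ℝ] V => L z) h2
  simp only [add_apply, ContinuousLinearMap.comp_apply, ContinuousLinearMap.flip_apply,
    ContinuousLinearMap.coe_snd', zero_apply, map_zero, zero_add] at h3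
  rw [BB]
  exact eq_neg_of_add_eq_zero_right h3

lemma SP.Xy (S : SP Ω q G) {p : W} (hp : p ∈ Ω) : ((p.2, Nf G p.2 p) : W) = Xs G p := by
  simp only [Nf, Xs, S.N1 hp]
  simp

/-- **the vertical derivative of the Cartan tensor along geodesics** -/
lemma SP.dD (S : SP Ω q G) (hL : Lan Ω q G) {p : W} (hp : p ∈ Ω) (z w u v : V) :
    T5 q p (Xs G p) (io z) (io w) (io u) (io v)
    - T4 q p (io (NN G p z)) (io w) (io u) (io v) - T4 q p (io z) (io (NN G p w)) (io u) (io v)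
    - T4 q p (io z) (io w) (io (NN G p u)) (io v) - T4 q p (io z) (io w) (io u) (io (NN G p v)) =
    - T2 q p (io (BB G p z w u)) (io v) - T2 q p (io u) (io (BB G p z w v)) := by
  have h := (S.pfN hL p.2).ddpf S.op S.sq hp u v w z
  rw [S.Xy hp] at h
  have d1 : ∀ a : V, fderiv ℝ (Nf G p.2) p (io a) = - NN G p a := by
    intro a; rw [fdN S.smG hp, S.N2 hp]
  have d2 : ∀ a b : V, fderiv ℝ (fderiv ℝ (Nf G p.2)) p (io a) (io b) = 0 := by
    intro a b; rw [fdN2 S.op S.smG hp, S.B0 hp, neg_zero]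
  have d3 : ∀ a b c : V, fderiv ℝ (fderiv ℝ (fderiv ℝ (Nf G p.2))) p (io a) (io b) (io c) = BB G p b c a := by
    intro a b c
    rw [fdN3 S.op S.smG hp, S.B1 hp, neg_neg]; rfl
  have sB : ∀ a b c : V, BB G p b c a = BB G p a b c := by
    intro a b c
    simp only [BB]
    rw [S.smG.s3b S.op hp, S.smG.s3a hp]
  have s5 : T5 q p (io z) (io w) (Xs G p) (io u) (io v) = T5 q p (Xs G p) (io z) (io w) (io u) (io v) := by
    have e1 : T5 q p (io z) (io w) (Xs G p) = T5 q p (io z) (Xs G p) (io w) := S.sq.fd.fd.s3b S.op hp _ _ _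
    have e2 : T5 q p (io z) (Xs G p) (io w) = T5 q p (Xs G p) (io z) (io w) := S.sq.fd.fd.s3a hp _ _ _
    rw [e1, e2]
  have s4 : T4 q p (io w) (io (NN G p z)) (io u) (io v) = T4 q p (io (NN G p z)) (io w) (io u) (io v) :=
    S.sq.s4a hp _ _ _ _
  simp only [d1, d2, d3, sB, map_neg, map_zero, neg_apply, zero_apply, s5, s4] at h
  linear_combination h

/-- horizontal vectors -/
noncomputable def Xh (G : W → V) (p : W) (a : V) : W := (a, Nf G a p)

lemma Xh_eq (p : W) (a : V) : Xh G p a = ContinuousLinearMap.inl ℝ V V a - io (fderiv ℝ G p (io a)) := by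
  simp [Xh, Nf, io_apply]

lemma Rf_eq (hG : SmO Ω G) {p : W} (hp : p ∈ Ω) (a b : V) : Rf G a b p =
    - fderiv ℝ (fderiv ℝ G) p (Xh G p a) (io b) + fderiv ℝ (fderiv ℝ G) p (Xh G p b) (io a) := by
  have h1 : Rf G a b p = fderiv ℝ (Nf G b) p (Xh G p a) - fderiv ℝ (Nf G a) p (Xh G p b) := rfl
  rw [h1, fdN hG hp, fdN hG hp]
  abel

/-- **`B` is parallel along geodesics where the curvature vanishes** -/
lemma SP.parB (S : SP Ω q G) {Ω' : Set W} (hΩ' : IsOpen Ω') (hsub : Ω' ⊆ Ω)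
    (hR : ∀ r ∈ Ω', ∀ a b : V, Rf G a b r = 0) {p : W} (hp' : p ∈ Ω') (u w b : V) :
    fderiv ℝ (fderiv ℝ (fderiv ℝ (fderiv ℝ G))) p (Xs G p) (io u) (io w) (io b) =
      BB G p (NN G p u) w b + BB G p u (NN G p w) b + BB G p u w (NN G p b) - NN G p (BB G p u w b) := by
  have hp := hsub hp'
  have hGs : SmO Ω' G := fun r hr => S.smG r (hsub hr)
  have hXh : ∀ a : V, ∀ r ∈ Ω', HasFDerivAt (fun r => Xh G r a)
      (-(io.comp ((ContinuousLinearMap.apply ℝ V (io a)).comp (fderiv ℝ (fderiv ℝ G) r)))) r := by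
    intro a r hr
    have h1 := (hioA hGs hr (io a)).const_sub (ContinuousLinearMap.inl ℝ V V a)
    have h2 : (fun r => Xh G r a) = fun r => ContinuousLinearMap.inl ℝ V V a - io (fderiv ℝ G r (io a)) := by
      funext r; exact Xh_eq r a
    rw [h2]; exact h1
  have r0 : ∀ r ∈ Ω', ∀ a b : V, fderiv ℝ (fderiv ℝ G) r (Xh G r a) (io b) =
      fderiv ℝ (fderiv ℝ G) r (Xh G r b) (io a) := by
    intro r hr a b
    have h1 := hR r hr a b
    rw [Rf_eq hGs hr] at h1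
    exact (neg_add_eq_zero.1 h1)
  have r1 : ∀ r ∈ Ω', ∀ a b w : V,
      fderiv ℝ (fderiv ℝ (fderiv ℝ G)) r (io w) (Xh G r a) (io b)
        - fderiv ℝ (fderiv ℝ G) r (io (fderiv ℝ (fderiv ℝ G) r (io w) (io a))) (io b) =
      fderiv ℝ (fderiv ℝ (fderiv ℝ G)) r (io w) (Xh G r b) (io a)
        - fderiv ℝ (fderiv ℝ G) r (io (fderiv ℝ (fderiv ℝ G) r (io w) (io b))) (io a) := by
    intro r hr a b w
    have h1 := ((hGs.fd.fd.hd hr).clm_apply (hXh a r hr)).clm_apply (hcst b r)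
    have h2 := ((hGs.fd.fd.hd hr).clm_apply (hXh b r hr)).clm_apply (hcst a r)
    have h3 := congrArg (fun L : W →L[ℝ] V => L (io w)) (fd_congr hΩ' hr h1 h2 (fun r hr => r0 r hr a b))
    simp only [add_apply, ContinuousLinearMap.comp_apply, ContinuousLinearMap.flip_apply, neg_apply,
      ContinuousLinearMap.apply_apply, zero_apply, map_zero, add_zero, zero_add, map_neg] at h3
    rw [← sub_eq_zero] at h3 ⊢
    rw [← h3]
    abel
  have r2 : ∀ a b u w : V,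
      fderiv ℝ (fderiv ℝ (fderiv ℝ (fderiv ℝ G))) p (io u) (io w) (Xh G p a) (io b)
        - fderiv ℝ (fderiv ℝ (fderiv ℝ G)) p (io w) (io (fderiv ℝ (fderiv ℝ G) p (io u) (io a))) (io b)
        - fderiv ℝ (fderiv ℝ (fderiv ℝ G)) p (io u) (io (fderiv ℝ (fderiv ℝ G) p (io w) (io a))) (io b)
        - fderiv ℝ (fderiv ℝ G) p (io (fderiv ℝ (fderiv ℝ (fderiv ℝ G)) p (io u) (io w) (io a))) (io b) =
      fderiv ℝ (fderiv ℝ (fderiv ℝ (fderiv ℝ G))) p (io u) (io w) (Xh G p b) (io a)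
        - fderiv ℝ (fderiv ℝ (fderiv ℝ G)) p (io w) (io (fderiv ℝ (fderiv ℝ G) p (io u) (io b))) (io a)
        - fderiv ℝ (fderiv ℝ (fderiv ℝ G)) p (io u) (io (fderiv ℝ (fderiv ℝ G) p (io w) (io b))) (io a)
        - fderiv ℝ (fderiv ℝ G) p (io (fderiv ℝ (fderiv ℝ (fderiv ℝ G)) p (io u) (io w) (io b))) (io a) := by
    intro a b u w
    have k1 := fun a b : V => (((hGs.fd.fd.fd.hd hp').clm_apply (hcst w p)).clm_apply (hXh a p hp')).clm_apply (hcst b p)
    have k3 : ∀ a b : V, HasFDerivAt (fun r => fderiv ℝ (fderiv ℝ G) r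
        (io (fderiv ℝ (fderiv ℝ G) r (io w) (io a))) (io b)) _ p := fun a b =>
      ((hGs.fd.fd.hd hp').clm_apply (hioA2 (A := G) (fun r hr => hGs r hr) hp' (io w) (io a))).clm_apply (hcst b p)
    have h1 := (k1 a b).sub (k3 a b)
    have h2 := (k1 b a).sub (k3 b a)
    have h3 := congrArg (fun L : W →L[ℝ] V => L (io u)) (fd_congr hΩ' hp' h1 h2 (fun r hr => r1 r hr a b w))
    simp only [add_apply, sub_apply, ContinuousLinearMap.comp_apply, ContinuousLinearMap.flip_apply, neg_apply,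
      ContinuousLinearMap.apply_apply, zero_apply, map_zero, add_zero, zero_add, map_neg] at h3
    rw [← sub_eq_zero] at h3 ⊢
    rw [← h3]
    abel
  have h := r2 p.2 b u w
  have hX : Xh G p p.2 = Xs G p := S.Xy hp
  have B0' : ∀ (a c : V), fderiv ℝ (fderiv ℝ (fderiv ℝ G)) p (io a) (io c) (io p.2) = 0 := fun a c => S.B0 hp a c
  have e1 : fderiv ℝ (fderiv ℝ (fderiv ℝ (fderiv ℝ G))) p (io u) (io w) (Xs G p) (io b) =
      fderiv ℝ (fderiv ℝ (fderiv ℝ (fderiv ℝ G))) p (Xs G p) (io u) (io w) (io b) := by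
    rw [S.smG.s4b S.op hp (io u) (io w), S.smG.s4a hp (io u)]
  have e2 : fderiv ℝ (fderiv ℝ (fderiv ℝ (fderiv ℝ G))) p (io u) (io w) (Xh G p b) (io p.2) =
      BB G p u w (NN G p b) := by
    rw [S.smG.s4b S.op hp (io u) (io w), S.smG.s4a hp (io u), S.B1 hp]
    simp [BB, Xh, Nf, NN]
  rw [hX, e1, e2, S.N2 hp, S.N2 hp, B0', B0', B0', S.N2 hp] at h
  simp only [map_zero, zero_apply, sub_zero] at h
  have s1 : fderiv ℝ (fderiv ℝ (fderiv ℝ G)) p (io w) (io (NN G p u)) (io b) = BB G p (NN G p u) w b :=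
    S.smG.s3a hp _ _ _
  rw [s1] at h
  have h' : fderiv ℝ (fderiv ℝ (fderiv ℝ (fderiv ℝ G))) p (Xs G p) (io u) (io w) (io b) =
      (BB G p u w (NN G p b) - NN G p (BB G p u w b)) + BB G p u (NN G p w) b + BB G p (NN G p u) w b := by
    have := h
    rw [sub_eq_iff_eq_add, sub_eq_iff_eq_add] at this
    exact this
  rw [h']
  abel

end Pool.Agent.U631.TD
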