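import Pool.Agent.U631.TD.D2
set_option autoImplicit false
set_option maxSynthPendingDepth 6
open Topology Filter Set
namespace Pool.Agent.U631.TD
open H506R3.Lau Pool.Agent.R774.BW

variable {Ω : Set W} {q : W → ℝ} {G : W → V} {x y : V}

/-- symmetry of the lowered Berwald curvature of a Landsberg metric -/
lemma SP.symB (S : SP Ω q G) (hL : Lan Ω q G) {p : W} (hp : p ∈ Ω) (a b c d : V) :
    T2 q p (io d) (io (BB G p a b c)) = T2 q p (io c) (io (BB G p a b d)) := by
  have key : ∀ c d : V, T2 q p (io d) (io (BB G p a b c)) =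
      - T1 q p (io (fderiv ℝ (fderiv ℝ (fderiv ℝ (fderiv ℝ G))) p (io d) (io a) (io b) (io c))) := by
    intro c d
    have h1 : HasFDerivAt (fun r : W => io (fderiv ℝ (fderiv ℝ (fderiv ℝ G)) r (io a) (io b) (io c)))
        (io.comp ((((ContinuousLinearMap.apply ℝ V (io c)).comp
          (ContinuousLinearMap.apply ℝ (W →L[ℝ] V) (io b))).comp
          (ContinuousLinearMap.apply ℝ (W →L[ℝ] W →L[ℝ] V) (io a))).comp
          (fderiv ℝ (fderiv ℝ (fderiv ℝ (fderiv ℝ G))) p))) p := by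
      have h2 := (((ContinuousLinearMap.apply ℝ V (io c)).comp
          (ContinuousLinearMap.apply ℝ (W →L[ℝ] V) (io b))).comp
          (ContinuousLinearMap.apply ℝ (W →L[ℝ] W →L[ℝ] V) (io a))).hasFDerivAt.comp p (S.smG.fd.fd.fd.hd hp)
      exact io.hasFDerivAt.comp p h2
    obtain ⟨L, l1, l2⟩ := hT1 S.sq hp h1
    have h3 := fd_zero S.op hp l1 (fun r hr => hL r hr a b c)
    have h4 := congrArg (fun L : W →L[ℝ] ℝ => L (io d)) h3
    simp only [l2, ContinuousLinearMap.comp_apply, ContinuousLinearMap.apply_apply, zero_apply] at h4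
    have h5 : T2 q p (io d) (io (BB G p a b c)) = T2 q p (io d) (io (fderiv ℝ (fderiv ℝ (fderiv ℝ G)) p (io a) (io b) (io c))) := rfl
    rw [h5]
    linarith
  rw [key c d, key d c]
  have s : fderiv ℝ (fderiv ℝ (fderiv ℝ (fderiv ℝ G))) p (io d) (io a) (io b) (io c) =
      fderiv ℝ (fderiv ℝ (fderiv ℝ (fderiv ℝ G))) p (io c) (io a) (io b) (io d) := by
    rw [S.smG.s4a hp (io d), S.smG.s4b S.op hp (io a) (io d), S.smG.s4c S.op hp (io a) (io b),
      S.smG.s4b S.op hp (io a) (io b), S.smG.s4a hp (io a)]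
  rw [s]

/-- a geodesic on `[0, T]`: a curve `p` in `Ω` tangent to the spray field -/
def Geo (Ω : Set W) (G : W → V) (T : ℝ) (p : ℝ → W) : Prop :=
  ∀ t ∈ Icc (0:ℝ) T, p t ∈ Ω ∧ HasDerivWithinAt p (Xs G (p t)) (Icc 0 T) t

section curve
variable {T : ℝ} {p : ℝ → W}

/-- parallel vertical fields along a geodesic -/
def Par (G : W → V) (T : ℝ) (p : ℝ → W) (e : ℝ → V) : Prop :=
  ∀ t ∈ Icc (0:ℝ) T, HasDerivWithinAt e (- NN G (p t) (e t)) (Icc 0 T) t

lemma Geo.cont (hp : Geo Ω G T p) : ContinuousOn p (Icc 0 T) := fun t ht => (hp t ht).2.continuousWithinAt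

lemma exists_par (S : SP Ω q G) (hT : 0 ≤ T) (hp : Geo Ω G T p) (e0 : V) : ∃ e : ℝ → V, e 0 = e0 ∧ Par G T p e := by
  have hA : ContinuousOn (fun t => -((fderiv ℝ G (p t)).comp io)) (Icc 0 T) := by
    have h1 : ContinuousOn (fun t => fderiv ℝ G (p t)) (Icc 0 T) := by
      intro t ht
      have h2 : ContinuousAt (fderiv ℝ G) (p t) := (S.smG.fd _ (hp t ht).1).continuousAt
      exact h2.comp_continuousWithinAt (hp.cont t ht)
    exact (h1.clm_comp continuousOn_const).neg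
  obtain ⟨e, h0, he⟩ := lin_ode hT hA e0
  exact ⟨e, h0, fun t ht => he t ht⟩

variable {f : W → ℝ}

/-- chain rule along a curve -/
lemma chain {Z : Type} [NormedAddCommGroup Z] [NormedSpace ℝ Z] {f : W → Z} (hf : SmO Ω f) (hp : Geo Ω G T p) {t : ℝ}
    (ht : t ∈ Icc (0:ℝ) T) :
    HasDerivWithinAt (fun s => f (p s)) (fderiv ℝ f (p t) (Xs G (p t))) (Icc 0 T) t :=
  (hf.hd (hp t ht).1).comp_hasDerivWithinAt t (hp t ht).2

/-- the energy is constant along geodesics -/
lemma geo_q (S : SP Ω q G) (hT : 0 ≤ T) (hp : Geo Ω G T p) {t : ℝ} (ht : t ∈ Icc (0:ℝ) T) : q (p t) = q (p 0) := by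
  have hd : ∀ s ∈ Icc (0:ℝ) T, HasDerivWithinAt (fun s => q (p s)) 0 (Icc 0 T) s := by
    intro s hs
    have h1 := chain S.sq hp hs
    have h2 : fderiv ℝ q (p s) (Xs G (p s)) = 0 := S.s1 (hp s hs).1
    rwa [h2] at h1
  have h := constant_of_has_deriv_right_zero (f := fun s => q (p s)) (a := 0) (b := T)
    (fun s hs => (hd s hs).continuousWithinAt)
    (fun s hs => ((hd s ⟨hs.1, hs.2.le⟩).mono_of_mem_nhdsWithin (Icc_mem_nhdsGE_of_mem hs)))
  exact h t ht

/-- scalar products of parallel fields are constant -/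
lemma par_g (S : SP Ω q G) (hL : Lan Ω q G) (hp : Geo Ω G T p) {e f : ℝ → V} {t : ℝ} (ht : t ∈ Icc (0:ℝ) T)
    (he : HasDerivWithinAt e (- NN G (p t) (e t)) (Icc 0 T) t)
    (hf : HasDerivWithinAt f (- NN G (p t) (f t)) (Icc 0 T) t) :
    HasDerivWithinAt (fun s => T2 q (p s) (io (e s)) (io (f s))) 0 (Icc 0 T) t := by
  have h2 := chain S.sq.fd.fd hp ht
  have he' : HasDerivWithinAt (fun s => io (e s)) (io (- NN G (p t) (e t))) (Icc 0 T) t :=
    io.hasFDerivAt.comp_hasDerivWithinAt t he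
  have hf' : HasDerivWithinAt (fun s => io (f s)) (io (- NN G (p t) (f t))) (Icc 0 T) t :=
    io.hasFDerivAt.comp_hasDerivWithinAt t hf
  have h3 := (h2.clm_apply he').clm_apply hf'
  refine h3.congr_deriv ?_
  have hpt := (hp t ht).1
  have h4 := (S.pfN hL (p t).2).pf (p t) hpt (e t) (f t)
  rw [S.Xy hpt, fdN S.smG hpt, fdN S.smG hpt, S.N2 hpt, S.N2 hpt] at h4
  simp only [map_neg, neg_apply] at h4 ⊢
  have h5 : T3 q (p t) (Xs G (p t)) (io (e t)) (io (f t)) =
      fderiv ℝ (fderiv ℝ (fderiv ℝ q)) (p t) (Xs G (p t)) (io (e t)) (io (f t)) := rfl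
  rw [h5] at h4
  simp only [T2, T1, add_apply, neg_apply] at h4 ⊢
  linarith

/-- **linear growth of the vertical derivative of the Cartan tensor** -/
lemma par_D (S : SP Ω q G) (hL : Lan Ω q G) (hp : Geo Ω G T p) {a b c d : ℝ → V} (ha : Par G T p a)
    (hb : Par G T p b) (hc : Par G T p c) (hd : Par G T p d) {t : ℝ} (ht : t ∈ Icc (0:ℝ) T) :
    HasDerivWithinAt (fun s => T4 q (p s) (io (a s)) (io (b s)) (io (c s)) (io (d s)))
      (- 2 * T2 q (p t) (io (BB G (p t) (a t) (b t) (c t))) (io (d t))) (Icc 0 T) t := by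
  have hpt := (hp t ht).1
  have h2 := chain S.sq.fd.fd.fd.fd hp ht
  have hio : ∀ {a : ℝ → V}, Par G T p a → HasDerivWithinAt (fun s => io (a s)) (io (- NN G (p t) (a t))) (Icc 0 T) t :=
    fun ha => io.hasFDerivAt.comp_hasDerivWithinAt t (ha t ht)
  have h3 := (((h2.clm_apply (hio ha)).clm_apply (hio hb)).clm_apply (hio hc)).clm_apply (hio hd)
  refine h3.congr_deriv ?_
  have h4 := S.dD hL hpt (a t) (b t) (c t) (d t)
  have h5 := S.symB hL hpt (a t) (b t) (d t) (c t)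
  have h6 := S.sy2 hpt (io (BB G (p t) (a t) (b t) (c t))) (io (d t))
  simp only [T5, T4, T3, T2, T1, map_neg, add_apply, neg_apply] at h4 h5 h6 ⊢
  linarith

/-- the Berwald curvature is constant in a parallel frame, as long as the curvature vanishes -/
lemma par_B (S : SP Ω q G) (hL : Lan Ω q G) (hp : Geo Ω G T p) {a b c d : ℝ → V} (ha : Par G T p a)
    (hb : Par G T p b) (hc : Par G T p c) (hd : Par G T p d) {t : ℝ} (ht : t ∈ Icc (0:ℝ) T)
    {Ω' : Set W} (hΩ' : IsOpen Ω') (hsub : Ω' ⊆ Ω) (hR : ∀ r ∈ Ω', ∀ a b : V, Rf G a b r = 0) (hpt' : p t ∈ Ω') :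
    HasDerivWithinAt (fun s => T2 q (p s) (io (BB G (p s) (a s) (b s) (c s))) (io (d s))) 0 (Icc 0 T) t := by
  have hpt := (hp t ht).1
  have hio : ∀ {a : ℝ → V}, Par G T p a → HasDerivWithinAt (fun s => io (a s)) (io (- NN G (p t) (a t))) (Icc 0 T) t :=
    fun ha => io.hasFDerivAt.comp_hasDerivWithinAt t (ha t ht)
  have h2 := chain S.smG.fd.fd.fd hp ht
  have h3 := ((h2.clm_apply (hio ha)).clm_apply (hio hb)).clm_apply (hio hc)
  have h4 : HasDerivWithinAt (fun s => BB G (p s) (a s) (b s) (c s))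
      (- NN G (p t) (BB G (p t) (a t) (b t) (c t))) (Icc 0 T) t := by
    refine h3.congr_deriv ?_
    have h5 := S.parB hΩ' hsub hR hpt' (a t) (b t) (c t)
    simp only [add_apply, map_neg, neg_apply, h5]
    simp only [BB]
    abel
  exact par_g S hL hp ht h4 (hd t ht)

end curve

end Pool.Agent.U631.TD
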