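import Pool.Agent.U631.TD.D3
set_option autoImplicit false
set_option maxSynthPendingDepth 6
open Topology Filter Set
namespace Pool.Agent.U631.TD
open H506R3.Lau Pool.Agent.R774.BW

variable {Ω : Set W} {q : W → ℝ} {G : W → V} {x y : V}

lemma Xh_add (r : W) (a b : V) : Xh G r (a + b) = Xh G r a + Xh G r b := by
  simp only [Xh_eq, map_add]; abel

lemma Xh_smul (r : W) (t : ℝ) (a : V) : Xh G r (t • a) = t • Xh G r a := by
  simp only [Xh_eq, map_smul, smul_sub]

/-- the curvature vanishes if its components vanish -/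
lemma Rf_zero (hG : SmO Ω G) {r : W} (hr : r ∈ Ω) (h : ∀ c, RR G c r = 0) (a b : V) : Rf G a b r = 0 := by
  have hb : ∀ i j : Fin 3, Rf G (ee i) (ee j) r = 0 := by
    intro i j
    by_contra hne
    obtain ⟨c, hc⟩ := exists_RR hne
    exact hc (h c)
  have h1 : ∀ i : Fin 3, Rf G (ee i) b r = 0 := by
    intro i
    have := lin0V { toFun := fun b => Rf G (ee i) b r
                    map_add' := by
                      intro b b'
                      rw [Rf_eq hG hr, Rf_eq hG hr, Rf_eq hG hr, Xh_add]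
                      simp only [map_add, add_apply]; abel
                    map_smul' := by
                      intro t b
                      simp only [RingHom.id_apply]
                      rw [Rf_eq hG hr, Rf_eq hG hr, Xh_smul]
                      simp only [map_smul, smul_apply, smul_add, smul_neg] } (fun j => hb i j) b
    exact this
  have := lin0V { toFun := fun a => Rf G a b r
                  map_add' := by
                    intro b b'
                    rw [Rf_eq hG hr, Rf_eq hG hr, Rf_eq hG hr, Xh_add]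
                    simp only [map_add, add_apply]; abel
                  map_smul' := by
                    intro t b
                    simp only [RingHom.id_apply]
                    rw [Rf_eq hG hr, Rf_eq hG hr, Xh_smul]
                    simp only [map_smul, smul_apply, smul_add, smul_neg] } (fun i => h1 i) a
  exact this

section main
variable {T : ℝ} {p : ℝ → W}

lemma const_on {h : ℝ → ℝ} {a b : ℝ} (hd : ∀ t ∈ Icc a b, HasDerivWithinAt h 0 (Icc a b) t) {t : ℝ}
    (ht : t ∈ Icc a b) : h t = h a :=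
  constant_of_has_deriv_right_zero (f := h) (a := a) (b := b)
    (fun s hs => (hd s hs).continuousWithinAt)
    (fun s hs => ((hd s ⟨hs.1, hs.2.le⟩).mono_of_mem_nhdsWithin (Icc_mem_nhdsGE_of_mem hs))) t ht

/-- **the Berwald curvature is constant in a parallel frame along geodesics** -/
lemma const_B (S : SP Ω q G) (hL : Lan Ω q G)
    (hD : ∀ x' : V, (∀ y : V, y ≠ 0 → ((x', y) : W) ∈ Ω) → Dat (fun z => q (x', z)))
    (hp : Geo Ω G T p) {a b c d : ℝ → V} (ha : Par G T p a) (hb : Par G T p b) (hc : Par G T p c)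
    (hd : Par G T p d) (h0 : T2 q (p 0) (io (BB G (p 0) (a 0) (b 0) (c 0))) (io (d 0)) ≠ 0) {t : ℝ}
    (ht : t ∈ Icc (0:ℝ) T) :
    T2 q (p t) (io (BB G (p t) (a t) (b t) (c t))) (io (d t)) =
      T2 q (p 0) (io (BB G (p 0) (a 0) (b 0) (c 0))) (io (d 0)) := by
  set h : ℝ → ℝ := fun s => T2 q (p s) (io (BB G (p s) (a s) (b s) (c s))) (io (d s)) with hh
  have hder : ∀ t ∈ Icc (0:ℝ) T, h t ≠ 0 → HasDerivWithinAt h 0 (Icc 0 T) t := by
    intro t ht hne
    have hpt := (hp t ht).1
    have hB : BB G (p t) (a t) (b t) (c t) ≠ 0 := by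
      intro hz
      apply hne
      simp [hh, hz]
    set f : W → V := fun r => BB G r (a t) (b t) (c t) with hf
    have hfc : ContinuousOn f Ω := by
      intro r hr
      have h1 : ContDiffAt ℝ ((⊤ : ℕ∞) : WithTop ℕ∞) f r :=
        (((S.smG.fd.fd.fd _ hr).clm_apply contDiffAt_const).clm_apply contDiffAt_const).clm_apply contDiffAt_const
      exact h1.continuousAt.continuousWithinAt
    have hop : IsOpen (Ω ∩ f ⁻¹' {0}ᶜ) := hfc.isOpen_inter_preimage S.op isOpen_compl_singleton
    refine par_B S hL hp ha hb hc hd ht hop inter_subset_left ?_ ⟨hpt, hB⟩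
    rintro r ⟨hr, hrB⟩ a' b'
    refine Rf_zero S.smG hr (fun k => ?_) a' b'
    by_contra hR
    apply hrB
    have hx := fib_all S (x := r.1) (y := r.2) hr
    exact mainW S hL hx hD ⟨r.2, S.ne r hr, hR⟩ (S.ne r hr) (a t) (b t) (c t)
  have hcont : ContinuousOn h (Icc 0 T) := by
    have hpc := hp.cont
    have hio : ∀ {a : ℝ → V}, Par G T p a → ContinuousOn (fun s => io (a s)) (Icc 0 T) := fun ha s hs =>
      io.continuous.continuousAt.comp_continuousWithinAt (ha s hs).continuousWithinAt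
    have h1 : ContinuousOn (fun s => fderiv ℝ (fderiv ℝ (fderiv ℝ G)) (p s)) (Icc 0 T) := fun s hs =>
      (S.smG.fd.fd.fd _ (hp s hs).1).continuousAt.comp_continuousWithinAt (hpc s hs)
    have h2 : ContinuousOn (fun s => BB G (p s) (a s) (b s) (c s)) (Icc 0 T) :=
      ((h1.clm_apply (hio ha)).clm_apply (hio hb)).clm_apply (hio hc)
    have h3 : ContinuousOn (fun s => io (BB G (p s) (a s) (b s) (c s))) (Icc 0 T) :=
      io.continuous.comp_continuousOn h2
    have h4 : ContinuousOn (fun s => T2 q (p s)) (Icc 0 T) := fun s hs =>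
      (S.sq.fd.fd _ (hp s hs).1).continuousAt.comp_continuousWithinAt (hpc s hs)
    exact (h4.clm_apply h3).clm_apply (hio hd)
  have hsub : Icc (0:ℝ) T ⊆ {t | h t = h 0} := by
    refine IsClosed.Icc_subset_of_forall_mem_nhdsWithin ?_ rfl ?_
    · have := hcont.preimage_isClosed_of_isClosed isClosed_Icc (isClosed_singleton (x := h 0))
      rw [inter_comm] at this
      exact this
    · rintro t ⟨hts, ht0, htT⟩
      have hts : h t = h 0 := hts
      have hne : h t ≠ 0 := by rw [hts]; exact h0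
      have htI : t ∈ Icc (0:ℝ) T := ⟨ht0, htT.le⟩
      have h1 : ∀ᶠ s in 𝓝[Icc 0 T] t, h s ≠ 0 := (hcont t htI).eventually_ne hne
      rw [eventually_nhdsWithin_iff, Metric.eventually_nhds_iff] at h1
      obtain ⟨ε, hε, h2⟩ := h1
      set δ := min (ε / 2) (T - t) with hδ
      have hδ0 : 0 < δ := lt_min (by linarith) (by linarith)
      have h3 : ∀ s ∈ Icc t (t + δ), s ∈ Icc (0:ℝ) T ∧ h s ≠ 0 := by
        intro s hs
        have hsT : s ∈ Icc (0:ℝ) T := ⟨ht0.trans hs.1, by
          have := min_le_right (ε / 2) (T - t)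
          linarith [hs.2]⟩
        refine ⟨hsT, h2 ?_ hsT⟩
        rw [Real.dist_eq, abs_of_nonneg (by linarith [hs.1])]
        have := min_le_left (ε / 2) (T - t)
        linarith [hs.2]
      have h4 : ∀ s ∈ Icc t (t + δ), h s = h t := fun s hs =>
        const_on (fun s hs => (hder s (h3 s hs).1 (h3 s hs).2).mono (fun r hr => (h3 r hr).1)) hs
      have h5 : Ioc t (t + δ) ∈ 𝓝[>] t := Ioc_mem_nhdsGT (by linarith)
      filter_upwards [h5] with s hs
      show h s = h 0
      rw [h4 s ⟨hs.1.le, hs.2⟩, hts]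
  exact hsub ht

/-- **geodesics defined for all positive times** -/
theorem completeW (S : SP Ω q G) (hL : Lan Ω q G)
    (hD : ∀ x' : V, (∀ y : V, y ≠ 0 → ((x', y) : W) ∈ Ω) → Dat (fun z => q (x', z)))
    {M : ℝ} (hM : ∀ r ∈ Ω, ∀ a b c d : V, (q r * T4 q r (io a) (io b) (io c) (io d)) ^ 2 ≤
      M * (T2 q r (io a) (io a) * T2 q r (io b) (io b) * T2 q r (io c) (io c) * T2 q r (io d) (io d)))
    {p0 : W} (hp0 : p0 ∈ Ω) (hq0 : 0 < q p0)
    (hgeo : ∀ T : ℝ, 0 ≤ T → ∃ p : ℝ → W, p 0 = p0 ∧ Geo Ω G T p) (u v w : V) : BB G p0 u v w = 0 := by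
  have key : ∀ z : V, T2 q p0 (io (BB G p0 u v w)) (io z) = 0 := by
    intro z
    by_contra hne
    set h0 := T2 q p0 (io (BB G p0 u v w)) (io z) with hh0
    set P := M * (T2 q p0 (io u) (io u) * T2 q p0 (io v) (io v) * T2 q p0 (io w) (io w) * T2 q p0 (io z) (io z)) with hP
    have hP0 : 0 ≤ P := (sq_nonneg _).trans (hM p0 hp0 u v w z)
    set K := 4 * P / (q p0) ^ 2 with hK
    have hK0 : 0 ≤ K := by positivity
    have habs : 0 < |2 * h0| := abs_pos.2 (mul_ne_zero two_ne_zero hne)
    set T := (K + 1) / |2 * h0| with hT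
    have hT0 : 0 ≤ T := by positivity
    obtain ⟨p, hp00, hp⟩ := hgeo T hT0
    have h0I : (0:ℝ) ∈ Icc (0:ℝ) T := ⟨le_rfl, hT0⟩
    have hTI : T ∈ Icc (0:ℝ) T := ⟨hT0, le_rfl⟩
    obtain ⟨a, ha0, ha⟩ := exists_par S hT0 hp u
    obtain ⟨b, hb0, hb⟩ := exists_par S hT0 hp v
    obtain ⟨c, hc0, hc⟩ := exists_par S hT0 hp w
    obtain ⟨d, hd0, hd⟩ := exists_par S hT0 hp z
    have hne' : T2 q (p 0) (io (BB G (p 0) (a 0) (b 0) (c 0))) (io (d 0)) ≠ 0 := by
      rw [hp00, ha0, hb0, hc0, hd0]; exact hne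
    have hB := fun t (ht : t ∈ Icc (0:ℝ) T) => const_B S hL hD hp ha hb hc hd hne' ht
    have hlin : ∀ t ∈ Icc (0:ℝ) T, T4 q (p t) (io (a t)) (io (b t)) (io (c t)) (io (d t)) + 2 * h0 * t =
        T4 q (p 0) (io (a 0)) (io (b 0)) (io (c 0)) (io (d 0)) + 2 * h0 * 0 := by
      intro t ht
      refine const_on (h := fun t => T4 q (p t) (io (a t)) (io (b t)) (io (c t)) (io (d t)) + 2 * h0 * t)
        (fun s hs => ?_) ht
      have h1 := par_D S hL hp ha hb hc hd hs
      have h2 : HasDerivWithinAt (fun t : ℝ => 2 * h0 * t) (2 * h0) (Icc 0 T) s := by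
        have := (hasDerivWithinAt_id s (Icc (0:ℝ) T)).const_mul (2 * h0)
        simpa using this
      refine (h1.add h2).congr_deriv ?_
      rw [hB s hs, hp00, ha0, hb0, hc0, hd0]
      ring
    have hT' := hlin T hTI
    have hg : ∀ {e : ℝ → V}, Par G T p e → T2 q (p T) (io (e T)) (io (e T)) = T2 q (p 0) (io (e 0)) (io (e 0)) :=
      fun he => const_on (h := fun t => T2 q (p t) (io _) (io _))
        (fun s hs => par_g S hL hp hs (he s hs) (he s hs)) hTI
    have m1 := hM (p T) (hp T hTI).1 (a T) (b T) (c T) (d T)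
    rw [hg ha, hg hb, hg hc, hg hd, geo_q S hT0 hp hTI, hp00, ha0, hb0, hc0, hd0, ← hP] at m1
    have m2 := hM p0 hp0 u v w z
    rw [← hP] at m2
    rw [hp00, ha0, hb0, hc0, hd0] at hT'
    set D0 := T4 q p0 (io u) (io v) (io w) (io z)
    set D1 := T4 q (p T) (io (a T)) (io (b T)) (io (c T)) (io (d T))
    have e1 : 2 * h0 * T = D0 - D1 := by linarith
    have e2 : (2 * h0 * T) ^ 2 = (K + 1) ^ 2 := by
      have : (2 * h0 * T) ^ 2 = |2 * h0| ^ 2 * T ^ 2 := by rw [sq_abs]; ring
      rw [this, hT]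
      field_simp
    have hq2 : 0 < (q p0) ^ 2 := by positivity
    have e3 : (q p0) ^ 2 * (D0 - D1) ^ 2 ≤ 4 * P := by
      have : (q p0) ^ 2 * (D0 - D1) ^ 2 ≤ 2 * (q p0 * D0) ^ 2 + 2 * (q p0 * D1) ^ 2 := by
        nlinarith [sq_nonneg (q p0 * D0 + q p0 * D1)]
      linarith
    have e4 : (D0 - D1) ^ 2 ≤ K := by
      rw [hK, le_div_iff₀ hq2]
      linarith
    rw [← e1, e2] at e4
    nlinarith
  by_contra hne
  have h1 := S.pos p0 hp0 _ hne
  rw [key] at h1
  exact lt_irrefl _ h1

end main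

end Pool.Agent.U631.TD
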