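import Pool.Agent.U631.TD.D4
set_option autoImplicit false
set_option maxSynthPendingDepth 6
open Topology Filter Set
namespace Pool.Agent.U631.TD
open H506R3.Lau Pool.Agent.R774.BW

variable {U : Set V} {q : W → ℝ} {G : W → V} {ψ : V → V}

/-- the tangent map of `ψ` -/
noncomputable def tg (ψ : V → V) (r : W) : W := (ψ r.1, fderiv ℝ ψ r.1 r.2)

/-- a smooth map `ψ : U → U` which preserves the energy -/
structure LocIso (U : Set V) (q : W → ℝ) (ψ : V → V) : Prop where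
  sm : ∀ x ∈ U, ContDiffAt ℝ ((⊤ : ℕ∞) : WithTop ℕ∞) ψ x
  maps : ∀ x ∈ U, ψ x ∈ U
  ne : ∀ x ∈ U, ∀ y : V, y ≠ 0 → fderiv ℝ ψ x y ≠ 0
  iso : ∀ x ∈ U, ∀ y : V, y ≠ 0 → q (tg ψ (x, y)) = q (x, y)

lemma LocIso.mapsOm (h : LocIso U q ψ) {r : W} (hr : r ∈ Om U) : tg ψ r ∈ Om U :=
  ⟨h.maps _ hr.1, h.ne _ hr.1 _ hr.2⟩

lemma LocIso.hd (h : LocIso U q ψ) {x : V} (hx : x ∈ U) : HasFDerivAt ψ (fderiv ℝ ψ x) x :=
  ((h.sm x hx).differentiableAt top_ne_zero').hasFDerivAt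

lemma LocIso.hdd (h : LocIso U q ψ) {x : V} (hx : x ∈ U) : HasFDerivAt (fderiv ℝ ψ) (fderiv ℝ (fderiv ℝ ψ) x) x :=
  (((h.sm x hx).fderiv_right top_add_one).differentiableAt top_ne_zero').hasFDerivAt

/-- derivative of the tangent map -/
noncomputable def Ltg (ψ : V → V) (r : W) : W →L[ℝ] W :=
  ((fderiv ℝ ψ r.1).comp (ContinuousLinearMap.fst ℝ V V)).prod
    (((fderiv ℝ (fderiv ℝ ψ) r.1).comp (ContinuousLinearMap.fst ℝ V V)).flip r.2 +
      (fderiv ℝ ψ r.1).comp (ContinuousLinearMap.snd ℝ V V))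

lemma Ltg_apply (r z : W) : Ltg ψ r z = (fderiv ℝ ψ r.1 z.1, fderiv ℝ (fderiv ℝ ψ) r.1 z.1 r.2 + fderiv ℝ ψ r.1 z.2) := by
  simp [Ltg]

lemma LocIso.htg (h : LocIso U q ψ) {r : W} (hr : r.1 ∈ U) : HasFDerivAt (tg ψ) (Ltg ψ r) r := by
  have h1 : HasFDerivAt (fun r : W => ψ r.1) ((fderiv ℝ ψ r.1).comp (ContinuousLinearMap.fst ℝ V V)) r :=
    (h.hd hr).comp r hasFDerivAt_fst
  have h2 : HasFDerivAt (fun r : W => fderiv ℝ ψ r.1)
      ((fderiv ℝ (fderiv ℝ ψ) r.1).comp (ContinuousLinearMap.fst ℝ V V)) r :=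
    HasFDerivAt.comp (g := fderiv ℝ ψ) (f := fun r : W => r.1) r (h.hdd hr) hasFDerivAt_fst
  have h3 := h1.prodMk (h2.clm_apply (hasFDerivAt_snd (𝕜 := ℝ) (E := V) (F := V) (p := r)))
  refine h3.congr_fderiv ?_
  ext z <;> simp [Ltg, add_comm]

lemma SP.posq_inj (S : SP (Om U) q G) (h : LocIso U q ψ) {x : V} (hx : x ∈ U) :
    Function.Surjective (fderiv ℝ ψ x) := by
  have hinj : Function.Injective (fderiv ℝ ψ x).toLinearMap := by
    rw [← LinearMap.ker_eq_bot, LinearMap.ker_eq_bot']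
    intro v hv
    by_contra hne
    exact h.ne x hx v hne hv
  exact (LinearMap.injective_iff_surjective.1 hinj)

/-- the first derivative of `q ∘ tg ψ = q` -/
lemma LocIso.n1 (h : LocIso U q ψ) (S : SP (Om U) q G) {r : W} (hr : r ∈ Om U) (z : W) :
    T1 q r z = T1 q (tg ψ r) (Ltg ψ r z) := by
  have h1 : HasFDerivAt q (fderiv ℝ q (tg ψ r)) (tg ψ r) := S.sq.hd (h.mapsOm hr)
  have h2 := HasFDerivAt.comp (g := q) (f := tg ψ) r h1 (h.htg hr.1)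
  have h3 := fd_congr S.op hr h2 (S.sq.hd hr) (fun s hs => h.iso s.1 hs.1 s.2 hs.2)
  have h4 := congrArg (fun L : W →L[ℝ] ℝ => L z) h3
  simp only [ContinuousLinearMap.comp_apply] at h4
  exact h4.symm

/-- the second derivative -/
lemma LocIso.n2 (h : LocIso U q ψ) (S : SP (Om U) q G) {r : W} (hr : r ∈ Om U) (z : W) (u : V) :
    T2 q r z (io u) = T2 q (tg ψ r) (Ltg ψ r z) (io (fderiv ℝ ψ r.1 u)) +
      T1 q (tg ψ r) (io (fderiv ℝ (fderiv ℝ ψ) r.1 z.1 u)) := by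
  have hb : HasFDerivAt (fun s : W => io (fderiv ℝ ψ s.1 u))
      (io.comp ((ContinuousLinearMap.apply ℝ V u).comp
        ((fderiv ℝ (fderiv ℝ ψ) r.1).comp (ContinuousLinearMap.fst ℝ V V)))) r := by
    have h2 : HasFDerivAt (fun r : W => fderiv ℝ ψ r.1)
        ((fderiv ℝ (fderiv ℝ ψ) r.1).comp (ContinuousLinearMap.fst ℝ V V)) r :=
      HasFDerivAt.comp (g := fderiv ℝ ψ) (f := fun r : W => r.1) r (h.hdd hr.1) hasFDerivAt_fst
    exact io.hasFDerivAt.comp r ((ContinuousLinearMap.apply ℝ V u).hasFDerivAt.comp r h2)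
  have h1 : HasFDerivAt (fun s => T1 q (tg ψ s)) ((T2 q (tg ψ r)).comp (Ltg ψ r)) r :=
    HasFDerivAt.comp (g := T1 q) (f := tg ψ) r (S.sq.fd.hd (h.mapsOm hr)) (h.htg hr.1)
  have h2 := h1.clm_apply hb
  have h3 := (S.sq.fd.hd hr).clm_apply (hasFDerivAt_const (io u) r)
  have e : ∀ s ∈ Om U, fderiv ℝ q s (io u) = T1 q (tg ψ s) (io (fderiv ℝ ψ s.1 u)) := by
    intro s hs
    have := h.n1 S hs (io u)
    rw [Ltg_apply] at this
    have e2 : ((fderiv ℝ ψ s.1 (io u).1, fderiv ℝ (fderiv ℝ ψ) s.1 (io u).1 s.2 + fderiv ℝ ψ s.1 (io u).2) : W) =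
        io (fderiv ℝ ψ s.1 u) := by simp [io_apply]
    rw [e2] at this
    exact this
  have h4 := congrArg (fun L : W →L[ℝ] ℝ => L z) (fd_congr S.op hr h3 h2 e)
  simp only [add_apply, ContinuousLinearMap.comp_apply, ContinuousLinearMap.flip_apply,
    ContinuousLinearMap.apply_apply, zero_apply, map_zero, zero_add, add_zero,
    ContinuousLinearMap.coe_fst'] at h4
  have h5 : T2 q r z (io u) = fderiv ℝ (fderiv ℝ q) r z (io u) := rfl
  rw [h5, h4]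
  ring

/-- **transformation of the spray coefficients** -/
lemma LocIso.nat (h : LocIso U q ψ) (S : SP (Om U) q G) {r : W} (hr : r ∈ Om U) :
    G (tg ψ r) = fderiv ℝ ψ r.1 (G r) - (1/2 : ℝ) • fderiv ℝ (fderiv ℝ ψ) r.1 r.2 r.2 := by
  have hm := h.mapsOm hr
  refine S.inj hm (fun w => ?_)
  obtain ⟨u, rfl⟩ := S.posq_inj h hr.1 w
  have a1 := h.n2 S hr (io (G r)) u
  have a2 := h.n2 S hr (r.2, 0) u
  have a3 := h.n1 S hr (u, 0)
  have a4 := S.spray r hr u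
  have a5 := S.spray (tg ψ r) hm (fderiv ℝ ψ r.1 u)
  have sy : fderiv ℝ (fderiv ℝ ψ) r.1 r.2 u = fderiv ℝ (fderiv ℝ ψ) r.1 u r.2 := symmAux (h.sm _ hr.1) _ _
  have e1 : Ltg ψ r (io (G r)) = io (fderiv ℝ ψ r.1 (G r)) := by simp [Ltg_apply, io_apply]
  have e2 : Ltg ψ r (r.2, 0) = ((tg ψ r).2, 0) + io (fderiv ℝ (fderiv ℝ ψ) r.1 r.2 r.2) := by
    simp [Ltg_apply, io_apply, tg]
  have e3 : Ltg ψ r (u, 0) = (fderiv ℝ ψ r.1 u, 0) + io (fderiv ℝ (fderiv ℝ ψ) r.1 u r.2) := by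
    simp [Ltg_apply, io_apply]
  have e4 : (io (G r)).1 = 0 := rfl
  rw [e1, e4, map_zero, zero_apply, map_zero, map_zero, add_zero] at a1
  rw [e2, map_add, add_apply] at a2
  rw [e3, map_add] at a3
  rw [S.sy2 hr (io u) (io (G r)), a1, a2, a3, sy] at a4
  rw [a5, map_sub, map_smul, map_sub, map_smul, smul_eq_mul, S.sy2 hm _ (io (fderiv ℝ ψ r.1 (G r))), a4,
    S.sy2 hm _ (io (fderiv ℝ (fderiv ℝ ψ) r.1 r.2 r.2))]
  ring

/-- isometries map geodesics to geodesics -/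
lemma LocIso.geo (h : LocIso U q ψ) (S : SP (Om U) q G) {T : ℝ} {p : ℝ → W} (hp : Geo (Om U) G T p) :
    Geo (Om U) G T (fun t => tg ψ (p t)) := by
  intro t ht
  have hpt := (hp t ht).1
  refine ⟨h.mapsOm hpt, ?_⟩
  have h1 := (h.htg hpt.1).comp_hasDerivWithinAt t (hp t ht).2
  refine h1.congr_deriv ?_
  rw [Ltg_apply]
  simp only [Xs]
  rw [h.nat S hpt]
  simp only [tg, map_smul]
  congr 1
  module

end Pool.Agent.U631.TD
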