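import Pool.Agent.U631.TD.D4
set_option autoImplicit false
set_option maxSynthPendingDepth 6
open Topology Filter Set Metric
open scoped NNReal ContDiff
namespace Pool.Agent.U631.TD
open H506R3.Lau Pool.Agent.R774.BW

/-- local existence with a uniform time, staying in the domain -/
lemma loc_exist {Ω : Set W} {X : W → W} (hΩ : IsOpen Ω) (hX : SmO Ω X) {r0 : W} (hr0 : r0 ∈ Ω) :
    ∃ ρ > (0:ℝ), ∃ ε > (0:ℝ), ∀ r ∈ closedBall r0 ρ, ∃ p : ℝ → W, p 0 = r ∧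
      ∀ t ∈ Icc (0:ℝ) ε, p t ∈ Ω ∧ HasDerivWithinAt p (X (p t)) (Icc 0 ε) t := by
  obtain ⟨δ, hδ, hball⟩ := Metric.nhds_basis_closedBall.mem_iff.1 (hΩ.mem_nhds hr0)
  let b : ContDiffBump r0 := ⟨δ/2, δ, by positivity, by linarith⟩
  set Y : W → W := fun r => b r • X r with hY
  have hYs : ContDiff ℝ 1 Y := by
    rw [contDiff_iff_contDiffAt]
    intro r
    by_cases hr : r ∈ Ω
    · have h1 : ContDiffAt ℝ 1 b r := b.contDiff.contDiffAt
      exact h1.smul ((hX r hr).of_le (WithTop.coe_le_coe.2 (le_top : (1:ℕ∞) ≤ ⊤)))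
    · have hout : r ∉ closedBall r0 δ := fun h => hr (hball h)
      have h1 : Y =ᶠ[𝓝 r] fun _ => 0 := by
        have : (closedBall r0 δ)ᶜ ∈ 𝓝 r := isClosed_closedBall.isOpen_compl.mem_nhds hout
        filter_upwards [this] with s hs
        have h2 : b s = 0 := b.zero_of_le_dist (by
          have : ¬ dist s r0 ≤ δ := hs
          exact (not_le.1 this).le)
        simp [hY, h2]
      exact contDiffAt_const.congr_of_eventuallyEq h1
  have hYc : HasCompactSupport Y := b.hasCompactSupport.smul_right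
  obtain ⟨K, hK⟩ := ContDiff.lipschitzWith_of_hasCompactSupport hYc hYs (by simp)
  obtain ⟨L, hL⟩ := hYc.exists_bound_of_continuous hYs.continuous
  have hL0 : 0 ≤ L := (norm_nonneg _).trans (hL r0)
  set ε := δ / (4 * (L + 1)) with hε
  have hε0 : 0 < ε := by positivity
  have hLε : L * ε ≤ δ / 4 := by
    rw [hε]
    have : L * (δ / (4 * (L + 1))) = (δ / 4) * (L / (L + 1)) := by field_simp
    rw [this]
    have h2 : L / (L + 1) ≤ 1 := by rw [div_le_one (by linarith)]; linarith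
    have h3 : 0 < δ / 4 := by positivity
    nlinarith
  refine ⟨δ/4, by positivity, ε, hε0, fun r hr => ?_⟩
  let Ln : ℝ≥0 := ⟨L, hL0⟩
  let εn : ℝ≥0 := ⟨ε, hε0.le⟩
  have hpl : IsPicardLindelof (fun _ => Y) (⟨0, le_rfl, hε0.le⟩ : Icc (0:ℝ) ε) r (Ln * εn) 0 Ln K := by
    refine ⟨fun t _ => hK.lipschitzOnWith, fun e _ => continuousOn_const, fun t _ e _ => hL e, ?_⟩
    simp only [sub_zero, sub_self, NNReal.coe_mul, NNReal.coe_zero]
    rw [max_eq_left hε0.le]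
    exact le_rfl
  obtain ⟨p, hp0, hp⟩ := hpl.exists_eq_forall_mem_Icc_hasDerivWithinAt₀
  have hp0 : p 0 = r := hp0
  refine ⟨p, hp0, fun t ht => ?_⟩
  have h1 : ‖p t - p 0‖ ≤ L * (t - 0) :=
    norm_image_sub_le_of_norm_deriv_le_segment' (fun x hx => hp x hx) (fun x _ => hL _) t ht
  have h2 : dist (p t) r0 ≤ δ / 2 := by
    have h3 : dist (p t) (p 0) ≤ δ / 4 := by
      rw [dist_eq_norm]
      refine h1.trans ((mul_le_mul_of_nonneg_left ?_ hL0).trans hLε)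
      linarith [ht.2]
    have h4 : dist (p 0) r0 ≤ δ / 4 := by rw [hp0]; exact hr
    linarith [dist_triangle (p t) (p 0) r0]
  have hb : b (p t) = 1 := b.one_of_mem_closedBall h2
  refine ⟨hball (show dist (p t) r0 ≤ δ by linarith), ?_⟩
  have h5 := hp t ht
  simp only [hY, hb, one_smul] at h5
  exact h5

variable {Ω : Set W} {q : W → ℝ} {G : W → V}

lemma SP.smX (S : SP Ω q G) : SmO Ω (Xs G) := fun p hp =>
  contDiffAt_snd.prodMk ((S.smG p hp).const_smul (-2 : ℝ))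

lemma Geo.mono {T T' : ℝ} {p : ℝ → W} (h : Geo Ω G T p) (hT : T' ≤ T) : Geo Ω G T' p := by
  intro t ht
  have h1 := h t ⟨ht.1, ht.2.trans hT⟩
  exact ⟨h1.1, h1.2.mono (Icc_subset_Icc le_rfl hT)⟩

/-- uniform existence time on compact sets -/
lemma unif_exist (S : SP Ω q G) {K : Set W} (hK : IsCompact K) (hKΩ : K ⊆ Ω) :
    ∃ ε > (0:ℝ), ∀ r ∈ K, ∃ p : ℝ → W, p 0 = r ∧ Geo Ω G ε p := by
  refine hK.induction_on (p := fun s => ∃ ε > (0:ℝ), ∀ r ∈ s, ∃ p : ℝ → W, p 0 = r ∧ Geo Ω G ε p)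
    ⟨1, one_pos, fun r hr => hr.elim⟩ ?_ ?_ ?_
  · rintro s t hst ⟨ε, hε, h⟩
    exact ⟨ε, hε, fun r hr => h r (hst hr)⟩
  · rintro s t ⟨ε, hε, h⟩ ⟨ε', hε', h'⟩
    refine ⟨min ε ε', lt_min hε hε', ?_⟩
    rintro r (hr | hr)
    · obtain ⟨p, h0, hp⟩ := h r hr
      exact ⟨p, h0, hp.mono (min_le_left _ _)⟩
    · obtain ⟨p, h0, hp⟩ := h' r hr
      exact ⟨p, h0, hp.mono (min_le_right _ _)⟩
  · intro r hr
    obtain ⟨ρ, hρ, ε, hε, h⟩ := loc_exist S.op S.smX (hKΩ hr)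
    exact ⟨closedBall r ρ, mem_nhdsWithin_of_mem_nhds (closedBall_mem_nhds r hρ), ε, hε, fun s hs => h s hs⟩

/-- gluing -/
lemma glue {T T' : ℝ} (hT : 0 ≤ T) (hT' : 0 ≤ T') {p p' : ℝ → W} (h : Geo Ω G T p) (h' : Geo Ω G T' p')
    (h0 : p' 0 = p T) : ∃ r : ℝ → W, r 0 = p 0 ∧ Geo Ω G (T + T') r := by
  set r : ℝ → W := fun t => if t ≤ T then p t else p' (t - T) with hr
  have e1 : ∀ t ∈ Icc (0:ℝ) T, r t = p t := fun t ht => if_pos ht.2
  have e2 : ∀ t ∈ Icc T (T + T'), r t = p' (t - T) := by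
    intro t ht
    rcases ht.1.eq_or_lt with h1 | h1
    · rw [← h1]; simp [hr, h0]
    · exact if_neg (not_le.2 h1)
  have d1 : ∀ t ∈ Icc (0:ℝ) T, HasDerivWithinAt r (Xs G (r t)) (Icc 0 T) t := by
    intro t ht
    rw [e1 t ht]
    exact (h t ht).2.congr_of_mem e1 ht
  have d2 : ∀ t ∈ Icc T (T + T'), HasDerivWithinAt r (Xs G (r t)) (Icc T (T + T')) t := by
    intro t ht
    rw [e2 t ht]
    refine HasDerivWithinAt.congr_of_mem ?_ e2 ht
    have ht2 : t - T ∈ Icc (0:ℝ) T' := ⟨by linarith [ht.1], by linarith [ht.2]⟩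
    have h1 := (h' _ ht2).2
    have h2 : HasDerivWithinAt (fun s : ℝ => s - T) 1 (Icc T (T + T')) t :=
      (hasDerivWithinAt_id t _).sub_const T
    have hm : MapsTo (fun s : ℝ => s - T) (Icc T (T + T')) (Icc 0 T') := fun s hs =>
      ⟨by linarith [hs.1], by linarith [hs.2]⟩
    have h3 : HasDerivWithinAt (p' ∘ fun s : ℝ => s - T) ((1:ℝ) • Xs G (p' (t - T))) (Icc T (T + T')) t :=
      h1.scomp t h2 hm
    rw [one_smul] at h3
    exact h3
  refine ⟨r, e1 0 ⟨le_rfl, hT⟩, fun t ht => ⟨?_, ?_⟩⟩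
  · rcases le_total t T with h1 | h1
    · rw [e1 t ⟨ht.1, h1⟩]; exact (h t ⟨ht.1, h1⟩).1
    · rw [e2 t ⟨h1, ht.2⟩]; exact (h' _ ⟨by linarith, by linarith [ht.2]⟩).1
  · have hu : Icc (0:ℝ) (T + T') = Icc 0 T ∪ Icc T (T + T') :=
      (Icc_union_Icc_eq_Icc hT (by linarith)).symm
    rw [hu]
    refine HasDerivWithinAt.union ?_ ?_
    · by_cases h1 : t ∈ Icc (0:ℝ) T
      · exact d1 t h1
      · exact HasFDerivWithinAt.of_notMem_closure (by rwa [isClosed_Icc.closure_eq])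
    · by_cases h1 : t ∈ Icc T (T + T')
      · exact d2 t h1
      · exact HasFDerivWithinAt.of_notMem_closure (by rwa [isClosed_Icc.closure_eq])

/-- a uniform existence time on an energy level gives existence for all times -/
lemma all_times (S : SP Ω q G) {c ε : ℝ} (hε : 0 < ε)
    (h : ∀ r ∈ Ω, q r = c → ∃ p : ℝ → W, p 0 = r ∧ Geo Ω G ε p) (T : ℝ) :
    ∀ r ∈ Ω, q r = c → ∃ p : ℝ → W, p 0 = r ∧ Geo Ω G T p := by
  have hn : ∀ n : ℕ, ∀ r ∈ Ω, q r = c → ∃ p : ℝ → W, p 0 = r ∧ Geo Ω G ((n + 1) * ε) p := by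
    intro n
    induction n with
    | zero => intro r hr hc; simpa using h r hr hc
    | succ n ih =>
      intro r hr hc
      obtain ⟨p, hp0, hp⟩ := ih r hr hc
      have hT0 : (0:ℝ) ≤ (n + 1) * ε := by positivity
      have hTI : ((n:ℝ) + 1) * ε ∈ Icc (0:ℝ) ((n + 1) * ε) := ⟨hT0, le_rfl⟩
      have h1 : q (p ((n + 1) * ε)) = c := by rw [geo_q S hT0 hp hTI, hp0, hc]
      obtain ⟨p', hp'0, hp'⟩ := h _ (hp _ hTI).1 h1
      obtain ⟨r', hr'0, hr'⟩ := glue hT0 hε.le hp hp' hp'0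
      refine ⟨r', by rw [hr'0, hp0], ?_⟩
      have e : ((n + 1 : ℕ) + 1 : ℝ) * ε = (n + 1) * ε + ε := by push_cast; ring
      rw [e]; exact hr'
  intro r hr hc
  obtain ⟨n, hn'⟩ := exists_nat_gt (T / ε)
  obtain ⟨p, hp0, hp⟩ := hn n r hr hc
  refine ⟨p, hp0, hp.mono ?_⟩
  have h1 : T < n * ε := (div_lt_iff₀ hε).1 hn'
  nlinarith

end Pool.Agent.U631.TD
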