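import Pool.Agent.U631.TD.D5
import Pool.Agent.U631.TD.D6
set_option autoImplicit false
set_option maxSynthPendingDepth 6
open Topology Filter Set
namespace Pool.Agent.U631.TD
open H506R3.Lau Pool.Agent.R774.BW

section tr
variable {Ω : Set W} {q : W → ℝ} {G : W → V} {x x' : V} {L : V →L[ℝ] V} {c : ℝ}

lemma fib_tr {f g : W → ℝ} (hf : SmO Ω f) (hg : SmO Ω g) (hx : ∀ y : V, y ≠ 0 → ((x, y) : W) ∈ Ω)
    (hx' : ∀ y : V, y ≠ 0 → ((x', L y) : W) ∈ Ω) (h : ∀ y : V, y ≠ 0 → g (x', L y) = c * f (x, y))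
    (y : V) (hy : y ≠ 0) (a : V) : fderiv ℝ g (x', L y) (io (L a)) = c * fderiv ℝ f (x, y) (io a) := by
  have h1 : HasFDerivAt (fun z => g (x', L z)) ((fderiv ℝ g (x', L y)).comp (io.comp L)) y := by
    have h2 : HasFDerivAt (fun z : V => ((x', L z) : W)) (io.comp L) y := by
      exact (hasFDerivAt_const (𝕜 := ℝ) x' y).prodMk L.hasFDerivAt
    exact HasFDerivAt.comp (g := g) (f := fun z : V => ((x', L z) : W)) y (hg.hd (hx' y hy)) h2
  have h2 := (hfib hf (hx y hy)).const_mul c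
  have h3 : (fun z => g (x', L z)) =ᶠ[𝓝 y] fun z => c * f (x, z) := by
    filter_upwards [ne_ev hy] with z hz using h z hz
  have h4 := (h2.congr_of_eventuallyEq h3).unique h1
  have h5 := congrArg (fun L : V →L[ℝ] ℝ => L a) h4
  simp only [ContinuousLinearMap.comp_apply, smul_apply, smul_eq_mul] at h5
  exact h5.symm

lemma fdT1 (hq : SmO Ω q) {r : W} (hr : r ∈ Ω) (a v : W) : fderiv ℝ (fun r => T1 q r a) r v = T2 q r v a := by
  have h := (hq.fd.hd hr).clm_apply (hasFDerivAt_const a r)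
  have h' : HasFDerivAt (fun r => T1 q r a) _ r := h
  rw [h'.fderiv]; simp [T2, T1]

lemma fdT2 (hq : SmO Ω q) {r : W} (hr : r ∈ Ω) (a b v : W) :
    fderiv ℝ (fun r => T2 q r b a) r v = T3 q r v b a := by
  have h := ((hq.fd.fd.hd hr).clm_apply (hasFDerivAt_const b r)).clm_apply (hasFDerivAt_const a r)
  have h' : HasFDerivAt (fun r => T2 q r b a) _ r := h
  rw [h'.fderiv]; simp [T3, T2, T1]

lemma fdT3 (hq : SmO Ω q) {r : W} (hr : r ∈ Ω) (a b d v : W) :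
    fderiv ℝ (fun r => T3 q r d b a) r v = T4 q r v d b a := by
  have h := (((hq.fd.fd.fd.hd hr).clm_apply (hasFDerivAt_const d r)).clm_apply
    (hasFDerivAt_const b r)).clm_apply (hasFDerivAt_const a r)
  have h' : HasFDerivAt (fun r => T3 q r d b a) _ r := h
  rw [h'.fderiv]; simp [T4, T3, T2, T1]

lemma smT1 (hq : SmO Ω q) (a : W) : SmO Ω (fun r => T1 q r a) := fun p hp =>
  (hq.fd p hp).clm_apply contDiffAt_const
lemma smT2 (hq : SmO Ω q) (a b : W) : SmO Ω (fun r => T2 q r b a) := fun p hp =>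
  ((hq.fd.fd p hp).clm_apply contDiffAt_const).clm_apply contDiffAt_const
lemma smT3 (hq : SmO Ω q) (a b d : W) : SmO Ω (fun r => T3 q r d b a) := fun p hp =>
  (((hq.fd.fd.fd p hp).clm_apply contDiffAt_const).clm_apply contDiffAt_const).clm_apply contDiffAt_const

lemma tr24 (hq : SmO Ω q) (hx : ∀ y : V, y ≠ 0 → ((x, y) : W) ∈ Ω)
    (hx' : ∀ y : V, y ≠ 0 → ((x', L y) : W) ∈ Ω) (h : ∀ y : V, y ≠ 0 → q (x', L y) = c * q (x, y))
    {y : V} (hy : y ≠ 0) : (∀ a b, T2 q (x', L y) (io (L b)) (io (L a)) = c * T2 q (x, y) (io b) (io a)) ∧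
      ∀ a b d e, T4 q (x', L y) (io (L e)) (io (L d)) (io (L b)) (io (L a)) =
        c * T4 q (x, y) (io e) (io d) (io b) (io a) := by
  have h1 : ∀ a : V, ∀ y : V, y ≠ 0 → T1 q (x', L y) (io (L a)) = c * T1 q (x, y) (io a) := fun a y hy =>
    fib_tr hq hq hx hx' h y hy a
  have h2 : ∀ a b : V, ∀ y : V, y ≠ 0 → T2 q (x', L y) (io (L b)) (io (L a)) = c * T2 q (x, y) (io b) (io a) := by
    intro a b y hy
    have := fib_tr (smT1 hq (io a)) (smT1 hq (io (L a))) hx hx' (h1 a) y hy b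
    rwa [fdT1 hq (hx' y hy), fdT1 hq (hx y hy)] at this
  have h3 : ∀ a b d : V, ∀ y : V, y ≠ 0 → T3 q (x', L y) (io (L d)) (io (L b)) (io (L a)) =
      c * T3 q (x, y) (io d) (io b) (io a) := by
    intro a b d y hy
    have := fib_tr (smT2 hq (io a) (io b)) (smT2 hq (io (L a)) (io (L b))) hx hx' (h2 a b) y hy d
    rwa [fdT2 hq (hx' y hy), fdT2 hq (hx y hy)] at this
  refine ⟨fun a b => h2 a b y hy, fun a b d e => ?_⟩
  have := fib_tr (smT3 hq (io a) (io b) (io d)) (smT3 hq (io (L a)) (io (L b)) (io (L d))) hx hx' (h3 a b d) y hy e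
  rwa [fdT3 hq (hx' y hy), fdT3 hq (hx y hy)] at this

/-- the bound for the fourth derivative -/
def Bd (q : W → ℝ) (M : ℝ) (r : W) : Prop := ∀ a b c d : V, (q r * T4 q r (io a) (io b) (io c) (io d)) ^ 2 ≤
  M * (T2 q r (io a) (io a) * T2 q r (io b) (io b) * T2 q r (io c) (io c) * T2 q r (io d) (io d))

lemma Bd.tr (hq : SmO Ω q) (hx : ∀ y : V, y ≠ 0 → ((x, y) : W) ∈ Ω)
    (hx' : ∀ y : V, y ≠ 0 → ((x', L y) : W) ∈ Ω) (h : ∀ y : V, y ≠ 0 → q (x', L y) = c * q (x, y))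
    (hL : Function.Surjective L) {M : ℝ} {y : V} (hy : y ≠ 0) (hb : Bd q M (x, y)) : Bd q M (x', L y) := by
  intro a b d e
  obtain ⟨a, rfl⟩ := hL a
  obtain ⟨b, rfl⟩ := hL b
  obtain ⟨d, rfl⟩ := hL d
  obtain ⟨e, rfl⟩ := hL e
  obtain ⟨h2, h4⟩ := tr24 hq hx hx' h hy
  rw [h y hy, h2, h2, h2, h2, h4]
  have := hb a b d e
  have hc : 0 ≤ c ^ 4 := by positivity
  nlinarith [mul_le_mul_of_nonneg_left this hc]

end tr

section co
variable {U : Set V} {q : W → ℝ} {G : W → V}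

lemma norm_io (a : V) : ‖io a‖ = ‖a‖ := by simp [io_apply, Prod.norm_def]

/-- the bound on compact sets -/
lemma bd_compact (S : SP (Om U) q G) {K : Set V} (hK : IsCompact K) (hKU : K ⊆ U) :
    ∃ M : ℝ, ∀ k ∈ K, ∀ y : V, y ≠ 0 → Bd q M (k, y) := by
  set KS : Set W := K ×ˢ Metric.sphere (0:V) 1 with hKS
  have hne : ∀ s ∈ Metric.sphere (0:V) 1, s ≠ 0 := by
    intro s hs h
    rw [h] at hs; simp at hs
  have hsub : KS ⊆ Om U := fun r hr => ⟨hKU hr.1, hne _ hr.2⟩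
  have hKc : IsCompact KS := hK.prod (isCompact_sphere _ _)
  have hc1 : ContinuousOn (fun r => q r • T4 q r) KS := fun r hr =>
    (((S.sq _ (hsub hr)).continuousAt).smul (S.sq.fd.fd.fd.fd _ (hsub hr)).continuousAt).continuousWithinAt
  obtain ⟨B, hB⟩ := hKc.exists_bound_of_continuousOn hc1
  have hc2 : ContinuousOn (fun s : W × V => T2 q s.1 (io s.2) (io s.2)) (KS ×ˢ Metric.sphere (0:V) 1) := by
    intro s hs
    have h1 : ContinuousAt (fun s : W × V => T2 q s.1) s :=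
      ((S.sq.fd.fd _ (hsub hs.1)).continuousAt).comp continuousAt_fst
    have h2 : ContinuousAt (fun s : W × V => io s.2) s := io.continuous.continuousAt.comp continuousAt_snd
    exact ((h1.clm_apply h2).clm_apply h2).continuousWithinAt
  obtain ⟨m, hm, hm2⟩ := (hKc.prod (isCompact_sphere (0:V) 1)).exists_forall_le' hc2 (a := 0) (fun s hs =>
    S.pos _ (hsub hs.1) _ (hne _ hs.2))
  have hlow : ∀ r ∈ KS, ∀ a : V, m * ‖a‖ ^ 2 ≤ T2 q r (io a) (io a) := by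
    intro r hr a
    by_cases ha : a = 0
    · subst ha; simp
    · have hn : 0 < ‖a‖ := norm_pos_iff.2 ha
      have h1 := hm2 (r, ‖a‖⁻¹ • a) ⟨hr, by simp [norm_smul, hn.ne']⟩
      simp only [map_smul, smul_apply, smul_eq_mul] at h1
      have h2 : ‖a‖⁻¹ * (‖a‖⁻¹ * T2 q r (io a) (io a)) * ‖a‖ ^ 2 = T2 q r (io a) (io a) := by
        field_simp
      rw [← h2]
      exact mul_le_mul_of_nonneg_right h1 (by positivity)
  have hunit : ∀ r ∈ KS, Bd q (B ^ 2 / m ^ 4) r := by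
    intro r hr a b c d
    have h1 : |q r * T4 q r (io a) (io b) (io c) (io d)| ≤ B * ‖a‖ * ‖b‖ * ‖c‖ * ‖d‖ := by
      have h2 : q r * T4 q r (io a) (io b) (io c) (io d) = (q r • T4 q r) (io a) (io b) (io c) (io d) := rfl
      rw [h2, ← Real.norm_eq_abs]
      set F4 := q r • T4 q r
      have n1 : ‖F4 (io a) (io b) (io c) (io d)‖ ≤ ‖F4 (io a) (io b) (io c)‖ * ‖d‖ := by
        have := (F4 (io a) (io b) (io c)).le_opNorm (io d); rwa [norm_io] at this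
      have n2 : ‖F4 (io a) (io b) (io c)‖ ≤ ‖F4 (io a) (io b)‖ * ‖c‖ := by
        have := (F4 (io a) (io b)).le_opNorm (io c); rwa [norm_io] at this
      have n3 : ‖F4 (io a) (io b)‖ ≤ ‖F4 (io a)‖ * ‖b‖ := by
        have := (F4 (io a)).le_opNorm (io b); rwa [norm_io] at this
      have n4 : ‖F4 (io a)‖ ≤ ‖F4‖ * ‖a‖ := by
        have := F4.le_opNorm (io a); rwa [norm_io] at this
      have n5 : ‖F4‖ ≤ B := hB r hr
      calc ‖F4 (io a) (io b) (io c) (io d)‖ ≤ ‖F4 (io a) (io b) (io c)‖ * ‖d‖ := n1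
        _ ≤ (‖F4 (io a) (io b)‖ * ‖c‖) * ‖d‖ := by gcongr
        _ ≤ ((‖F4 (io a)‖ * ‖b‖) * ‖c‖) * ‖d‖ := by gcongr
        _ ≤ (((‖F4‖ * ‖a‖) * ‖b‖) * ‖c‖) * ‖d‖ := by gcongr
        _ ≤ (((B * ‖a‖) * ‖b‖) * ‖c‖) * ‖d‖ := by gcongr
    have h2 : (q r * T4 q r (io a) (io b) (io c) (io d)) ^ 2 ≤ (B * ‖a‖ * ‖b‖ * ‖c‖ * ‖d‖) ^ 2 := by
      rw [← sq_abs]
      exact pow_le_pow_left₀ (abs_nonneg _) h1 2
    refine h2.trans ?_
    have h3 : (B * ‖a‖ * ‖b‖ * ‖c‖ * ‖d‖) ^ 2 =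
        B ^ 2 / m ^ 4 * ((m * ‖a‖ ^ 2) * (m * ‖b‖ ^ 2) * (m * ‖c‖ ^ 2) * (m * ‖d‖ ^ 2)) := by
      field_simp
    rw [h3]
    have ha := hlow r hr a
    have hb := hlow r hr b
    have hc := hlow r hr c
    have hd := hlow r hr d
    have pa : 0 ≤ m * ‖a‖ ^ 2 := by positivity
    have pb : 0 ≤ m * ‖b‖ ^ 2 := by positivity
    have pc : 0 ≤ m * ‖c‖ ^ 2 := by positivity
    have pd' : 0 ≤ m * ‖d‖ ^ 2 := by positivity
    have hC : 0 ≤ B ^ 2 / m ^ 4 := by positivity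
    refine mul_le_mul_of_nonneg_left ?_ hC
    gcongr
    · exact mul_nonneg (mul_nonneg (pa.trans ha) (pb.trans hb)) (pc.trans hc)
    · exact mul_nonneg (pa.trans ha) (pb.trans hb)
    · exact pa.trans ha
  refine ⟨B ^ 2 / m ^ 4, fun k hk y hy => ?_⟩
  have hn : 0 < ‖y‖ := norm_pos_iff.2 hy
  set s : V := ‖y‖⁻¹ • y with hs
  have hsS : s ∈ Metric.sphere (0:V) 1 := by simp [hs, norm_smul, hn.ne']
  have hs0 : s ≠ 0 := hne s hsS
  have h1 := hunit (k, s) ⟨hk, hsS⟩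
  have hkU : k ∈ U := hKU hk
  have h2 := h1.tr (L := ‖y‖ • ContinuousLinearMap.id ℝ V) (x' := k) (c := ‖y‖ ^ 2) S.sq (Om_fib hkU)
    (fun z hz => ⟨hkU, by
      show ‖y‖ • z ≠ 0
      exact smul_ne_zero hn.ne' hz⟩)
    (fun z hz => by
      have := S.hq (k, z) (Om_fib hkU z hz) ‖y‖ hn
      simpa using this)
    (fun z => ⟨‖y‖⁻¹ • z, by simp [smul_smul, hn.ne']⟩) hs0
  have h3 : (‖y‖ • ContinuousLinearMap.id ℝ V) s = y := by
    simp [hs, smul_smul, hn.ne']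
  rwa [h3] at h2

end co

end Pool.Agent.U631.TD
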