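import Pool.Agent.U631.TD.D7
set_option autoImplicit false
set_option maxSynthPendingDepth 6
open Topology Filter Set
namespace Pool.Agent.U631.TD
open H506R3.Lau Pool.Agent.R774.BW

section co
variable {U : Set V} {q : W → ℝ} {G : W → V}

/-- the level set of the energy over a compact set lies in a compact subset of the domain -/
lemma level_compact (S : SP (Om U) q G) (hqpos : ∀ r ∈ Om U, 0 < q r) {K : Set V} (hK : IsCompact K) (hKU : K ⊆ U)
    {c : ℝ} (hc : 0 < c) : ∃ K' : Set W, IsCompact K' ∧ K' ⊆ Om U ∧ ∀ k ∈ K, ∀ y : V, y ≠ 0 → q (k, y) = c →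
      ((k, y) : W) ∈ K' := by
  set KS : Set W := K ×ˢ Metric.sphere (0:V) 1 with hKS
  have hne : ∀ s ∈ Metric.sphere (0:V) 1, s ≠ 0 := by
    intro s hs h
    rw [h] at hs; simp at hs
  have hsub : KS ⊆ Om U := fun r hr => ⟨hKU hr.1, hne _ hr.2⟩
  have hKc : IsCompact KS := hK.prod (isCompact_sphere _ _)
  set f : W → W := fun r => (r.1, Real.sqrt (c / q r) • r.2) with hf
  have hfc : ContinuousOn f KS := by
    have hq : ContinuousOn q KS := fun r hr => (S.sq _ (hsub hr)).continuousAt.continuousWithinAt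
    have h1 : ContinuousOn (fun r => c / q r) KS := continuousOn_const.div hq (fun r hr => (hqpos r (hsub hr)).ne')
    exact continuousOn_fst.prodMk ((Real.continuous_sqrt.comp_continuousOn h1).smul continuousOn_snd)
  refine ⟨f '' KS, hKc.image_of_continuousOn hfc, ?_, ?_⟩
  · rintro _ ⟨r, hr, rfl⟩
    refine ⟨hKU hr.1, ?_⟩
    show Real.sqrt (c / q r) • r.2 ≠ 0
    exact smul_ne_zero (Real.sqrt_pos.2 (div_pos hc (hqpos r (hsub hr)))).ne' (hne _ hr.2)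
  · intro k hk y hy hq
    have hn : 0 < ‖y‖ := norm_pos_iff.2 hy
    refine ⟨(k, ‖y‖⁻¹ • y), ⟨hk, by simp [norm_smul, hn.ne']⟩, ?_⟩
    have h1 : q (k, ‖y‖⁻¹ • y) = (‖y‖⁻¹) ^ 2 * c := by
      have := S.hq (k, y) (Om_fib (hKU hk) y hy) ‖y‖⁻¹ (inv_pos.2 hn)
      rw [hq] at this
      simpa using this
    have h2 : c / ((‖y‖⁻¹) ^ 2 * c) = ‖y‖ ^ 2 := by field_simp
    simp only [hf, h1, h2, Real.sqrt_sq hn.le, smul_smul, mul_inv_cancel₀ hn.ne', one_smul]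

/-- **Landsberg metrics with a cocompact family of isometries are Berwald metrics** -/
theorem cocompactW (S : SP (Om U) q G) (hL : Lan (Om U) q G)
    (hD : ∀ x' : V, (∀ y : V, y ≠ 0 → ((x', y) : W) ∈ Om U) → Dat (fun z => q (x', z)))
    (hqpos : ∀ r ∈ Om U, 0 < q r) {K : Set V} (hK : IsCompact K) (hKU : K ⊆ U)
    (hcov : ∀ x ∈ U, ∃ ψ : V → V, LocIso U q ψ ∧ ∃ k ∈ K, ψ k = x) {r : W} (hr : r ∈ Om U) (u v w : V) :
    BB G r u v w = 0 := by
  obtain ⟨M, hM⟩ := bd_compact S hK hKU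
  -- preimages
  have hpre : ∀ r ∈ Om U, ∃ ψ : V → V, LocIso U q ψ ∧ ∃ k ∈ K, ∃ y : V, y ≠ 0 ∧ tg ψ (k, y) = r := by
    rintro ⟨x, y⟩ ⟨hx, hy⟩
    have hy : y ≠ 0 := hy
    obtain ⟨ψ, hψ, k, hk, rfl⟩ := hcov x hx
    obtain ⟨y', hy'⟩ := S.posq_inj hψ (hKU hk) y
    have hy0 : y' ≠ 0 := by
      rintro rfl
      rw [map_zero] at hy'
      exact hy hy'.symm
    refine ⟨ψ, hψ, k, hk, y', hy0, ?_⟩
    rw [← hy']; rfl
  have hbd : ∀ r ∈ Om U, Bd q M r := by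
    intro r hr
    obtain ⟨ψ, hψ, k, hk, y, hy, rfl⟩ := hpre r hr
    have hkU := hKU hk
    exact (hM k hk y hy).tr (L := fderiv ℝ ψ k) (x' := ψ k) (c := 1) S.sq (Om_fib hkU)
      (fun z hz => ⟨hψ.maps k hkU, hψ.ne k hkU z hz⟩)
      (fun z hz => by rw [one_mul]; exact hψ.iso k hkU z hz) (S.posq_inj hψ hkU) hy
  obtain ⟨K', hK', hK'U, hK'q⟩ := level_compact S hqpos hK hKU (hqpos r hr)
  obtain ⟨ε, hε, hex⟩ := unif_exist S hK' hK'U
  have hex' : ∀ s ∈ Om U, q s = q r → ∃ p : ℝ → W, p 0 = s ∧ Geo (Om U) G ε p := by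
    intro s hs hqs
    obtain ⟨ψ, hψ, k, hk, y, hy, rfl⟩ := hpre s hs
    have h1 : q (k, y) = q r := by rw [← hqs]; exact (hψ.iso k (hKU hk) y hy).symm
    obtain ⟨p, hp0, hp⟩ := hex _ (hK'q k hk y hy h1)
    exact ⟨fun t => tg ψ (p t), by simp only [hp0], hψ.geo S hp⟩
  exact completeW S hL hD (fun r hr a b c d => hbd r hr a b c d) hr (hqpos r hr)
    (fun T _ => all_times S hε hex' T r hr rfl) u v w

end co

section fins
variable {U : Set V} {F : V → V → ℝ} {G : V → V → V}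

/-- `ψ` is a smooth map of `U` into itself which preserves the Finsler metric `F`. -/
def IsIsometricMap {n : ℕ} (U : Set (Fin n → ℝ)) (F : (Fin n → ℝ) → (Fin n → ℝ) → ℝ)
    (ψ : (Fin n → ℝ) → (Fin n → ℝ)) : Prop :=
  ∀ x ∈ U, ψ x ∈ U ∧ ContDiffAt ℝ ((⊤ : ℕ∞) : WithTop ℕ∞) ψ x ∧ ∀ y, F (ψ x) (fderiv ℝ ψ x y) = F x y

/-- `U` is covered by the images of a compact subset of `U` under isometric maps. -/
def CoveredByCompact {n : ℕ} (U : Set (Fin n → ℝ)) (F : (Fin n → ℝ) → (Fin n → ℝ) → ℝ) : Prop :=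
  ∃ K : Set (Fin n → ℝ), IsCompact K ∧ K ⊆ U ∧ ∀ x ∈ U, ∃ ψ, IsIsometricMap U F ψ ∧ ∃ k ∈ K, ψ k = x

lemma locIso_of (hF : IsFinsler U F) {ψ : V → V} (h : IsIsometricMap U F ψ) : LocIso U (qF F) ψ := by
  refine ⟨fun x hx => (h x hx).2.1, fun x hx => (h x hx).1, fun x hx y hy h0 => ?_, fun x hx y hy => ?_⟩
  · have h1 := (h x hx).2.2 y
    rw [h0] at h1
    have h2 := hF.hom (ψ x) (h x hx).1 0 2 two_pos
    rw [smul_zero] at h2
    have h3 := hF.pos x hx y hy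
    linarith
  · show F (ψ x) (fderiv ℝ ψ x y) ^ 2 / 2 = F x y ^ 2 / 2
    rw [(h x hx).2.2 y]

/-- **closed three-dimensional Landsberg manifolds** -/
theorem mainClosed (hF : IsFinsler U F) (hG : IsSpray U F G)
    (hL : ∀ x ∈ U, ∀ y : V, y ≠ 0 → ∀ j k l, landsberg F G x y j k l = 0)
    (hco : CoveredByCompact U F) {x : V} (hx : x ∈ U) {y : V} (hy : y ≠ 0) (i j k l : Fin 3) :
    berwald G x y i j k l = 0 := by
  have S := sp_of_finsler hF hG
  have hLan : Lan (Om U) (qF F) (GW G) := lands_eq hF hG hL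
  have hD : ∀ x' : V, (∀ y : V, y ≠ 0 → ((x', y) : W) ∈ Om U) → Dat (fun z => qF F (x', z)) := by
    intro x' hx'
    have hne : (ee 0 : V) ≠ 0 := by
      intro h
      have := congrFun h 0
      simp [ee] at this
    exact dat_of_finsler hF (hx' (ee 0) hne).1
  obtain ⟨K, hK, hKU, hcov⟩ := hco
  have hqpos : ∀ r ∈ Om U, 0 < qF F r := by
    intro r hr
    have := hF.pos r.1 hr.1 r.2 hr.2
    simp only [qF]
    positivity
  rw [berwald_eq hF hG hx hy]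
  have := cocompactW S hLan hD hqpos hK hKU (fun x hx => by
    obtain ⟨ψ, hψ, k, hk, hkx⟩ := hcov x hx
    exact ⟨ψ, locIso_of hF hψ, k, hk, hkx⟩) (Om_fib hx y hy) (ee j) (ee k) (ee l)
  exact congrFun this i

end fins

end Pool.Agent.U631.TD
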