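import Pool.Agent.U631.TD.D8
set_option autoImplicit false
set_option maxSynthPendingDepth 6
open Topology Filter Set
namespace Pool.Agent.U631.TD
open H506R3.Lau Pool.Agent.R774.BW

/-! ### isometries between two domains -/

variable {N U' : Set V} {q q' : W → ℝ} {G G' : W → V} {φ : V → V}

lemma SP.restrict {U : Set V} (S : SP (Om U) q G) (hN : IsOpen N) (hsub : N ⊆ U) : SP (Om N) q G := by
  have hs : Om N ⊆ Om U := fun r hr => ⟨hsub hr.1, hr.2⟩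
  exact ⟨hN.prod isOpen_ne, fun p hp => hp.2, fun p hp y hy => ⟨hp.1, hy⟩, fun p hp => S.sq p (hs hp),
    fun p hp => S.hq p (hs hp), fun p hp => S.pos p (hs hp), fun p hp => S.spray p (hs hp)⟩

/-- an energy preserving map of `N` into `U'` -/
structure LI (N U' : Set V) (q q' : W → ℝ) (φ : V → V) : Prop where
  sm : ∀ x ∈ N, ContDiffAt ℝ ((⊤ : ℕ∞) : WithTop ℕ∞) φ x
  maps : ∀ x ∈ N, φ x ∈ U'
  ne : ∀ x ∈ N, ∀ y : V, y ≠ 0 → fderiv ℝ φ x y ≠ 0
  iso : ∀ x ∈ N, ∀ y : V, y ≠ 0 → q' (tg φ (x, y)) = q (x, y)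

lemma LI.mapsOm (h : LI N U' q q' φ) {r : W} (hr : r ∈ Om N) : tg φ r ∈ Om U' :=
  ⟨h.maps _ hr.1, h.ne _ hr.1 _ hr.2⟩

lemma LI.hd (h : LI N U' q q' φ) {x : V} (hx : x ∈ N) : HasFDerivAt φ (fderiv ℝ φ x) x :=
  ((h.sm x hx).differentiableAt top_ne_zero').hasFDerivAt

lemma LI.hdd (h : LI N U' q q' φ) {x : V} (hx : x ∈ N) : HasFDerivAt (fderiv ℝ φ) (fderiv ℝ (fderiv ℝ φ) x) x :=
  (((h.sm x hx).fderiv_right top_add_one).differentiableAt top_ne_zero').hasFDerivAt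

lemma LI.htg (h : LI N U' q q' φ) {r : W} (hr : r.1 ∈ N) : HasFDerivAt (tg φ) (Ltg φ r) r := by
  have h1 : HasFDerivAt (fun r : W => φ r.1) ((fderiv ℝ φ r.1).comp (ContinuousLinearMap.fst ℝ V V)) r :=
    (h.hd hr).comp r hasFDerivAt_fst
  have h2 : HasFDerivAt (fun r : W => fderiv ℝ φ r.1)
      ((fderiv ℝ (fderiv ℝ φ) r.1).comp (ContinuousLinearMap.fst ℝ V V)) r :=
    HasFDerivAt.comp (g := fderiv ℝ φ) (f := fun r : W => r.1) r (h.hdd hr) hasFDerivAt_fst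
  have h3 := h1.prodMk (h2.clm_apply (hasFDerivAt_snd (𝕜 := ℝ) (E := V) (F := V) (p := r)))
  refine h3.congr_fderiv ?_
  ext z <;> simp [Ltg, add_comm]

lemma LI.surj (h : LI N U' q q' φ) {x : V} (hx : x ∈ N) : Function.Surjective (fderiv ℝ φ x) := by
  have hinj : Function.Injective (fderiv ℝ φ x).toLinearMap := by
    rw [← LinearMap.ker_eq_bot, LinearMap.ker_eq_bot']
    intro v hv
    by_contra hne
    exact h.ne x hx v hne hv
  exact (LinearMap.injective_iff_surjective.1 hinj)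

lemma LI.n1 (h : LI N U' q q' φ) (S : SP (Om N) q G) (S' : SP (Om U') q' G') {r : W} (hr : r ∈ Om N) (z : W) :
    T1 q r z = T1 q' (tg φ r) (Ltg φ r z) := by
  have h1 : HasFDerivAt q' (fderiv ℝ q' (tg φ r)) (tg φ r) := S'.sq.hd (h.mapsOm hr)
  have h2 := HasFDerivAt.comp (g := q') (f := tg φ) r h1 (h.htg hr.1)
  have h3 := fd_congr S.op hr h2 (S.sq.hd hr) (fun s hs => h.iso s.1 hs.1 s.2 hs.2)
  have h4 := congrArg (fun L : W →L[ℝ] ℝ => L z) h3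
  simp only [ContinuousLinearMap.comp_apply] at h4
  exact h4.symm

lemma LI.n2 (h : LI N U' q q' φ) (S : SP (Om N) q G) (S' : SP (Om U') q' G') {r : W} (hr : r ∈ Om N) (z : W) (u : V) :
    T2 q r z (io u) = T2 q' (tg φ r) (Ltg φ r z) (io (fderiv ℝ φ r.1 u)) +
      T1 q' (tg φ r) (io (fderiv ℝ (fderiv ℝ φ) r.1 z.1 u)) := by
  have hb : HasFDerivAt (fun s : W => io (fderiv ℝ φ s.1 u))
      (io.comp ((ContinuousLinearMap.apply ℝ V u).comp
        ((fderiv ℝ (fderiv ℝ φ) r.1).comp (ContinuousLinearMap.fst ℝ V V)))) r := by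
    have h2 : HasFDerivAt (fun r : W => fderiv ℝ φ r.1)
        ((fderiv ℝ (fderiv ℝ φ) r.1).comp (ContinuousLinearMap.fst ℝ V V)) r :=
      HasFDerivAt.comp (g := fderiv ℝ φ) (f := fun r : W => r.1) r (h.hdd hr.1) hasFDerivAt_fst
    exact io.hasFDerivAt.comp r ((ContinuousLinearMap.apply ℝ V u).hasFDerivAt.comp r h2)
  have h1 : HasFDerivAt (fun s => T1 q' (tg φ s)) ((T2 q' (tg φ r)).comp (Ltg φ r)) r :=
    HasFDerivAt.comp (g := T1 q') (f := tg φ) r (S'.sq.fd.hd (h.mapsOm hr)) (h.htg hr.1)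
  have h2 := h1.clm_apply hb
  have h3 := (S.sq.fd.hd hr).clm_apply (hasFDerivAt_const (io u) r)
  have e : ∀ s ∈ Om N, fderiv ℝ q s (io u) = T1 q' (tg φ s) (io (fderiv ℝ φ s.1 u)) := by
    intro s hs
    have := h.n1 S S' hs (io u)
    rw [Ltg_apply] at this
    have e2 : ((fderiv ℝ φ s.1 (io u).1, fderiv ℝ (fderiv ℝ φ) s.1 (io u).1 s.2 + fderiv ℝ φ s.1 (io u).2) : W) =
        io (fderiv ℝ φ s.1 u) := by simp [io_apply]
    rw [e2] at this
    exact this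
  have h4 := congrArg (fun L : W →L[ℝ] ℝ => L z) (fd_congr S.op hr h3 h2 e)
  simp only [add_apply, ContinuousLinearMap.comp_apply, ContinuousLinearMap.flip_apply,
    ContinuousLinearMap.apply_apply, zero_apply, map_zero, zero_add,
    ContinuousLinearMap.coe_fst'] at h4
  have h5 : T2 q r z (io u) = fderiv ℝ (fderiv ℝ q) r z (io u) := rfl
  rw [h5, h4]
  ring

lemma LI.nat (h : LI N U' q q' φ) (S : SP (Om N) q G) (S' : SP (Om U') q' G') {r : W} (hr : r ∈ Om N) :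
    G' (tg φ r) = fderiv ℝ φ r.1 (G r) - (1/2 : ℝ) • fderiv ℝ (fderiv ℝ φ) r.1 r.2 r.2 := by
  have hm := h.mapsOm hr
  refine S'.inj hm (fun w => ?_)
  obtain ⟨u, rfl⟩ := h.surj hr.1 w
  have a1 := h.n2 S S' hr (io (G r)) u
  have a2 := h.n2 S S' hr (r.2, 0) u
  have a3 := h.n1 S S' hr (u, 0)
  have a4 := S.spray r hr u
  have a5 := S'.spray (tg φ r) hm (fderiv ℝ φ r.1 u)
  have sy : fderiv ℝ (fderiv ℝ φ) r.1 r.2 u = fderiv ℝ (fderiv ℝ φ) r.1 u r.2 := symmAux (h.sm _ hr.1) _ _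
  have e1 : Ltg φ r (io (G r)) = io (fderiv ℝ φ r.1 (G r)) := by simp [Ltg_apply, io_apply]
  have e2 : Ltg φ r (r.2, 0) = ((tg φ r).2, 0) + io (fderiv ℝ (fderiv ℝ φ) r.1 r.2 r.2) := by
    simp [Ltg_apply, io_apply, tg]
  have e3 : Ltg φ r (u, 0) = (fderiv ℝ φ r.1 u, 0) + io (fderiv ℝ (fderiv ℝ φ) r.1 u r.2) := by
    simp [Ltg_apply, io_apply]
  have e4 : (io (G r)).1 = 0 := rfl
  rw [e1, e4, map_zero, zero_apply, map_zero, map_zero, add_zero] at a1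
  rw [e2, map_add, add_apply] at a2
  rw [e3, map_add] at a3
  rw [S.sy2 hr (io u) (io (G r)), a1, a2, a3, sy] at a4
  rw [a5, map_sub, map_smul, map_sub, map_smul, smul_eq_mul, S'.sy2 hm _ (io (fderiv ℝ φ r.1 (G r))), a4,
    S'.sy2 hm _ (io (fderiv ℝ (fderiv ℝ φ) r.1 r.2 r.2))]
  ring

section tr2
variable {Ω Ω' : Set W} {x x' : V} {L : V →L[ℝ] V}

lemma fib_trV {Z : Type} [NormedAddCommGroup Z] [NormedSpace ℝ Z] {f g : W → Z} {R : Z →L[ℝ] Z} {k : V → Z}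
    {k' : V →L[ℝ] Z} (hf : SmO Ω f) (hg : SmO Ω' g)
    (hx : ∀ y : V, y ≠ 0 → ((x, y) : W) ∈ Ω) (hx' : ∀ y : V, y ≠ 0 → ((x', L y) : W) ∈ Ω')
    (h : ∀ y : V, y ≠ 0 → g (x', L y) = R (f (x, y)) + k y)
    (y : V) (hy : y ≠ 0) (hk : HasFDerivAt k k' y) (a : V) :
    fderiv ℝ g (x', L y) (io (L a)) = R (fderiv ℝ f (x, y) (io a)) + k' a := by
  have h1 : HasFDerivAt (fun z => g (x', L z)) ((fderiv ℝ g (x', L y)).comp (io.comp L)) y := by
    have h2 : HasFDerivAt (fun z : V => ((x', L z) : W)) (io.comp L) y := by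
      exact (hasFDerivAt_const (𝕜 := ℝ) x' y).prodMk L.hasFDerivAt
    exact HasFDerivAt.comp (g := g) (f := fun z : V => ((x', L z) : W)) y (hg.hd (hx' y hy)) h2
  have h2 : HasFDerivAt (fun z => R (f (x, z)) + k z) (R.comp ((fderiv ℝ f (x, y)).comp io) + k') y :=
    (R.hasFDerivAt.comp y (hfib hf (hx y hy))).add hk
  have h3 : (fun z => g (x', L z)) =ᶠ[𝓝 y] fun z => R (f (x, z)) + k z := by
    filter_upwards [ne_ev hy] with z hz using h z hz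
  have h4 := (h2.congr_of_eventuallyEq h3).unique h1
  have h5 := congrArg (fun L : V →L[ℝ] Z => L a) h4
  simp only [add_apply, ContinuousLinearMap.comp_apply] at h5
  exact h5.symm

lemma fdA1 {G : W → V} (hG : SmO Ω G) {r : W} (hr : r ∈ Ω) (a v : W) :
    fderiv ℝ (fun r => fderiv ℝ G r a) r v = fderiv ℝ (fderiv ℝ G) r v a := by
  have h := (hG.fd.hd hr).clm_apply (hasFDerivAt_const a r)
  have h' : HasFDerivAt (fun r => fderiv ℝ G r a) _ r := h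
  rw [h'.fderiv]; simp

lemma fdA2 {G : W → V} (hG : SmO Ω G) {r : W} (hr : r ∈ Ω) (a b v : W) :
    fderiv ℝ (fun r => fderiv ℝ (fderiv ℝ G) r b a) r v = fderiv ℝ (fderiv ℝ (fderiv ℝ G)) r v b a := by
  have h := ((hG.fd.fd.hd hr).clm_apply (hasFDerivAt_const b r)).clm_apply (hasFDerivAt_const a r)
  have h' : HasFDerivAt (fun r => fderiv ℝ (fderiv ℝ G) r b a) _ r := h
  rw [h'.fderiv]; simp

/-- transformation of the Berwald curvature -/
lemma B_tr {G G' : W → V} {Qd : V →L[ℝ] V →L[ℝ] V} (hG : SmO Ω G) (hG' : SmO Ω' G')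
    (hx : ∀ y : V, y ≠ 0 → ((x, y) : W) ∈ Ω) (hx' : ∀ y : V, y ≠ 0 → ((x', L y) : W) ∈ Ω')
    (h : ∀ y : V, y ≠ 0 → G' (x', L y) = L (G (x, y)) - (1/2 : ℝ) • Qd y y)
    {y : V} (hy : y ≠ 0) (a b c : V) : BB G' (x', L y) (L c) (L b) (L a) = L (BB G (x, y) c b a) := by
  have h1 : ∀ a : V, ∀ y : V, y ≠ 0 → fderiv ℝ G' (x', L y) (io (L a)) =
      L (fderiv ℝ G (x, y) (io a)) + (-(1/2 : ℝ)) • (Qd y a + Qd a y) := by
    intro a y hy
    have hk : HasFDerivAt (fun y => (-(1/2 : ℝ)) • Qd y y) ((-(1/2 : ℝ)) • (Qd y + Qd.flip y)) y := by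
      have := (Qd.hasFDerivAt (x := y)).clm_apply (hasFDerivAt_id (𝕜 := ℝ) y)
      refine (this.const_smul (-(1/2 : ℝ))).congr_fderiv ?_
      ext z
      simp
    have := fib_trV (R := L) hG hG' hx hx' (k := fun y => (-(1/2 : ℝ)) • Qd y y)
      (fun y hy => by rw [h y hy, neg_smul, sub_eq_add_neg]) y hy hk a
    simpa using this
  have h2 : ∀ a b : V, ∀ y : V, y ≠ 0 → fderiv ℝ (fderiv ℝ G') (x', L y) (io (L b)) (io (L a)) =
      L (fderiv ℝ (fderiv ℝ G) (x, y) (io b) (io a)) + (-(1/2 : ℝ)) • (Qd b a + Qd a b) := by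
    intro a b y hy
    have hk : HasFDerivAt (fun y => (-(1/2 : ℝ)) • (Qd y a + Qd a y)) ((-(1/2 : ℝ)) • (Qd.flip a + Qd a)) y := by
      have e1 : HasFDerivAt (fun y => Qd y a) (Qd.flip a) y := (Qd.flip a).hasFDerivAt
      have e2 : HasFDerivAt (fun y => Qd a y) (Qd a) y := (Qd a).hasFDerivAt
      exact (e1.add e2).const_smul (-(1/2 : ℝ))
    have := fib_trV (R := L) (hG.app (io a)) (hG'.app (io (L a))) hx hx'
      (k := fun y => (-(1/2 : ℝ)) • (Qd y a + Qd a y)) (h1 a) y hy hk b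
    rw [fdA1 hG' (hx' y hy), fdA1 hG (hx y hy)] at this
    simpa using this
  have hs2 : ∀ {Ω : Set W} {G : W → V}, SmO Ω G → ∀ a b : W, SmO Ω (fun r => fderiv ℝ (fderiv ℝ G) r b a) :=
    fun hG a b p hp => ((hG.fd.fd p hp).clm_apply contDiffAt_const).clm_apply contDiffAt_const
  have := fib_trV (R := L) (hs2 hG (io a) (io b)) (hs2 hG' (io (L a)) (io (L b))) hx hx'
    (k := fun _ => (-(1/2 : ℝ)) • (Qd b a + Qd a b)) (h2 a b) y hy (hasFDerivAt_const _ _) c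
  rw [fdA2 hG' (hx' y hy), fdA2 hG (hx y hy)] at this
  simpa [BB] using this

lemma tr24' {q q' : W → ℝ} (hq : SmO Ω q) (hq' : SmO Ω' q') (hx : ∀ y : V, y ≠ 0 → ((x, y) : W) ∈ Ω)
    (hx' : ∀ y : V, y ≠ 0 → ((x', L y) : W) ∈ Ω') (h : ∀ y : V, y ≠ 0 → q' (x', L y) = q (x, y))
    {y : V} (hy : y ≠ 0) : (∀ a b, T2 q' (x', L y) (io (L b)) (io (L a)) = T2 q (x, y) (io b) (io a)) ∧
      ∀ a b d e, T4 q' (x', L y) (io (L e)) (io (L d)) (io (L b)) (io (L a)) =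
        T4 q (x, y) (io e) (io d) (io b) (io a) := by
  have hR : ∀ z : ℝ, (ContinuousLinearMap.id ℝ ℝ) z + 0 = z := fun z => by simp
  have tr : ∀ {f g : W → ℝ}, SmO Ω f → SmO Ω' g → (∀ y : V, y ≠ 0 → g (x', L y) = f (x, y)) →
      ∀ y : V, y ≠ 0 → ∀ a : V, fderiv ℝ g (x', L y) (io (L a)) = fderiv ℝ f (x, y) (io a) := by
    intro f g hf hg h y hy a
    have := fib_trV (R := ContinuousLinearMap.id ℝ ℝ) hf hg hx hx' (k := fun _ => (0:ℝ))
      (fun y hy => by rw [h y hy]; simp) y hy (hasFDerivAt_const _ _) a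
    simpa using this
  have h1 : ∀ a : V, ∀ y : V, y ≠ 0 → T1 q' (x', L y) (io (L a)) = T1 q (x, y) (io a) := fun a y hy =>
    tr hq hq' h y hy a
  have h2 : ∀ a b : V, ∀ y : V, y ≠ 0 → T2 q' (x', L y) (io (L b)) (io (L a)) = T2 q (x, y) (io b) (io a) := by
    intro a b y hy
    have := tr (smT1 hq (io a)) (smT1 hq' (io (L a))) (h1 a) y hy b
    rwa [fdT1 hq' (hx' y hy), fdT1 hq (hx y hy)] at this
  have h3 : ∀ a b d : V, ∀ y : V, y ≠ 0 → T3 q' (x', L y) (io (L d)) (io (L b)) (io (L a)) =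
      T3 q (x, y) (io d) (io b) (io a) := by
    intro a b d y hy
    have := tr (smT2 hq (io a) (io b)) (smT2 hq' (io (L a)) (io (L b))) (h2 a b) y hy d
    rwa [fdT2 hq' (hx' y hy), fdT2 hq (hx y hy)] at this
  refine ⟨fun a b => h2 a b y hy, fun a b d e => ?_⟩
  have := tr (smT3 hq (io a) (io b) (io d)) (smT3 hq' (io (L a)) (io (L b)) (io (L d))) (h3 a b d) y hy e
  rwa [fdT3 hq' (hx' y hy), fdT3 hq (hx y hy)] at this

end tr2

end Pool.Agent.U631.TD
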