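import Pool.Agent.U631.TD.E1
set_option autoImplicit false
set_option maxSynthPendingDepth 6
open Topology Filter Set
namespace Pool.Agent.U631.TD
open H506R3.Lau Pool.Agent.R774.BW

/-- the invariants of four vectors at a point of the tangent bundle -/
structure Inv (q : W → ℝ) (G : W → V) (r : W) (a b c d : V) (Q ga gb gc gd h D : ℝ) : Prop where
  eq : q r = Q
  ea : T2 q r (io a) (io a) = ga
  eb : T2 q r (io b) (io b) = gb
  ec : T2 q r (io c) (io c) = gc
  ed : T2 q r (io d) (io d) = gd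
  eh : T2 q r (io (BB G r a b c)) (io d) = h
  eD : T4 q r (io a) (io b) (io c) (io d) = D

/-- the invariants change along a geodesic in one chart only by the growth of the last one -/
lemma Inv.step {Ω : Set W} {q : W → ℝ} {G : W → V} (S : SP Ω q G) (hL : Lan Ω q G)
    (hD : ∀ x' : V, (∀ y : V, y ≠ 0 → ((x', y) : W) ∈ Ω) → Dat (fun z => q (x', z)))
    {ε : ℝ} (hε : 0 ≤ ε) {p : ℝ → W} (hp : Geo Ω G ε p) {u v w z : V} {Q ga gb gc gd h D : ℝ}
    (hI : Inv q G (p 0) u v w z Q ga gb gc gd h D) (hh : h ≠ 0) :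
    ∃ a b c d, Inv q G (p ε) a b c d Q ga gb gc gd h (D - 2 * h * ε) := by
  have hTI : ε ∈ Icc (0:ℝ) ε := ⟨hε, le_rfl⟩
  obtain ⟨a, ha0, ha⟩ := exists_par S hε hp u
  obtain ⟨b, hb0, hb⟩ := exists_par S hε hp v
  obtain ⟨c, hc0, hc⟩ := exists_par S hε hp w
  obtain ⟨d, hd0, hd⟩ := exists_par S hε hp z
  have hne' : T2 q (p 0) (io (BB G (p 0) (a 0) (b 0) (c 0))) (io (d 0)) ≠ 0 := by
    rw [ha0, hb0, hc0, hd0, hI.eh]; exact hh
  have hB := fun t (ht : t ∈ Icc (0:ℝ) ε) => const_B S hL hD hp ha hb hc hd hne' ht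
  have hlin : ∀ t ∈ Icc (0:ℝ) ε, T4 q (p t) (io (a t)) (io (b t)) (io (c t)) (io (d t)) + 2 * h * t =
      T4 q (p 0) (io (a 0)) (io (b 0)) (io (c 0)) (io (d 0)) + 2 * h * 0 := by
    intro t ht
    refine const_on (h := fun t => T4 q (p t) (io (a t)) (io (b t)) (io (c t)) (io (d t)) + 2 * h * t)
      (fun s hs => ?_) ht
    have h1 := par_D S hL hp ha hb hc hd hs
    have h2 : HasDerivWithinAt (fun t : ℝ => 2 * h * t) (2 * h) (Icc 0 ε) s := by
      have := (hasDerivWithinAt_id s (Icc (0:ℝ) ε)).const_mul (2 * h)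
      simpa using this
    refine (h1.add h2).congr_deriv ?_
    rw [hB s hs, ha0, hb0, hc0, hd0, hI.eh]
    ring
  have hT' := hlin ε hTI
  have hg : ∀ {e : ℝ → V}, Par G ε p e → T2 q (p ε) (io (e ε)) (io (e ε)) = T2 q (p 0) (io (e 0)) (io (e 0)) :=
    fun he => const_on (h := fun t => T2 q (p t) (io _) (io _))
      (fun s hs => par_g S hL hp hs (he s hs) (he s hs)) hTI
  refine ⟨a ε, b ε, c ε, d ε, ?_, ?_, ?_, ?_, ?_, ?_, ?_⟩
  · rw [geo_q S hε hp hTI, hI.eq]
  · rw [hg ha, ha0, hI.ea]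
  · rw [hg hb, hb0, hI.eb]
  · rw [hg hc, hc0, hI.ec]
  · rw [hg hd, hd0, hI.ed]
  · rw [hB ε hTI, ha0, hb0, hc0, hd0, hI.eh]
  · rw [ha0, hb0, hc0, hd0, hI.eD] at hT'
    linarith

/-- the invariants are preserved by isometries -/
lemma Inv.tr {N U' : Set V} {q q' : W → ℝ} {G G' : W → V} {φ : V → V} (h : LI N U' q q' φ)
    (S : SP (Om N) q G) (S' : SP (Om U') q' G') {k y : V} (hk : k ∈ N) (hy : y ≠ 0)
    {a b c d : V} {Q ga gb gc gd h0 D : ℝ} (hI : Inv q G (k, y) a b c d Q ga gb gc gd h0 D) :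
    Inv q' G' (φ k, fderiv ℝ φ k y) (fderiv ℝ φ k a) (fderiv ℝ φ k b) (fderiv ℝ φ k c) (fderiv ℝ φ k d)
      Q ga gb gc gd h0 D := by
  have hx' : ∀ z : V, z ≠ 0 → ((φ k, fderiv ℝ φ k z) : W) ∈ Om U' := fun z hz => ⟨h.maps k hk, h.ne k hk z hz⟩
  obtain ⟨h2, h4⟩ := tr24' (L := fderiv ℝ φ k) (x' := φ k) S.sq S'.sq (Om_fib hk) hx' (fun z hz => h.iso k hk z hz) hy
  have hB := B_tr (L := fderiv ℝ φ k) (x' := φ k) (Qd := fderiv ℝ (fderiv ℝ φ) k) S.smG S'.smG (Om_fib hk) hx'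
    (fun z hz => h.nat S S' (r := (k, z)) ⟨hk, hz⟩) hy c b a
  refine ⟨?_, ?_, ?_, ?_, ?_, ?_, ?_⟩
  · rw [← hI.eq]; exact h.iso k hk y hy
  · rw [h2, hI.ea]
  · rw [h2, hI.eb]
  · rw [h2, hI.ec]
  · rw [h2, hI.ed]
  · rw [hB, h2, hI.eh]
  · rw [h4, hI.eD]

section manifold
variable {M : Type*} [TopologicalSpace M] [ChartedSpace V M]

/-- coordinate expressions of a Landsberg metric on a three-dimensional manifold -/
structure FMan (F : OpenPartialHomeomorph M V → V → V → ℝ) (G : OpenPartialHomeomorph M V → V → V → V) : Prop where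
  fins : ∀ e ∈ atlas V M, IsFinsler e.target (F e)
  spray : ∀ e ∈ atlas V M, IsSpray e.target (F e) (G e)
  compat : ∀ e ∈ atlas V M, ∀ e' ∈ atlas V M, ∀ x ∈ (e.symm.trans e').source,
    ContDiffAt ℝ ((⊤ : ℕ∞) : WithTop ℕ∞) (e' ∘ e.symm) x ∧
      ∀ y, F e' (e' (e.symm x)) (fderiv ℝ (e' ∘ e.symm) x y) = F e x y
  lands : ∀ e ∈ atlas V M, ∀ x ∈ e.target, ∀ y : V, y ≠ 0 → ∀ j k l, landsberg (F e) (G e) x y j k l = 0

variable {F : OpenPartialHomeomorph M V → V → V → ℝ} {G : OpenPartialHomeomorph M V → V → V → V}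

lemma FMan.sp (H : FMan F G) {e : OpenPartialHomeomorph M V} (he : e ∈ atlas V M) :
    SP (Om e.target) (qF (F e)) (GW (G e)) := sp_of_finsler (H.fins e he) (H.spray e he)

lemma FMan.lan (H : FMan F G) {e : OpenPartialHomeomorph M V} (he : e ∈ atlas V M) :
    Lan (Om e.target) (qF (F e)) (GW (G e)) := lands_eq (H.fins e he) (H.spray e he) (H.lands e he)

lemma ee_ne : (ee 0 : V) ≠ 0 := by
  intro h
  have := congrFun h 0
  simp [ee] at this

lemma FMan.dat (H : FMan F G) {e : OpenPartialHomeomorph M V} (he : e ∈ atlas V M) :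
    ∀ x' : V, (∀ y : V, y ≠ 0 → ((x', y) : W) ∈ Om e.target) → Dat (fun z => qF (F e) (x', z)) := fun _ hx' =>
  dat_of_finsler (H.fins e he) (hx' (ee 0) ee_ne).1

lemma FMan.li (H : FMan F G) {e e' : OpenPartialHomeomorph M V} (he : e ∈ atlas V M) (he' : e' ∈ atlas V M) :
    LI (e.symm.trans e').source e'.target (qF (F e)) (qF (F e')) (e' ∘ e.symm) := by
  refine ⟨fun x hx => (H.compat e he e' he' x hx).1, fun x hx => ?_, fun x hx y hy h0 => ?_, fun x hx y hy => ?_⟩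
  · exact e'.map_source hx.2
  · have h1 := (H.compat e he e' he' x hx).2 y
    rw [h0] at h1
    have hx' : e' (e.symm x) ∈ e'.target := e'.map_source hx.2
    have h2 := (H.fins e' he').hom _ hx' 0 2 two_pos
    rw [smul_zero] at h2
    have h3 := (H.fins e he).pos x hx.1 y hy
    linarith
  · show F e' (e' (e.symm x)) (fderiv ℝ (e' ∘ e.symm) x y) ^ 2 / 2 = F e x y ^ 2 / 2
    rw [(H.compat e he e' he' x hx).2 y]

/-- **closed three-dimensional Landsberg manifolds** (coordinate version) -/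
theorem FMan.main [CompactSpace M] (H : FMan F G) {e : OpenPartialHomeomorph M V} (he : e ∈ atlas V M)
    {x : V} (hx : x ∈ e.target) {y : V} (hy : y ≠ 0) (i j k l : Fin 3) : berwald (G e) x y i j k l = 0 := by
  -- charts and compact sets
  have hK : ∀ m : M, ∃ K : Set V, IsCompact K ∧ K ⊆ (chartAt V m).target ∧ K ∈ 𝓝 (chartAt V m m) := by
    intro m
    have h1 : (chartAt V m).target ∈ 𝓝 (chartAt V m m) :=
      (chartAt V m).open_target.mem_nhds ((chartAt V m).map_source (mem_chart_source V m))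
    obtain ⟨K, hK1, hK2, hK3⟩ := local_compact_nhds h1
    exact ⟨K, hK3, hK2, hK1⟩
  choose K hKc hKt hKn using hK
  obtain ⟨t, ht⟩ := CompactSpace.elim_nhds_subcover
    (fun m : M => (chartAt V m).source ∩ (chartAt V m) ⁻¹' (K m)) (fun m =>
      inter_mem ((chartAt V m).open_source.mem_nhds (mem_chart_source V m))
        (((chartAt V m).continuousAt (mem_chart_source V m)).preimage_mem_nhds (hKn m)))
  have hch : ∀ m : M, chartAt V m ∈ atlas V M := fun m => chart_mem_atlas V m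
  -- transition to a compact piece
  have TR : ∀ {e : OpenPartialHomeomorph M V} (he : e ∈ atlas V M) {x y a b c d : V} {Q ga gb gc gd h D : ℝ},
      x ∈ e.target → y ≠ 0 → Inv (qF (F e)) (GW (G e)) (x, y) a b c d Q ga gb gc gd h D →
      ∃ m ∈ t, ∃ k ∈ K m, ∃ y' : V, y' ≠ 0 ∧ ∃ a' b' c' d',
        Inv (qF (F (chartAt V m))) (GW (G (chartAt V m))) (k, y') a' b' c' d' Q ga gb gc gd h D := by
    intro e he x y a b c d Q ga gb gc gd h D hx hy hI
    have h1 : e.symm x ∈ ⋃ m ∈ t, (chartAt V m).source ∩ (chartAt V m) ⁻¹' (K m) := by rw [ht]; trivial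
    simp only [mem_iUnion] at h1
    obtain ⟨m, hm, hs, hk⟩ := h1
    have hxN : x ∈ (e.symm.trans (chartAt V m)).source := ⟨hx, hs⟩
    have hli := H.li he (hch m)
    have S := (H.sp he).restrict (e.symm.trans (chartAt V m)).open_source (fun z hz => hz.1)
    exact ⟨m, hm, _, hk, _, hli.ne x hxN y hy, _, _, _, _, hI.tr hli S (H.sp (hch m)) hxN hy⟩
  have S := H.sp he
  have hp0 : ((x, y) : W) ∈ Om e.target := ⟨hx, hy⟩
  rw [berwald_eq (H.fins e he) (H.spray e he) hx hy]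
  suffices hBB : ∀ u v w : V, BB (GW (G e)) (x, y) u v w = 0 from congrFun (hBB (ee j) (ee k) (ee l)) i
  intro u v w
  by_contra hne
  set z := BB (GW (G e)) (x, y) u v w with hz
  set q := qF (F e) with hq
  set Q := q (x, y) with hQ
  have hQ0 : 0 < Q := by
    have := (H.fins e he).pos x hx y hy
    simp only [hQ, hq, qF]
    positivity
  set h0 := T2 q (x, y) (io z) (io z) with hh0
  have hh : 0 < h0 := S.pos _ hp0 _ hne
  have hI0 : Inv q (GW (G e)) (x, y) u v w z Q (T2 q (x, y) (io u) (io u)) (T2 q (x, y) (io v) (io v))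
      (T2 q (x, y) (io w) (io w)) (T2 q (x, y) (io z) (io z)) h0 (T4 q (x, y) (io u) (io v) (io w) (io z)) :=
    ⟨rfl, rfl, rfl, rfl, rfl, rfl, rfl⟩
  set ga := T2 q (x, y) (io u) (io u)
  set gb := T2 q (x, y) (io v) (io v)
  set gc := T2 q (x, y) (io w) (io w)
  set gd := T2 q (x, y) (io z) (io z)
  set D := T4 q (x, y) (io u) (io v) (io w) (io z)
  -- uniform constants
  have hunif : ∃ ε > (0:ℝ), ∃ B : ℝ, ∀ m ∈ t, ∀ k ∈ K m, ∀ y : V, y ≠ 0 →
      Bd (qF (F (chartAt V m))) B (k, y) ∧ (qF (F (chartAt V m)) (k, y) = Q →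
        ∃ p : ℝ → W, p 0 = (k, y) ∧ Geo (Om (chartAt V m).target) (GW (G (chartAt V m))) ε p) := by
    have hone : ∀ m : M, ∃ ε > (0:ℝ), ∃ B : ℝ, ∀ k ∈ K m, ∀ y : V, y ≠ 0 →
      Bd (qF (F (chartAt V m))) B (k, y) ∧ (qF (F (chartAt V m)) (k, y) = Q →
        ∃ p : ℝ → W, p 0 = (k, y) ∧ Geo (Om (chartAt V m).target) (GW (G (chartAt V m))) ε p) := by
      intro m
      have Sm := H.sp (hch m)
      obtain ⟨B, hB⟩ := bd_compact Sm (hKc m) (hKt m)
      have hpos : ∀ r ∈ Om (chartAt V m).target, 0 < qF (F (chartAt V m)) r := by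
        intro r hr
        have := (H.fins _ (hch m)).pos r.1 hr.1 r.2 hr.2
        simp only [qF]
        positivity
      obtain ⟨K', hK', hK'U, hK'q⟩ := level_compact Sm hpos (hKc m) (hKt m) hQ0
      obtain ⟨ε, hε, hex⟩ := unif_exist Sm hK' hK'U
      exact ⟨ε, hε, B, fun k hk y hy => ⟨hB k hk y hy, fun hkq => hex _ (hK'q k hk y hy hkq)⟩⟩
    choose ε hε B hB using hone
    rcases t.eq_empty_or_nonempty with rfl | hne
    · exact ⟨1, one_pos, 0, fun m hm => by simp at hm⟩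
    · refine ⟨t.inf' hne ε, (Finset.lt_inf'_iff hne).2 fun m _ => hε m, t.sup' hne B, fun m hm k hk y hy => ⟨?_, ?_⟩⟩
      · intro a b c d
        refine (((hB m k hk y hy).1) a b c d).trans ?_
        have hn : ∀ a : V, 0 ≤ T2 (qF (F (chartAt V m))) (k, y) (io a) (io a) := by
          intro a
          by_cases ha : a = 0
          · subst ha; simp
          · exact ((H.sp (hch m)).pos (k, y) ⟨hKt m hk, hy⟩ a ha).le
        refine mul_le_mul_of_nonneg_right (Finset.le_sup' B hm) ?_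
        exact mul_nonneg (mul_nonneg (mul_nonneg (hn a) (hn b)) (hn c)) (hn d)
      · intro hkq
        obtain ⟨p, hp0, hp⟩ := (hB m k hk y hy).2 hkq
        exact ⟨p, hp0, hp.mono (Finset.inf'_le ε hm)⟩
  obtain ⟨ε, hε, B, hB⟩ := hunif
  -- the chain
  have chain : ∀ n : ℕ, ∃ m ∈ t, ∃ k ∈ K m, ∃ y' : V, y' ≠ 0 ∧ ∃ a' b' c' d',
      Inv (qF (F (chartAt V m))) (GW (G (chartAt V m))) (k, y') a' b' c' d' Q ga gb gc gd h0 (D - 2 * h0 * ε * n) := by
    intro n
    induction n with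
    | zero =>
      have := TR he hx hy hI0
      simpa using this
    | succ n ih =>
      obtain ⟨m, hm, k, hk, y', hy', a, b, c, d, hI⟩ := ih
      obtain ⟨p, hp0, hp⟩ := (hB m hm k hk y' hy').2 hI.eq
      rw [← hp0] at hI
      obtain ⟨a', b', c', d', hI'⟩ := hI.step (H.sp (hch m)) (H.lan (hch m)) (H.dat (hch m)) hε.le hp hh.ne'
      have hend := (hp ε ⟨hε.le, le_rfl⟩).1
      have h1 := TR (hch m) (x := (p ε).1) (y := (p ε).2) hend.1 hend.2 hI'
      have e1 : D - 2 * h0 * ε * n - 2 * h0 * ε = D - 2 * h0 * ε * ((n + 1 : ℕ) : ℝ) := by push_cast; ring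
      rw [e1] at h1
      exact h1
  set P := B * (ga * gb * gc * gd) with hP
  have hbound : ∀ n : ℕ, (Q * (D - 2 * h0 * ε * n)) ^ 2 ≤ P := by
    intro n
    obtain ⟨m, hm, k, hk, y', hy', a, b, c, d, hI⟩ := chain n
    have := (hB m hm k hk y' hy').1 a b c d
    rw [hI.eq, hI.ea, hI.eb, hI.ec, hI.ed, hI.eD] at this
    exact this
  -- contradiction
  have hP0 : 0 ≤ P := (sq_nonneg _).trans (hbound 0)
  obtain ⟨n, hn⟩ := exists_nat_gt ((P + 1 + Q * |D|) / (Q * (2 * h0 * ε)))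
  have hpos : 0 < Q * (2 * h0 * ε) := by positivity
  rw [div_lt_iff₀ hpos] at hn
  have h1 := hbound n
  have h2 : Q * D ≤ Q * |D| := mul_le_mul_of_nonneg_left (le_abs_self D) hQ0.le
  have h3 : P + 1 ≤ -(Q * (D - 2 * h0 * ε * n)) := by nlinarith
  have h4 : (P + 1) ^ 2 ≤ (Q * (D - 2 * h0 * ε * n)) ^ 2 := by
    rw [← neg_sq (Q * (D - 2 * h0 * ε * n))]
    exact pow_le_pow_left₀ (by linarith) h3 2
  nlinarith

end manifold

end Pool.Agent.U631.TD
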