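import Pool.Agent.U631.TD.E2
set_option autoImplicit false
set_option maxSynthPendingDepth 6
open Topology Filter Set
open scoped Manifold ContDiff
namespace Pool.Agent.U631.TD
open H506R3.Lau Pool.Agent.R774.BW

/-! ### metrics on manifolds -/

section defs
variable {n : ℕ} {M : Type*} [TopologicalSpace M] [ChartedSpace (Fin n → ℝ) M]

/-- The expression of a function `F` on the tangent bundle of `M` in the chart `e`:
`(x, y) ↦ F (d(e⁻¹)_x y)`, where `d(e⁻¹)_x y` is a tangent vector of `M` at the point `e⁻¹ x`. -/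
noncomputable def localExpr (F : TangentBundle 𝓘(ℝ, Fin n → ℝ) M → ℝ)
    (e : OpenPartialHomeomorph M (Fin n → ℝ)) (x y : Fin n → ℝ) : ℝ :=
  F (tangentMap 𝓘(ℝ, Fin n → ℝ) 𝓘(ℝ, Fin n → ℝ) e.symm ⟨x, y⟩)

/-- `F` is a smooth Finsler metric on the manifold `M`: its expression in every chart of the atlas is
smooth for `y ≠ 0`, positive, positively homogeneous of degree one and strongly convex. -/
def IsFinslerMetric (F : TangentBundle 𝓘(ℝ, Fin n → ℝ) M → ℝ) : Prop :=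
  ∀ e ∈ atlas (Fin n → ℝ) M, IsFinsler e.target (localExpr F e)

/-- The Landsberg curvature of `F` vanishes: it vanishes in every chart of the atlas. -/
def LandsbergVanishes (F : TangentBundle 𝓘(ℝ, Fin n → ℝ) M → ℝ) : Prop :=
  ∀ e ∈ atlas (Fin n → ℝ) M, ∀ G : (Fin n → ℝ) → (Fin n → ℝ) → (Fin n → ℝ),
    IsSpray e.target (localExpr F e) G →
    ∀ x ∈ e.target, ∀ y : Fin n → ℝ, y ≠ 0 → ∀ j k l : Fin n, landsberg (localExpr F e) G x y j k l = 0

/-- The Berwald curvature of `F` vanishes: it vanishes in every chart of the atlas. -/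
def BerwaldVanishes (F : TangentBundle 𝓘(ℝ, Fin n → ℝ) M → ℝ) : Prop :=
  ∀ e ∈ atlas (Fin n → ℝ) M, ∀ G : (Fin n → ℝ) → (Fin n → ℝ) → (Fin n → ℝ),
    IsSpray e.target (localExpr F e) G →
    ∀ x ∈ e.target, ∀ y : Fin n → ℝ, y ≠ 0 → ∀ i j k l : Fin n, berwald G x y i j k l = 0

end defs

/-- spray coefficients exist -/
theorem exists_spray {n : ℕ} {U : Set (Fin n → ℝ)} {F : (Fin n → ℝ) → (Fin n → ℝ) → ℝ}
    (hF : IsFinsler U F) : ∃ G : (Fin n → ℝ) → (Fin n → ℝ) → (Fin n → ℝ), IsSpray U F G := by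
  set rhs : (Fin n → ℝ) → (Fin n → ℝ) → (Fin n → ℝ) := fun x y l =>
    (1 / 4 : ℝ) * ((∑ k : Fin n,
          fderiv ℝ (fun z => fderiv ℝ (fun u => F z u ^ 2) y
            (Pi.single l (1 : ℝ) : Fin n → ℝ)) x (Pi.single k (1 : ℝ) : Fin n → ℝ) * y k)
        - fderiv ℝ (fun z => F z y ^ 2) x (Pi.single l (1 : ℝ) : Fin n → ℝ)) with hr
  refine ⟨fun x y => Matrix.mulVec (gmat F x y)⁻¹ (rhs x y), fun x hx y hy l => ?_⟩
  have h1 : gmat F x y = (1 / 2 : ℝ) • A (fun u => F x u ^ 2) y := by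
    ext i j; rfl
  have hd : (gmat F x y).det ≠ 0 := by
    rw [h1, Matrix.det_smul]
    exact mul_ne_zero (pow_ne_zero _ (by norm_num)) (A_det_pos (hF.mn hx) hy).ne'
  have h2 : Matrix.mulVec (gmat F x y) (Matrix.mulVec (gmat F x y)⁻¹ (rhs x y)) = rhs x y := by
    rw [Matrix.mulVec_mulVec, Matrix.mul_nonsing_inv _ (isUnit_iff_ne_zero.2 hd), Matrix.one_mulVec]
  exact congrFun h2 l

section compat
variable {M : Type*} [TopologicalSpace M] [ChartedSpace V M]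

lemma compat_aux [IsManifold 𝓘(ℝ, V) ∞ M] (F : TangentBundle 𝓘(ℝ, V) M → ℝ)
    {e e' : OpenPartialHomeomorph M V} (he : e ∈ atlas V M) (he' : e' ∈ atlas V M) {x : V}
    (hx : x ∈ (e.symm.trans e').source) :
    ContDiffAt ℝ ((⊤ : ℕ∞) : WithTop ℕ∞) (e' ∘ e.symm) x ∧
      ∀ y : V, F (tangentMap 𝓘(ℝ, V) 𝓘(ℝ, V) e'.symm ⟨e' (e.symm x), fderiv ℝ (e' ∘ e.symm) x y⟩) =
        F (tangentMap 𝓘(ℝ, V) 𝓘(ℝ, V) e.symm ⟨x, y⟩) := by
  have hg : e.symm.trans e' ∈ contDiffGroupoid ∞ 𝓘(ℝ, V) := HasGroupoid.compatible he he'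
  have h1 : ContDiffOn ℝ ∞ (e' ∘ e.symm) (e.symm.trans e').source := by
    have := (mem_groupoid_of_pregroupoid.1 hg).1
    simpa [contDiffPregroupoid] using this
  have h2 : ContDiffAt ℝ ∞ (e' ∘ e.symm) x := h1.contDiffAt ((e.symm.trans e').open_source.mem_nhds hx)
  refine ⟨h2, fun y => ?_⟩
  have : IsManifold 𝓘(ℝ, V) 1 M := IsManifold.of_le (n := ∞) (by simp)
  have h3 : MDifferentiableAt 𝓘(ℝ, V) 𝓘(ℝ, V) (e' ∘ e.symm) x :=
    (h2.differentiableAt (by simp)).mdifferentiableAt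
  have h4 : MDifferentiableAt 𝓘(ℝ, V) 𝓘(ℝ, V) e'.symm (e' (e.symm x)) :=
    mdifferentiableAt_atlas_symm he' (e'.map_source hx.2)
  have h5 : (e'.symm ∘ (e' ∘ e.symm)) =ᶠ[𝓝 x] e.symm := by
    filter_upwards [(e.symm.trans e').open_source.mem_nhds hx] with z hz
    exact e'.left_inv hz.2
  have h6 : tangentMap 𝓘(ℝ, V) 𝓘(ℝ, V) (e'.symm ∘ (e' ∘ e.symm)) (⟨x, y⟩ : TangentBundle 𝓘(ℝ, V) V) =
      tangentMap 𝓘(ℝ, V) 𝓘(ℝ, V) e.symm ⟨x, y⟩ :=
    congrArg₂ (fun (a : M) (v : V) => (⟨a, v⟩ : TangentBundle 𝓘(ℝ, V) M)) h5.eq_of_nhds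
      (congrFun (congrArg (fun L : V →L[ℝ] V => (L : V → V)) h5.mfderiv_eq) y)
  have h7 : tangentMap 𝓘(ℝ, V) 𝓘(ℝ, V) (e' ∘ e.symm) (⟨x, y⟩ : TangentBundle 𝓘(ℝ, V) V) =
      ⟨e' (e.symm x), fderiv ℝ (e' ∘ e.symm) x y⟩ := by
    simp only [tangentMap, mfderiv_eq_fderiv]
    rfl
  rw [← h6, tangentMap_comp_at (⟨x, y⟩ : TangentBundle 𝓘(ℝ, V) V) (g := e'.symm) (f := e' ∘ e.symm) h4 h3, h7]

/-- **closed three-dimensional Landsberg manifolds are Berwald manifolds** -/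
theorem mainManifold [CompactSpace M] [IsManifold 𝓘(ℝ, V) ∞ M] {F : TangentBundle 𝓘(ℝ, V) M → ℝ}
    (hF : IsFinslerMetric F) (hL : LandsbergVanishes F) : BerwaldVanishes F := by
  classical
  have hex : ∀ e : OpenPartialHomeomorph M V, ∃ G : V → V → V, e ∈ atlas V M → IsSpray e.target (localExpr F e) G := by
    intro e
    by_cases he : e ∈ atlas V M
    · obtain ⟨G, hG⟩ := exists_spray (hF e he)
      exact ⟨G, fun _ => hG⟩
    · exact ⟨0, fun h => absurd h he⟩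
  choose G0 hG0 using hex
  intro e he G hG x hx y hy i j k l
  -- use the given spray coefficients in the chart `e`
  let G1 : OpenPartialHomeomorph M V → V → V → V := fun e' => if e' = e then G else G0 e'
  have hG1 : ∀ e' ∈ atlas V M, IsSpray e'.target (localExpr F e') (G1 e') := by
    intro e' he'
    by_cases h : e' = e
    · subst h; simpa [G1] using hG
    · simpa [G1, h] using hG0 e' he'
  have H : FMan (localExpr F) G1 := by
    refine ⟨hF, hG1, fun e he e' he' x hx => compat_aux F he he' hx, fun e he => hL e he _ (hG1 e he)⟩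
  have := H.main he hx hy i j k l
  simpa [G1] using this

end compat

end Pool.Agent.U631.TD
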