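import Pool.Agent.H506R3.Lau.L7
set_option autoImplicit false
set_option maxSynthPendingDepth 6
open Topology Filter
namespace Pool.Agent.U631.TD
open H506R3.Lau

variable {E : V → ℝ} {x : V} {e1 e2 : V → V}

/-- a local `g`-orthonormal frame of the orthogonal complement of the radial direction -/
structure OF (E : V → ℝ) (x : V) (e1 e2 : V → V) : Prop where
  hx : x ≠ 0
  s1 : ContDiffAt ℝ 2 e1 x
  s2 : ContDiffAt ℝ 2 e2 x
  ad : ∀ᶠ y in 𝓝 x, Orth E y (e1 y) (e2 y)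

lemma OF.ev {x : V} {e1 e2 : V → V} (h : OF E x e1 e2) : ∀ᶠ y in 𝓝 x, OF E y e1 e2 := by
  filter_upwards [ne_ev h.hx, h.s1.eventually (by simp), h.s2.eventually (by simp),
    eventually_eventually_nhds.2 h.ad] with y a c d e
  exact ⟨a, c, d, e⟩

lemma OF.d1 (h : OF E x e1 e2) : HasFDerivAt e1 (fderiv ℝ e1 x) x :=
  (h.s1.differentiableAt (by simp)).hasFDerivAt
lemma OF.d2 (h : OF E x e1 e2) : HasFDerivAt e2 (fderiv ℝ e2 x) x :=
  (h.s2.differentiableAt (by simp)).hasFDerivAt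
lemma OF.at (h : OF E x e1 e2) : Orth E x (e1 x) (e2 x) := h.ad.self_of_nhds

lemma OF.A (D : Dat E) (h : OF E x e1 e2) (v : V) :
    g E x (fderiv ℝ e1 x v) (e1 x) = -(1/2) * C E x v (e1 x) (e1 x) := by
  obtain ⟨L, h1, h2⟩ := hg2 D h.hx h.d1 h.d1
  have h3 := evconst h1 (c := 1) (h.ad.mono fun y hy => hy.n11)
  have h4 := h2 v
  rw [h3, g_symm D h.hx (e1 x)] at h4
  simp at h4; linarith

lemma OF.B (D : Dat E) (h : OF E x e1 e2) (v : V) :
    g E x (fderiv ℝ e2 x v) (e2 x) = -(1/2) * C E x v (e2 x) (e2 x) := by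
  obtain ⟨L, h1, h2⟩ := hg2 D h.hx h.d2 h.d2
  have h3 := evconst h1 (c := 1) (h.ad.mono fun y hy => hy.n22)
  have h4 := h2 v
  rw [h3, g_symm D h.hx (e2 x)] at h4
  simp at h4; linarith

lemma OF.c (D : Dat E) (h : OF E x e1 e2) (v : V) :
    g E x (fderiv ℝ e2 x v) (e1 x) = - C E x v (e1 x) (e2 x) - g E x (fderiv ℝ e1 x v) (e2 x) := by
  obtain ⟨L, h1, h2⟩ := hg2 D h.hx h.d1 h.d2
  have h3 := evconst h1 (c := 0) (h.ad.mono fun y hy => hy.n12)
  have h4 := h2 v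
  rw [h3, g_symm D h.hx (e1 x) (fderiv ℝ e2 x v)] at h4
  simp at h4; linarith

lemma OF.r1' (D : Dat E) (h : OF E x e1 e2) (v : V) :
    g E x (fderiv ℝ e1 x v) x = - g E x v (e1 x) := by
  obtain ⟨L, h1, h2⟩ := hg2 D h.hx (hasFDerivAt_id x) h.d1
  have h3 := evconst h1 (c := 0) (h.ad.mono fun y hy => hy.r1)
  have h4 := h2 v
  simp only [id] at h4
  rw [h3, g_sub_x2 D h.hx, g_symm D h.hx x] at h4
  simp at h4; linarith

lemma OF.r2' (D : Dat E) (h : OF E x e1 e2) (v : V) :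
    g E x (fderiv ℝ e2 x v) x = - g E x v (e2 x) := by
  obtain ⟨L, h1, h2⟩ := hg2 D h.hx (hasFDerivAt_id x) h.d2
  have h3 := evconst h1 (c := 0) (h.ad.mono fun y hy => hy.r2)
  have h4 := h2 v
  simp only [id] at h4
  rw [h3, g_sub_x2 D h.hx, g_symm D h.hx x] at h4
  simp at h4; linarith

/-- the connection form of the frame -/
noncomputable def OM (E : V → ℝ) (e1 e2 : V → V) (y : V) : V →L[ℝ] ℝ :=
  ((g E y).flip (e2 y)).comp (fderiv ℝ e1 y) + (1/2 : ℝ) • ((C E y).flip (e1 y)).flip (e2 y)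

lemma OM_apply (y v : V) : OM E e1 e2 y v =
    g E y (fderiv ℝ e1 y v) (e2 y) + (1/2) * C E y v (e1 y) (e2 y) := by
  simp [OM]

lemma OF.D1 (D : Dat E) (h : OF E x e1 e2) (v : V) :
    fderiv ℝ e1 x v = (-(1/2) * C E x v (e1 x) (e1 x)) • e1 x
      + (OM E e1 e2 x v - (1/2) * C E x v (e1 x) (e2 x)) • e2 x + (- g E x v (e1 x) / g E x x x) • x := by
  have h1 := h.at.exp D h.hx (fderiv ℝ e1 x v)
  rw [h.A D, h.r1' D] at h1
  have h2 : g E x (fderiv ℝ e1 x v) (e2 x) = OM E e1 e2 x v - (1/2) * C E x v (e1 x) (e2 x) := by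
    rw [OM_apply]; ring
  rw [h2] at h1
  exact h1

lemma OF.D2 (D : Dat E) (h : OF E x e1 e2) (v : V) :
    fderiv ℝ e2 x v = (-(OM E e1 e2 x v) - (1/2) * C E x v (e1 x) (e2 x)) • e1 x
      + (-(1/2) * C E x v (e2 x) (e2 x)) • e2 x + (- g E x v (e2 x) / g E x x x) • x := by
  have h1 := h.at.exp D h.hx (fderiv ℝ e2 x v)
  rw [h.B D, h.r2' D, h.c D] at h1
  have h2 : - C E x v (e1 x) (e2 x) - g E x (fderiv ℝ e1 x v) (e2 x)
      = -(OM E e1 e2 x v) - (1/2) * C E x v (e1 x) (e2 x) := by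
    rw [OM_apply]; ring
  rw [h2] at h1
  exact h1

/-- divergence of the field dual to a one-form -/
lemma OF.DIV (D : Dat E) (h : OF E x e1 e2) {α : V → V →L[ℝ] ℝ} {α' : V →L[ℝ] V →L[ℝ] ℝ}
    (hα : HasFDerivAt α α' x) :
    ∃ T : V →L[ℝ] V, HasFDerivAt (fun y => α y (e2 y) • e1 y - α y (e1 y) • e2 y) T x ∧
      ∑ i, (T (ee i)) i + (1/2) * (C E x (α x (e2 x) • e1 x - α x (e1 x) • e2 x) (e1 x) (e1 x)
        + C E x (α x (e2 x) • e1 x - α x (e1 x) • e2 x) (e2 x) (e2 x))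
      = α' (e1 x) (e2 x) - α' (e2 x) (e1 x) := by
  have hr := r2pos D h.hx
  refine ⟨_, ((hα.clm_apply h.d2).smul h.d1).sub ((hα.clm_apply h.d1).smul h.d2), ?_⟩
  rw [h.at.tr D h.hx]
  have h21 : g E x (e2 x) (e1 x) = 0 := by rw [g_symm D h.hx]; exact h.at.n12
  have s12 : g E x (e1 x) (e2 x) = 0 := h.at.n12
  have s11 : g E x (e1 x) (e1 x) = 1 := h.at.n11
  have s22 : g E x (e2 x) (e2 x) = 1 := h.at.n22
  have sx1 : g E x (e1 x) x = 0 := by rw [g_symm D h.hx]; exact h.at.r1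
  have sx2 : g E x (e2 x) x = 0 := by rw [g_symm D h.hx]; exact h.at.r2
  have rx1 : g E x x (e1 x) = 0 := h.at.r1
  have rx2 : g E x x (e2 x) = 0 := h.at.r2
  have hD1 := h.D1 D
  have hD2 := h.D2 D
  have c121 : C E x (e1 x) (e2 x) (e1 x) = C E x (e1 x) (e1 x) (e2 x) := C_s23 D h.hx _ _ _
  have c211 : C E x (e2 x) (e1 x) (e1 x) = C E x (e1 x) (e1 x) (e2 x) := by
    rw [C_s12 D h.hx, c121]
  have c212 : C E x (e2 x) (e1 x) (e2 x) = C E x (e1 x) (e2 x) (e2 x) := C_s12 D h.hx _ _ _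
  have cx1 : C E x x = 0 := C_x D h.hx
  simp only [hD1, hD2, map_add, map_smul, map_sub, add_apply, smul_apply, sub_apply, smul_eq_mul,
    ContinuousLinearMap.smulRight_apply, ContinuousLinearMap.coe_comp', Function.comp_apply,
    ContinuousLinearMap.flip_apply, s12, s11, s22, h21, sx1, sx2, rx1, rx2, c121, c211, c212, cx1]
  field_simp
  ring

end Pool.Agent.U631.TD
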