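import Pool.Agent.U631.TD.F7
set_option autoImplicit false
set_option maxSynthPendingDepth 6
open Topology Filter
namespace Pool.Agent.U631.TD
open H506R3.Lau

variable {E : V → ℝ} {x : V} {e1 e2 : V → V} {K K' : V → V}

lemma rho_rot (D : Dat E) (hx : x ≠ 0) (a b : V) (s t : ℝ) (hst : s ^ 2 + t ^ 2 = 1) :
    rho E x (s • a + t • b) (-t • a + s • b) = rho E x a b := by
  have h1 : rho E x (s • a + t • b) (-t • a + s • b) = (s^2+t^2)^3 * rho E x a b := by
    simp only [rho, C_exp3 D hx]; ring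
  rw [h1, hst]; ring

lemma rho_neg (x a b : V) : rho E x a (-b) = rho E x a b := by
  simp only [rho, map_neg, neg_apply]; ring

lemma rho_uniq (D : Dat E) (hx : x ≠ 0) {a b a' b' : V} (h : Orth E x a b) (h' : Orth E x a' b') :
    rho E x a' b' = rho E x a b := by
  obtain ⟨s, t, hf1⟩ : ∃ s t : ℝ, a' = s • a + t • b := by
    refine ⟨g E x a' a, g E x a' b, ?_⟩
    have := h.exp D hx a'
    have h0 : g E x a' x = 0 := by rw [g_symm D hx]; exact h'.r1
    rw [h0] at this; simpa using this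
  obtain ⟨c, d, hf2⟩ : ∃ s t : ℝ, b' = s • a + t • b := by
    refine ⟨g E x b' a, g E x b' b, ?_⟩
    have := h.exp D hx b'
    have h0 : g E x b' x = 0 := by rw [g_symm D hx]; exact h'.r2
    rw [h0] at this; simpa using this
  have h21 : g E x b a = 0 := by rw [g_symm D hx]; exact h.n12
  have q1 : s^2 + t^2 = 1 := by
    have := h'.n11
    rw [hf1] at this; simp [h.n11, h.n22, h.n12, h21] at this; linarith
  have q2 : c^2 + d^2 = 1 := by
    have := h'.n22
    rw [hf2] at this; simp [h.n11, h.n22, h.n12, h21] at this; linarith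
  have q3 : s*c + t*d = 0 := by
    have := h'.n12
    rw [hf1, hf2] at this; simp [h.n11, h.n22, h.n12, h21] at this; linarith
  have hdet : (s * d - t * c)^2 = 1 := by
    have : (s * d - t * c)^2 = (s^2 + t^2) * (c^2 + d^2) - (s*c + t*d)^2 := by ring
    rw [this, q1, q2, q3]; norm_num
  rcases sq_eq_one_iff_of_ne_zero' _ hdet with hp | hm
  · have hc : c = -t := by
      have : c = c * (s^2 + t^2) := by rw [q1, mul_one]
      linear_combination this + s * q3 - t * hp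
    have hd : d = s := by
      have : d = d * (s^2 + t^2) := by rw [q1, mul_one]
      linear_combination this + t * q3 + s * hp
    rw [hf1, hf2, hc, hd]
    exact rho_rot D hx a b s t q1
  · have hc : c = t := by
      have : c = c * (s^2 + t^2) := by rw [q1, mul_one]
      linear_combination this + s * q3 - t * hm
    have hd : d = -s := by
      have : d = d * (s^2 + t^2) := by rw [q1, mul_one]
      linear_combination this + t * q3 + s * hm
    have hb' : b' = -(-t • a + s • b) := by rw [hf2, hc, hd]; module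
    rw [hb', rho_neg, hf1]
    exact rho_rot D hx a b s t q1

/-- curvature of the indicatrix, in a frame -/
noncomputable def KSf (E : V → ℝ) (e1 e2 : V → V) (y : V) : ℝ := 1 + g E y y y * rho E y (e1 y) (e2 y) / 4

open Classical in
/-- curvature of the indicatrix -/
noncomputable def KSg (E : V → ℝ) (x : V) : ℝ :=
  if h : ∃ p : V × V, Orth E x p.1 p.2 then 1 + g E x x x * rho E x h.choose.1 h.choose.2 / 4 else 0

lemma KSg_eq (D : Dat E) (hx : x ≠ 0) {a b : V} (h : Orth E x a b) :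
    KSg E x = 1 + g E x x x * rho E x a b / 4 := by
  have hex : ∃ p : V × V, Orth E x p.1 p.2 := ⟨(a, b), h⟩
  rw [KSg, dif_pos hex, rho_uniq D hx h hex.choose_spec]

lemma OF.KSg_ev (D : Dat E) (h : OF E x e1 e2) : KSg E =ᶠ[𝓝 x] KSf E e1 e2 := by
  filter_upwards [h.ev] with y hy
  rw [KSg_eq D hy.hx hy.at, KSf]

lemma OF.smKS (D : Dat E) (h : OF E x e1 e2) : ContDiffAt ℝ 2 (KSf E e1 e2) x := by
  have hg : ContDiffAt ℝ 2 (g E) x := sm_g2 D h.hx
  have hC : ContDiffAt ℝ 2 (C E) x := sm_C2 D h.hx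
  have h1 : ContDiffAt ℝ 2 (fun y => g E y y y) x := (hg.clm_apply contDiffAt_id).clm_apply contDiffAt_id
  have a1 : ContDiffAt ℝ 2 (fun y => C E y (e1 y) (e1 y) (e2 y)) x := ((hC.clm_apply h.s1).clm_apply h.s1).clm_apply h.s2
  have a2 : ContDiffAt ℝ 2 (fun y => C E y (e1 y) (e2 y) (e2 y)) x := ((hC.clm_apply h.s1).clm_apply h.s2).clm_apply h.s2
  have a3 : ContDiffAt ℝ 2 (fun y => C E y (e1 y) (e1 y) (e1 y)) x := ((hC.clm_apply h.s1).clm_apply h.s1).clm_apply h.s1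
  have a4 : ContDiffAt ℝ 2 (fun y => C E y (e2 y) (e2 y) (e2 y)) x := ((hC.clm_apply h.s2).clm_apply h.s2).clm_apply h.s2
  have h2 : ContDiffAt ℝ 2 (fun y => rho E y (e1 y) (e2 y)) x :=
    (((a1.pow 2).add (a2.pow 2)).sub (a3.mul a2)).sub (a1.mul a4)
  exact contDiffAt_const.add ((h1.mul h2).div_const 4)

noncomputable def ww (E : V → ℝ) (K e1 e2 : V → V) (y : V) : ℝ :=
  (k1 E K e1 y ^ 2 + k1 E K e2 y ^ 2) / g E y y y
noncomputable def HH (E : V → ℝ) (K e1 e2 : V → V) (y : V) : ℝ := ff E K e1 e2 y ^ 2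

lemma Kil.smk (D : Dat E) (hK : Kil E K) (hx : x ≠ 0) {e : V → V} (he : ContDiffAt ℝ 2 e x) :
    ContDiffAt ℝ 2 (k1 E K e) x := by
  have hg : ContDiffAt ℝ 2 (g E) x := sm_g2 D hx
  have hk : ContDiffAt ℝ 2 K x := (hK.sm x hx).of_le (WithTop.coe_le_coe.2 (le_top : (2:ℕ∞) ≤ ⊤))
  exact (hg.clm_apply hk).clm_apply he

lemma Kil.smff (D : Dat E) (hK : Kil E K) (h : OF E x e1 e2) : ContDiffAt ℝ 2 (ff E K e1 e2) x := by
  have hg : ContDiffAt ℝ 2 (g E) x := sm_g2 D h.hx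
  have hC : ContDiffAt ℝ 2 (C E) x := sm_C2 D h.hx
  have hk : ContDiffAt ℝ 2 K x := (hK.sm x h.hx).of_le (WithTop.coe_le_coe.2 (le_top : (2:ℕ∞) ≤ ⊤))
  have hdk : ContDiffAt ℝ 2 (fderiv ℝ K) x :=
    ((hK.sm x h.hx).fderiv_right top_add_one).of_le (WithTop.coe_le_coe.2 (le_top : (2:ℕ∞) ≤ ⊤))
  exact ((hg.clm_apply (hdk.clm_apply h.s1)).clm_apply h.s2).add
    (contDiffAt_const.mul (((hC.clm_apply hk).clm_apply h.s1).clm_apply h.s2))

lemma Kil.dww (D : Dat E) (hK : Kil E K) (h : OF E x e1 e2) (v : V) :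
    fderiv ℝ (ww E K e1 e2) x v = 2 * ff E K e1 e2 x *
      (k1 E K e2 x * g E x v (e1 x) - k1 E K e1 x * g E x v (e2 x)) / g E x x x := by
  obtain ⟨L1, a1, a2⟩ := hK.dk1 D h
  obtain ⟨L2, b1, b2⟩ := hK.dk2 D h
  obtain ⟨L3, c1, c2⟩ := hg2 D h.hx (hasFDerivAt_id x) (hasFDerivAt_id x)
  have hr := r2pos D h.hx
  have c1' : HasFDerivAt (fun y => g E y y y) L3 x := c1
  have hn : HasFDerivAt (fun y => k1 E K e1 y * k1 E K e1 y + k1 E K e2 y * k1 E K e2 y)
      ((k1 E K e1 x • L1 + k1 E K e1 x • L1) + (k1 E K e2 x • L2 + k1 E K e2 x • L2)) x :=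
    (a1.mul a1).add (b1.mul b1)
  obtain ⟨φ, hφ⟩ : ∃ φ : V → ℝ, φ = fun y => g E y y y := ⟨_, rfl⟩
  have hφx : φ x = g E x x x := by rw [hφ]
  have hinv : HasDerivAt (fun t : ℝ => t⁻¹) (-((φ x)^2)⁻¹) (φ x) := hasDerivAt_inv (by rw [hφx]; exact hr.ne')
  have c1'' : HasFDerivAt φ L3 x := by rw [hφ]; exact c1'
  have hi0 := hinv.comp_hasFDerivAt x c1''
  have hi : HasFDerivAt (fun y => (g E y y y)⁻¹) ((-((g E x x x) ^ 2)⁻¹) • L3) x := by
    rw [hφx] at hi0
    have he : (fun y => (g E y y y)⁻¹) = (fun t : ℝ => t⁻¹) ∘ φ := by rw [hφ]; rfl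
    rw [he]; exact hi0
  have h0 : ww E K e1 e2 = fun y => (k1 E K e1 y * k1 E K e1 y + k1 E K e2 y * k1 E K e2 y) * (g E y y y)⁻¹ := by
    funext y; rw [ww, div_eq_mul_inv]; ring
  have hw : HasFDerivAt (ww E K e1 e2)
      ((k1 E K e1 x * k1 E K e1 x + k1 E K e2 x * k1 E K e2 x) • (-((g E x x x) ^ 2)⁻¹) • L3
        + (g E x x x)⁻¹ • ((k1 E K e1 x • L1 + k1 E K e1 x • L1) + (k1 E K e2 x • L2 + k1 E K e2 x • L2))) x := by
    rw [h0]; exact hn.mul hi
  rw [hw.fderiv]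
  have h3 : L3 v = 2 * g E x v x := by
    rw [c2]; simp only [id, ContinuousLinearMap.id_apply]
    rw [g_sub_x D h.hx, g_symm D h.hx x v]; ring
  simp only [add_apply, smul_apply, smul_eq_mul, h3, a2, b2]
  field_simp
  ring

lemma Kil.dHH (D : Dat E) (hK : Kil E K) (h : OF E x e1 e2) :
    fderiv ℝ (HH E K e1 e2) x = -(KSf E e1 e2 x • fderiv ℝ (ww E K e1 e2) x) := by
  obtain ⟨L, a1, a2⟩ := hK.dff D h
  have hr := r2pos D h.hx
  have hw : HasFDerivAt (HH E K e1 e2) (ff E K e1 e2 x • L + ff E K e1 e2 x • L) x := by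
    have h0 : HH E K e1 e2 = fun y => ff E K e1 e2 y * ff E K e1 e2 y := by
      funext y; rw [HH]; ring
    rw [h0]
    exact a1.mul a1
  rw [hw.fderiv]
  ext v
  simp only [add_apply, smul_apply, smul_eq_mul, neg_apply, a2, hK.dww D h v, KSf]
  field_simp
  ring

lemma Kil.P1 (D : Dat E) (hK : Kil E K) (h : OF E x e1 e2) (u v : V) :
    fderiv ℝ (KSf E e1 e2) x u * (ff E K e1 e2 x *
      (k1 E K e2 x * g E x v (e1 x) - k1 E K e1 x * g E x v (e2 x))) =
    fderiv ℝ (KSf E e1 e2) x v * (ff E K e1 e2 x *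
      (k1 E K e2 x * g E x u (e1 x) - k1 E K e1 x * g E x u (e2 x))) := by
  have hr := r2pos D h.hx
  have h1 := hK.smk D h.hx h.s1
  have h2 := hK.smk D h.hx h.s2
  have hg : ContDiffAt ℝ 2 (fun y => g E y y y) x :=
    ((sm_g2 D h.hx).clm_apply contDiffAt_id).clm_apply contDiffAt_id
  have hw : ContDiffAt ℝ 2 (ww E K e1 e2) x := ((h1.pow 2).add (h2.pow 2)).div hg hr.ne'
  have hH : ContDiffAt ℝ 2 (HH E K e1 e2) x := (hK.smff D h).pow 2
  have hws : ∀ u v, fderiv ℝ (fderiv ℝ (ww E K e1 e2)) x u v = fderiv ℝ (fderiv ℝ (ww E K e1 e2)) x v u := fun u v =>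
    (hw.isSymmSndFDerivAt (by simp)) u v
  have hHs : ∀ u v, fderiv ℝ (fderiv ℝ (HH E K e1 e2)) x u v = fderiv ℝ (fderiv ℝ (HH E K e1 e2)) x v u := fun u v =>
    (hH.isSymmSndFDerivAt (by simp)) u v
  have hwd : HasFDerivAt (fderiv ℝ (ww E K e1 e2)) (fderiv ℝ (fderiv ℝ (ww E K e1 e2)) x) x :=
    ((hw.fderiv_right (m := 1) (by norm_num)).differentiableAt (by simp)).hasFDerivAt
  have hKd : HasFDerivAt (KSf E e1 e2) (fderiv ℝ (KSf E e1 e2) x) x :=
    ((h.smKS D).differentiableAt (by simp)).hasFDerivAt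
  have hev : fderiv ℝ (HH E K e1 e2) =ᶠ[𝓝 x] (fun y => -(KSf E e1 e2 y • fderiv ℝ (ww E K e1 e2) y)) := by
    filter_upwards [h.ev] with y hy
    exact hK.dHH D hy
  have hd := (hKd.smul hwd).neg
  have hd' := hd.congr_of_eventuallyEq hev
  have key : ∀ u v, fderiv ℝ (fderiv ℝ (HH E K e1 e2)) x u v =
      -(KSf E e1 e2 x * fderiv ℝ (fderiv ℝ (ww E K e1 e2)) x u v
        + fderiv ℝ (KSf E e1 e2) x u * fderiv ℝ (ww E K e1 e2) x v) := by
    intro u v
    rw [hd'.fderiv]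
    simp
  have k1' := key u v
  have k2' := key v u
  rw [hHs u v, k2', hws v u, hK.dww D h, hK.dww D h] at k1'
  field_simp at k1'
  linarith

end Pool.Agent.U631.TD
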