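import Pool.Agent.U631.TD.F8
import Pool.Agent.U631.TD.F9

set_option autoImplicit false
set_option maxSynthPendingDepth 6
open Topology Filter
namespace Pool.Agent.U631.TD
open H506R3.Lau

variable {E : V → ℝ} {x : V} {e1 e2 : V → V} {K K' : V → V}

lemma Kil.fdlin (hK : Kil E K) (hK' : Kil E K') (α β : ℝ) (hx : x ≠ 0) (v : V) :
    fderiv ℝ (fun y => α • K y + β • K' y) x v = α • fderiv ℝ K x v + β • fderiv ℝ K' x v := by
  have h : HasFDerivAt (fun y => α • K y + β • K' y) (α • fderiv ℝ K x + β • fderiv ℝ K' x) x :=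
    ((hK.hd hx).const_smul α).add ((hK'.hd hx).const_smul β)
  rw [h.fderiv]; simp

lemma Kil.lin (hK : Kil E K) (hK' : Kil E K') (α β : ℝ) : Kil E (fun y => α • K y + β • K' y) := by
  refine ⟨fun x hx => ?_, fun x hx t ht => ?_, fun x hx u v => ?_⟩
  · exact ((hK.sm x hx).const_smul α).add ((hK'.sm x hx).const_smul β)
  · simp only [hK.hom x hx t ht, hK'.hom x hx t ht]; module
  · rw [hK.fdlin hK' α β hx, hK.fdlin hK' α β hx]
    have h1 := hK.kil x hx u v
    have h2 := hK'.kil x hx u v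
    simp only [map_add, map_smul, add_apply, smul_apply, smul_eq_mul]
    linear_combination α * h1 + β * h2

lemma k1_lin (α β : ℝ) (e : V → V) (y : V) :
    k1 E (fun y => α • K y + β • K' y) e y = α * k1 E K e y + β * k1 E K' e y := by
  simp [k1]

lemma Kil.ff_lin (hK : Kil E K) (hK' : Kil E K') (α β : ℝ) (hx : x ≠ 0) :
    ff E (fun y => α • K y + β • K' y) e1 e2 x = α * ff E K e1 e2 x + β * ff E K' e1 e2 x := by
  simp only [ff, hK.fdlin hK' α β hx, map_add, map_smul, add_apply, smul_apply, smul_eq_mul]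
  ring

lemma Lz (D : Dat E) (hK : Kil E K) (hK' : Kil E K') (h : OF E x e1 e2)
    (hδ : k1 E K e1 x * k1 E K' e2 x - k1 E K e2 x * k1 E K' e1 x ≠ 0) (hf : ff E K e1 e2 x ≠ 0) :
    fderiv ℝ (KSf E e1 e2) x = 0 := by
  have h21 : g E x (e2 x) (e1 x) = 0 := by rw [g_symm D h.hx]; exact h.at.n12
  have s12 : g E x (e1 x) (e2 x) = 0 := h.at.n12
  have s11 : g E x (e1 x) (e1 x) = 1 := h.at.n11
  have s22 : g E x (e2 x) (e2 x) = 1 := h.at.n22
  have rx1 : g E x x (e1 x) = 0 := h.at.r1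
  have rx2 : g E x x (e2 x) = 0 := h.at.r2
  set d := fderiv ℝ (KSf E e1 e2) x with hd
  have p1 := hK.P1 D h x (e1 x)
  have p2 := hK.P1 D h x (e2 x)
  have p3 := hK.P1 D h (e1 x) (e2 x)
  have p4 := hK'.P1 D h (e1 x) (e2 x)
  have p5 := (hK.lin hK' 1 1).P1 D h (e1 x) (e2 x)
  rw [k1_lin, k1_lin, hK.ff_lin hK' 1 1 h.hx] at p5
  simp only [← hd, s11, s12, h21, s22, rx1, rx2] at p1 p2 p3 p4 p5
  set a := k1 E K e1 x
  set b := k1 E K e2 x
  set a' := k1 E K' e1 x
  set b' := k1 E K' e2 x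
  set f := ff E K e1 e2 x
  set f' := ff E K' e1 e2 x
  have hx0 : d x = 0 := by
    by_contra hne
    have q1 : d x * (f * b) = 0 := by linarith
    have q2 : d x * (f * a) = 0 := by linarith
    have r1 : b = 0 := by
      rcases mul_eq_zero.1 q1 with h | h
      · exact absurd h hne
      · exact (mul_eq_zero.1 h).resolve_left hf
    have r2 : a = 0 := by
      rcases mul_eq_zero.1 q2 with h | h
      · exact absurd h hne
      · exact (mul_eq_zero.1 h).resolve_left hf
    apply hδ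
    rw [r1, r2]; ring
  have e1' : d (e1 x) * a + d (e2 x) * b = 0 := by
    have : f * (d (e1 x) * a + d (e2 x) * b) = 0 := by linear_combination -p3
    exact (mul_eq_zero.1 this).resolve_left hf
  have e2' : d (e1 x) * a' + d (e2 x) * b' = 0 := by
    have : f * (d (e1 x) * a' + d (e2 x) * b') = 0 := by
      linear_combination -p5 + p4 + p3 - f' * e1'
    exact (mul_eq_zero.1 this).resolve_left hf
  have g1 : d (e1 x) = 0 := by
    have : (a * b' - b * a') * d (e1 x) = 0 := by linear_combination b' * e1' - b * e2'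
    exact (mul_eq_zero.1 this).resolve_left hδ
  have g2 : d (e2 x) = 0 := by
    have : (a * b' - b * a') * d (e2 x) = 0 := by linear_combination a * e2' - a' * e1'
    exact (mul_eq_zero.1 this).resolve_left hδ
  ext v
  rw [h.vexp D v]
  simp [g1, g2, hx0]

/-- a Killing field with vanishing data in a frame at one point vanishes -/
lemma Kil.zero_of (D : Dat E) (hK : Kil E K) (h : OF E x e1 e2) (h1 : k1 E K e1 x = 0)
    (h2 : k1 E K e2 x = 0) (h3 : ff E K e1 e2 x = 0) {y : V} (hy : y ≠ 0) : K y = 0 := by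
  have hK0 : K x = 0 := by rw [hK.Kexp D h, h1, h2]; simp
  refine hK.uniq D h.hx hK0 ?_ hy
  ext1 v
  have a1 : fderiv ℝ K x (e1 x) = 0 := by
    rw [hK.DK1 D h, hK0, h1, h3]; simp
  have a2 : fderiv ℝ K x (e2 x) = 0 := by
    rw [hK.DK2 D h, hK0, h2, h3]; simp
  rw [hK.DKv D h v, a1, a2, hK0]; simp

lemma dKS_zero (D : Dat E) (hK : Kil E K) (hK' : Kil E K')
    (hind : ∀ α β : ℝ, (∀ y : V, y ≠ 0 → α • K y + β • K' y = 0) → α = 0 ∧ β = 0)
    (hx : x ≠ 0) : fderiv ℝ (KSg E) x = 0 := by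
  by_contra hne
  obtain ⟨e1, e2, b1, b2, b3⟩ := exists_orth D hx
  have h : OF E x e1 e2 := ⟨hx, b1, b2, b3⟩
  have hne' : fderiv ℝ (KSf E e1 e2) x ≠ 0 := by
    rw [← (h.KSg_ev D).fderiv_eq]; exact hne
  have hcont : ContinuousAt (fderiv ℝ (KSf E e1 e2)) x :=
    ((h.smKS D).fderiv_right (m := 1) (by norm_num)).continuousAt
  have ev1 : ∀ᶠ y in 𝓝 x, fderiv ℝ (KSf E e1 e2) y ≠ 0 := hcont.eventually_ne hne'
  have ev2 : ∀ᶠ y in 𝓝 x, OF E y e1 e2 := h.ev
  by_cases hδ : ∀ᶠ y in 𝓝 x, k1 E K e1 y * k1 E K' e2 y - k1 E K e2 y * k1 E K' e1 y = 0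
  · obtain ⟨La, a1, a2⟩ := hK.dk1 D h
    obtain ⟨Lb, c1, c2⟩ := hK.dk2 D h
    obtain ⟨La', a1', a2'⟩ := hK'.dk1 D h
    obtain ⟨Lb', c1', c2'⟩ := hK'.dk2 D h
    have hd := (a1.mul c1').sub (c1.mul a1')
    have h0 := evconst hd (c := 0) hδ
    have hδx := hδ.self_of_nhds
    have h21 : g E x (e2 x) (e1 x) = 0 := by rw [g_symm D h.hx]; exact h.at.n12
    have s12 : g E x (e1 x) (e2 x) = 0 := h.at.n12
    have s11 : g E x (e1 x) (e1 x) = 1 := h.at.n11
    have s22 : g E x (e2 x) (e2 x) = 1 := h.at.n22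
    have sx1 : g E x (e1 x) x = 0 := by rw [g_symm D h.hx]; exact h.at.r1
    have sx2 : g E x (e2 x) x = 0 := by rw [g_symm D h.hx]; exact h.at.r2
    have r1 := congrArg (fun L : V →L[ℝ] ℝ => L (e1 x)) h0
    have r2 := congrArg (fun L : V →L[ℝ] ℝ => L (e2 x)) h0
    simp only [sub_apply, add_apply, smul_apply, smul_eq_mul, zero_apply, a2, c2, a2', c2',
      s11, s12, h21, s22, sx1, sx2] at r1 r2
    set a := k1 E K e1 x with ha
    set b := k1 E K e2 x with hb
    set a' := k1 E K' e1 x with ha'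
    set b' := k1 E K' e2 x with hb'
    set f := ff E K e1 e2 x with hf
    set f' := ff E K' e1 e2 x with hf'
    have t1 : a * f' = f * a' := by linear_combination r1
    have t2 : b * f' = f * b' := by linear_combination r2
    have t3 : a * b' = b * a' := by linear_combination hδx
    obtain ⟨α, β, hαβ, u1, u2, u3⟩ : ∃ α β : ℝ, ¬ (α = 0 ∧ β = 0) ∧ α * a + β * a' = 0 ∧
        α * b + β * b' = 0 ∧ α * f + β * f' = 0 := by
      by_cases z1 : f' = 0
      · by_cases z2 : a' = 0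
        · by_cases z3 : b' = 0
          · exact ⟨0, 1, by simp, by rw [z2]; ring, by rw [z3]; ring, by rw [z1]; ring⟩
          · exact ⟨b', -b, fun h => z3 h.1, by linear_combination t3, by ring, by linear_combination -t2⟩
        · exact ⟨a', -a, fun h => z2 h.1, by ring, by linear_combination -t3, by linear_combination -t1⟩
      · exact ⟨f', -f, fun h => z1 h.1, by linear_combination t1, by linear_combination t2, by ring⟩
    apply hαβ
    apply hind
    intro y hy
    exact (hK.lin hK' α β).zero_of D h (by rw [k1_lin]; exact u1) (by rw [k1_lin]; exact u2)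
      (by rw [hK.ff_lin hK' α β h.hx]; exact u3) hy
  · have hfr : ∃ᶠ y in 𝓝 x, k1 E K e1 y * k1 E K' e2 y - k1 E K e2 y * k1 E K' e1 y ≠ 0 := Filter.not_eventually.1 hδ
    obtain ⟨y, hy1, hy2, hy3⟩ := (hfr.and_eventually
      ((eventually_eventually_nhds.2 ev1).and ev2)).exists
    have hyev2 := hy3.ev
    have hcδ : ContinuousAt (fun y => k1 E K e1 y * k1 E K' e2 y - k1 E K e2 y * k1 E K' e1 y) y :=
      ((hK.smk D hy3.hx hy3.s1).continuousAt.mul (hK'.smk D hy3.hx hy3.s2).continuousAt).sub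
        ((hK.smk D hy3.hx hy3.s2).continuousAt.mul (hK'.smk D hy3.hx hy3.s1).continuousAt)
    have ev3 := hcδ.eventually_ne hy1
    have hff : ∀ᶠ z in 𝓝 y, ff E K e1 e2 z = 0 := by
      filter_upwards [hy2, hyev2, ev3] with z z1 z2 z3
      by_contra hne2
      exact z1 (Lz D hK hK' z2 z3 hne2)
    have hKS0 : ∀ᶠ z in 𝓝 y, KSf E e1 e2 z = 0 := by
      filter_upwards [eventually_eventually_nhds.2 hff, hyev2, ev3] with z z1 z2 z3
      obtain ⟨L, l1, l2⟩ := hK.dff D z2
      have l3 := evconst l1 z1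
      have h21 : g E z (e2 z) (e1 z) = 0 := by rw [g_symm D z2.hx]; exact z2.at.n12
      have m1 := l2 (e1 z)
      have m2 := l2 (e2 z)
      rw [l3, z2.at.n12, z2.at.n11] at m1
      rw [l3, h21, z2.at.n22] at m2
      simp only [zero_apply] at m1 m2
      have hr := r2pos D z2.hx
      have hk0 : 1 / g E z z z + rho E z (e1 z) (e2 z) / 4 = 0 := by
        by_contra hk
        have n1 : k1 E K e2 z = 0 := by
          have : (1 / g E z z z + rho E z (e1 z) (e2 z) / 4) * k1 E K e2 z = 0 := by linarith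
          exact (mul_eq_zero.1 this).resolve_left hk
        have n2 : k1 E K e1 z = 0 := by
          have : (1 / g E z z z + rho E z (e1 z) (e2 z) / 4) * k1 E K e1 z = 0 := by linarith
          exact (mul_eq_zero.1 this).resolve_left hk
        apply z3
        rw [n1, n2]; ring
      have : KSf E e1 e2 z = g E z z z * (1 / g E z z z + rho E z (e1 z) (e2 z) / 4) := by
        rw [KSf]; field_simp
      rw [this, hk0, mul_zero]
    have h5 : fderiv ℝ (KSf E e1 e2) y = 0 := by
      have h6 : KSf E e1 e2 =ᶠ[𝓝 y] fun _ => (0:ℝ) := hKS0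
      rw [h6.fderiv_eq]; simp
    exact hy2.self_of_nhds h5

end Pool.Agent.U631.TD
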