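import Pool.Agent.U631.TD.F10
import Pool.Agent.H506R3.Lau.L8
set_option autoImplicit false
set_option maxSynthPendingDepth 6
open Topology Filter
namespace Pool.Agent.U631.TD
open H506R3.Lau

variable {E : V → ℝ} {x : V} {e1 e2 : V → V} {K K' : V → V}

lemma exists_OF (D : Dat E) (hx : x ≠ 0) : ∃ e1 e2 : V → V, OF E x e1 e2 := by
  obtain ⟨f1, f2, a1, a2, a3⟩ := exists_orth D hx
  exact ⟨f1, f2, hx, a1, a2, a3⟩

lemma KS_const (D : Dat E) (h0 : ∀ x : V, x ≠ 0 → fderiv ℝ (KSg E) x = 0) {x y : V} (hx : x ≠ 0) (hy : y ≠ 0) :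
    KSg E x = KSg E y := by
  have hconn : IsPreconnected ({0}ᶜ : Set V) := by
    have hrk : 1 < Module.rank ℝ V := by
      rw [rank_fun']
      simp
    exact (isConnected_compl_singleton_of_one_lt_rank hrk 0).isPreconnected
  refine isOpen_compl_singleton.is_const_of_fderiv_eq_zero (𝕜 := ℝ) hconn (f := KSg E) ?_ ?_ hx hy
  · intro z hz
    obtain ⟨e1, e2, h⟩ := exists_OF D hz
    have h1 : ContDiffAt ℝ 2 (KSg E) z := (h.smKS D).congr_of_eventuallyEq (h.KSg_ev D)
    exact (h1.differentiableAt (by simp)).differentiableWithinAt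
  · intro z hz
    exact h0 z hz

lemma dn_hom (D : Dat E) (hx : x ≠ 0) {t : ℝ} (ht : 0 < t) : dn E (t • x) = dn E x := by
  have h : G E (t • x) = G E x := by
    ext i j
    simp only [G, Matrix.of_apply]
    rw [g_hom D hx ht]
  rw [dn, dn, h]

/-- there is a point at which the trace of the cubic form vanishes -/
lemma exists_tr (D : Dat E) : ∃ p : V, p ≠ 0 ∧ ∀ a b, Orth E p a b → ∀ v, C E p v a a + C E p v b b = 0 := by
  have hS : IsCompact (Metric.sphere (0:V) 1) := isCompact_sphere _ _
  have hne : (Metric.sphere (0:V) 1).Nonempty := NormedSpace.sphere_nonempty.2 zero_le_one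
  have hn0 : ∀ x ∈ Metric.sphere (0:V) 1, x ≠ 0 := by
    intro x hx h; rw [h] at hx; simp at hx
  have hcont : ContinuousOn (dn E) (Metric.sphere (0:V) 1) := by
    intro x hx
    obtain ⟨e1, e2, h⟩ := exists_OF D (hn0 x hx)
    obtain ⟨L, h2, _⟩ := h.at.dn D h.hx
    exact h2.continuousAt.continuousWithinAt
  obtain ⟨p, hp, hmax⟩ := hS.exists_isMaxOn hne hcont
  refine ⟨p, hn0 p hp, ?_⟩
  intro a b hab v
  obtain ⟨L, h1, h2⟩ := hab.dn D (hn0 p hp)
  have hloc : IsLocalMax (dn E) p := by
    filter_upwards [ne_ev (hn0 p hp)] with y hy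
    have hyn : 0 < ‖y‖ := norm_pos_iff.2 hy
    have e1 : y = ‖y‖ • (‖y‖⁻¹ • y) := by rw [smul_smul, mul_inv_cancel₀ hyn.ne', one_smul]
    have e2 : ‖y‖⁻¹ • y ∈ Metric.sphere (0:V) 1 := by simp [norm_smul, hyn.ne']
    have e3 : dn E y = dn E (‖y‖⁻¹ • y) := by
      conv_lhs => rw [e1]
      exact dn_hom D (hn0 _ e2) hyn
    rw [e3]
    exact hmax e2
  have h3 := hloc.hasFDerivAt_eq_zero h1
  have h4 := h2 v
  rw [h3] at h4
  have hd : 0 < dn E p := Real.sqrt_pos.2 (det_pos p (hab.on D (hn0 p hp)))
  simp only [zero_apply] at h4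
  have h5 : (C E p v a a + C E p v b b) * dn E p = 0 := by linarith
  exact (mul_eq_zero.1 h5).resolve_right hd.ne'

lemma rho_tr (D : Dat E) (hx : x ≠ 0) {a b : V} (h : ∀ v, C E x v a a + C E x v b b = 0) :
    0 ≤ rho E x a b := by
  have h1 := h a
  have h2 := h b
  have c121 : C E x a b a = C E x a a b := C_s23 D hx _ _ _
  have c211 : C E x b a a = C E x a a b := by rw [C_s12 D hx, c121]
  rw [c211] at h2
  have e1 : C E x a a a = - C E x a b b := by linarith
  have e2 : C E x b b b = - C E x a a b := by linarith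
  rw [rho, e1, e2]
  nlinarith [sq_nonneg (C E x a a b), sq_nonneg (C E x a b b)]

/-- vanishing curvature of the tangential planes gives the flatness condition -/
lemma flat_of_rho (D : Dat E) (h : ∀ x : V, x ≠ 0 → ∀ a b, Orth E x a b → rho E x a b = 0) : Flat E := by
  intro x hx i j k l
  obtain ⟨e1, e2, hf⟩ := exists_OF D hx
  have hab := hf.at
  set a := e1 x
  set b := e2 x
  have hON := hab.on D hx
  have hr0 := h x hx a b hab
  have key : ∀ u v w z : V,
      ∑ m, C E x u w (bb E x a b m) * C E x v z (bb E x a b m)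
      - ∑ m, C E x u z (bb E x a b m) * C E x v w (bb E x a b m) = 0 := by
    intro u v w z
    have hC : ∀ p q s : V, C E x p q s = g E x p a * (g E x q a * C E x a a s + g E x q b * C E x a b s)
        + g E x p b * (g E x q a * C E x b a s + g E x q b * C E x b b s) := by
      intro p q s
      have hp := hab.exp D hx p
      have hq := hab.exp D hx q
      have s1 : C E x p q s = g E x p a * C E x a q s + g E x p b * C E x b q s := by
        have := congrArg (fun y => C E x y q s) hp
        simpa [C_x D hx] using this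
      have s2 : C E x a q s = g E x q a * C E x a a s + g E x q b * C E x a b s := by
        have := congrArg (fun y => C E x a y s) hq
        simpa [g_sub_x2 D hx] using this
      have s3 : C E x b q s = g E x q a * C E x b a s + g E x q b * C E x b b s := by
        have := congrArg (fun y => C E x b y s) hq
        simpa [g_sub_x2 D hx] using this
      rw [s1, s2, s3]
    have c121 : C E x a b a = C E x a a b := C_s23 D hx _ _ _
    have c211 : C E x b a a = C E x a a b := by rw [C_s12 D hx, c121]
    have c212 : C E x b a b = C E x a b b := C_s12 D hx _ _ _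
    have c221 : C E x b b a = C E x a b b := by rw [C_s23 D hx, c212]
    simp only [Fin.sum_univ_three, bb, Matrix.cons_val_zero, Matrix.cons_val_one, Matrix.cons_val,
      map_smul, smul_eq_mul, g_sub_x D hx]
    rw [hC u w a, hC v z a, hC u w b, hC v z b, hC u z a, hC v w a, hC u z b, hC v w b,
      c121, c211, c212, c221]
    unfold rho at hr0
    linear_combination (-(g E x u a * g E x v b - g E x u b * g E x v a)
      * (g E x w a * g E x z b - g E x w b * g E x z a)) * hr0
  have h1 := key (ee i) (ee j) (ee k) (ee l)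
  rw [← key_contr, ← key_contr, ← Finset.sum_sub_distrib] at h1
  rw [← h1]
  refine Finset.sum_congr rfl fun p _ => ?_
  rw [← Finset.sum_sub_distrib]
  refine Finset.sum_congr rfl fun q _ => ?_
  rw [ON_inv hON]
  ring

/-- **Main lemma.** If the curvature of the indicatrix is constant, the norm is Euclidean. -/
theorem const_curv (D : Dat E) (h0 : ∀ x : V, x ≠ 0 → fderiv ℝ (KSg E) x = 0) {x : V} (hx : x ≠ 0) :
    C E x = 0 := by
  obtain ⟨p, hp, htr⟩ := exists_tr D
  obtain ⟨f1, f2, hf⟩ := exists_OF D hp
  set κ := KSg E p with hκ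
  have hall : ∀ y : V, y ≠ 0 → ∀ a b, Orth E y a b → g E y y y * rho E y a b = 4 * (κ - 1) := by
    intro y hy a b hab
    have h1 := KS_const D h0 hy hp
    rw [KSg_eq D hy hab, ← hκ] at h1
    linarith
  have hge : 0 ≤ κ - 1 := by
    have h1 := hall p hp _ _ hf.at
    have h2 := rho_tr D hp (htr _ _ hf.at)
    have h3 := r2pos D hp
    have h4 : 0 ≤ g E p p p * rho E p (f1 p) (f2 p) := by positivity
    linarith
  rcases hge.eq_or_lt with heq | hlt
  · have hF : Flat E := by
      apply flat_of_rho D
      intro y hy a b hab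
      have h1 := hall y hy a b hab
      rw [← heq, mul_zero] at h1
      exact (mul_eq_zero.1 h1).resolve_left (r2pos D hy).ne'
    by_contra hne
    exact core D hF hx hne
  · exfalso
    have hpos : ∀ y : V, y ≠ 0 → ∀ a b, Orth E y a b → 0 < rho E y a b := by
      intro y hy a b hab
      have h1 := hall y hy a b hab
      have h2 := r2pos D hy
      by_contra hn
      push Not at hn
      have : g E y y y * rho E y a b ≤ 0 := mul_nonpos_of_nonneg_of_nonpos h2.le hn
      linarith
    refine core2 D ?_ ?_
    · intro y hy a b hab hz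
      have h1 := hpos y hy a b hab
      have h2 : cc E y a b = 0 := by nlinarith [sq_nonneg (cc E y a b), sq_nonneg (dd E y a b)]
      have h3 : dd E y a b = 0 := by nlinarith [sq_nonneg (cc E y a b), sq_nonneg (dd E y a b)]
      unfold cc at h2
      unfold dd at h3
      have e1 : C E y a a a = 3 * C E y a b b := by linarith
      have e2 : C E y b b b = 3 * C E y a a b := by linarith
      rw [rho, e1, e2] at h1
      nlinarith [sq_nonneg (C E y a a b), sq_nonneg (C E y a b b)]
    · intro y hy a b hab
      have h1 := hpos y hy a b hab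
      have h2 := r2pos D hy
      positivity

/-- **Two independent infinitesimal isometries.** -/
theorem two_killing (D : Dat E) (hK : Kil E K) (hK' : Kil E K')
    (hind : ∀ α β : ℝ, (∀ y : V, y ≠ 0 → α • K y + β • K' y = 0) → α = 0 ∧ β = 0)
    {x : V} (hx : x ≠ 0) : C E x = 0 :=
  const_curv D (fun _ hy => dKS_zero D hK hK' hind hy) hx

end Pool.Agent.U631.TD
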