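import Pool.Agent.U631.TD.F1
set_option autoImplicit false
set_option maxSynthPendingDepth 6
open Topology Filter
namespace Pool.Agent.U631.TD
open H506R3.Lau

variable {E : V → ℝ} {x : V} {e1 e2 : V → V}

lemma OF.smOM (D : Dat E) (h : OF E x e1 e2) : ContDiffAt ℝ 1 (OM E e1 e2) x := by
  have hg : ContDiffAt ℝ 1 (g E) x := (sm_g D h.hx).of_le (WithTop.coe_le_coe.2 (le_top : (1:ℕ∞) ≤ ⊤))
  have hC : ContDiffAt ℝ 1 (C E) x := (sm_C D h.hx).of_le (WithTop.coe_le_coe.2 (le_top : (1:ℕ∞) ≤ ⊤))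
  have h12 : (1 : WithTop ℕ∞) ≤ 2 := by norm_num
  have s1 := h.s1.of_le h12
  have s2 := h.s2.of_le h12
  have f1 : ContDiffAt ℝ 1 (fun y => (g E y).flip) x :=
    ContDiffAt.comp x (g := fun L : V →L[ℝ] V →L[ℝ] ℝ => L.flip)
      ((ContinuousLinearMap.flipₗᵢ ℝ V V ℝ).contDiff.contDiffAt) hg
  have f2 : ContDiffAt ℝ 1 (fun y => (C E y).flip) x :=
    ContDiffAt.comp x (g := fun L : V →L[ℝ] V →L[ℝ] V →L[ℝ] ℝ => L.flip)
      ((ContinuousLinearMap.flipₗᵢ ℝ V V (V →L[ℝ] ℝ)).contDiff.contDiffAt) hC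
  have f3 : ContDiffAt ℝ 1 (fun y => ((C E y).flip (e1 y)).flip) x :=
    ContDiffAt.comp x (g := fun L : V →L[ℝ] V →L[ℝ] ℝ => L.flip)
      ((ContinuousLinearMap.flipₗᵢ ℝ V V ℝ).contDiff.contDiffAt) (f2.clm_apply s1)
  have hfd : ContDiffAt ℝ 1 (fderiv ℝ e1) x := h.s1.fderiv_right (m := 1) (by norm_num)
  exact ((f1.clm_apply s2).clm_comp hfd).add ((f3.clm_apply s2).const_smul (1/2 : ℝ))

lemma OF.dOM (D : Dat E) (h : OF E x e1 e2) {O' : V →L[ℝ] V →L[ℝ] ℝ}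
    (hO : HasFDerivAt (OM E e1 e2) O' x) (u v : V) :
    O' u v = C E x u (fderiv ℝ e1 x v) (e2 x) + g E x (fderiv ℝ (fderiv ℝ e1) x u v) (e2 x)
      + g E x (fderiv ℝ e1 x v) (fderiv ℝ e2 x u)
      + (1/2) * (Q E x u v (e1 x) (e2 x) + C E x v (fderiv ℝ e1 x u) (e2 x)
        + C E x v (e1 x) (fderiv ℝ e2 x u)) := by
  have hdd : HasFDerivAt (fderiv ℝ e1) (fderiv ℝ (fderiv ℝ e1) x) x :=
    ((h.s1.fderiv_right (m := 1) (by norm_num)).differentiableAt (by simp)).hasFDerivAt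
  obtain ⟨L1, a1, a2⟩ := hg2 D h.hx (hdd.clm_apply (hasFDerivAt_const v x)) h.d2
  obtain ⟨L2, b1, b2⟩ := hC3 D h.hx (hasFDerivAt_const v x) h.d1 h.d2
  have c1 := a1.add (b1.const_mul (1/2 : ℝ))
  have c2 : HasFDerivAt (fun y => OM E e1 e2 y v) _ x := hO.clm_apply (hasFDerivAt_const v x)
  have hfun : (fun y => OM E e1 e2 y v) = (fun y => g E y (fderiv ℝ e1 y v) (e2 y) + (1/2) * C E y v (e1 y) (e2 y)) := by
    funext y; exact OM_apply y v
  rw [hfun] at c2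
  have c3 := c2.unique c1
  have c4 := congrArg (fun L : V →L[ℝ] ℝ => L u) c3
  have a3 := a2 u
  have b3 := b2 u
  simp at c4 a3 b3
  rw [a3, b3] at c4
  rw [c4]
  ring

/-- the curvature function of the tangential plane (four times the sectional curvature) -/
noncomputable def rho (E : V → ℝ) (x a b : V) : ℝ :=
  C E x a a b ^ 2 + C E x a b b ^ 2 - C E x a a a * C E x a b b - C E x a a b * C E x b b b

/-- the Gauss equation -/
lemma OF.curv (D : Dat E) (h : OF E x e1 e2) {O' : V →L[ℝ] V →L[ℝ] ℝ}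
    (hO : HasFDerivAt (OM E e1 e2) O' x) :
    O' (e1 x) (e2 x) - O' (e2 x) (e1 x) = -(1 / g E x x x + rho E x (e1 x) (e2 x) / 4) := by
  have hr := r2pos D h.hx
  rw [h.dOM D hO, h.dOM D hO]
  have hsym : fderiv ℝ (fderiv ℝ e1) x (e1 x) (e2 x) = fderiv ℝ (fderiv ℝ e1) x (e2 x) (e1 x) :=
    (h.s1.isSymmSndFDerivAt (by simp)) _ _
  have hQ : Q E x (e1 x) (e2 x) (e1 x) (e2 x) = Q E x (e2 x) (e1 x) (e1 x) (e2 x) := Q_s12 D h.hx _ _ _ _
  rw [hsym, hQ]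
  have h21 : g E x (e2 x) (e1 x) = 0 := by rw [g_symm D h.hx]; exact h.at.n12
  have s12 : g E x (e1 x) (e2 x) = 0 := h.at.n12
  have s11 : g E x (e1 x) (e1 x) = 1 := h.at.n11
  have s22 : g E x (e2 x) (e2 x) = 1 := h.at.n22
  have sx1 : g E x (e1 x) x = 0 := by rw [g_symm D h.hx]; exact h.at.r1
  have sx2 : g E x (e2 x) x = 0 := by rw [g_symm D h.hx]; exact h.at.r2
  have rx1 : g E x x (e1 x) = 0 := h.at.r1
  have rx2 : g E x x (e2 x) = 0 := h.at.r2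
  have hD1 := h.D1 D
  have hD2 := h.D2 D
  have c121 : C E x (e1 x) (e2 x) (e1 x) = C E x (e1 x) (e1 x) (e2 x) := C_s23 D h.hx _ _ _
  have c211 : C E x (e2 x) (e1 x) (e1 x) = C E x (e1 x) (e1 x) (e2 x) := by
    rw [C_s12 D h.hx, c121]
  have c212 : C E x (e2 x) (e1 x) (e2 x) = C E x (e1 x) (e2 x) (e2 x) := C_s12 D h.hx _ _ _
  have c221 : C E x (e2 x) (e2 x) (e1 x) = C E x (e1 x) (e2 x) (e2 x) := by
    rw [C_s23 D h.hx, c212]
  have cx1 : ∀ u v, C E x u x v = 0 := g_sub_x2 D h.hx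
  have cx2 : ∀ u v, C E x u v x = 0 := g_sub_x D h.hx
  simp only [hD1, hD2, map_add, map_smul, map_sub, add_apply, smul_apply, sub_apply, smul_eq_mul,
    s12, s11, s22, h21, sx1, sx2, rx1, rx2, c121, c211, c212, c221, cx1, cx2, rho]
  field_simp
  ring

end Pool.Agent.U631.TD
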