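import Pool.Agent.U631.TD.F2
set_option autoImplicit false
set_option maxSynthPendingDepth 6
open Topology Filter
namespace Pool.Agent.U631.TD
open H506R3.Lau

variable {E : V → ℝ} {x : V} {e1 e2 : V → V}

/-- covariant derivative of the cubic form, contracted with respect to the pair `a, b` -/
noncomputable def SS (E : V → ℝ) (x a b v p q r : V) : ℝ :=
  Q E x v p q r - (1/2) * ((C E x v p a * C E x q r a + C E x v p b * C E x q r b)
    + (C E x v q a * C E x p r a + C E x v q b * C E x p r b)
    + (C E x v r a * C E x p q a + C E x v r b * C E x p q b))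

noncomputable def cc (E : V → ℝ) (x a b : V) : ℝ := C E x a a a - 3 * C E x a b b
noncomputable def dd (E : V → ℝ) (x a b : V) : ℝ := 3 * C E x a a b - C E x b b b
noncomputable def cv (E : V → ℝ) (x a b v : V) : ℝ := SS E x a b v a a a - 3 * SS E x a b v a b b
noncomputable def dv (E : V → ℝ) (x a b v : V) : ℝ := 3 * SS E x a b v a a b - SS E x a b v b b b
noncomputable def eta (E : V → ℝ) (x a b v : V) : ℝ :=
  (cc E x a b * dv E x a b v - dd E x a b * cv E x a b v) / (3 * (cc E x a b ^ 2 + dd E x a b ^ 2))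
noncomputable def WP (E : V → ℝ) (x a b : V) : V := eta E x a b b • a - eta E x a b a • b

lemma SS_contr (x a b v p q r : V) (s t : ℝ) (hst : s ^ 2 + t ^ 2 = 1) :
    SS E x (s • a + t • b) (-t • a + s • b) v p q r = SS E x a b v p q r := by
  simp only [SS, map_add, map_smul, smul_eq_mul]
  linear_combination (-(1/2) * ((C E x v p a * C E x q r a + C E x v p b * C E x q r b)
    + (C E x v q a * C E x p r a + C E x v q b * C E x p r b)
    + (C E x v r a * C E x p q a + C E x v r b * C E x p q b))) * hst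

lemma SS_neg (x a b v p q r : V) :
    SS E x a (-b) v p q r = SS E x a b v p q r := by
  simp only [SS, map_neg]
  ring

lemma SS_exp (D : Dat E) (hx : x ≠ 0) (a b v : V) (p1 q1 p2 q2 p3 q3 : ℝ) :
    SS E x a b v (p1 • a + q1 • b) (p2 • a + q2 • b) (p3 • a + q3 • b) =
      p1 * p2 * p3 * SS E x a b v a a a + (p1 * p2 * q3 + p1 * q2 * p3 + q1 * p2 * p3) * SS E x a b v a a b
      + (p1 * q2 * q3 + q1 * p2 * q3 + q1 * q2 * p3) * SS E x a b v a b b + q1 * q2 * q3 * SS E x a b v b b b := by
  have c1 : C E x v b a = C E x v a b := C_s23 D hx _ _ _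
  have c2 : C E x a b a = C E x a a b := C_s23 D hx _ _ _
  have c3 : C E x b a a = C E x a a b := by rw [C_s12 D hx, c2]
  have c4 : C E x b a b = C E x a b b := C_s12 D hx _ _ _
  have c5 : C E x b b a = C E x a b b := by rw [C_s23 D hx, c4]
  have q1' : Q E x v a b a = Q E x v a a b := Q_s34 D hx _ _ _ _
  have q2' : Q E x v b a a = Q E x v a a b := by rw [Q_s23 D hx, q1']
  have q3' : Q E x v b a b = Q E x v a b b := Q_s23 D hx _ _ _ _
  have q4' : Q E x v b b a = Q E x v a b b := by rw [Q_s34 D hx, q3']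
  simp only [SS, map_add, map_smul, add_apply, smul_apply, smul_eq_mul, c1, c2, c3, c4, c5, q1', q2', q3', q4']
  ring

lemma C_exp3 (D : Dat E) (hx : x ≠ 0) (a b : V) (p1 q1 p2 q2 p3 q3 : ℝ) :
    C E x (p1 • a + q1 • b) (p2 • a + q2 • b) (p3 • a + q3 • b) =
      p1 * p2 * p3 * C E x a a a + (p1 * p2 * q3 + p1 * q2 * p3 + q1 * p2 * p3) * C E x a a b
      + (p1 * q2 * q3 + q1 * p2 * q3 + q1 * q2 * p3) * C E x a b b + q1 * q2 * q3 * C E x b b b := by
  have c2 : C E x a b a = C E x a a b := C_s23 D hx _ _ _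
  have c3 : C E x b a a = C E x a a b := by rw [C_s12 D hx, c2]
  have c4 : C E x b a b = C E x a b b := C_s12 D hx _ _ _
  have c5 : C E x b b a = C E x a b b := by rw [C_s23 D hx, c4]
  simp only [map_add, map_smul, add_apply, smul_apply, smul_eq_mul, c2, c3, c4, c5]
  ring

lemma SS_v (x a b u v : V) (s t : ℝ) (p q r : V) :
    SS E x a b (s • u + t • v) p q r = s * SS E x a b u p q r + t * SS E x a b v p q r := by
  simp only [SS, map_add, map_smul, add_apply, smul_apply, smul_eq_mul]
  ring

lemma eta_v (x a b u v : V) (s t : ℝ) :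
    eta E x a b (s • u + t • v) = s * eta E x a b u + t * eta E x a b v := by
  simp only [eta, cv, dv, SS_v]
  ring

/-- the one-form `eta` does not depend on the frame (rotations) -/
lemma eta_rot (D : Dat E) (hx : x ≠ 0) (a b v : V) (s t : ℝ) (hst : s ^ 2 + t ^ 2 = 1) :
    eta E x (s • a + t • b) (-t • a + s • b) v = eta E x a b v := by
  have hc : cc E x (s • a + t • b) (-t • a + s • b)
      = (s^3 - 3 * s * t^2) * cc E x a b + (3 * s^2 * t - t^3) * dd E x a b := by
    simp only [cc, dd, C_exp3 D hx]; ring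
  have hd : dd E x (s • a + t • b) (-t • a + s • b)
      = (s^3 - 3 * s * t^2) * dd E x a b - (3 * s^2 * t - t^3) * cc E x a b := by
    simp only [cc, dd, C_exp3 D hx]; ring
  have hcv : cv E x (s • a + t • b) (-t • a + s • b) v
      = (s^3 - 3 * s * t^2) * cv E x a b v + (3 * s^2 * t - t^3) * dv E x a b v := by
    simp only [cv, dv, SS_contr _ _ _ _ _ _ _ s t hst, SS_exp D hx]; ring
  have hdv : dv E x (s • a + t • b) (-t • a + s • b) v
      = (s^3 - 3 * s * t^2) * dv E x a b v - (3 * s^2 * t - t^3) * cv E x a b v := by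
    simp only [cv, dv, SS_contr _ _ _ _ _ _ _ s t hst, SS_exp D hx]; ring
  have h6 : (s^3 - 3 * s * t^2)^2 + (3 * s^2 * t - t^3)^2 = 1 := by
    have : (s^3 - 3 * s * t^2)^2 + (3 * s^2 * t - t^3)^2 = (s^2 + t^2)^3 := by ring
    rw [this, hst]; norm_num
  unfold eta
  rw [hc, hd, hcv, hdv]
  set P := s^3 - 3 * s * t^2
  set R := 3 * s^2 * t - t^3
  congr 1
  · linear_combination (cc E x a b * dv E x a b v - dd E x a b * cv E x a b v) * h6
  · linear_combination 3 * (cc E x a b ^ 2 + dd E x a b ^ 2) * h6

lemma eta_neg (D : Dat E) (hx : x ≠ 0) (a b v : V) :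
    eta E x a (-b) v = - eta E x a b v := by
  have hc : cc E x a (-b) = cc E x a b := by simp [cc]
  have hd : dd E x a (-b) = - dd E x a b := by simp [dd]; ring
  have e1 : SS E x a b v a a (-b) = - SS E x a b v a a b := by
    simp only [SS, map_neg, neg_apply]; ring
  have e2 : SS E x a b v a (-b) (-b) = SS E x a b v a b b := by
    simp only [SS, map_neg, neg_apply]; ring
  have e3 : SS E x a b v (-b) (-b) (-b) = - SS E x a b v b b b := by
    simp only [SS, map_neg, neg_apply]; ring
  have hcv : cv E x a (-b) v = cv E x a b v := by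
    simp only [cv, SS_neg, e2]
  have hdv : dv E x a (-b) v = - dv E x a b v := by
    simp only [dv, SS_neg, e1, e3]; ring
  unfold eta
  rw [hc, hd, hcv, hdv]
  rw [← neg_div]
  congr 1
  · ring
  · ring

lemma WP_rot (D : Dat E) (hx : x ≠ 0) (a b : V) (s t : ℝ) (hst : s ^ 2 + t ^ 2 = 1) :
    WP E x (s • a + t • b) (-t • a + s • b) = WP E x a b := by
  unfold WP
  rw [eta_rot D hx a b _ s t hst, eta_rot D hx a b _ s t hst, eta_v, eta_v]
  set A := eta E x a b a
  set B := eta E x a b b
  have : ((-t) * A + s * B) • (s • a + t • b) - (s * A + t * B) • (-t • a + s • b)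
      = ((s^2 + t^2) * B) • a - ((s^2 + t^2) * A) • b := by module
  rw [this, hst, one_mul, one_mul]

lemma WP_neg (D : Dat E) (hx : x ≠ 0) (a b : V) : WP E x a (-b) = WP E x a b := by
  unfold WP
  rw [eta_neg D hx, eta_neg D hx]
  have h1 : eta E x a b (-b) = - eta E x a b b := by
    have := eta_v (E := E) x a b a b 0 (-1)
    simp at this
    exact this
  rw [h1]
  module

/-- the field does not depend on the orthonormal pair -/
lemma WP_uniq (D : Dat E) (hx : x ≠ 0) {a b a' b' : V} (h : Orth E x a b) (h' : Orth E x a' b') :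
    WP E x a' b' = WP E x a b := by
  obtain ⟨s, t, hf1⟩ : ∃ s t : ℝ, a' = s • a + t • b := by
    refine ⟨g E x a' a, g E x a' b, ?_⟩
    have := h.exp D hx a'
    have h0 : g E x a' x = 0 := by rw [g_symm D hx]; exact h'.r1
    rw [h0] at this; simpa using this
  obtain ⟨c, d, hf2⟩ : ∃ s t : ℝ, b' = s • a + t • b := by
    refine ⟨g E x b' a, g E x b' b, ?_⟩
    have := h.exp D hx b'
    have h0 : g E x b' x = 0 := by rw [g_symm D hx]; exact h'.r2
    rw [h0] at this; simpa using this
  have h21 : g E x b a = 0 := by rw [g_symm D hx]; exact h.n12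
  have q1 : s^2 + t^2 = 1 := by
    have := h'.n11
    rw [hf1] at this; simp [h.n11, h.n22, h.n12, h21] at this; linarith
  have q2 : c^2 + d^2 = 1 := by
    have := h'.n22
    rw [hf2] at this; simp [h.n11, h.n22, h.n12, h21] at this; linarith
  have q3 : s*c + t*d = 0 := by
    have := h'.n12
    rw [hf1, hf2] at this; simp [h.n11, h.n22, h.n12, h21] at this; linarith
  -- (c, d) = ± (-t, s)
  have hdet : (s * d - t * c)^2 = 1 := by
    have : (s * d - t * c)^2 = (s^2 + t^2) * (c^2 + d^2) - (s*c + t*d)^2 := by ring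
    rw [this, q1, q2, q3]; norm_num
  rcases sq_eq_one_iff_of_ne_zero' _ hdet with hp | hm
  · have hc : c = -t := by
      have : c = c * (s^2 + t^2) := by rw [q1, mul_one]
      linear_combination this + s * q3 - t * hp
    have hd : d = s := by
      have : d = d * (s^2 + t^2) := by rw [q1, mul_one]
      linear_combination this + t * q3 + s * hp
    rw [hf1, hf2, hc, hd]
    exact WP_rot D hx a b s t q1
  · have hc : c = t := by
      have : c = c * (s^2 + t^2) := by rw [q1, mul_one]
      linear_combination this + s * q3 - t * hm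
    have hd : d = -s := by
      have : d = d * (s^2 + t^2) := by rw [q1, mul_one]
      linear_combination this + t * q3 + s * hm
    have hb' : b' = -(-t • a + s • b) := by rw [hf2, hc, hd]; module
    rw [hb', WP_neg D hx, hf1]
    exact WP_rot D hx a b s t q1

end Pool.Agent.U631.TD
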