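import Pool.Agent.U631.TD.F3
set_option autoImplicit false
set_option maxSynthPendingDepth 6
open Topology Filter
namespace Pool.Agent.U631.TD
open H506R3.Lau

variable {E : V → ℝ} {x : V} {e1 e2 : V → V}

noncomputable def cf (E : V → ℝ) (e1 e2 : V → V) (y : V) : ℝ := cc E y (e1 y) (e2 y)
noncomputable def df (E : V → ℝ) (e1 e2 : V → V) (y : V) : ℝ := dd E y (e1 y) (e2 y)

lemma OF.smcf (D : Dat E) (h : OF E x e1 e2) : ContDiffAt ℝ 2 (cf E e1 e2) x := by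
  have hC : ContDiffAt ℝ 2 (C E) x := sm_C2 D h.hx
  exact (((hC.clm_apply h.s1).clm_apply h.s1).clm_apply h.s1).sub
    (contDiffAt_const.mul (((hC.clm_apply h.s1).clm_apply h.s2).clm_apply h.s2))

lemma OF.smdf (D : Dat E) (h : OF E x e1 e2) : ContDiffAt ℝ 2 (df E e1 e2) x := by
  have hC : ContDiffAt ℝ 2 (C E) x := sm_C2 D h.hx
  exact (contDiffAt_const.mul (((hC.clm_apply h.s1).clm_apply h.s1).clm_apply h.s2)).sub
    (((hC.clm_apply h.s2).clm_apply h.s2).clm_apply h.s2)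

lemma OF.Dc (D : Dat E) (h : OF E x e1 e2) (v : V) :
    fderiv ℝ (cf E e1 e2) x v = cv E x (e1 x) (e2 x) v + 3 * OM E e1 e2 x v * dd E x (e1 x) (e2 x) := by
  obtain ⟨L1, a1, a2⟩ := hC3 D h.hx h.d1 h.d1 h.d1
  obtain ⟨L2, b1, b2⟩ := hC3 D h.hx h.d1 h.d2 h.d2
  have hh : HasFDerivAt (cf E e1 e2) _ x := a1.sub (b1.const_mul 3)
  rw [hh.fderiv]
  have a3 := a2 v
  have b3 := b2 v
  simp only [sub_apply, smul_apply, smul_eq_mul]
  rw [a3, b3]
  have hD1 := h.D1 D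
  have hD2 := h.D2 D
  have c121 : C E x (e1 x) (e2 x) (e1 x) = C E x (e1 x) (e1 x) (e2 x) := C_s23 D h.hx _ _ _
  have c211 : C E x (e2 x) (e1 x) (e1 x) = C E x (e1 x) (e1 x) (e2 x) := by
    rw [C_s12 D h.hx, c121]
  have c212 : C E x (e2 x) (e1 x) (e2 x) = C E x (e1 x) (e2 x) (e2 x) := C_s12 D h.hx _ _ _
  have c221 : C E x (e2 x) (e2 x) (e1 x) = C E x (e1 x) (e2 x) (e2 x) := by
    rw [C_s23 D h.hx, c212]
  have cx0 : C E x x = 0 := C_x D h.hx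
  have cx1 : ∀ u v, C E x u x v = 0 := g_sub_x2 D h.hx
  have cx2 : ∀ u v, C E x u v x = 0 := g_sub_x D h.hx
  have cv21 : C E x v (e2 x) (e1 x) = C E x v (e1 x) (e2 x) := C_s23 D h.hx _ _ _
  simp only [hD1, hD2, map_add, map_smul, add_apply, smul_apply, smul_eq_mul, zero_apply,
    c121, c211, c212, c221, cx0, cx1, cx2, cv, SS, dd, cv21]
  ring

lemma OF.Dd (D : Dat E) (h : OF E x e1 e2) (v : V) :
    fderiv ℝ (df E e1 e2) x v = dv E x (e1 x) (e2 x) v - 3 * OM E e1 e2 x v * cc E x (e1 x) (e2 x) := by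
  obtain ⟨L1, a1, a2⟩ := hC3 D h.hx h.d1 h.d1 h.d2
  obtain ⟨L2, b1, b2⟩ := hC3 D h.hx h.d2 h.d2 h.d2
  have hh : HasFDerivAt (df E e1 e2) _ x := (a1.const_mul 3).sub b1
  rw [hh.fderiv]
  have a3 := a2 v
  have b3 := b2 v
  simp only [sub_apply, smul_apply, smul_eq_mul]
  rw [a3, b3]
  have hD1 := h.D1 D
  have hD2 := h.D2 D
  have c121 : C E x (e1 x) (e2 x) (e1 x) = C E x (e1 x) (e1 x) (e2 x) := C_s23 D h.hx _ _ _
  have c211 : C E x (e2 x) (e1 x) (e1 x) = C E x (e1 x) (e1 x) (e2 x) := by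
    rw [C_s12 D h.hx, c121]
  have c212 : C E x (e2 x) (e1 x) (e2 x) = C E x (e1 x) (e2 x) (e2 x) := C_s12 D h.hx _ _ _
  have c221 : C E x (e2 x) (e2 x) (e1 x) = C E x (e1 x) (e2 x) (e2 x) := by
    rw [C_s23 D h.hx, c212]
  have cx0 : C E x x = 0 := C_x D h.hx
  have cx1 : ∀ u v, C E x u x v = 0 := g_sub_x2 D h.hx
  have cx2 : ∀ u v, C E x u v x = 0 := g_sub_x D h.hx
  have cv21 : C E x v (e2 x) (e1 x) = C E x v (e1 x) (e2 x) := C_s23 D h.hx _ _ _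
  simp only [hD1, hD2, map_add, map_smul, add_apply, smul_apply, smul_eq_mul, zero_apply,
    c121, c211, c212, c221, cx0, cx1, cx2, dv, SS, cc, cv21]
  ring

/-- the connection form corrected by the angle of the cubic form -/
noncomputable def ETA (E : V → ℝ) (e1 e2 : V → V) (y : V) : V →L[ℝ] ℝ :=
  OM E e1 e2 y + (1 / (3 * (cf E e1 e2 y ^ 2 + df E e1 e2 y ^ 2))) •
    (cf E e1 e2 y • fderiv ℝ (df E e1 e2) y - df E e1 e2 y • fderiv ℝ (cf E e1 e2) y)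

lemma OF.ETA_eq (D : Dat E) (h : OF E x e1 e2) (hN : cf E e1 e2 x ^ 2 + df E e1 e2 x ^ 2 ≠ 0) (v : V) :
    ETA E e1 e2 x v = eta E x (e1 x) (e2 x) v := by
  simp only [ETA, add_apply, smul_apply, sub_apply, smul_eq_mul]
  rw [h.Dc D, h.Dd D]
  have hN' : cc E x (e1 x) (e2 x) ^ 2 + dd E x (e1 x) (e2 x) ^ 2 ≠ 0 := hN
  simp only [eta, cf, df]
  field_simp
  ring

lemma OF.smETA (D : Dat E) (h : OF E x e1 e2) (hN : cf E e1 e2 x ^ 2 + df E e1 e2 x ^ 2 ≠ 0) :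
    ContDiffAt ℝ 1 (ETA E e1 e2) x := by
  have h12 : (1 : WithTop ℕ∞) ≤ 2 := by norm_num
  have hc := h.smcf D
  have hd := h.smdf D
  have hc1 : ContDiffAt ℝ 1 (fderiv ℝ (cf E e1 e2)) x := hc.fderiv_right (m := 1) (by norm_num)
  have hd1 : ContDiffAt ℝ 1 (fderiv ℝ (df E e1 e2)) x := hd.fderiv_right (m := 1) (by norm_num)
  have hc' := hc.of_le h12
  have hd' := hd.of_le h12
  have hNN : ContDiffAt ℝ 1 (fun y => 1 / (3 * (cf E e1 e2 y ^ 2 + df E e1 e2 y ^ 2))) x :=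
    contDiffAt_const.div (contDiffAt_const.mul ((hc'.pow 2).add (hd'.pow 2)))
      (mul_ne_zero three_ne_zero hN)
  exact (h.smOM D).add (hNN.smul ((hc'.smul hd1).sub (hd'.smul hc1)))

lemma dang {c d : V → ℝ} (hc : ContDiffAt ℝ 2 c x) (hd : ContDiffAt ℝ 2 d x)
    (hN : c x ^ 2 + d x ^ 2 ≠ 0) :
    ∃ A : V →L[ℝ] V →L[ℝ] ℝ, HasFDerivAt (fun y => (1 / (3 * (c y ^ 2 + d y ^ 2))) •
      (c y • fderiv ℝ d y - d y • fderiv ℝ c y)) A x ∧ ∀ u v, A u v = A v u := by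
  have hc0 : HasFDerivAt c (fderiv ℝ c x) x := (hc.differentiableAt (by simp)).hasFDerivAt
  have hd0 : HasFDerivAt d (fderiv ℝ d x) x := (hd.differentiableAt (by simp)).hasFDerivAt
  have hc1 : HasFDerivAt (fderiv ℝ c) (fderiv ℝ (fderiv ℝ c) x) x :=
    ((hc.fderiv_right (m := 1) (by norm_num)).differentiableAt (by simp)).hasFDerivAt
  have hd1 : HasFDerivAt (fderiv ℝ d) (fderiv ℝ (fderiv ℝ d) x) x :=
    ((hd.fderiv_right (m := 1) (by norm_num)).differentiableAt (by simp)).hasFDerivAt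
  have hcs : ∀ u v, fderiv ℝ (fderiv ℝ c) x u v = fderiv ℝ (fderiv ℝ c) x v u := fun u v =>
    (hc.isSymmSndFDerivAt (by simp)) u v
  have hds : ∀ u v, fderiv ℝ (fderiv ℝ d) x u v = fderiv ℝ (fderiv ℝ d) x v u := fun u v =>
    (hd.isSymmSndFDerivAt (by simp)) u v
  have hM : HasFDerivAt (fun y => 3 * (c y * c y + d y * d y))
      ((3:ℝ) • ((c x • fderiv ℝ c x + c x • fderiv ℝ c x) + (d x • fderiv ℝ d x + d x • fderiv ℝ d x))) x :=
    ((hc0.mul hc0).add (hd0.mul hd0)).const_mul 3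
  have hN' : 3 * (c x * c x + d x * d x) ≠ 0 := by
    rw [← sq, ← sq]; exact mul_ne_zero three_ne_zero hN
  have hMi : HasFDerivAt (fun y => 1 / (3 * (c y ^ 2 + d y ^ 2)))
      ((-((3 * (c x * c x + d x * d x)) ^ 2)⁻¹) • ((3:ℝ) • ((c x • fderiv ℝ c x + c x • fderiv ℝ c x) + (d x • fderiv ℝ d x + d x • fderiv ℝ d x)))) x := by
    have h := (hasDerivAt_inv hN').comp_hasFDerivAt x hM
    have he : (fun y => 1 / (3 * (c y ^ 2 + d y ^ 2))) = (fun y : ℝ => y⁻¹) ∘ (fun y => 3 * (c y * c y + d y * d y)) := by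
      funext y; simp only [Function.comp, one_div, sq]
    rw [he]; exact h
  refine ⟨_, hMi.smul ((hc0.smul hd1).sub (hd0.smul hc1)), ?_⟩
  intro u v
  simp only [add_apply, smul_apply, sub_apply, smul_eq_mul, ContinuousLinearMap.smulRight_apply,
    hcs u v, hds u v]
  have hN2 : c x * c x + d x * d x ≠ 0 := by rw [← sq, ← sq]; exact hN
  field_simp
  ring

/-- the divergence of the canonical field -/
lemma OF.divW (D : Dat E) (h : OF E x e1 e2) (hN : cf E e1 e2 x ^ 2 + df E e1 e2 x ^ 2 ≠ 0) :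
    ∃ T : V →L[ℝ] V, HasFDerivAt (fun y => WP E y (e1 y) (e2 y)) T x ∧
      ∑ i, (T (ee i)) i + (1/2) * (C E x (WP E x (e1 x) (e2 x)) (e1 x) (e1 x)
        + C E x (WP E x (e1 x) (e2 x)) (e2 x) (e2 x))
      = -(1 / g E x x x + rho E x (e1 x) (e2 x) / 4) := by
  have hO : HasFDerivAt (OM E e1 e2) (fderiv ℝ (OM E e1 e2) x) x :=
    ((h.smOM D).differentiableAt (by simp)).hasFDerivAt
  obtain ⟨A, hA, hAs⟩ := dang (h.smcf D) (h.smdf D) hN
  have hE : HasFDerivAt (ETA E e1 e2) (fderiv ℝ (OM E e1 e2) x + A) x := hO.add hA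
  obtain ⟨T, h1, h2⟩ := h.DIV D hE
  have hNc : ContinuousAt (fun y => cf E e1 e2 y ^ 2 + df E e1 e2 y ^ 2) x :=
    ((h.smcf D).continuousAt.pow 2).add ((h.smdf D).continuousAt.pow 2)
  have hev : ∀ᶠ y in 𝓝 x, cf E e1 e2 y ^ 2 + df E e1 e2 y ^ 2 ≠ 0 := hNc.eventually_ne hN
  have hfun : (fun y => WP E y (e1 y) (e2 y)) =ᶠ[𝓝 x]
      (fun y => ETA E e1 e2 y (e2 y) • e1 y - ETA E e1 e2 y (e1 y) • e2 y) := by
    filter_upwards [h.ev, hev] with y hy hNy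
    rw [hy.ETA_eq D hNy, hy.ETA_eq D hNy, WP]
  refine ⟨T, h1.congr_of_eventuallyEq hfun, ?_⟩
  rw [hfun.eq_of_nhds]
  rw [h2]
  have h3 := h.curv D hO
  rw [← h3]
  simp only [add_apply]
  rw [hAs (e1 x) (e2 x)]
  ring

end Pool.Agent.U631.TD
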