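import Pool.Agent.U631.TD.F4
set_option autoImplicit false
set_option maxSynthPendingDepth 6
open Topology Filter MeasureTheory
namespace Pool.Agent.U631.TD
open H506R3.Lau

variable {E : V → ℝ} {x : V} {e1 e2 : V → V}

open Classical in
/-- the canonical field -/
noncomputable def Wg (E : V → ℝ) (x : V) : V :=
  if h : ∃ p : V × V, Orth E x p.1 p.2 then WP E x h.choose.1 h.choose.2 else 0

lemma Wg_eq (D : Dat E) (hx : x ≠ 0) {a b : V} (h : Orth E x a b) : Wg E x = WP E x a b := by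
  have hex : ∃ p : V × V, Orth E x p.1 p.2 := ⟨(a, b), h⟩
  rw [Wg, dif_pos hex]
  exact WP_uniq D hx h hex.choose_spec

/-- smooth positive cut off -/
lemma smr (D : Dat E) (hx : x ≠ 0) {c0 : ℝ} (ρ : ContDiffBump c0) :
    ContDiffAt ℝ 1 (fun y => ρ (g E y y y)) x := by
  have hg : ContDiffAt ℝ 1 (g E) x := (sm_g D hx).of_le (WithTop.coe_le_coe.2 (le_top : (1:ℕ∞) ≤ ⊤))
  have h1 : ContDiffAt ℝ 1 (fun y => g E y y y) x := (hg.clm_apply contDiffAt_id).clm_apply contDiffAt_id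
  have hρ : ContDiff ℝ 1 (ρ : ℝ → ℝ) := ρ.contDiff
  exact ContDiffAt.comp (g := (ρ : ℝ → ℝ)) (f := fun y => g E y y y) x hρ.contDiffAt h1

lemma hdr (D : Dat E) (hx : x ≠ 0) {c0 : ℝ} (ρ : ContDiffBump c0) :
    ∃ L : V →L[ℝ] ℝ, HasFDerivAt (fun y => ρ (g E y y y)) L x ∧ ∀ v, g E x x v = 0 → L v = 0 := by
  obtain ⟨L, h1, h2⟩ := hg2 D hx (hasFDerivAt_id x) (hasFDerivAt_id x)
  have hρ : HasFDerivAt (ρ : ℝ → ℝ) (fderiv ℝ ρ (g E x x x)) (g E x x x) :=
    ((ρ.contDiff (n := 1)).differentiable (by norm_num)).differentiableAt.hasFDerivAt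
  have h1' : HasFDerivAt (fun y => g E y y y) L x := h1
  have h4 := HasFDerivAt.comp (g := (ρ : ℝ → ℝ)) (f := fun y => g E y y y) x hρ h1'
  refine ⟨_, h4, ?_⟩
  intro v hv
  have h7 : L v = 0 := by
    rw [h2]
    simp only [id, ContinuousLinearMap.id_apply]
    rw [g_sub_x D hx, hv, g_symm D hx v x, hv]; ring
  simp [h7]

lemma smdn (D : Dat E) (h : OF E x e1 e2) : ContDiffAt ℝ 1 (dn E) x := by
  have hg : ContDiffAt ℝ 1 (g E) x := (sm_g D h.hx).of_le (WithTop.coe_le_coe.2 (le_top : (1:ℕ∞) ≤ ⊤))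
  have hGij : ∀ i j, ContDiffAt ℝ 1 (fun y => G E y i j) x := by
    intro i j
    exact (hg.clm_apply contDiffAt_const).clm_apply contDiffAt_const
  have hdet : ContDiffAt ℝ 1 (fun y => (G E y).det) x := by
    have h0 : (fun y => (G E y).det) = fun y => G E y 0 0 * (G E y 1 1 * G E y 2 2 - G E y 1 2 * G E y 2 1)
        - G E y 0 1 * (G E y 1 0 * G E y 2 2 - G E y 1 2 * G E y 2 0)
        + G E y 0 2 * (G E y 1 0 * G E y 2 1 - G E y 1 1 * G E y 2 0) := by
      funext y; rw [Matrix.det_fin_three]; ring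
    rw [h0]
    exact (((hGij 0 0).mul (((hGij 1 1).mul (hGij 2 2)).sub ((hGij 1 2).mul (hGij 2 1)))).sub
      ((hGij 0 1).mul (((hGij 1 0).mul (hGij 2 2)).sub ((hGij 1 2).mul (hGij 2 0))))).add
      ((hGij 0 2).mul (((hGij 1 0).mul (hGij 2 1)).sub ((hGij 1 1).mul (hGij 2 0))))
  exact hdet.sqrt (det_pos x (h.at.on D h.hx)).ne'

noncomputable def Xg (E : V → ℝ) {c0 : ℝ} (ρ : ContDiffBump c0) (x : V) : V :=
  (dn E x * ρ (g E x x x)) • Wg E x

variable {c0 : ℝ} {ρ : ContDiffBump c0}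

lemma Xg_fr (D : Dat E) (h : OF E x e1 e2) :
    Xg E ρ =ᶠ[𝓝 x] (fun y => (dn E y * ρ (g E y y y)) • WP E y (e1 y) (e2 y)) := by
  filter_upwards [h.ev] with y hy
  rw [Xg, Wg_eq D hy.hx hy.at]

lemma smWP (D : Dat E) (h : OF E x e1 e2) (hN : cf E e1 e2 x ^ 2 + df E e1 e2 x ^ 2 ≠ 0) :
    ContDiffAt ℝ 1 (fun y => WP E y (e1 y) (e2 y)) x := by
  have h12 : (1 : WithTop ℕ∞) ≤ 2 := by norm_num
  have hE := h.smETA D hN
  have s1 := h.s1.of_le h12
  have s2 := h.s2.of_le h12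
  have hNc : ContinuousAt (fun y => cf E e1 e2 y ^ 2 + df E e1 e2 y ^ 2) x :=
    ((h.smcf D).continuousAt.pow 2).add ((h.smdf D).continuousAt.pow 2)
  have hev : ∀ᶠ y in 𝓝 x, cf E e1 e2 y ^ 2 + df E e1 e2 y ^ 2 ≠ 0 := hNc.eventually_ne hN
  have hfun : (fun y => WP E y (e1 y) (e2 y)) =ᶠ[𝓝 x]
      (fun y => ETA E e1 e2 y (e2 y) • e1 y - ETA E e1 e2 y (e1 y) • e2 y) := by
    filter_upwards [h.ev, hev] with y hy hNy
    rw [hy.ETA_eq D hNy, hy.ETA_eq D hNy, WP]
  exact (((hE.clm_apply s2).smul s1).sub ((hE.clm_apply s1).smul s2)).congr_of_eventuallyEq hfun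

lemma divXg (D : Dat E) (h : OF E x e1 e2) (hN : cf E e1 e2 x ^ 2 + df E e1 e2 x ^ 2 ≠ 0) :
    ∑ i, (fderiv ℝ (Xg E ρ) x (ee i)) i = - (dn E x * ρ (g E x x x) *
      (1 / g E x x x + rho E x (e1 x) (e2 x) / 4)) := by
  obtain ⟨T, t1, t2⟩ := h.divW D hN
  obtain ⟨Ld, d1, d2⟩ := h.at.dn D h.hx
  obtain ⟨Lr, r1, r2⟩ := hdr D h.hx ρ
  have hX : HasFDerivAt (fun y => (dn E y * ρ (g E y y y)) • WP E y (e1 y) (e2 y)) _ x :=
    (d1.mul r1).smul t1
  have hX' := hX.congr_of_eventuallyEq (Xg_fr (ρ := ρ) D h)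
  rw [hX'.fderiv]
  have htr : ∀ (L : V →L[ℝ] ℝ) (z : V), ∑ i, (L (ee i)) * z i = L z := by
    intro L z
    rw [lexp L z, Fin.sum_univ_three]; ring
  set W := WP E x (e1 x) (e2 x) with hW
  have hW0 : g E x x W = 0 := by
    rw [hW, WP]
    simp only [map_sub, map_smul, h.at.r1, h.at.r2, smul_eq_mul]; ring
  have hsum : ∀ i, ((dn E x * ρ (g E x x x)) • T
      + (dn E x • Lr + ρ (g E x x x) • Ld).smulRight W) (ee i) i
      = (dn E x * ρ (g E x x x)) * (T (ee i)) i
        + (dn E x * (Lr (ee i) * W i) + ρ (g E x x x) * (Ld (ee i) * W i)) := by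
    intro i
    simp
    ring
  refine (Finset.sum_congr rfl fun i _ => hsum i).trans ?_
  rw [Finset.sum_add_distrib, ← Finset.mul_sum, Finset.sum_add_distrib,
    ← Finset.mul_sum, ← Finset.mul_sum, htr, htr, r2 W hW0, d2]
  linear_combination (dn E x * ρ (g E x x x)) * t2

/-- a norm on `ℝ³` whose cubic form has a nowhere vanishing trace free part has a point where the
curvature of the indicatrix is nonpositive -/
lemma core2 (D : Dat E) (hN : ∀ x : V, x ≠ 0 → ∀ a b, Orth E x a b → cc E x a b ^ 2 + dd E x a b ^ 2 ≠ 0)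
    (hK : ∀ x : V, x ≠ 0 → ∀ a b, Orth E x a b → 0 < 1 / g E x x x + rho E x a b / 4) : False := by
  set p : V := ee 0 with hp'
  have hp : p ≠ 0 := by
    intro h
    have := congrFun h 0
    simp [hp', ee] at this
  set c0 := g E p p p with hc0
  have hc0p : 0 < c0 := D.pos p hp p hp
  let ρ : ContDiffBump c0 := ⟨c0/4, c0/2, by positivity, by linarith⟩
  obtain ⟨m, M, hm, hM, hE⟩ := E_bounds D
  set r := Real.sqrt (c0 / (4 * M)) with hr
  set R := Real.sqrt (3 * c0 / (4 * m)) with hR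
  have hrp : 0 < r := Real.sqrt_pos.2 (by positivity)
  have hsupp : ∀ x, ρ (g E x x x) ≠ 0 → x ∈ Kan r R := by
    intro x hx
    have h1 : g E x x x ∈ Metric.ball c0 (c0/2) := by
      have := (ρ.support_eq (E := ℝ))
      rw [← this]; exact hx
    rw [Metric.mem_ball, Real.dist_eq, abs_lt] at h1
    have hx0 : x ≠ 0 := by
      intro h; rw [h] at h1; simp at h1; linarith
    rw [g_xx D hx0] at h1
    obtain ⟨b1, b2⟩ := hE x hx0
    constructor
    · rw [mem_closedBall_zero_iff]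
      apply Real.le_sqrt_of_sq_le
      rw [le_div_iff₀ (by positivity)]
      nlinarith
    · show r ≤ ‖x‖
      apply Real.sqrt_le_iff.2
      refine ⟨norm_nonneg _, ?_⟩
      rw [div_le_iff₀ (by positivity)]
      nlinarith
  have hz0 : Xg E ρ =ᶠ[𝓝 0] (fun _ => 0) := by
    have h1 : ∀ᶠ y : V in 𝓝 0, ‖y‖ < r := continuous_norm.continuousAt.eventually_lt_const (by simpa using hrp)
    filter_upwards [h1] with y hy
    have h2 : ρ (g E y y y) = 0 := by
      by_contra h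
      exact absurd (hsupp y h).2 (not_le.2 hy)
    simp [Xg, h2]
  have hfr : ∀ x : V, x ≠ 0 → ∃ e1 e2 : V → V, OF E x e1 e2 := by
    intro x hx
    obtain ⟨f1, f2, a1, a2, a3⟩ := exists_orth D hx
    exact ⟨f1, f2, hx, a1, a2, a3⟩
  have hsm : ContDiff ℝ 1 (Xg E ρ) := by
    rw [contDiff_iff_contDiffAt]
    intro x
    by_cases hx : x = 0
    · rw [hx]; exact contDiffAt_const.congr_of_eventuallyEq hz0
    obtain ⟨e1, e2, h⟩ := hfr x hx
    exact (((smdn D h).mul (smr D hx ρ)).smul (smWP D h (hN x hx _ _ h.at))).congr_of_eventuallyEq (Xg_fr D h)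
  have hcs : HasCompactSupport (Xg E ρ) := by
    apply HasCompactSupport.of_support_subset_isCompact (Kan_compact r R)
    intro x hx
    apply hsupp
    intro h
    apply hx
    simp [Xg, h]
  obtain ⟨i1, i2⟩ := int_div _ hsm hcs
  set f : V → ℝ := fun x => - ∑ i, (fderiv ℝ (Xg E ρ) x (ee i)) i with hf
  have hfc : Continuous f := by
    have h1 : Continuous (fderiv ℝ (Xg E ρ)) := hsm.continuous_fderiv (by norm_num)
    refine (continuous_finsetSum _ fun i _ => ?_).neg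
    exact (continuous_apply i).comp (h1.clm_apply continuous_const)
  have hfz : ∀ x : V, x = 0 → f x = 0 := by
    intro x hx
    have h1 : HasFDerivAt (Xg E ρ) (0 : V →L[ℝ] V) x := by
      rw [hx]; exact (hasFDerivAt_const 0 0).congr_of_eventuallyEq hz0
    simp only [hf, h1.fderiv]; simp
  have hfs : HasCompactSupport f := by
    have h1 : HasCompactSupport (fderiv ℝ (Xg E ρ)) := hcs.fderiv (𝕜 := ℝ)
    apply HasCompactSupport.of_support_subset_isCompact h1
    intro x hx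
    apply subset_tsupport
    intro h
    apply hx
    simp only [hf, h]; simp
  have hval : ∀ x : V, x ≠ 0 → ∃ a b, Orth E x a b ∧ f x = dn E x * ρ (g E x x x) *
      (1 / g E x x x + rho E x a b / 4) := by
    intro x hx
    obtain ⟨e1, e2, h⟩ := hfr x hx
    refine ⟨e1 x, e2 x, h.at, ?_⟩
    simp only [hf]
    rw [divXg D h (hN x hx _ _ h.at)]; ring
  have hfn : 0 ≤ f := by
    intro x
    by_cases hx : x = 0
    · rw [hfz x hx]; simp
    obtain ⟨a, b, h, e⟩ := hval x hx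
    rw [e]
    have h1 : 0 ≤ dn E x := Real.sqrt_nonneg _
    have h2 : 0 ≤ ρ (g E x x x) := ρ.nonneg
    have h3 := (hK x hx a b h).le
    simp only [Pi.zero_apply]
    positivity
  have hfp : f p ≠ 0 := by
    obtain ⟨a, b, h, e⟩ := hval p hp
    rw [e]
    have h1 : 0 < dn E p := Real.sqrt_pos.2 (det_pos p (h.on D hp))
    have h2 : ρ (g E p p p) = 1 := ρ.one_of_mem_closedBall (by
      rw [← hc0]; exact Metric.mem_closedBall_self (by positivity))
    have h3 := hK p hp a b h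
    rw [h2]
    positivity
  have hpos := hfc.integral_pos_of_hasCompactSupport_nonneg_nonzero (μ := (volume : Measure V)) hfs hfn hfp
  rw [hf] at hpos
  rw [integral_neg, i1] at hpos
  simp at hpos

end Pool.Agent.U631.TD
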