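import Pool.Agent.U631.TD.F5
set_option autoImplicit false
set_option maxSynthPendingDepth 6
open Topology Filter
namespace Pool.Agent.U631.TD
open H506R3.Lau

variable {E : V → ℝ} {x : V} {e1 e2 : V → V} {K : V → V}

/-- infinitesimal isometries of the Hessian metric, homogeneous of degree one -/
structure Kil (E : V → ℝ) (K : V → V) : Prop where
  sm : ∀ x, x ≠ 0 → ContDiffAt ℝ ((⊤ : ℕ∞) : WithTop ℕ∞) K x
  hom : ∀ x, x ≠ 0 → ∀ t : ℝ, 0 < t → K (t • x) = t • K x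
  kil : ∀ x, x ≠ 0 → ∀ u v, C E x (K x) u v + g E x (fderiv ℝ K x u) v + g E x u (fderiv ℝ K x v) = 0

lemma Kil.sm3 (h : Kil E K) (hx : x ≠ 0) : ContDiffAt ℝ 3 K x :=
  (h.sm x hx).of_le (WithTop.coe_le_coe.2 (le_top : (3:ℕ∞) ≤ ⊤))

lemma Kil.hd (h : Kil E K) (hx : x ≠ 0) : HasFDerivAt K (fderiv ℝ K x) x :=
  ((h.sm x hx).differentiableAt top_ne_zero').hasFDerivAt

lemma Kil.hdd (h : Kil E K) (hx : x ≠ 0) : HasFDerivAt (fderiv ℝ K) (fderiv ℝ (fderiv ℝ K) x) x :=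
  (((h.sm x hx).fderiv_right top_add_one).differentiableAt top_ne_zero').hasFDerivAt

lemma Kil.symm2 (h : Kil E K) (hx : x ≠ 0) (u v : V) :
    fderiv ℝ (fderiv ℝ K) x u v = fderiv ℝ (fderiv ℝ K) x v u := symmAux (h.sm x hx) u v

lemma Kil.euler (h : Kil E K) (hx : x ≠ 0) : fderiv ℝ K x x = K x := by
  have h1 : HasDerivAt (fun t : ℝ => K (t • x)) (fderiv ℝ K ((1:ℝ) • x) ((1:ℝ) • x)) 1 := by
    have ha : HasDerivAt (fun t : ℝ => t • x) ((1:ℝ) • x) 1 := (hasDerivAt_id (1:ℝ)).smul_const x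
    have hb : HasFDerivAt K (fderiv ℝ K ((1:ℝ) • x)) ((1:ℝ) • x) := h.hd (by simpa using hx)
    exact hb.comp_hasDerivAt 1 ha
  have h2 : HasDerivAt (fun t : ℝ => t • K x) ((1:ℝ) • K x) 1 := (hasDerivAt_id (1:ℝ)).smul_const (K x)
  have h3 : (fun t : ℝ => K (t • x)) =ᶠ[𝓝 1] (fun t : ℝ => t • K x) := by
    filter_upwards [lt_mem_nhds (show (0:ℝ) < 1 by norm_num)] with t ht
    exact h.hom x hx t ht
  have h4 := (h2.congr_of_eventuallyEq h3).unique h1
  simpa using h4.symm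

lemma Kil.gx (D : Dat E) (h : Kil E K) (hx : x ≠ 0) : g E x (K x) x = 0 := by
  have h1 := h.kil x hx x x
  rw [h.euler hx, g_sub_x D hx, g_symm D hx x (K x)] at h1
  linarith

lemma Kil.gDx (D : Dat E) (h : Kil E K) (hx : x ≠ 0) (v : V) :
    g E x (fderiv ℝ K x v) x = - g E x (K x) v := by
  have h1 := h.kil x hx v x
  rw [h.euler hx, g_sub_x D hx, g_symm D hx v (K x)] at h1
  linarith

/-- the second derivatives of a Killing field -/
lemma Kil.dd2 (D : Dat E) (h : Kil E K) (hx : x ≠ 0) (w u v : V) :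
    g E x (fderiv ℝ (fderiv ℝ K) x w u) v = -(1/2) * (Q E x (K x) w u v + C E x (fderiv ℝ K x w) u v
      + C E x (fderiv ℝ K x u) w v + C E x (fderiv ℝ K x v) w u) := by
  have key : ∀ w u v : V, Q E x w (K x) u v + C E x (fderiv ℝ K x w) u v
      + (C E x w (fderiv ℝ K x u) v + g E x (fderiv ℝ (fderiv ℝ K) x w u) v)
      + (C E x w u (fderiv ℝ K x v) + g E x u (fderiv ℝ (fderiv ℝ K) x w v)) = 0 := by
    intro w u v
    obtain ⟨L1, a1, a2⟩ := hC3 D hx (h.hd hx) (hasFDerivAt_const u x) (hasFDerivAt_const v x)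
    obtain ⟨L2, b1, b2⟩ := hg2 D hx ((h.hdd hx).clm_apply (hasFDerivAt_const u x)) (hasFDerivAt_const v x)
    obtain ⟨L3, c1, c2⟩ := hg2 D hx (hasFDerivAt_const u x) ((h.hdd hx).clm_apply (hasFDerivAt_const v x))
    have hs := (a1.add b1).add c1
    have h3 := evconst hs (c := 0) (by
      filter_upwards [ne_ev hx] with y hy
      exact h.kil y hy u v)
    have h4 := congrArg (fun L : V →L[ℝ] ℝ => L w) h3
    have a3 := a2 w
    have b3 := b2 w
    have c3 := c2 w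
    simp at h4 a3 b3 c3
    rw [a3, b3, c3] at h4
    linarith
  have k1 := key w u v
  have k2 := key u w v
  have k3 := key v u w
  have n1 : Q E x w (K x) u v = Q E x (K x) w u v := Q_s12 D hx _ _ _ _
  have n2 : Q E x u (K x) w v = Q E x (K x) w u v := by rw [Q_s12 D hx, Q_s23 D hx]
  have n3 : Q E x v (K x) u w = Q E x (K x) w u v := by
    rw [Q_s12 D hx, Q_s23 D hx, Q_s34 D hx, Q_s23 D hx, Q_s34 D hx]
  have m1 : C E x w (fderiv ℝ K x u) v = C E x (fderiv ℝ K x u) w v := C_s12 D hx _ _ _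
  have m2 : C E x w u (fderiv ℝ K x v) = C E x (fderiv ℝ K x v) w u := by rw [C_s23 D hx, C_s12 D hx]
  have m3 : C E x u (fderiv ℝ K x w) v = C E x (fderiv ℝ K x w) u v := C_s12 D hx _ _ _
  have m4 : C E x u w (fderiv ℝ K x v) = C E x (fderiv ℝ K x v) w u := by
    rw [C_s23 D hx, C_s12 D hx, C_s23 D hx]
  have m5 : C E x (fderiv ℝ K x v) u w = C E x (fderiv ℝ K x v) w u := C_s23 D hx _ _ _
  have m6 : C E x v (fderiv ℝ K x u) w = C E x (fderiv ℝ K x u) w v := by rw [C_s12 D hx, C_s23 D hx]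
  have m7 : C E x v u (fderiv ℝ K x w) = C E x (fderiv ℝ K x w) u v := by
    rw [C_s23 D hx, C_s12 D hx, C_s23 D hx]
  rw [n1, m1, m2] at k1
  rw [n2, m3, m4, h.symm2 hx u w, g_symm D hx w (fderiv ℝ (fderiv ℝ K) x u v)] at k2
  rw [n3, m5, m6, m7, h.symm2 hx v u, h.symm2 hx v w, g_symm D hx u (fderiv ℝ (fderiv ℝ K) x w v)] at k3
  rw [g_symm D hx u (fderiv ℝ (fderiv ℝ K) x w v)] at k1
  linarith

noncomputable def k1 (E : V → ℝ) (K e1 : V → V) (y : V) : ℝ := g E y (K y) (e1 y)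
noncomputable def ff (E : V → ℝ) (K e1 e2 : V → V) (y : V) : ℝ :=
  g E y (fderiv ℝ K y (e1 y)) (e2 y) + (1/2) * C E y (K y) (e1 y) (e2 y)

lemma Kil.Kexp (D : Dat E) (hK : Kil E K) (h : OF E x e1 e2) :
    K x = k1 E K e1 x • e1 x + k1 E K e2 x • e2 x := by
  have h1 := h.at.exp D h.hx (K x)
  rw [hK.gx D h.hx] at h1
  simpa [k1] using h1

lemma Kil.DK1 (D : Dat E) (hK : Kil E K) (h : OF E x e1 e2) :
    fderiv ℝ K x (e1 x) = (-(1/2) * C E x (K x) (e1 x) (e1 x)) • e1 x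
      + (ff E K e1 e2 x - (1/2) * C E x (K x) (e1 x) (e2 x)) • e2 x + (- k1 E K e1 x / g E x x x) • x := by
  have h1 := h.at.exp D h.hx (fderiv ℝ K x (e1 x))
  have h2 : g E x (fderiv ℝ K x (e1 x)) (e1 x) = -(1/2) * C E x (K x) (e1 x) (e1 x) := by
    have := hK.kil x h.hx (e1 x) (e1 x)
    rw [g_symm D h.hx (e1 x) (fderiv ℝ K x (e1 x))] at this
    linarith
  have h3 : g E x (fderiv ℝ K x (e1 x)) (e2 x) = ff E K e1 e2 x - (1/2) * C E x (K x) (e1 x) (e2 x) := by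
    rw [ff]; ring
  rw [h2, h3, hK.gDx D h.hx] at h1
  exact h1

lemma Kil.DK2 (D : Dat E) (hK : Kil E K) (h : OF E x e1 e2) :
    fderiv ℝ K x (e2 x) = (-(ff E K e1 e2 x) - (1/2) * C E x (K x) (e1 x) (e2 x)) • e1 x
      + (-(1/2) * C E x (K x) (e2 x) (e2 x)) • e2 x + (- k1 E K e2 x / g E x x x) • x := by
  have h1 := h.at.exp D h.hx (fderiv ℝ K x (e2 x))
  have h2 : g E x (fderiv ℝ K x (e2 x)) (e2 x) = -(1/2) * C E x (K x) (e2 x) (e2 x) := by
    have := hK.kil x h.hx (e2 x) (e2 x)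
    rw [g_symm D h.hx (e2 x) (fderiv ℝ K x (e2 x))] at this
    linarith
  have h3 : g E x (fderiv ℝ K x (e2 x)) (e1 x) = -(ff E K e1 e2 x) - (1/2) * C E x (K x) (e1 x) (e2 x) := by
    have := hK.kil x h.hx (e1 x) (e2 x)
    rw [g_symm D h.hx (e1 x) (fderiv ℝ K x (e2 x))] at this
    rw [ff]; linarith
  rw [h2, h3, hK.gDx D h.hx] at h1
  exact h1

/-- `v` in the frame -/
lemma OF.vexp (D : Dat E) (h : OF E x e1 e2) (v : V) :
    v = g E x v (e1 x) • e1 x + g E x v (e2 x) • e2 x + (g E x v x / g E x x x) • x :=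
  h.at.exp D h.hx v

lemma Kil.DKv (D : Dat E) (hK : Kil E K) (h : OF E x e1 e2) (v : V) :
    fderiv ℝ K x v = g E x v (e1 x) • fderiv ℝ K x (e1 x) + g E x v (e2 x) • fderiv ℝ K x (e2 x)
      + (g E x v x / g E x x x) • K x := by
  conv_lhs => rw [h.vexp D v]
  rw [map_add, map_add, map_smul, map_smul, map_smul, hK.euler h.hx]

lemma Kil.dk1 (D : Dat E) (hK : Kil E K) (h : OF E x e1 e2) :
    ∃ L : V →L[ℝ] ℝ, HasFDerivAt (k1 E K e1) L x ∧ ∀ v, L v = - g E x v (e2 x) * ff E K e1 e2 x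
      + g E x v x / g E x x x * k1 E K e1 x + OM E e1 e2 x v * k1 E K e2 x := by
  obtain ⟨L, a1, a2⟩ := hg2 D h.hx (hK.hd h.hx) h.d1
  refine ⟨L, a1, ?_⟩
  intro v
  rw [a2 v]
  have hr := r2pos D h.hx
  have h21 : g E x (e2 x) (e1 x) = 0 := by rw [g_symm D h.hx]; exact h.at.n12
  have s12 : g E x (e1 x) (e2 x) = 0 := h.at.n12
  have s11 : g E x (e1 x) (e1 x) = 1 := h.at.n11
  have s22 : g E x (e2 x) (e2 x) = 1 := h.at.n22
  have rx1 : g E x x (e1 x) = 0 := h.at.r1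
  have rx2 : g E x x (e2 x) = 0 := h.at.r2
  have hgK : g E x (K x) x = 0 := hK.gx D h.hx
  have hK1 : g E x (K x) (e1 x) = k1 E K e1 x := rfl
  have hK2 : g E x (K x) (e2 x) = k1 E K e2 x := rfl
  have t1 : g E x (fderiv ℝ K x v) (e1 x) = g E x v (e1 x) * (-(1/2) * C E x (K x) (e1 x) (e1 x))
      + g E x v (e2 x) * (-(ff E K e1 e2 x) - (1/2) * C E x (K x) (e1 x) (e2 x))
      + g E x v x / g E x x x * k1 E K e1 x := by
    rw [hK.DKv D h v, hK.DK1 D h, hK.DK2 D h]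
    simp only [map_add, map_smul, add_apply, smul_apply, smul_eq_mul, s11, s12, h21, rx1, hK1]
    ring
  have t2 : g E x (K x) (fderiv ℝ e1 x v) = -(1/2) * C E x v (e1 x) (e1 x) * k1 E K e1 x
      + (OM E e1 e2 x v - (1/2) * C E x v (e1 x) (e2 x)) * k1 E K e2 x := by
    rw [h.D1 D v]
    simp only [map_add, map_smul, smul_eq_mul, hK1, hK2, hgK]
    ring
  have t3 : C E x v (K x) (e1 x) = k1 E K e1 x * C E x v (e1 x) (e1 x) + k1 E K e2 x * C E x v (e1 x) (e2 x) := by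
    conv_lhs => rw [hK.Kexp D h]
    have : C E x v (e2 x) (e1 x) = C E x v (e1 x) (e2 x) := C_s23 D h.hx _ _ _
    simp only [map_add, map_smul, add_apply, smul_apply, smul_eq_mul, this]
  have t4 : C E x v (K x) (e1 x) = g E x v (e1 x) * C E x (K x) (e1 x) (e1 x)
      + g E x v (e2 x) * C E x (K x) (e1 x) (e2 x) := by
    have h5 : C E x (K x) v (e1 x) = C E x v (K x) (e1 x) := C_s12 D h.hx _ _ _
    rw [← h5]
    conv_lhs => rw [h.vexp D v]
    have h6 : C E x (K x) (e2 x) (e1 x) = C E x (K x) (e1 x) (e2 x) := C_s23 D h.hx _ _ _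
    simp only [map_add, map_smul, add_apply, smul_apply, smul_eq_mul, g_sub_x2 D h.hx, h6]
    ring
  rw [t1, t2]
  linear_combination (1/2) * t3 + (1/2) * t4

lemma Kil.dk2 (D : Dat E) (hK : Kil E K) (h : OF E x e1 e2) :
    ∃ L : V →L[ℝ] ℝ, HasFDerivAt (k1 E K e2) L x ∧ ∀ v, L v = g E x v (e1 x) * ff E K e1 e2 x
      + g E x v x / g E x x x * k1 E K e2 x - OM E e1 e2 x v * k1 E K e1 x := by
  obtain ⟨L, a1, a2⟩ := hg2 D h.hx (hK.hd h.hx) h.d2
  refine ⟨L, a1, ?_⟩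
  intro v
  rw [a2 v]
  have hr := r2pos D h.hx
  have h21 : g E x (e2 x) (e1 x) = 0 := by rw [g_symm D h.hx]; exact h.at.n12
  have s12 : g E x (e1 x) (e2 x) = 0 := h.at.n12
  have s11 : g E x (e1 x) (e1 x) = 1 := h.at.n11
  have s22 : g E x (e2 x) (e2 x) = 1 := h.at.n22
  have rx1 : g E x x (e1 x) = 0 := h.at.r1
  have rx2 : g E x x (e2 x) = 0 := h.at.r2
  have hgK : g E x (K x) x = 0 := hK.gx D h.hx
  have hK1 : g E x (K x) (e1 x) = k1 E K e1 x := rfl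
  have hK2 : g E x (K x) (e2 x) = k1 E K e2 x := rfl
  have t1 : g E x (fderiv ℝ K x v) (e2 x) = g E x v (e1 x) * (ff E K e1 e2 x - (1/2) * C E x (K x) (e1 x) (e2 x))
      + g E x v (e2 x) * (-(1/2) * C E x (K x) (e2 x) (e2 x))
      + g E x v x / g E x x x * k1 E K e2 x := by
    rw [hK.DKv D h v, hK.DK1 D h, hK.DK2 D h]
    simp only [map_add, map_smul, add_apply, smul_apply, smul_eq_mul, s22, s12, h21, rx2, hK2]
    ring
  have t2 : g E x (K x) (fderiv ℝ e2 x v) = (-(OM E e1 e2 x v) - (1/2) * C E x v (e1 x) (e2 x)) * k1 E K e1 x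
      + (-(1/2) * C E x v (e2 x) (e2 x)) * k1 E K e2 x := by
    rw [h.D2 D v]
    simp only [map_add, map_smul, smul_eq_mul, hK1, hK2, hgK]
    ring
  have t3 : C E x v (K x) (e2 x) = k1 E K e1 x * C E x v (e1 x) (e2 x) + k1 E K e2 x * C E x v (e2 x) (e2 x) := by
    conv_lhs => rw [hK.Kexp D h]
    simp only [map_add, map_smul, add_apply, smul_apply, smul_eq_mul]
  have t4 : C E x v (K x) (e2 x) = g E x v (e1 x) * C E x (K x) (e1 x) (e2 x)
      + g E x v (e2 x) * C E x (K x) (e2 x) (e2 x) := by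
    have h5 : C E x (K x) v (e2 x) = C E x v (K x) (e2 x) := C_s12 D h.hx _ _ _
    rw [← h5]
    conv_lhs => rw [h.vexp D v]
    simp only [map_add, map_smul, add_apply, smul_apply, smul_eq_mul, g_sub_x2 D h.hx]
    ring
  rw [t1, t2]
  linear_combination (1/2) * t3 + (1/2) * t4

end Pool.Agent.U631.TD
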