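import Pool.Agent.U631.TD.F6
set_option autoImplicit false
set_option maxSynthPendingDepth 6
open Topology Filter
namespace Pool.Agent.U631.TD
open H506R3.Lau

variable {E : V → ℝ} {x : V} {e1 e2 : V → V} {K : V → V}

/-- derivative of the rotation function -/
lemma Kil.dff (D : Dat E) (hK : Kil E K) (h : OF E x e1 e2) :
    ∃ L : V →L[ℝ] ℝ, HasFDerivAt (ff E K e1 e2) L x ∧ ∀ v, L v =
      (1 / g E x x x + rho E x (e1 x) (e2 x) / 4) *
        (k1 E K e1 x * g E x v (e2 x) - k1 E K e2 x * g E x v (e1 x)) := by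
  obtain ⟨L1, a1, a2⟩ := hg2 D h.hx ((hK.hdd h.hx).clm_apply h.d1) h.d2
  obtain ⟨L2, b1, b2⟩ := hC3 D h.hx (hK.hd h.hx) h.d1 h.d2
  refine ⟨_, a1.add (b1.const_mul (1/2)), ?_⟩
  intro v
  have a3 := a2 v
  have b3 := b2 v
  have hr := r2pos D h.hx
  have h21 : g E x (e2 x) (e1 x) = 0 := by rw [g_symm D h.hx]; exact h.at.n12
  have s12 : g E x (e1 x) (e2 x) = 0 := h.at.n12
  have s11 : g E x (e1 x) (e1 x) = 1 := h.at.n11
  have s22 : g E x (e2 x) (e2 x) = 1 := h.at.n22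
  have sx1 : g E x (e1 x) x = 0 := by rw [g_symm D h.hx]; exact h.at.r1
  have sx2 : g E x (e2 x) x = 0 := by rw [g_symm D h.hx]; exact h.at.r2
  have rx1 : g E x x (e1 x) = 0 := h.at.r1
  have rx2 : g E x x (e2 x) = 0 := h.at.r2
  have hgK : g E x (K x) x = 0 := hK.gx D h.hx
  have hK1 : g E x (K x) (e1 x) = k1 E K e1 x := rfl
  have hK2 : g E x (K x) (e2 x) = k1 E K e2 x := rfl
  -- second derivative
  have hdd := hK.dd2 D h.hx v (e1 x) (e2 x)
  have n1 : Q E x (K x) v (e1 x) (e2 x) = Q E x v (K x) (e1 x) (e2 x) := Q_s12 D h.hx _ _ _ _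
  rw [n1] at hdd
  have cx1 : ∀ u v, C E x u x v = 0 := g_sub_x2 D h.hx
  have cx2 : ∀ u v, C E x u v x = 0 := g_sub_x D h.hx
  have cx0 : C E x x = 0 := C_x D h.hx
  have c121 : C E x (e1 x) (e2 x) (e1 x) = C E x (e1 x) (e1 x) (e2 x) := C_s23 D h.hx _ _ _
  have c211 : C E x (e2 x) (e1 x) (e1 x) = C E x (e1 x) (e1 x) (e2 x) := by
    rw [C_s12 D h.hx, c121]
  have c212 : C E x (e2 x) (e1 x) (e2 x) = C E x (e1 x) (e2 x) (e2 x) := C_s12 D h.hx _ _ _
  have c221 : C E x (e2 x) (e2 x) (e1 x) = C E x (e1 x) (e2 x) (e2 x) := by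
    rw [C_s23 D h.hx, c212]
  -- components of the direction v
  set v1 := g E x v (e1 x) with hv1
  set v2 := g E x v (e2 x) with hv2
  set vx := g E x v x / g E x x x with hvx
  have hv : v = v1 • e1 x + v2 • e2 x + vx • x := h.vexp D v
  have hCv : ∀ a b, C E x v a b = v1 * C E x (e1 x) a b + v2 * C E x (e2 x) a b := by
    intro a b
    conv_lhs => rw [hv]
    simp only [map_add, map_smul, add_apply, smul_apply, smul_eq_mul, cx0, zero_apply]
    ring
  have hCav : ∀ a b, C E x a v b = v1 * C E x a (e1 x) b + v2 * C E x a (e2 x) b := by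
    intro a b
    rw [C_s12 D h.hx, hCv, C_s12 D h.hx (e1 x), C_s12 D h.hx (e2 x)]
  have hCK : ∀ a b, C E x (K x) a b = k1 E K e1 x * C E x (e1 x) a b + k1 E K e2 x * C E x (e2 x) a b := by
    intro a b
    conv_lhs => rw [hK.Kexp D h]
    simp only [map_add, map_smul, add_apply, smul_apply, smul_eq_mul]
  have hgK' : ∀ a, g E x (K x) a = k1 E K e1 x * g E x (e1 x) a + k1 E K e2 x * g E x (e2 x) a := by
    intro a
    conv_lhs => rw [hK.Kexp D h]
    simp only [map_add, map_smul, add_apply, smul_apply, smul_eq_mul]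
  have hDv := hK.DKv D h v
  have hE1 := hK.DKv D h (fderiv ℝ e1 x v)
  have hDK1 := hK.DK1 D h
  have hDK2 := hK.DK2 D h
  have w1 : g E x (fderiv ℝ e1 x v) (e1 x) = -(1/2) * C E x v (e1 x) (e1 x) := h.A D v
  have w2 : g E x (fderiv ℝ e1 x v) (e2 x) = OM E e1 e2 x v - (1/2) * C E x v (e1 x) (e2 x) := by
    rw [OM_apply]; ring
  have w3 : g E x (fderiv ℝ e1 x v) x = - v1 := h.r1' D v
  simp only [ContinuousLinearMap.add_apply, ContinuousLinearMap.smul_apply, smul_eq_mul]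
  rw [a3, b3]
  have hcomp : ((fderiv ℝ K x).comp (fderiv ℝ e1 x) + (fderiv ℝ (fderiv ℝ K) x).flip (e1 x)) v
      = fderiv ℝ K x (fderiv ℝ e1 x v) + fderiv ℝ (fderiv ℝ K) x v (e1 x) := by
    simp
  rw [hcomp, map_add, add_apply, hdd, hE1, w1, w2, w3, h.D2 D v, h.D1 D v, hDv, hDK1, hDK2]
  simp only [map_add, map_smul, add_apply, smul_apply, smul_eq_mul, hCv, hCav, hCK, hgK',
    s12, s11, s22, h21, sx1, sx2, rx1, rx2, c121, c211, c212, c221, cx1, cx2, cx0, zero_apply, rho,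
    ← hv1, ← hv2]
  field_simp
  ring

end Pool.Agent.U631.TD
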