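import Pool.Agent.U631.TD.F7
set_option autoImplicit false
set_option maxSynthPendingDepth 6
open Topology Filter
namespace Pool.Agent.U631.TD
open H506R3.Lau

variable {E : V → ℝ} {x : V} {K : V → V}

lemma C_upper (D : Dat E) {r R : ℝ} (hr : 0 < r) : ∃ M : ℝ, 0 < M ∧ ∀ x ∈ Kan r R, ‖C E x‖ ≤ M := by
  have h1 : ContinuousOn (fun x => ‖C E x‖) (Kan r R) := fun x hx =>
    ((sm_C D (Kan_ne hr hx)).continuousAt.norm).continuousWithinAt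
  obtain ⟨M, hM⟩ := (Kan_compact r R).bddAbove_image h1
  refine ⟨max M 1, by positivity, fun x hx => ?_⟩
  exact (hM (Set.mem_image_of_mem _ hx)).trans (le_max_left _ _)

/-- bound for the second derivatives of a Killing field -/
lemma Kil.bound (D : Dat E) (hK : Kil E K) {r R : ℝ} (hr : 0 < r) : ∃ M : ℝ, 0 ≤ M ∧ ∀ x ∈ Kan r R, ∀ w : V,
    ‖fderiv ℝ (fderiv ℝ K) x w‖ ≤ M * (‖K x‖ + ‖fderiv ℝ K x‖) * ‖w‖ := by
  obtain ⟨c, hc, hgl⟩ := g_lower D (R := R) hr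
  obtain ⟨MQ, hMQ, hQu⟩ := Q_upper D (R := R) hr
  obtain ⟨MC, hMC, hCu⟩ := C_upper D (R := R) hr
  refine ⟨(MQ + 3 * MC) / (2 * c), by positivity, ?_⟩
  intro x hx w
  have hx0 := Kan_ne hr hx
  have hQ := (hQu x hx).1
  have hC := hCu x hx
  refine ContinuousLinearMap.opNorm_le_bound _ (by positivity) ?_
  intro u
  set z := fderiv ℝ (fderiv ℝ K) x w u with hz
  by_cases hz0 : z = 0
  · rw [hz0, norm_zero]; positivity
  have hzn : 0 < ‖z‖ := norm_pos_iff.2 hz0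
  have h1 := hgl x hx z
  have h2 := hK.dd2 D hx0 w u z
  rw [← hz] at h2
  have b1 : |Q E x (K x) w u z| ≤ MQ * ‖K x‖ * ‖w‖ * ‖u‖ * ‖z‖ := by
    calc |Q E x (K x) w u z| ≤ ‖Q E x (K x) w u‖ * ‖z‖ := (Q E x (K x) w u).le_opNorm z
      _ ≤ (‖Q E x (K x) w‖ * ‖u‖) * ‖z‖ := by gcongr; exact (Q E x (K x) w).le_opNorm u
      _ ≤ ((‖Q E x (K x)‖ * ‖w‖) * ‖u‖) * ‖z‖ := by gcongr; exact (Q E x (K x)).le_opNorm w
      _ ≤ (((‖Q E x‖ * ‖K x‖) * ‖w‖) * ‖u‖) * ‖z‖ := by gcongr; exact (Q E x).le_opNorm (K x)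
      _ ≤ (((MQ * ‖K x‖) * ‖w‖) * ‖u‖) * ‖z‖ := by gcongr
  have bC : ∀ p q s : V, |C E x p q s| ≤ MC * ‖p‖ * ‖q‖ * ‖s‖ := by
    intro p q s
    calc |C E x p q s| ≤ ‖C E x p q‖ * ‖s‖ := (C E x p q).le_opNorm s
      _ ≤ (‖C E x p‖ * ‖q‖) * ‖s‖ := by gcongr; exact (C E x p).le_opNorm q
      _ ≤ ((‖C E x‖ * ‖p‖) * ‖q‖) * ‖s‖ := by gcongr; exact (C E x).le_opNorm p
      _ ≤ ((MC * ‖p‖) * ‖q‖) * ‖s‖ := by gcongr
  have bD : ∀ p : V, ‖fderiv ℝ K x p‖ ≤ ‖fderiv ℝ K x‖ * ‖p‖ := fun p => (fderiv ℝ K x).le_opNorm p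
  have b2 : |C E x (fderiv ℝ K x w) u z| ≤ MC * ‖fderiv ℝ K x‖ * ‖w‖ * ‖u‖ * ‖z‖ := by
    calc |C E x (fderiv ℝ K x w) u z| ≤ MC * ‖fderiv ℝ K x w‖ * ‖u‖ * ‖z‖ := bC _ _ _
      _ ≤ MC * (‖fderiv ℝ K x‖ * ‖w‖) * ‖u‖ * ‖z‖ := by gcongr; exact bD w
      _ = _ := by ring
  have b3 : |C E x (fderiv ℝ K x u) w z| ≤ MC * ‖fderiv ℝ K x‖ * ‖w‖ * ‖u‖ * ‖z‖ := by
    calc |C E x (fderiv ℝ K x u) w z| ≤ MC * ‖fderiv ℝ K x u‖ * ‖w‖ * ‖z‖ := bC _ _ _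
      _ ≤ MC * (‖fderiv ℝ K x‖ * ‖u‖) * ‖w‖ * ‖z‖ := by gcongr; exact bD u
      _ = _ := by ring
  have b4 : |C E x (fderiv ℝ K x z) w u| ≤ MC * ‖fderiv ℝ K x‖ * ‖w‖ * ‖u‖ * ‖z‖ := by
    calc |C E x (fderiv ℝ K x z) w u| ≤ MC * ‖fderiv ℝ K x z‖ * ‖w‖ * ‖u‖ := bC _ _ _
      _ ≤ MC * (‖fderiv ℝ K x‖ * ‖z‖) * ‖w‖ * ‖u‖ := by gcongr; exact bD z
      _ = _ := by ring
  have b5 : c * ‖z‖ ^ 2 ≤ (1/2) * ((MQ * ‖K x‖ + 3 * MC * ‖fderiv ℝ K x‖) * ‖w‖ * ‖u‖ * ‖z‖) := by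
    have a1 := neg_le_of_abs_le b1
    have a2 := neg_le_of_abs_le b2
    have a3 := neg_le_of_abs_le b3
    have a4 := neg_le_of_abs_le b4
    nlinarith
  have b6 : c * ‖z‖ ≤ (1/2) * ((MQ * ‖K x‖ + 3 * MC * ‖fderiv ℝ K x‖) * ‖w‖ * ‖u‖) := by
    apply le_of_mul_le_mul_right _ hzn
    calc c * ‖z‖ * ‖z‖ = c * ‖z‖ ^ 2 := by ring
      _ ≤ _ := b5
      _ = _ := by ring
  have b7 : MQ * ‖K x‖ + 3 * MC * ‖fderiv ℝ K x‖ ≤ (MQ + 3 * MC) * (‖K x‖ + ‖fderiv ℝ K x‖) := by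
    have p1 : 0 ≤ MQ * ‖fderiv ℝ K x‖ := by positivity
    have p2 : 0 ≤ MC * ‖K x‖ := by positivity
    nlinarith
  have b8 : ‖z‖ ≤ (1/2) * ((MQ + 3 * MC) * (‖K x‖ + ‖fderiv ℝ K x‖) * ‖w‖ * ‖u‖) / c := by
    rw [le_div_iff₀ hc, mul_comm]
    refine b6.trans ?_
    gcongr
  refine b8.trans (le_of_eq ?_)
  field_simp

/-- propagation along a segment which avoids the origin -/
lemma Kil.seg (D : Dat E) (hK : Kil E K) {x y : V} (hs : ∀ t ∈ Set.Icc (0:ℝ) 1, x + t • (y - x) ≠ 0)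
    (h0 : K x = 0) (h1 : fderiv ℝ K x = 0) : K y = 0 ∧ fderiv ℝ K y = 0 := by
  set γ : ℝ → V := fun t => x + t • (y - x) with hγ
  have hγc : Continuous γ := by fun_prop
  have hγd : ∀ t, HasDerivAt γ (y - x) t := by
    intro t
    have h := ((hasDerivAt_id t).smul_const (y - x)).const_add x
    rw [one_smul] at h
    exact h
  obtain ⟨t0, ht0, hmin⟩ := isCompact_Icc.exists_isMinOn (Set.nonempty_Icc.2 (zero_le_one' ℝ))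
    (hγc.norm.continuousOn)
  obtain ⟨t1, ht1, hmax⟩ := isCompact_Icc.exists_isMaxOn (Set.nonempty_Icc.2 (zero_le_one' ℝ))
    (hγc.norm.continuousOn)
  have hr : 0 < ‖γ t0‖ := norm_pos_iff.2 (hs t0 ht0)
  have hin : ∀ t ∈ Set.Icc (0:ℝ) 1, γ t ∈ Kan ‖γ t0‖ ‖γ t1‖ := by
    intro t ht
    exact ⟨by rw [mem_closedBall_zero_iff]; exact hmax ht, hmin ht⟩
  obtain ⟨M, hM, hb⟩ := hK.bound D (R := ‖γ t1‖) hr
  set Φ : ℝ → V × (V →L[ℝ] V) := fun t => (K (γ t), fderiv ℝ K (γ t)) with hΦ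
  have hd : ∀ t ∈ Set.Icc (0:ℝ) 1, HasDerivAt Φ (fderiv ℝ K (γ t) (y - x),
      fderiv ℝ (fderiv ℝ K) (γ t) (y - x)) t := by
    intro t ht
    exact ((hK.hd (hs t ht)).comp_hasDerivAt t (hγd t)).prodMk
      ((hK.hdd (hs t ht)).comp_hasDerivAt t (hγd t))
  have hcont : ContinuousOn Φ (Set.Icc 0 1) := fun t ht => (hd t ht).continuousAt.continuousWithinAt
  have hbd : ∀ t ∈ Set.Ico (0:ℝ) 1, ‖(fderiv ℝ K (γ t) (y - x),
      fderiv ℝ (fderiv ℝ K) (γ t) (y - x))‖ ≤ ((1 + 2 * M) * ‖y - x‖) * ‖Φ t‖ + 0 := by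
    intro t ht
    have ht' : t ∈ Set.Icc (0:ℝ) 1 := ⟨ht.1, ht.2.le⟩
    have n1 : ‖K (γ t)‖ ≤ ‖Φ t‖ := norm_fst_le (Φ t)
    have n2 : ‖fderiv ℝ K (γ t)‖ ≤ ‖Φ t‖ := norm_snd_le (Φ t)
    have n3 := hb (γ t) (hin t ht') (y - x)
    rw [add_zero]
    refine norm_prod_le_iff.2 ⟨?_, ?_⟩
    · calc ‖fderiv ℝ K (γ t) (y - x)‖ ≤ ‖fderiv ℝ K (γ t)‖ * ‖y - x‖ := (fderiv ℝ K (γ t)).le_opNorm _
        _ ≤ ‖Φ t‖ * ‖y - x‖ := by gcongr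
        _ ≤ _ := by
          have : 0 ≤ M * ‖y - x‖ * ‖Φ t‖ := by positivity
          nlinarith
    · calc ‖fderiv ℝ (fderiv ℝ K) (γ t) (y - x)‖ ≤ M * (‖K (γ t)‖ + ‖fderiv ℝ K (γ t)‖) * ‖y - x‖ := n3
        _ ≤ M * (‖Φ t‖ + ‖Φ t‖) * ‖y - x‖ := by gcongr
        _ ≤ _ := by
          have : 0 ≤ ‖y - x‖ * ‖Φ t‖ := by positivity
          nlinarith
  have hΦ0 : ‖Φ 0‖ ≤ 0 := by
    have : Φ 0 = 0 := by simp [hΦ, hγ, h0, h1]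
    rw [this, norm_zero]
  have hres := norm_le_gronwallBound_of_norm_deriv_right_le hcont
    (fun t ht => (hd t ⟨ht.1, ht.2.le⟩).hasDerivWithinAt) hΦ0 hbd 1 ⟨zero_le_one, le_rfl⟩
  have hz : Φ 1 = 0 := by
    have h2 : gronwallBound 0 ((1 + 2 * M) * ‖y - x‖) 0 (1 - 0) = 0 := by
      simp [gronwallBound_ε0]
    rw [h2] at hres
    exact norm_le_zero_iff.1 hres
  have hγ1 : γ 1 = y := by simp [hγ]
  have h3 := congrArg Prod.fst hz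
  have h4 := congrArg Prod.snd hz
  simp only [hΦ, hγ1] at h3 h4
  exact ⟨h3, h4⟩

/-- a Killing field with vanishing one-jet at a point vanishes -/
lemma Kil.uniq (D : Dat E) (hK : Kil E K) {x : V} (hx : x ≠ 0) (h0 : K x = 0) (h1 : fderiv ℝ K x = 0)
    {y : V} (hy : y ≠ 0) : K y = 0 := by
  have hseg : ∀ p q : V, (∀ s : ℝ, q ≠ s • p) → p ≠ 0 → ∀ t ∈ Set.Icc (0:ℝ) 1, p + t • (q - p) ≠ 0 := by
    intro p q hpq hp t _ h
    by_cases ht : t = 0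
    · rw [ht] at h; simp at h; exact hp h
    · apply hpq (-((1 - t) / t))
      have h2 : t • q = -((1 - t) • p) := by
        have : p + t • (q - p) = t • q + (1 - t) • p := by module
        rw [this] at h
        exact eq_neg_of_add_eq_zero_left h
      have h3 : q = t⁻¹ • (t • q) := by rw [smul_smul, inv_mul_cancel₀ ht, one_smul]
      rw [h3, h2, smul_neg, smul_smul, neg_smul]
      congr 2
      field_simp
  by_cases hxy : ∀ s : ℝ, y ≠ s • x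
  · exact (hK.seg D (hseg x y hxy hx) h0 h1).1
  · push Not at hxy
    obtain ⟨s, hs⟩ := hxy
    have hs0 : s ≠ 0 := by
      intro h; rw [h, zero_smul] at hs; exact hy hs
    obtain ⟨a1, a2, n1, n2, o1, o2, o3⟩ := exists_orth0 D hx
    have hr := r2pos D hx
    have hz1 : ∀ s : ℝ, a1 ≠ s • x := by
      intro s h
      rw [h, map_smul, smul_eq_mul] at o1
      rcases mul_eq_zero.1 o1 with h2 | h2
      · rw [h2, zero_smul] at h; exact n1 h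
      · exact hr.ne' h2
    obtain ⟨b0, b1⟩ := hK.seg D (hseg x a1 hz1 hx) h0 h1
    have hz2 : ∀ s' : ℝ, y ≠ s' • a1 := by
      intro s' h
      by_cases hs' : s' = 0
      · rw [hs', zero_smul] at h; exact hy h
      · apply hz1 (s'⁻¹ * s)
        rw [mul_smul, ← hs, h, smul_smul, inv_mul_cancel₀ hs', one_smul]
    exact (hK.seg D (hseg a1 y hz2 n1) b0 b1).1

end Pool.Agent.U631.TD
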