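import Pool.Agent.U631.TD.F11
import Pool.Agent.R774.BW.Few
set_option autoImplicit false
set_option maxSynthPendingDepth 6
open Topology Filter
namespace Pool.Agent.U631.TD
open H506R3.Lau Pool.Agent.R774.BW

lemma pd_eq {f : V → ℝ} (k : Fin 3) (y : V) : pd k f y = fderiv ℝ f y (ee k) := rfl

lemma Sm.fd {f : V → ℝ} (hf : Sm f) {y : V} (hy : y ≠ 0) :
    ContDiffAt ℝ ((⊤ : ℕ∞) : WithTop ℕ∞) (fderiv ℝ f) y := (hf y hy).fderiv_right top_add_one

lemma pd2_eq {f : V → ℝ} (hf : Sm f) (i j : Fin 3) {y : V} (hy : y ≠ 0) :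
    pd i (pd j f) y = fderiv ℝ (fderiv ℝ f) y (ee i) (ee j) := by
  have hd : DifferentiableAt ℝ (fderiv ℝ f) y := (Sm.fd hf hy).differentiableAt top_ne_zero'
  have h := hd.hasFDerivAt.clm_apply (hasFDerivAt_const (ee j) y)
  have h' : fderiv ℝ (pd j f) y = _ := h.fderiv
  rw [pd_eq, h']; simp

lemma pd3_eq {f : V → ℝ} (hf : Sm f) (k i j : Fin 3) {y : V} (hy : y ≠ 0) :
    pd k (pd i (pd j f)) y = fderiv ℝ (fderiv ℝ (fderiv ℝ f)) y (ee k) (ee i) (ee j) := by
  have hd : DifferentiableAt ℝ (fderiv ℝ (fderiv ℝ f)) y :=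
    ((Sm.fd hf hy).fderiv_right top_add_one).differentiableAt top_ne_zero'
  have h := (hd.hasFDerivAt.clm_apply (hasFDerivAt_const (ee i) y)).clm_apply (hasFDerivAt_const (ee j) y)
  have e : pd k (pd i (pd j f)) y = pd k (fun z => fderiv ℝ (fderiv ℝ f) z (ee i) (ee j)) y :=
    pd_congr (fun z hz => pd2_eq hf i j hz) k hy
  rw [e, pd_eq, h.fderiv]; simp

/-- half the square of a Finsler norm -/
lemma dat_of_finsler {U : Set V} {F : V → V → ℝ} (hF : IsFinsler U F) {x : V} (hx : x ∈ U) :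
    Dat (fun y => F x y ^ 2 / 2) := by
  have hQ : MN (fun y => F x y ^ 2) := hF.mn hx
  have hs : Sm (fun y => F x y ^ 2) := hQ.sm
  have hs2 : Sm (fun y => F x y ^ 2 / 2) := fun y hy => (hs y hy).div_const 2
  refine ⟨hs2, fun t z ht => ?_, fun z hz v hv => ?_⟩
  · rw [hF.hom x hx z t ht]; ring
  · have h1 := hQ.conv z hz v hv
    have h2 : g (fun y => F x y ^ 2 / 2) z v v = (1/2) * ∑ i, ∑ j, pd i (pd j (fun y => F x y ^ 2)) z * v i * v j := by
      rw [gexp, Finset.mul_sum]
      refine Finset.sum_congr rfl fun i _ => ?_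
      rw [Finset.mul_sum]
      refine Finset.sum_congr rfl fun j _ => ?_
      have h3 : G (fun y => F x y ^ 2 / 2) z i j = (1/2) * pd i (pd j (fun y => F x y ^ 2)) z := by
        have h4 : G (fun y => F x y ^ 2 / 2) z i j = pd i (pd j (fun y => F x y ^ 2 / 2)) z := (pd2_eq hs2 i j hz).symm
        have h5 : pd i (pd j (fun y => F x y ^ 2 / 2)) z = pd i (fun y => (1/2) * pd j (fun y => F x y ^ 2) y) z := by
          refine pd_congr (fun w hw => ?_) i hz
          have : (fun y => F x y ^ 2 / 2) = fun y => (1/2) * F x y ^ 2 := by funext y; ring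
          rw [this, pd_const_mul hs _ j hw]
        rw [h4, h5, pd_const_mul (hs.pd j) _ i hz]
      rw [h3]; ring
    rw [h2]; linarith

/-- Killing fields in coordinates -/
lemma kil_of_isKilling {U : Set V} {F : V → V → ℝ} (hF : IsFinsler U F) {x : V} (hx : x ∈ U)
    {K : V → V} (hK : IsKilling F x K) : Kil (fun y => F x y ^ 2 / 2) K := by
  set E : V → ℝ := fun y => F x y ^ 2 / 2 with hE
  have D : Dat E := dat_of_finsler hF hx
  have hQ : MN (fun y => F x y ^ 2) := hF.mn hx
  have hs : Sm (fun y => F x y ^ 2) := hQ.sm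
  have hs2 : Sm E := fun y hy => (hs y hy).div_const 2
  have hKs : ∀ y : V, y ≠ 0 → ContDiffAt ℝ ((⊤ : ℕ∞) : WithTop ℕ∞) K y := fun y hy =>
    contDiffAt_pi.2 fun i => hK.1 i y hy
  have hQE : (fun y => F x y ^ 2) = fun y => 2 * E y := by funext y; rw [hE]; ring
  have p2 : ∀ y, y ≠ 0 → ∀ i j, pd i (pd j (fun y => F x y ^ 2)) y = 2 * g E y (ee i) (ee j) := by
    intro y hy i j
    have h5 : pd i (pd j (fun y => F x y ^ 2)) y = pd i (fun y => 2 * pd j E y) y := by
      refine pd_congr (fun w hw => ?_) i hy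
      rw [hQE, pd_const_mul hs2 _ j hw]
    rw [h5, pd_const_mul (hs2.pd j) _ i hy, pd2_eq hs2 i j hy]; rfl
  have p3 : ∀ y, y ≠ 0 → ∀ k i j, pd k (pd i (pd j (fun y => F x y ^ 2))) y = 2 * C E y (ee k) (ee i) (ee j) := by
    intro y hy k i j
    have h5 : pd k (pd i (pd j (fun y => F x y ^ 2))) y = pd k (fun y => 2 * pd i (pd j E) y) y := by
      refine pd_congr (fun w hw => ?_) k hy
      have h6 : pd i (pd j (fun y => F x y ^ 2)) w = pd i (fun y => 2 * pd j E y) w := by
        refine pd_congr (fun w hw => ?_) i hw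
        rw [hQE, pd_const_mul hs2 _ j hw]
      rw [h6, pd_const_mul (hs2.pd j) _ i hw]
    rw [h5, pd_const_mul ((hs2.pd j).pd i) _ k hy, pd3_eq hs2 k i j hy]; rfl
  have pK : ∀ y : V, y ≠ 0 → ∀ i m, pd i (fun y => K y m) y = (fderiv ℝ K y (ee i)) m := by
    intro y hy i m
    have h1 : HasFDerivAt K (fderiv ℝ K y) y := ((hKs y hy).differentiableAt top_ne_zero').hasFDerivAt
    have h2 := (hasFDerivAt_pi'.1 h1) m
    rw [pd_eq, h2.fderiv]; rfl
  refine ⟨hKs, hK.2.1, fun y hy u v => ?_⟩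
  -- basis vectors first
  have hb : ∀ i j : Fin 3, C E y (K y) (ee i) (ee j) + g E y (fderiv ℝ K y (ee i)) (ee j)
      + g E y (ee i) (fderiv ℝ K y (ee j)) = 0 := by
    intro i j
    have h := hK.2.2 y hy i j
    simp only [p2 y hy, p3 y hy, pK y hy] at h
    have hC : C E y (K y) (ee i) (ee j) = ∑ m, K y m * C E y (ee m) (ee i) (ee j) := by
      have := congrArg (fun w => C E y w (ee i) (ee j)) (vexp (K y))
      simpa [Fin.sum_univ_three] using this
    have hg : ∀ w z : V, g E y w z = ∑ m, w m * g E y (ee m) z := by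
      intro w z
      have := congrArg (fun w => g E y w z) (vexp w)
      simpa [Fin.sum_univ_three] using this
    rw [hC, hg (fderiv ℝ K y (ee i)) (ee j), g_symm D hy (ee i), hg (fderiv ℝ K y (ee j)) (ee i)]
    simp only [Fin.sum_univ_three] at h ⊢
    linarith
  have h1 : ∀ j, C E y (K y) u (ee j) + g E y (fderiv ℝ K y u) (ee j) + g E y u (fderiv ℝ K y (ee j)) = 0 := by
    intro j
    exact lin0 { toFun := fun u => C E y (K y) u (ee j) + g E y (fderiv ℝ K y u) (ee j) + g E y u (fderiv ℝ K y (ee j))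
                 map_add' := by intro a b; simp only [map_add, add_apply]; ring
                 map_smul' := by intro t a; simp only [map_smul, smul_apply, smul_eq_mul, RingHom.id_apply]; ring }
      (fun i => hb i j) u
  exact lin0 { toFun := fun v => C E y (K y) u v + g E y (fderiv ℝ K y u) v + g E y u (fderiv ℝ K y v)
               map_add' := by intro a b; simp only [map_add, add_apply]; ring
               map_smul' := by intro t a; simp only [map_smul, smul_apply, smul_eq_mul, RingHom.id_apply]; ring }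
      (fun j => h1 j) v

end Pool.Agent.U631.TD
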