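import Pool.Agent.U631.TD.T1

/-! # The infinitesimal isometries which a compatible linear connection produces on a
Landsberg metric (the first half of the proof of `main_few`), and dimension three -/

set_option autoImplicit false

open scoped BigOperators ContDiff Topology Matrix
open Filter Set

namespace Pool.Agent.U631.TD
open Pool.Agent.R774.BW

section
variable {n : ℕ}

theorem killing_fields {U : Set (Fin n → ℝ)} {F : (Fin n → ℝ) → (Fin n → ℝ) → ℝ}
    {G : (Fin n → ℝ) → (Fin n → ℝ) → (Fin n → ℝ)}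
    {Γ : (Fin n → ℝ) → Fin n → Fin n → Fin n → ℝ}
    (hF : IsFinsler U F) (hG : IsSpray U F G) (hΓ : Compatible U F Γ)
    {x : Fin n → ℝ} (hx : x ∈ U)
    (hL : ∀ y : Fin n → ℝ, y ≠ 0 → ∀ j k l, landsberg F G x y j k l = 0) :
    ∃ Y : Fin n → Fin n → (Fin n → ℝ) → ℝ, (∀ v, IsKilling F x (fun z m => Y v m z)) ∧
      ∀ z : Fin n → ℝ, z ≠ 0 → ∀ v m i j,
        pd i (pd j (Y v m)) z = 2 * berwald G x z m i j v := by
  set Q : (Fin n → ℝ) → ℝ := fun u => F x u ^ 2 with hQdef
  have hQ : MN Q := hF.mn hx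
  set quad : Fin n → (Fin n → ℝ) → ℝ := fun i z =>
    ∑ k, ∑ j, Γ x k j i * z k * z j with hquad
  have hquad_sm : ∀ i, Sm (quad i) := fun i => Sm.sum fun k _ => Sm.sum fun j _ =>
    ((sm_const _).mul (sm_coord k)).mul (sm_coord j)
  have hGs : ∀ i, Sm (fun z => G x z i) := fun i => spray_sm hF hG hx i
  set H : Fin n → (Fin n → ℝ) → ℝ := fun i z => 2 * G x z i - quad i z with hHdef
  have hHs : ∀ i, Sm (H i) := fun i => ((sm_const 2).mul (hGs i)).sub (hquad_sm i)
  set T : Fin n → Fin n → (Fin n → ℝ) → ℝ := fun v m z =>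
    ∑ k, (Γ x k v m - Γ x v k m) * z k with hT
  have hTs : ∀ v m, Sm (T v m) := fun v m => lin_sm _
  -- the defining equation of `H`
  have hA : ∀ z, z ≠ 0 → ∀ l, ∑ i, pd i (pd l Q) z * H i z = ∑ m, T l m z * pd m Q z := by
    intro z hz l
    have hsp := hG x hx z hz l
    have hmix : ∀ k, fderiv ℝ (fun z' => fderiv ℝ (fun u => F z' u ^ 2) z
            (Pi.single l (1 : ℝ) : Fin n → ℝ)) x (Pi.single k (1 : ℝ) : Fin n → ℝ) =
        ∑ m, Γ x k l m * pd m Q z + ∑ m, ∑ j, Γ x k j m * z j * pd l (pd m Q) z := by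
      intro k
      rw [mixed (f := fun z u => F z u ^ 2) (hF.cd hx hz)]
      have e1 : fderiv ℝ (fun u => fderiv ℝ (fun z' => F z' u ^ 2) x
          (Pi.single k (1 : ℝ) : Fin n → ℝ)) z (Pi.single l (1 : ℝ) : Fin n → ℝ) =
          pd l (fun u => ∑ m, ∑ j, Γ x k j m * u j * pd m Q u) z :=
        pd_congr (fun u hu => hΓ x hx u hu k) l hz
      rw [e1, pd_sum (fun m _ => Sm.sum fun j _ =>
        ((sm_const _).mul (sm_coord j)).mul (hQ.sm.pd m)) l hz, ← Finset.sum_add_distrib]
      refine Finset.sum_congr rfl fun m _ => ?_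
      rw [pd_sum (fun j _ => ((sm_const _).mul (sm_coord j)).mul (hQ.sm.pd m)) l hz]
      have e2 : ∀ j, pd l (fun u => Γ x k j m * u j * pd m Q u) z =
          Γ x k j m * (if j = l then 1 else 0) * pd m Q z +
            Γ x k j m * z j * pd l (pd m Q) z := by
        intro j
        rw [pd_mul ((sm_const _).mul (sm_coord j)) (hQ.sm.pd m) l hz,
          pd_const_mul (sm_coord j) _ l hz, pd_coord]
      simp only [e2, Finset.sum_add_distrib]
      simp
    have hx1 : fderiv ℝ (fun z' => F z' z ^ 2) x (Pi.single l (1 : ℝ) : Fin n → ℝ) =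
        ∑ m, ∑ j, Γ x l j m * z j * pd m Q z := hΓ x hx z hz l
    simp only [hmix] at hsp
    rw [hx1] at hsp
    have hsp2 : 2 * ∑ i, pd i (pd l Q) z * G x z i =
        ((∑ k, (∑ m, Γ x k l m * pd m Q z + ∑ m, ∑ j, Γ x k j m * z j * pd l (pd m Q) z) * z k) -
          ∑ m, ∑ j, Γ x l j m * z j * pd m Q z) := by
      have e3 : ∑ i, pd i (pd l Q) z * G x z i = 2 * ∑ i : Fin n,
          (1 / 2 : ℝ) * fderiv ℝ (fun w => fderiv ℝ (fun u => F x u ^ 2) w
              (Pi.single i (1 : ℝ) : Fin n → ℝ)) z (Pi.single l (1 : ℝ) : Fin n → ℝ)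
            * G x z i := by
        rw [Finset.mul_sum]
        refine Finset.sum_congr rfl fun i _ => ?_
        rw [pd2_symm hQ i l hz]
        unfold pd
        ring
      rw [e3, hsp]; ring
    have h1 : (∑ k, (∑ m, Γ x k l m * pd m Q z) * z k) - ∑ m, ∑ j, Γ x l j m * z j * pd m Q z =
        ∑ m, T l m z * pd m Q z := by
      have a1 : (∑ k, (∑ m, Γ x k l m * pd m Q z) * z k) =
          ∑ m, ∑ k, Γ x k l m * z k * pd m Q z := by
        simp only [Finset.sum_mul]
        rw [Finset.sum_comm]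
        exact Finset.sum_congr rfl fun m _ => Finset.sum_congr rfl fun k _ => by ring
      rw [a1, ← Finset.sum_sub_distrib]
      refine Finset.sum_congr rfl fun m _ => ?_
      rw [← Finset.sum_sub_distrib, hT, Finset.sum_mul]
      exact Finset.sum_congr rfl fun k _ => by ring
    have h2 : (∑ k, (∑ m, ∑ j, Γ x k j m * z j * pd l (pd m Q) z) * z k) =
        ∑ m, pd m (pd l Q) z * quad m z := by
      rw [hquad]
      simp only [Finset.sum_mul, Finset.mul_sum]
      rw [Finset.sum_comm]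
      refine Finset.sum_congr rfl fun m _ => Finset.sum_congr rfl fun k _ =>
        Finset.sum_congr rfl fun j _ => ?_
      rw [pd2_symm hQ l m hz]; ring
    have h4 : ∑ i, pd i (pd l Q) z * H i z =
        2 * ∑ i, pd i (pd l Q) z * G x z i - ∑ i, pd i (pd l Q) z * quad i z := by
      rw [Finset.mul_sum, ← Finset.sum_sub_distrib]
      exact Finset.sum_congr rfl fun i _ => by rw [hHdef]; ring
    have h5 : (∑ k, (∑ m, Γ x k l m * pd m Q z +
        ∑ m, ∑ j, Γ x k j m * z j * pd l (pd m Q) z) * z k) =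
        (∑ k, (∑ m, Γ x k l m * pd m Q z) * z k) +
          ∑ k, (∑ m, ∑ j, Γ x k j m * z j * pd l (pd m Q) z) * z k := by
      rw [← Finset.sum_add_distrib]
      exact Finset.sum_congr rfl fun k _ => by ring
    rw [h4, hsp2, h5, h2, ← h1]
    ring
  -- homogeneity of `H`
  have hHP : ∀ z, z ≠ 0 → ∀ i, H i z = ∑ l, P Q i l z * ∑ m, T l m z * pd m Q z := by
    intro z hz i
    have h1 : A Q z *ᵥ (fun m => H m z) = fun l => ∑ m, T l m z * pd m Q z := by
      ext l
      simp only [Matrix.mulVec, dotProduct, A, Matrix.of_apply]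
      rw [← hA z hz l]
      exact Finset.sum_congr rfl fun i _ => by rw [pd2_symm hQ l i hz]
    have h5 := congrArg (fun v => (A Q z)⁻¹ *ᵥ v) h1
    simp only [Matrix.mulVec_mulVec,
      Matrix.nonsing_inv_mul (A Q z) (isUnit_iff_ne_zero.2 (A_det_pos hQ hz).ne'),
      Matrix.one_mulVec] at h5
    have h6 := congrFun h5 i
    rw [h6]
    simp only [Matrix.mulVec, dotProduct, P]
  have hT1 : ∀ v m (t : ℝ) (z : Fin n → ℝ), T v m (t • z) = t * T v m z := by
    intro v m t z
    rw [hT]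
    simp only [Pi.smul_apply, smul_eq_mul, Finset.mul_sum]
    exact Finset.sum_congr rfl fun k _ => by ring
  have hHh : ∀ i, Hom 2 (H i) := by
    intro i z hz t ht
    have htz : t • z ≠ 0 := smul_ne_zero ht.ne' hz
    rw [hHP _ htz i, hHP z hz i, Finset.mul_sum]
    refine Finset.sum_congr rfl fun l _ => ?_
    rw [P_hom hQ i l z hz t ht, Finset.mul_sum, Finset.mul_sum, Finset.mul_sum]
    refine Finset.sum_congr rfl fun m _ => ?_
    rw [hT1, hom_pd1 hQ m z hz t ht]
    simp only [zpow_zero, zpow_one]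
    have : (t : ℝ) ^ (2 : ℤ) = t * t := by norm_cast; ring
    rw [this]; ring
  -- `Σ Q_i H^i = 0`
  have hA0 : ∀ z, z ≠ 0 → ∑ i, pd i Q z * H i z = 0 := by
    intro z hz
    have h1 : ∑ i, pd i Q z * H i z = ∑ l, z l * ∑ i, pd i (pd l Q) z * H i z := by
      have : ∀ i, pd i Q z * H i z = ∑ l, z l * (pd i (pd l Q) z * H i z) := fun i => by
        rw [← euler2 hQ i hz, Finset.sum_mul]
        exact Finset.sum_congr rfl fun a _ => by rw [pd2_symm hQ a i hz, mul_assoc]
      simp only [this]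
      rw [Finset.sum_comm]
      exact Finset.sum_congr rfl fun l _ => by rw [Finset.mul_sum]
    rw [h1]
    have h2 : ∑ l, z l * ∑ i, pd i (pd l Q) z * H i z =
        ∑ m, (∑ l, ∑ k, (Γ x k l m - Γ x l k m) * z k * z l) * pd m Q z := by
      simp only [hA z hz, hT, Finset.mul_sum, Finset.sum_mul]
      rw [Finset.sum_comm]
      exact Finset.sum_congr rfl fun m _ => Finset.sum_congr rfl fun l _ =>
        Finset.sum_congr rfl fun k _ => by ring
    rw [h2]
    refine Finset.sum_eq_zero fun m _ => ?_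
    have h3 : ∑ l, ∑ k, (Γ x k l m - Γ x l k m) * z k * z l = 0 := by
      have h4 : ∑ l, ∑ k, (Γ x k l m - Γ x l k m) * z k * z l =
          - ∑ l, ∑ k, (Γ x k l m - Γ x l k m) * z k * z l := by
        conv_lhs => rw [Finset.sum_comm]
        rw [← Finset.sum_neg_distrib]
        refine Finset.sum_congr rfl fun l _ => ?_
        rw [← Finset.sum_neg_distrib]
        exact Finset.sum_congr rfl fun k _ => by ring
      linarith
    rw [h3, zero_mul]
  -- the fields `Y v`
  set Y : Fin n → Fin n → (Fin n → ℝ) → ℝ := fun v m z => pd v (H m) z + T v m z with hY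
  have hYs : ∀ v m, Sm (Y v m) := fun v m => ((hHs m).pd v).add (hTs v m)
  have hY0 : ∀ v, ∀ z, z ≠ 0 → ∑ m, pd m Q z * Y v m z = 0 := by
    intro v z hz
    have e := pd_congr (g := fun _ => (0:ℝ)) (fun z hz => hA0 z hz) v hz
    rw [pd_const, pd_sum (fun i _ => (hQ.sm.pd i).mul (hHs i)) v hz] at e
    have e2 : ∑ i, pd v (fun y => pd i Q y * H i y) z =
        ∑ i, pd i (pd v Q) z * H i z + ∑ i, pd i Q z * pd v (H i) z := by
      rw [← Finset.sum_add_distrib]
      refine Finset.sum_congr rfl fun i _ => ?_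
      rw [pd_mul (hQ.sm.pd i) (hHs i) v hz, pd2_symm hQ v i hz]
    rw [e2, hA z hz v] at e
    rw [← e, ← Finset.sum_add_distrib]
    exact Finset.sum_congr rfl fun m _ => by rw [hY]; ring
  have hY1 : ∀ v j, ∀ z, z ≠ 0 →
      ∑ m, (pd j (pd m Q) z * Y v m z + pd m Q z * pd j (Y v m) z) = 0 := by
    intro v j z hz
    have e := pd_congr (g := fun _ => (0:ℝ)) (fun z hz => hY0 v z hz) j hz
    rw [pd_const, pd_sum (fun m _ => (hQ.sm.pd m).mul (hYs v m)) j hz] at e
    rw [← e]
    exact Finset.sum_congr rfl fun m _ => (pd_mul (hQ.sm.pd m) (hYs v m) j hz).symm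
  have hB3 : ∀ z, z ≠ 0 → ∀ m i j v, pd i (pd j (pd v (H m))) z = 2 * berwald G x z m i j v := by
    intro z hz m i j v
    have c1 : ∀ u : Fin n → ℝ, u ≠ 0 → pd v (H m) u =
        2 * pd v (fun z => G x z m) u - pd v (quad m) u := fun u hu => by
      rw [hHdef]
      simp only
      rw [pd_sub ((sm_const 2).mul (hGs m)) (hquad_sm m) v hu, pd_const_mul (hGs m) 2 v hu]
    have c2 : ∀ u : Fin n → ℝ, u ≠ 0 → pd j (pd v (H m)) u =
        2 * pd j (pd v (fun z => G x z m)) u - pd j (pd v (quad m)) u := fun u hu => by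
      rw [pd_congr c1 j hu, pd_sub ((sm_const 2).mul ((hGs m).pd v)) ((hquad_sm m).pd v) j hu,
        pd_const_mul ((hGs m).pd v) 2 j hu]
    have c3 : pd i (pd j (pd v (H m))) z =
        2 * pd i (pd j (pd v (fun z => G x z m))) z - pd i (pd j (pd v (quad m))) z := by
      rw [pd_congr c2 i hz, pd_sub ((sm_const 2).mul (((hGs m).pd v).pd j))
        (((hquad_sm m).pd v).pd j) i hz, pd_const_mul (((hGs m).pd v).pd j) 2 i hz]
    have c4 : pd i (pd j (pd v (quad m))) z = 0 := pd3_quad _ i j v hz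
    rw [c3, c4, sub_zero]
    rfl
  have hYpd : ∀ z, z ≠ 0 → ∀ v m j, pd j (Y v m) z =
      pd j (pd v (H m)) z + (Γ x j v m - Γ x v j m) := by
    intro z hz v m j
    rw [hY]
    simp only
    rw [pd_add ((hHs m).pd v) (hTs v m) j hz, hT]
    simp only
    rw [pd_lin (fun k => Γ x k v m - Γ x v k m) j hz]
  have hYpd2 : ∀ z, z ≠ 0 → ∀ v m i j, pd i (pd j (Y v m)) z = 2 * berwald G x z m i j v := by
    intro z hz v m i j
    rw [pd_congr (fun u hu => hYpd u hu v m j) i hz, pd_add (((hHs m).pd v).pd j) (sm_const _) i hz,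
      pd_const, add_zero, hB3 z hz]
  -- the fields are Killing
  have hkill : ∀ v, IsKilling F x (fun z m => Y v m z) := by
    intro v
    refine ⟨fun m z hz => hYs v m z hz, fun z hz t ht => ?_, fun z hz i j => ?_⟩
    · ext m
      have h1 := ((hHh m).pd (hHs m) v) z hz t ht
      norm_num at h1
      simp only [hY, Pi.smul_apply, smul_eq_mul]
      rw [h1, hT1]; ring
    · have e := pd_congr (g := fun _ => (0:ℝ)) (fun z hz => hY1 v j z hz) i hz
      rw [pd_const, pd_sum (fun m _ => (((hQ.sm.pd m).pd j).mul (hYs v m)).add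
        ((hQ.sm.pd m).mul ((hYs v m).pd j))) i hz] at e
      have e2 : ∀ m, pd i (fun y => pd j (pd m Q) y * Y v m y + pd m Q y * pd j (Y v m) y) z =
          (Y v m z * pd m (pd i (pd j Q)) z + pd m (pd j Q) z * pd i (Y v m) z +
            pd m (pd i Q) z * pd j (Y v m) z) + 2 * (pd m Q z * berwald G x z m i j v) := by
        intro m
        rw [pd_add (((hQ.sm.pd m).pd j).mul (hYs v m)) ((hQ.sm.pd m).mul ((hYs v m).pd j)) i hz,
          pd_mul ((hQ.sm.pd m).pd j) (hYs v m) i hz, pd_mul (hQ.sm.pd m) ((hYs v m).pd j) i hz,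
          hYpd2 z hz, pd2_symm hQ j m hz, pd2_symm hQ i m hz, pd3_symm2 hQ i j m hz,
          pd3_symm1 hQ i m j hz]
        ring
      simp only [e2] at e
      rw [Finset.sum_add_distrib, ← Finset.mul_sum] at e
      have h2 := hL z hz i j v
      unfold landsberg at h2
      have h3 : ∑ m, pd m Q z * berwald G x z m i j v = 0 := by
        have : (∑ i_1, fderiv ℝ (fun u => F x u ^ 2) z (Pi.single i_1 (1 : ℝ) : Fin n → ℝ) *
          berwald G x z i_1 i j v) = ∑ m, pd m Q z * berwald G x z m i j v := rfl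
        rw [this] at h2
        linarith
      rw [h3, mul_zero, add_zero] at e
      exact e
  exact ⟨Y, hkill, hYpd2⟩

end

end Pool.Agent.U631.TD
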