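import Pool.Agent.U631.TD.T2
set_option autoImplicit false
set_option maxSynthPendingDepth 6
open Topology Filter
namespace Pool.Agent.U631.TD
open H506R3.Lau Pool.Agent.R774.BW

lemma Q_zero {E : V → ℝ} (hC : ∀ y : V, y ≠ 0 → C E y = 0) {x : V} (hx : x ≠ 0) : Q E x = 0 := by
  have h : C E =ᶠ[𝓝 x] fun _ => 0 := by
    filter_upwards [ne_ev hx] with y hy using hC y hy
  show fderiv ℝ (C E) x = 0
  rw [h.fderiv_eq]; simp

/-- infinitesimal isometries of a norm whose Hessian metric is flat in the sense `C = 0` are linear -/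
lemma Kil.dd_zero {E : V → ℝ} {K : V → V} (D : Dat E) (hK : Kil E K) (hC : ∀ y : V, y ≠ 0 → C E y = 0)
    {x : V} (hx : x ≠ 0) (w u : V) : fderiv ℝ (fderiv ℝ K) x w u = 0 := by
  by_contra h
  have h1 := D.pos x hx _ h
  rw [hK.dd2 D hx, hC x hx, Q_zero hC hx] at h1
  simp at h1

lemma pd2_comp {K : V → V} (hK : ∀ x : V, x ≠ 0 → ContDiffAt ℝ ((⊤ : ℕ∞) : WithTop ℕ∞) K x)
    (m i j : Fin 3) {x : V} (hx : x ≠ 0) :
    pd i (pd j (fun y => K y m)) x = fderiv ℝ (fderiv ℝ K) x (ee i) (ee j) m := by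
  have hs : Sm (fun y => K y m) := fun y hy => (contDiffAt_pi.1 (hK y hy)) m
  have p1 : ∀ y : V, y ≠ 0 → ∀ j, pd j (fun y => K y m) y = (fderiv ℝ K y (ee j)) m := by
    intro y hy j
    have h1 : HasFDerivAt K (fderiv ℝ K y) y := ((hK y hy).differentiableAt top_ne_zero').hasFDerivAt
    have h2 := (hasFDerivAt_pi'.1 h1) m
    rw [pd_eq, h2.fderiv]; rfl
  have e : pd i (pd j (fun y => K y m)) x = pd i (fun y => (fderiv ℝ K y (ee j)) m) x :=
    pd_congr (fun y hy => p1 y hy j) i hx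
  have h1 : HasFDerivAt (fderiv ℝ K) (fderiv ℝ (fderiv ℝ K) x) x :=
    (((hK x hx).fderiv_right top_add_one).differentiableAt top_ne_zero').hasFDerivAt
  have h2 := h1.clm_apply (hasFDerivAt_const (ee j) x)
  have h3 := (hasFDerivAt_pi'.1 h2) m
  rw [e, pd_eq, h3.fderiv]
  simp

/-- **generalized Berwald metrics in dimension three** -/
theorem main3A {U : Set V} {F : V → V → ℝ} {G : V → V → V}
    {Γ : V → Fin 3 → Fin 3 → Fin 3 → ℝ}
    (hF : IsFinsler U F) (hG : IsSpray U F G) (hΓ : Compatible U F Γ) {x : V} (hx : x ∈ U)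
    (hL : ∀ y : V, y ≠ 0 → ∀ j k l, landsberg F G x y j k l = 0)
    {y : V} (hy : y ≠ 0) (i j k l : Fin 3) : berwald G x y i j k l = 0 := by
  have D : Dat (fun y => F x y ^ 2 / 2) := dat_of_finsler hF hx
  by_cases hC : ∀ y : V, y ≠ 0 → C (fun y => F x y ^ 2 / 2) y = 0
  · obtain ⟨Y, hk, h2⟩ := killing_fields hF hG hΓ hx hL
    have hK := kil_of_isKilling hF hx (hk l)
    have e := h2 y hy l i j k
    have e2 : pd j (pd k (Y l i)) y = 0 := by
      have e3 := pd2_comp hK.sm i j k hy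
      rw [hK.dd_zero D hC hy] at e3
      simpa using e3
    rw [e2] at e
    linarith
  · push Not at hC
    obtain ⟨y0, hy0, hC0⟩ := hC
    refine main_few hF hG hΓ hx ?_ hL hy i j k l
    intro K hK
    by_contra hne
    push Not at hne
    apply hC0
    refine two_killing D (kil_of_isKilling hF hx (hK 0)) (kil_of_isKilling hF hx (hK 1)) ?_ hy0
    intro α β h
    by_contra hab
    have hc : (![α, β, 0] : Fin 3 → ℝ) ≠ 0 := by
      intro h0
      apply hab
      exact ⟨by simpa using congrFun h0 0, by simpa using congrFun h0 1⟩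
    obtain ⟨z, hz, m, hm⟩ := hne _ hc
    apply hm
    have := congrFun (h z hz) m
    simpa [Fin.sum_univ_three] using this

end Pool.Agent.U631.TD
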